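import Pool.Agent.H923R2.FZ.Stubs1

/-! Invertibility by a `2 × 2` argument. -/

set_option autoImplicit false

namespace Pool.Agent.H923R2.FZ.T_INV

open Pool.Agent.H923R2.FP Pool.Agent.H923R2.FZ

section ring

variable {R : Type*} [Ring R]

theorem low_unit (x : R) : IsUnit (!![1, 0; x, 1] : Matrix (Fin 2) (Fin 2) R) :=
  ⟨⟨!![1, 0; x, 1], !![1, 0; -x, 1], by rw [Matrix.mul_fin_two, Matrix.one_fin_two]; simp,
    by rw [Matrix.mul_fin_two, Matrix.one_fin_two]; simp⟩, rfl⟩

theorem up_unit (x : R) : IsUnit (!![1, x; 0, 1] : Matrix (Fin 2) (Fin 2) R) :=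
  ⟨⟨!![1, x; 0, 1], !![1, -x; 0, 1], by rw [Matrix.mul_fin_two, Matrix.one_fin_two]; simp,
    by rw [Matrix.mul_fin_two, Matrix.one_fin_two]; simp⟩, rfl⟩

theorem diag_unit (x y : R) (hx : IsUnit x) (hy : IsUnit y) :
    IsUnit (!![x, 0; 0, y] : Matrix (Fin 2) (Fin 2) R) := by
  obtain ⟨u, rfl⟩ := hx
  obtain ⟨v, rfl⟩ := hy
  exact ⟨⟨!![(u : R), 0; 0, (v : R)], !![((u⁻¹ : Rˣ) : R), 0; 0, ((v⁻¹ : Rˣ) : R)],
    by rw [Matrix.mul_fin_two, Matrix.one_fin_two]; simp,
    by rw [Matrix.mul_fin_two, Matrix.one_fin_two]; simp⟩, rfl⟩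

theorem corner_unit (x : R) (h : IsUnit (!![x, 0; 0, 1] : Matrix (Fin 2) (Fin 2) R)) :
    IsUnit x := by
  obtain ⟨⟨m, n, h1, h2⟩, h3⟩ := h
  simp only at h3
  subst h3
  refine ⟨⟨x, n 0 0, ?_, ?_⟩, rfl⟩
  · have := congrFun (congrFun h1 0) 0
    simpa [Matrix.mul_apply, Fin.sum_univ_two] using this
  · have := congrFun (congrFun h2 0) 0
    simpa [Matrix.mul_apply, Fin.sum_univ_two] using this

theorem swap_unit (u v : R) (h : IsUnit (1 - v * u)) : IsUnit (1 - u * v) := by
  obtain ⟨n, h1, h2⟩ : ∃ n, (1 - v * u) * n = 1 ∧ n * (1 - v * u) = 1 := by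
    obtain ⟨m, hm⟩ := h
    exact ⟨(m⁻¹ : Rˣ), by rw [← hm]; exact m.mul_inv, by rw [← hm]; exact m.inv_mul⟩
  refine ⟨⟨1 - u * v, 1 + u * n * v, ?_, ?_⟩, rfl⟩
  · calc (1 - u * v) * (1 + u * n * v) = 1 - u * v + u * ((1 - v * u) * n) * v := by
          noncomm_ring
      _ = 1 := by rw [h1]; noncomm_ring
  · calc (1 + u * n * v) * (1 - u * v) = 1 - u * v + u * (n * (1 - v * u)) * v := by
          noncomm_ring
      _ = 1 := by rw [h2]; noncomm_ring

theorem core (z zi b bs r r0 e e0 P Pi a a' : R) (hz1 : z * zi = 1) (hz2 : zi * z = 1)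
    (he : r * r = e) (he0 : r0 * r0 = e0) (hc : r * r0 = r0 * r) (hb : bs * b * r0 = r0)
    (hP : P = 1 - e + r * bs * z * r) (hP1 : P * Pi = 1) (hP2 : Pi * P = 1)
    (ha : a = 1 - e + e * e0) (ha1 : a * a' = 1) (ha2 : a' * a = 1) (hr : a' * r = r * a')
    (hr0 : a' * r0 = r0 * a') (hw : IsUnit (1 + r0 * zi * b * r0 * (1 - e) * a')) :
    IsUnit (z - z * r * Pi * r * bs * z + b * e0) := by
  have key : IsUnit (!![(1 - e) * Pi, r * r0; -(r0 * r * Pi), 1 + r0 * zi * b * r0] :
      Matrix (Fin 2) (Fin 2) R) := by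
    have hw' : 1 + r0 * zi * b * r0 * (1 - e) * a' =
        1 + r0 * zi * b * r0 - r0 * zi * b * r0 * r * r0 * a' * r * r0 := by
      have h1 : r * r0 * a' * r * r0 = 1 - (1 - e) * a' := by
        calc r * r0 * a' * r * r0 = r * r0 * (a' * r) * r0 := by noncomm_ring
          _ = r * (r0 * r) * (a' * r0) := by rw [hr]; noncomm_ring
          _ = (r * r) * (r0 * r0) * a' := by rw [← hc, hr0]; noncomm_ring
          _ = (a - (1 - e)) * a' := by rw [he, he0, ha]; noncomm_ring
          _ = 1 - (1 - e) * a' := by rw [sub_mul, ha1]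
      calc 1 + r0 * zi * b * r0 * (1 - e) * a'
          = 1 + r0 * zi * b * r0 - r0 * zi * b * r0 * (1 - (1 - e) * a') := by noncomm_ring
        _ = _ := by rw [← h1]; noncomm_ring
    have e1 : (!![(1 - e) * Pi, r * r0; -(r0 * r * Pi), 1 + r0 * zi * b * r0] :
        Matrix (Fin 2) (Fin 2) R) =
        !![1, 0; r0 * zi * b * r0 * r * r0 * a', 1] *
        !![a, 0; 0, 1 + r0 * zi * b * r0 * (1 - e) * a'] * !![1, a' * r * r0; 0, 1] *
        !![1, 0; -(r * r0), 1] * !![Pi, 0; 0, 1] := by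
      have h2 : a * (a' * r * r0) = r * r0 := by
        rw [← mul_assoc, ← mul_assoc, ha1, one_mul]
      have h3 : r0 * zi * b * r0 * r * r0 * a' * a = r0 * zi * b * r0 * r * r0 := by
        rw [mul_assoc _ a' a, ha2, mul_one]
      have h4 : r * r0 * (r * r0) = e * e0 := by
        calc r * r0 * (r * r0) = r * (r0 * r) * r0 := by noncomm_ring
          _ = (r * r) * (r0 * r0) := by rw [← hc]; noncomm_ring
          _ = e * e0 := by rw [he, he0]
      have m1 : (!![1, 0; r0 * zi * b * r0 * r * r0 * a', 1] *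
          !![a, 0; 0, 1 + r0 * zi * b * r0 * (1 - e) * a'] * !![1, a' * r * r0; 0, 1] :
          Matrix (Fin 2) (Fin 2) R) =
          !![a, r * r0; r0 * zi * b * r0 * r * r0, 1 + r0 * zi * b * r0] := by
        rw [Matrix.mul_fin_two, Matrix.mul_fin_two, hw']
        simp only [mul_zero, zero_mul, add_zero, zero_add, one_mul, mul_one, h2, h3]
        congr 4
        noncomm_ring
      have m2 : (!![a, r * r0; r0 * zi * b * r0 * r * r0, 1 + r0 * zi * b * r0] *
          !![1, 0; -(r * r0), 1] : Matrix (Fin 2) (Fin 2) R) =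
          !![1 - e, r * r0; -(r0 * r), 1 + r0 * zi * b * r0] := by
        rw [Matrix.mul_fin_two]
        have q1 : a * 1 + r * r0 * -(r * r0) = 1 - e := by
          rw [mul_neg, h4, ha]
          noncomm_ring
        have q2 : r0 * zi * b * r0 * r * r0 * 1 + (1 + r0 * zi * b * r0) * -(r * r0) =
            -(r0 * r) := by
          rw [← hc]
          noncomm_ring
        rw [q1, q2]
        simp only [mul_zero, zero_add, mul_one]
      rw [m1, m2, Matrix.mul_fin_two]
      simp only [mul_zero, zero_add, mul_one, add_zero, neg_mul]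
    rw [e1]
    refine ((((low_unit _).mul (diag_unit _ _ ?_ hw)).mul (up_unit _)).mul (low_unit _)).mul
      (diag_unit _ _ ?_ isUnit_one)
    · exact ⟨⟨a, a', ha1, ha2⟩, rfl⟩
    · exact ⟨⟨Pi, P, hP2, hP1⟩, rfl⟩
  have h5 : IsUnit (1 - (r * Pi * (r * bs * z) + -(zi * b * r0) * r0)) := by
    apply corner_unit
    have h6 := swap_unit (!![r * Pi, -(zi * b * r0); 0, 0] : Matrix (Fin 2) (Fin 2) R)
      !![r * bs * z, 0; r0, 0] (by
        have e2 : (1 : Matrix (Fin 2) (Fin 2) R) - !![r * bs * z, 0; r0, 0] *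
            !![r * Pi, -(zi * b * r0); 0, 0] =
            !![(1 - e) * Pi, r * r0; -(r0 * r * Pi), 1 + r0 * zi * b * r0] := by
          rw [Matrix.mul_fin_two, Matrix.one_fin_two]
          have h7 : (1 - e) * Pi = 1 - r * bs * z * (r * Pi) := by
            have h8 : 1 - e = P - r * bs * z * r := by rw [hP]; noncomm_ring
            rw [h8, sub_mul, hP1]
            noncomm_ring
          have h9 : r * bs * z * (zi * b * r0) = r * r0 := by
            calc r * bs * z * (zi * b * r0) = r * bs * (z * zi) * b * r0 := by noncomm_ring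
              _ = r * (bs * b * r0) := by rw [hz1]; noncomm_ring
              _ = r * r0 := by rw [hb]
          rw [h7]
          ext i j
          fin_cases i <;> fin_cases j
          · simp
          · simp [h9]
          · simp [mul_assoc]
          · simp [mul_assoc]
        rw [e2]
        exact key)
    have e3 : (!![1 - (r * Pi * (r * bs * z) + -(zi * b * r0) * r0), 0; 0, 1] :
        Matrix (Fin 2) (Fin 2) R) = 1 - !![r * Pi, -(zi * b * r0); 0, 0] *
        !![r * bs * z, 0; r0, 0] := by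
      rw [Matrix.mul_fin_two, Matrix.one_fin_two]
      ext i j
      fin_cases i <;> fin_cases j <;> simp
    rw [e3]
    exact h6
  have e4 : z - z * r * Pi * r * bs * z + b * e0 =
      z * (1 - (r * Pi * (r * bs * z) + -(zi * b * r0) * r0)) := by
    calc z - z * r * Pi * r * bs * z + b * e0
        = z - z * r * Pi * r * bs * z + (z * zi) * b * (r0 * r0) := by rw [hz1, he0, one_mul]
      _ = _ := by noncomm_ring
  rw [e4]
  have hzu : IsUnit z := ⟨⟨z, zi, hz1, hz2⟩, rfl⟩
  exact hzu.mul h5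

end ring

theorem t_INV : S_INV := by
  intro B _ z b e e0 hz _ _ _ _ r r0 _ _ he he0 hc _ _ _ hb P hP hPu a a' ha ha1 ha2 hr hr0 _ _ hn
  refine core z (Ring.inverse z) b (star b) r r0 e e0 P (Ring.inverse P) a a'
    (Ring.mul_inverse_cancel z hz) (Ring.inverse_mul_cancel z hz) he he0 hc hb hP
    (Ring.mul_inverse_cancel P hPu) (Ring.inverse_mul_cancel P hPu) ha ha1 ha2 hr hr0 ?_
  have h1 := isUnit_one_sub_of_norm_lt_one (x := -(r0 * Ring.inverse z * b * r0 * (1 - e) * a'))
    (by rw [norm_neg]; exact hn)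
  rwa [sub_neg_eq_add] at h1

end Pool.Agent.H923R2.FZ.T_INV
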