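import Mathlib

/-! Quadratic orders `ℤ[ω]`, `ω² = R + m ω`, as rings of integers; class number one gives a PID. -/

namespace H419R2

open QuadraticAlgebra Module

variable {K : Type*} [Field K] [NumberField K]

theorem not_sq_of_squarefree {D : ℤ} (hD : Squarefree D) (h1 : 1 < D) : ¬ ∃ q : ℚ, q ^ 2 = D := by
  rintro ⟨q, hq⟩
  have hint : IsIntegral ℤ q := by
    refine ⟨Polynomial.X ^ 2 - Polynomial.C D, ?_, ?_⟩
    · exact Polynomial.monic_X_pow_sub_C _ (by norm_num)
    · rw [← Polynomial.aeval_def]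
      simp [hq]
  obtain ⟨n, hn⟩ := IsIntegrallyClosed.isIntegral_iff.mp hint
  have hn' : (n : ℚ) = q := by simpa using hn
  have h2 : n * n = D := by
    have : ((n : ℚ)) ^ 2 = D := by rw [hn', hq]
    have h3 : ((n ^ 2 : ℤ) : ℚ) = (D : ℚ) := by push_cast; exact this
    have h4 : n ^ 2 = D := by exact_mod_cast h3
    rw [← h4]; ring
  have hu : IsUnit n := hD n (by rw [h2])
  rcases Int.isUnit_iff.mp hu with h | h <;> rw [h] at h2 <;> norm_num at h2 <;> omega

theorem exists_coords {D : ℤ} (hD : ¬ ∃ q : ℚ, q ^ 2 = D) (hK : finrank ℚ K = 2) {x : K}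
    (hx : x ^ 2 = (D : K)) (y : K) : ∃ p q : ℚ, y = (p : K) + (q : K) * x := by
  have hli : LinearIndependent ℚ ![(1 : K), x] := by
    rw [LinearIndependent.pair_iff]
    intro s t hst
    by_cases ht : t = 0
    · subst ht
      simp at hst
      exact ⟨hst, rfl⟩
    · exfalso
      apply hD
      refine ⟨-s / t, ?_⟩
      have ht' : (t : K) ≠ 0 := by exact_mod_cast ht
      have hxe : x = ((-s / t : ℚ) : K) := by
        push_cast
        rw [eq_div_iff ht']
        have : (s : K) + (t : K) * x = 0 := by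
          simpa [Algebra.smul_def] using hst
        linear_combination this
      have h2 : (((-s / t) ^ 2 : ℚ) : K) = ((D : ℚ) : K) := by
        push_cast
        rw [hxe] at hx
        push_cast at hx
        exact hx
      exact_mod_cast h2
  have hspan : Submodule.span ℚ (Set.range ![(1 : K), x]) = ⊤ := by
    apply hli.span_eq_top_of_card_eq_finrank
    simp [hK]
  have hy : y ∈ Submodule.span ℚ (Set.range ![(1 : K), x]) := by rw [hspan]; trivial
  rw [Matrix.range_cons, Matrix.range_cons, Matrix.range_empty, Set.union_empty,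
    ← Set.insert_eq] at hy
  obtain ⟨p, q, hpq⟩ := Submodule.mem_span_pair.mp hy
  refine ⟨p, q, ?_⟩
  rw [← hpq]
  simp [Algebra.smul_def]

theorem two_int_of_integral {D : ℤ} (hD : ¬ ∃ q : ℚ, q ^ 2 = D) {x : K}
    (hx : x ^ 2 = (D : K)) {p q : ℚ} (hq : q ≠ 0)
    (hy : IsIntegral ℤ ((p : K) + (q : K) * x)) :
    (∃ a : ℤ, (a : ℚ) = 2 * p) ∧ (∃ b : ℤ, (b : ℚ) = p ^ 2 - D * q ^ 2) := by
  set y : K := (p : K) + (q : K) * x with hydef
  obtain ⟨c, hc⟩ : ∃ c : ℚ, c = p ^ 2 - D * q ^ 2 := ⟨_, rfl⟩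
  let P : Polynomial ℚ := Polynomial.X ^ 2 - Polynomial.C (2 * p) * Polynomial.X
    + Polynomial.C c
  have hPdeg : P.natDegree = 2 := by
    simp only [P]
    compute_degree!
  have hPmon : P.Monic := by
    simp only [P]
    monicity!
  have hyQ : IsIntegral ℚ y := hy.tower_top
  have hPy : Polynomial.aeval y P = 0 := by
    simp only [P, map_add, map_sub, map_pow, map_mul, Polynomial.aeval_X, Polynomial.aeval_C]
    simp only [eq_ratCast, hc]
    push_cast
    rw [hydef]
    linear_combination (q : K) ^ 2 * hx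
  have hdvd : minpoly ℚ y ∣ P := minpoly.dvd ℚ y hPy
  have hnot : y ∉ (algebraMap ℚ K).range := by
    rintro ⟨c, hc⟩
    apply hD
    refine ⟨(c - p) / q, ?_⟩
    have hq' : (q : K) ≠ 0 := by exact_mod_cast hq
    have hxe : x = (((c - p) / q : ℚ) : K) := by
      push_cast
      rw [eq_div_iff hq']
      have : (c : K) = (p : K) + (q : K) * x := by simpa [hydef] using hc
      linear_combination -this
    have h2 : ((((c - p) / q) ^ 2 : ℚ) : K) = ((D : ℚ) : K) := by
      push_cast
      rw [hxe] at hx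
      push_cast at hx
      exact hx
    exact_mod_cast h2
  have h2le : 2 ≤ (minpoly ℚ y).natDegree := by
    rw [minpoly.two_le_natDegree_iff hyQ]
    exact hnot
  have heq : P = minpoly ℚ y := by
    apply Polynomial.eq_of_monic_of_dvd_of_natDegree_le (minpoly.monic hyQ) hPmon hdvd
    rw [hPdeg]; exact h2le
  have hmap := minpoly.isIntegrallyClosed_eq_field_fractions' ℚ hy
  rw [← heq] at hmap
  constructor
  · refine ⟨-(minpoly ℤ y).coeff 1, ?_⟩
    have := congrArg (fun Q => Polynomial.coeff Q 1) hmap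
    simp [P, Polynomial.coeff_C] at this
    push_cast
    linarith
  · refine ⟨(minpoly ℤ y).coeff 0, ?_⟩
    have := congrArg (fun Q => Polynomial.coeff Q 0) hmap
    simp [P] at this
    linarith

theorem int_of_squarefree_mul_sq {D : ℤ} (hD : Squarefree D) {z : ℚ} {k : ℤ}
    (h : (D : ℚ) * z ^ 2 = k) : ∃ n : ℤ, (n : ℚ) = z := by
  have hd : (z.den : ℚ) ≠ 0 := by exact_mod_cast z.den_ne_zero
  have hz : z = z.num / z.den := (Rat.num_div_den z).symm
  have h1 : D * z.num ^ 2 = k * (z.den : ℤ) ^ 2 := by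
    have : (D : ℚ) * z.num ^ 2 = k * (z.den : ℚ) ^ 2 := by
      rw [← h]
      nth_rewrite 2 [hz]
      field_simp
    exact_mod_cast this
  have hcop : IsCoprime ((z.den : ℤ) ^ 2) (z.num ^ 2) := by
    apply IsCoprime.pow
    have := z.reduced
    rw [Int.isCoprime_iff_gcd_eq_one, Int.gcd_comm]
    simpa [Int.gcd] using this
  have h2 : (z.den : ℤ) ^ 2 ∣ D := by
    exact hcop.dvd_of_dvd_mul_right (by rw [h1]; exact Dvd.intro_left k rfl)
  have hu : IsUnit (z.den : ℤ) := hD _ (by rw [← sq]; exact h2)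
  have hone : z.den = 1 := by
    have := Int.isUnit_iff.mp hu
    omega
  refine ⟨z.num, ?_⟩
  rw [hz, hone]
  simp

theorem integral_coords {m R : ℤ} (hm : m % 2 = 1) {D : ℤ} (hDm : D = m ^ 2 + 4 * R)
    (hsf : Squarefree D) (hD1 : 1 < D) (hK : finrank ℚ K = 2) {x : K}
    (hx : x ^ 2 = (D : K)) {y : K} (hy : IsIntegral ℤ y) :
    ∃ u w : ℤ, y = (u : K) + (w : K) * (((m : K) + x) / 2) := by
  have hns := not_sq_of_squarefree hsf hD1
  obtain ⟨p, q, rfl⟩ := exists_coords hns hK hx y
  by_cases hq : q = 0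
  · subst hq
    simp only [Rat.cast_zero, zero_mul, add_zero] at hy
    have hp : IsIntegral ℤ p := by
      have : IsIntegral ℤ (algebraMap ℚ K p) := by simpa using hy
      exact (isIntegral_algebraMap_iff (algebraMap ℚ K).injective).mp this
    obtain ⟨n, hn⟩ := IsIntegrallyClosed.isIntegral_iff.mp hp
    have hn' : (n : ℚ) = p := by simpa using hn
    refine ⟨n, 0, ?_⟩
    rw [← hn']
    push_cast
    ring
  · obtain ⟨⟨a, ha⟩, ⟨b, hb⟩⟩ := two_int_of_integral hns hx hq hy
    have h4 : (D : ℚ) * (2 * q) ^ 2 = ((a ^ 2 - 4 * b : ℤ) : ℚ) := by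
      push_cast
      rw [ha, hb]; ring
    obtain ⟨c, hc⟩ := int_of_squarefree_mul_sq hsf h4
    have h5 : D * c ^ 2 = a ^ 2 - 4 * b := by
      rw [← hc] at h4
      exact_mod_cast h4
    have hpar : (a - m * c) % 2 = 0 := by
      have h6 : D % 2 = 1 := by rw [hDm]; obtain ⟨k, hk⟩ : ∃ k, m = 2 * k + 1 := ⟨m / 2, by omega⟩; rw [hk]; ring_nf; omega
      have h7 : (a ^ 2 - D * c ^ 2) % 2 = 0 := by rw [h5]; ring_nf; omega
      rcases Int.emod_two_eq_zero_or_one a with h | h <;>
      rcases Int.emod_two_eq_zero_or_one c with h' | h' <;>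
      simp [Int.sub_emod, Int.mul_emod, pow_two, h, h', h6, hm] at h7 ⊢
    obtain ⟨u, hu⟩ : ∃ u, a - m * c = 2 * u := ⟨(a - m * c) / 2, by omega⟩
    refine ⟨u, c, ?_⟩
    have hp : p = (a : ℚ) / 2 := by rw [ha]; ring
    have hq' : q = (c : ℚ) / 2 := by rw [hc]; ring
    rw [hp, hq']
    have hu' : (a : K) - m * c = 2 * u := by exact_mod_cast hu
    push_cast
    have h2 : (2 : K) ≠ 0 := by norm_num
    field_simp
    linear_combination hu'

/-- The order `ℤ[ω]`, `ω² = R + m ω`. -/
abbrev QA (R m : ℤ) := QuadraticAlgebra ℤ R m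

/-- The embedding of `ℤ[ω]` in `K`. -/
noncomputable def emb {m R D : ℤ} (hDm : D = m ^ 2 + 4 * R) {x : K} (hx : x ^ 2 = (D : K)) :
    QA R m →ₐ[ℤ] K :=
  QuadraticAlgebra.lift ⟨((m : K) + x) / 2, by
    have h2 : (2 : K) ≠ 0 := by norm_num
    have hD' : (D : K) = (m : K) ^ 2 + 4 * R := by rw [hDm]; push_cast; ring
    simp only [zsmul_eq_mul]
    field_simp
    rw [hD'] at hx
    linear_combination hx⟩

theorem emb_apply {m R D : ℤ} (hDm : D = m ^ 2 + 4 * R) {x : K} (hx : x ^ 2 = (D : K))
    (z : QA R m) : emb hDm hx z = (z.re : K) + (z.im : K) * (((m : K) + x) / 2) := by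
  simp [emb, QuadraticAlgebra.lift, Algebra.smul_def]

theorem pid_of_classNumber_one {m R : ℤ} (hm : m % 2 = 1) {D : ℤ} (hDm : D = m ^ 2 + 4 * R)
    (hsf : Squarefree D) (hD1 : 1 < D) (hK : finrank ℚ K = 2) {x : K}
    (hx : x ^ 2 = (D : K)) (hcl : NumberField.classNumber K = 1) :
    IsPrincipalIdealRing (QA R m) := by
  have hns := not_sq_of_squarefree hsf hD1
  have hxr : ∀ p q : ℤ, (p : K) + (q : K) * (((m : K) + x) / 2) = 0 → p = 0 ∧ q = 0 := by
    intro p q h
    have h2 : (2 : K) ≠ 0 := by norm_num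
    by_cases hq : q = 0
    · subst hq
      simp at h
      exact ⟨h, rfl⟩
    · exfalso
      apply hns
      refine ⟨-(2 * p + q * m) / q, ?_⟩
      have hq' : (q : K) ≠ 0 := by exact_mod_cast hq
      have hxe : x = ((-(2 * p + q * m) / q : ℚ) : K) := by
        push_cast
        rw [eq_div_iff hq']
        field_simp at h
        linear_combination h
      have h3 : (((-(2 * p + q * m) / q) ^ 2 : ℚ) : K) = ((D : ℚ) : K) := by
        push_cast
        rw [hxe] at hx
        push_cast at hx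
        exact hx
      exact_mod_cast h3
  letI : Algebra (QA R m) K := (emb hDm hx).toRingHom.toAlgebra
  have hmap : ∀ z : QA R m, algebraMap (QA R m) K z =
      (z.re : K) + (z.im : K) * (((m : K) + x) / 2) := fun z => emb_apply hDm hx z
  haveI : IsIntegralClosure (QA R m) ℤ K := by
    refine ⟨?_, ?_⟩
    · intro z w hzw
      rw [hmap, hmap] at hzw
      have := hxr (z.re - w.re) (z.im - w.im) (by push_cast; linear_combination hzw)
      ext
      · linarith [this.1]
      · linarith [this.2]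
    · intro y
      constructor
      · intro hy
        obtain ⟨u, w, h⟩ := integral_coords hm hDm hsf hD1 hK hx hy
        exact ⟨⟨u, w⟩, by rw [hmap, h]⟩
      · rintro ⟨z, rfl⟩
        have : IsIntegral ℤ z := by
          refine ⟨Polynomial.X ^ 2 - Polynomial.C (QuadraticAlgebra.trace z) * Polynomial.X
            + Polynomial.C (QuadraticAlgebra.norm z), ?_, ?_⟩
          · monicity!
          · rw [← Polynomial.aeval_def]
            simp only [map_add, map_sub, map_pow, map_mul, Polynomial.aeval_X, Polynomial.aeval_C]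
            have := QuadraticAlgebra.sq_sub_trace_smul_add_norm_eq_zero z
            simpa [Algebra.smul_def] using this
        exact this.map (emb hDm hx)
  haveI : IsScalarTower ℤ (QA R m) K := IsScalarTower.of_algebraMap_eq (fun n => by simp)
  have e : NumberField.RingOfIntegers K ≃ₐ[ℤ] QA R m :=
    IsIntegralClosure.equiv ℤ (NumberField.RingOfIntegers K) K (QA R m)
  rw [NumberField.classNumber_eq_one_iff] at hcl
  exact IsPrincipalIdealRing.of_surjective e.toRingEquiv e.surjective

end H419R2
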