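import Pool.Agent.H419R2.A1

/-! Counting ideals of given norm in a quadratic PID. -/

namespace H419R2

open QuadraticAlgebra Module

variable {R m : ℤ}

theorem algebra_norm_eq (z : QA R m) : Algebra.norm ℤ z = QuadraticAlgebra.norm z := by
  rw [Algebra.norm_apply]
  exact QuadraticAlgebra.det_toLinearMap_eq_norm z

section dom
variable [IsDomain (QA R m)] [IsPrincipalIdealRing (QA R m)]

theorem absNorm_span (z : QA R m) :
    Ideal.absNorm (Ideal.span {z}) = (QuadraticAlgebra.norm z).natAbs := by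
  rw [Ideal.absNorm_span_singleton, algebra_norm_eq]

/-- number of ideals of norm `n` -/
noncomputable def cnt (R m : ℤ) [IsDomain (QA R m)] [IsPrincipalIdealRing (QA R m)] (n : ℕ) : ℕ :=
  Set.ncard {I : Ideal (QA R m) | Ideal.absNorm I = n}

theorem finite_norm (n : ℕ) : {I : Ideal (QA R m) | Ideal.absNorm I = n}.Finite :=
  Ideal.finite_setOfPred_absNorm_eq n

theorem cnt_one : cnt R m 1 = 1 := by
  unfold cnt
  have : {I : Ideal (QA R m) | Ideal.absNorm I = 1} = {⊤} := by
    ext I; simp [Ideal.absNorm_eq_one_iff]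
  rw [this]; simp

/-- ideals divisible by `P` of norm `N P * n` correspond to ideals of norm `n`. -/
theorem ncard_dvd (P : Ideal (QA R m)) {d : ℕ} (hP : Ideal.absNorm P = d) (hd : 0 < d) (n : ℕ) :
    Set.ncard {I : Ideal (QA R m) | Ideal.absNorm I = d * n ∧ P ∣ I} = cnt R m n := by
  unfold cnt
  have hP0 : P ≠ 0 := by
    rintro rfl
    simp at hP; omega
  have : {I : Ideal (QA R m) | Ideal.absNorm I = d * n ∧ P ∣ I}
      = (fun J => P * J) '' {I : Ideal (QA R m) | Ideal.absNorm I = n} := by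
    ext I
    simp only [Set.mem_ofPred_eq, Set.mem_image]
    constructor
    · rintro ⟨h1, J, rfl⟩
      refine ⟨J, ?_, rfl⟩
      rw [map_mul, hP] at h1
      exact Nat.eq_of_mul_eq_mul_left hd h1
    · rintro ⟨J, h1, rfl⟩
      refine ⟨?_, J, rfl⟩
      rw [map_mul, hP, h1]
  rw [this]
  exact Set.ncard_image_of_injective _ (mul_right_injective₀ hP0)

theorem ncard_dvd_zero (P : Ideal (QA R m)) {d : ℕ} (hP : Ideal.absNorm P = d) {N : ℕ}
    (h : ¬ d ∣ N) :
    Set.ncard {I : Ideal (QA R m) | Ideal.absNorm I = N ∧ P ∣ I} = 0 := by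
  have : {I : Ideal (QA R m) | Ideal.absNorm I = N ∧ P ∣ I} = ∅ := by
    ext I
    simp only [Set.mem_ofPred_eq, Set.mem_empty_iff_false, iff_false]
    rintro ⟨h1, J, rfl⟩
    apply h
    rw [map_mul, hP] at h1
    exact ⟨_, h1.symm⟩
  rw [this]; simp

omit [IsDomain (QA R m)] [IsPrincipalIdealRing (QA R m)] in
theorem norm_natCast' (l : ℕ) : QuadraticAlgebra.norm ((l : ℕ) : QA R m) = (l : ℤ) ^ 2 := by
  rw [QuadraticAlgebra.norm_natCast]

omit [IsDomain (QA R m)] [IsPrincipalIdealRing (QA R m)] in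
theorem natCast_dvd_iff (l : ℕ) (z : QA R m) : ((l : ℕ) : QA R m) ∣ z ↔ (l : ℤ) ∣ z.re ∧ (l : ℤ) ∣ z.im := by
  constructor
  · rintro ⟨w, rfl⟩
    simp [QuadraticAlgebra.re_mul, QuadraticAlgebra.im_mul]
  · rintro ⟨⟨a, ha⟩, ⟨b, hb⟩⟩
    refine ⟨⟨a, b⟩, ?_⟩
    ext
    · simp [QuadraticAlgebra.re_mul, ha]
    · simp [QuadraticAlgebra.im_mul, hb]

/-- inert primes -/
def Inert (R m : ℤ) (l : ℕ) : Prop :=
  ∀ u w : ℤ, (l : ℤ) ∣ u ^ 2 + m * u * w - R * w ^ 2 → (l : ℤ) ∣ u ∧ (l : ℤ) ∣ w

omit [IsDomain (QA R m)] [IsPrincipalIdealRing (QA R m)] in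
theorem norm_eq (z : QA R m) : QuadraticAlgebra.norm z = z.re ^ 2 + m * z.re * z.im - R * z.im ^ 2 := by
  rw [QuadraticAlgebra.norm_def]; ring

theorem exists_gen (I : Ideal (QA R m)) : ∃ z : QA R m, I = Ideal.span {z} :=
  (IsPrincipalIdealRing.principal I).principal

theorem cnt_inert {l : ℕ} (hl : l.Prime) (hin : Inert R m l) (n : ℕ) :
    cnt R m (l * n) = if l ∣ n then cnt R m (n / l) else 0 := by
  have hset : {I : Ideal (QA R m) | Ideal.absNorm I = l * n} =
      {I : Ideal (QA R m) | Ideal.absNorm I = l * n ∧ Ideal.span {((l : ℕ) : QA R m)} ∣ I} := by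
    ext I
    simp only [Set.mem_ofPred_eq]
    constructor
    · intro h
      refine ⟨h, ?_⟩
      obtain ⟨z, rfl⟩ := exists_gen I
      rw [absNorm_span] at h
      rw [Ideal.dvd_iff_le, Ideal.span_singleton_le_span_singleton, natCast_dvd_iff]
      apply hin
      rw [← norm_eq]
      have : (l : ℤ) ∣ ((QuadraticAlgebra.norm z).natAbs : ℤ) := by rw [h]; push_cast; exact ⟨n, rfl⟩
      exact Int.dvd_natAbs.mp this
    · exact fun h => h.1
  have hN : Ideal.absNorm (Ideal.span {((l : ℕ) : QA R m)}) = l * l := by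
    rw [absNorm_span, norm_natCast', Int.natAbs_pow, Int.natAbs_natCast, sq]
  unfold cnt
  rw [hset]
  split_ifs with h
  · obtain ⟨k, rfl⟩ := h
    rw [Nat.mul_div_cancel_left _ hl.pos, ← mul_assoc]
    exact ncard_dvd _ hN (Nat.mul_pos hl.pos hl.pos) k
  · apply ncard_dvd_zero _ hN
    rintro ⟨k, hk⟩
    apply h
    exact ⟨k, Nat.eq_of_mul_eq_mul_left hl.pos (by rw [hk]; ring)⟩

/-- A non-inert prime is `±` a norm. -/
theorem exists_norm_prime {l : ℕ} (hl : l.Prime) {w0 : ℤ}
    (hw : (l : ℤ) ∣ w0 ^ 2 + m * w0 - R) :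
    ∃ z : QA R m, (QuadraticAlgebra.norm z).natAbs = l := by
  have hl0 : ((l : ℕ) : QA R m) ≠ 0 := by
    intro h
    have : QuadraticAlgebra.norm ((l : ℕ) : QA R m) = 0 := by rw [h]; simp
    rw [norm_natCast'] at this
    have h2 : (l : ℤ) = 0 := by simpa using this
    have := hl.pos
    omega
  have hlu : ¬ IsUnit ((l : ℕ) : QA R m) := by
    rw [QuadraticAlgebra.isUnit_iff_norm_isUnit, norm_natCast', Int.isUnit_iff]
    have := hl.two_le
    rintro (h | h)
    · nlinarith
    · nlinarith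
  have hnp : ¬ Prime ((l : ℕ) : QA R m) := by
    intro hp
    have hdvd : ((l : ℕ) : QA R m) ∣ (⟨w0, 1⟩ : QA R m) * star (⟨w0, 1⟩ : QA R m) := by
      rw [← QuadraticAlgebra.algebraMap_norm_eq_mul_star]
      obtain ⟨k, hk⟩ := hw
      refine ⟨(k : QA R m), ?_⟩
      rw [norm_eq]
      have : w0 ^ 2 + m * w0 * 1 - R * 1 ^ 2 = l * k := by rw [← hk]; ring
      simp only
      rw [this]
      simp
    rcases hp.2.2 _ _ hdvd with h | h
    · rw [natCast_dvd_iff] at h
      have := Int.eq_one_of_dvd_one (by positivity) h.2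
      have := hl.two_le
      omega
    · rw [natCast_dvd_iff] at h
      have h2 := h.2
      simp at h2
      have := Int.eq_one_of_dvd_one (by positivity) h2
      have := hl.two_le
      omega
  have hni : ¬ Irreducible ((l : ℕ) : QA R m) := fun h => hnp h.prime
  rw [irreducible_iff] at hni
  push Not at hni
  obtain ⟨a, b, hab, ha, hb⟩ := hni hlu
  have hN : (QuadraticAlgebra.norm a).natAbs * (QuadraticAlgebra.norm b).natAbs = l ^ 2 := by
    rw [← Int.natAbs_mul, ← map_mul, ← hab, norm_natCast', Int.natAbs_pow, Int.natAbs_natCast]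
  have ha1 : (QuadraticAlgebra.norm a).natAbs ≠ 1 := by
    intro h
    exact ha (QuadraticAlgebra.isUnit_iff_norm_isUnit.mpr (Int.isUnit_iff_natAbs_eq.mpr h))
  have hb1 : (QuadraticAlgebra.norm b).natAbs ≠ 1 := by
    intro h
    exact hb (QuadraticAlgebra.isUnit_iff_norm_isUnit.mpr (Int.isUnit_iff_natAbs_eq.mpr h))
  exact ⟨a, ((Nat.Prime.mul_eq_prime_sq_iff hl ha1 hb1).mp hN).1⟩

theorem prime_of_norm_prime {l : ℕ} (hl : l.Prime) {z : QA R m}
    (hz : (QuadraticAlgebra.norm z).natAbs = l) : Prime z := by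
  apply Irreducible.prime
  rw [irreducible_iff]
  constructor
  · rw [QuadraticAlgebra.isUnit_iff_norm_isUnit, Int.isUnit_iff_natAbs_eq, hz]
    exact hl.one_lt.ne'
  · intro a b hab
    have hN : (QuadraticAlgebra.norm a).natAbs * (QuadraticAlgebra.norm b).natAbs = l := by
      rw [← Int.natAbs_mul, ← map_mul, ← hab, hz]
    rcases Nat.Prime.eq_one_or_self_of_dvd hl _ ⟨_, hN.symm⟩ with h | h
    · left
      exact QuadraticAlgebra.isUnit_iff_norm_isUnit.mpr (Int.isUnit_iff_natAbs_eq.mpr h)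
    · right
      rw [h] at hN
      have : (QuadraticAlgebra.norm b).natAbs = 1 := by
        have h3 : l * (QuadraticAlgebra.norm b).natAbs = l * 1 := by rw [hN]; ring
        exact Nat.eq_of_mul_eq_mul_left hl.pos h3
      exact QuadraticAlgebra.isUnit_iff_norm_isUnit.mpr (Int.isUnit_iff_natAbs_eq.mpr this)

theorem dvd_or_of_norm {l : ℕ} (hl : l.Prime) {p : QA R m}
    (hp : (QuadraticAlgebra.norm p).natAbs = l) {z : QA R m}
    (hz : (l : ℤ) ∣ QuadraticAlgebra.norm z) : p ∣ z ∨ star p ∣ z := by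
  have hpr := prime_of_norm_prime hl hp
  have h1 : p ∣ z * star z := by
    rw [← QuadraticAlgebra.algebraMap_norm_eq_mul_star]
    obtain ⟨k, hk⟩ := hz
    have h2 : p ∣ algebraMap ℤ (QA R m) (QuadraticAlgebra.norm p) := by
      rw [QuadraticAlgebra.algebraMap_norm_eq_mul_star]; exact ⟨_, rfl⟩
    have h3 : (QuadraticAlgebra.norm p) ∣ QuadraticAlgebra.norm z := by
      rw [← Int.natAbs_dvd, hp]; exact ⟨k, hk⟩
    exact h2.trans (map_dvd _ h3)
  rcases hpr.2.2 _ _ h1 with h | h
  · left; exact h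
  · right
    obtain ⟨c, hc⟩ := h
    refine ⟨star c, ?_⟩
    have := congrArg star hc
    simpa [mul_comm] using this

theorem cnt_noninert_set {l : ℕ} (hl : l.Prime) {p : QA R m}
    (hp : (QuadraticAlgebra.norm p).natAbs = l) (n : ℕ) :
    {I : Ideal (QA R m) | Ideal.absNorm I = l * n} =
      {I : Ideal (QA R m) | Ideal.absNorm I = l * n ∧ Ideal.span {p} ∣ I} ∪
      {I : Ideal (QA R m) | Ideal.absNorm I = l * n ∧ Ideal.span {star p} ∣ I} := by
  ext I
  simp only [Set.mem_ofPred_eq, Set.mem_union]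
  constructor
  · intro h
    obtain ⟨z, rfl⟩ := exists_gen I
    have h' := h
    rw [absNorm_span] at h
    have h1 : (l : ℤ) ∣ QuadraticAlgebra.norm z := by
      have : (l : ℤ) ∣ ((QuadraticAlgebra.norm z).natAbs : ℤ) := by rw [h]; push_cast; exact ⟨n, rfl⟩
      exact Int.dvd_natAbs.mp this
    rcases dvd_or_of_norm hl hp h1 with h2 | h2
    · left
      refine ⟨h', ?_⟩
      rw [Ideal.dvd_iff_le, Ideal.span_singleton_le_span_singleton]; exact h2
    · right
      refine ⟨h', ?_⟩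
      rw [Ideal.dvd_iff_le, Ideal.span_singleton_le_span_singleton]; exact h2
  · rintro (h | h) <;> exact h.1

omit [IsDomain (QA R m)] [IsPrincipalIdealRing (QA R m)] in
theorem natAbs_norm_star (z : QA R m) :
    (QuadraticAlgebra.norm (star z)).natAbs = (QuadraticAlgebra.norm z).natAbs := by
  rw [QuadraticAlgebra.norm_star]

theorem cnt_ramified {l : ℕ} (hl : l.Prime) {p : QA R m}
    (hp : (QuadraticAlgebra.norm p).natAbs = l) (has : Ideal.span {p} = Ideal.span {star p})
    (n : ℕ) : cnt R m (l * n) = cnt R m n := by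
  have h1 := cnt_noninert_set hl hp n
  rw [← has, Set.union_self] at h1
  have hN : Ideal.absNorm (Ideal.span {p}) = l := by rw [absNorm_span, hp]
  have h2 := ncard_dvd (Ideal.span {p}) hN hl.pos n
  rw [← h1] at h2
  exact h2

theorem cnt_split {l : ℕ} (hl : l.Prime) {p : QA R m}
    (hp : (QuadraticAlgebra.norm p).natAbs = l) (has : Ideal.span {p} ≠ Ideal.span {star p})
    (n : ℕ) : cnt R m (l * n) + (if l ∣ n then cnt R m (n / l) else 0) = 2 * cnt R m n := by
  have h1 := cnt_noninert_set hl hp n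
  have hN : Ideal.absNorm (Ideal.span {p}) = l := by rw [absNorm_span, hp]
  have hN' : Ideal.absNorm (Ideal.span {star p}) = l := by rw [absNorm_span, natAbs_norm_star, hp]
  have h2 := ncard_dvd (Ideal.span {p}) hN hl.pos n
  have h3 := ncard_dvd (Ideal.span {star p}) hN' hl.pos n
  have hfin : {I : Ideal (QA R m) | Ideal.absNorm I = l * n}.Finite := finite_norm _
  have hf1 : {I : Ideal (QA R m) | Ideal.absNorm I = l * n ∧ Ideal.span {p} ∣ I}.Finite :=
    hfin.subset (fun I hI => hI.1)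
  have hf2 : {I : Ideal (QA R m) | Ideal.absNorm I = l * n ∧ Ideal.span {star p} ∣ I}.Finite :=
    hfin.subset (fun I hI => hI.1)
  have h4 := Set.ncard_union_add_ncard_inter _ _ hf1 hf2
  rw [← h1, h2, h3] at h4
  have hll : Ideal.span {p} * Ideal.span {star p} = Ideal.span {((l : ℕ) : QA R m)} := by
    rw [Ideal.span_singleton_mul_span_singleton, ← QuadraticAlgebra.algebraMap_norm_eq_mul_star]
    rcases Int.natAbs_eq (QuadraticAlgebra.norm p) with h | h
    · rw [h, hp]; simp
    · rw [h, hp, map_neg, Ideal.span_singleton_neg]; simp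
  have h5 : {I : Ideal (QA R m) | Ideal.absNorm I = l * n ∧ Ideal.span {p} ∣ I} ∩
      {I : Ideal (QA R m) | Ideal.absNorm I = l * n ∧ Ideal.span {star p} ∣ I} =
      {I : Ideal (QA R m) | Ideal.absNorm I = l * n ∧ Ideal.span {((l : ℕ) : QA R m)} ∣ I} := by
    ext I
    simp only [Set.mem_ofPred_eq, Set.mem_inter_iff]
    constructor
    · rintro ⟨⟨h6, J, rfl⟩, ⟨_, h8⟩⟩
      refine ⟨h6, ?_⟩
      have hpr' : Prime (star p) := prime_of_norm_prime hl (by rw [natAbs_norm_star, hp])
      have hprI : Prime (Ideal.span {star p}) := by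
        rw [Ideal.prime_iff_isPrime (by simpa using hpr'.ne_zero)]
        exact (Ideal.span_singleton_prime hpr'.ne_zero).mpr hpr'
      rcases hprI.2.2 _ _ h8 with h9 | h9
      · exfalso
        apply has
        obtain ⟨L, hL⟩ := h9
        have h10 : Ideal.absNorm L = 1 := by
          have := congrArg Ideal.absNorm hL
          rw [map_mul, hN, hN'] at this
          exact Nat.eq_of_mul_eq_mul_left hl.pos (by rw [← this]; ring)
        rw [Ideal.absNorm_eq_one_iff] at h10
        rw [hL, h10, Ideal.mul_top]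
      · rw [← hll]
        exact mul_dvd_mul_left _ h9
    · rintro ⟨h6, h7⟩
      rw [← hll] at h7
      exact ⟨⟨h6, (Dvd.intro _ rfl).trans h7⟩, ⟨h6, (Dvd.intro_left _ rfl).trans h7⟩⟩
  have hNl : Ideal.absNorm (Ideal.span {((l : ℕ) : QA R m)}) = l * l := by
    rw [absNorm_span, norm_natCast', Int.natAbs_pow, Int.natAbs_natCast, sq]
  have h6 : (if l ∣ n then cnt R m (n / l) else 0) =
      Set.ncard {I : Ideal (QA R m) | Ideal.absNorm I = l * n ∧
        Ideal.span {((l : ℕ) : QA R m)} ∣ I} := by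
    split_ifs with h
    · obtain ⟨k, rfl⟩ := h
      rw [Nat.mul_div_cancel_left _ hl.pos, ← mul_assoc]
      exact (ncard_dvd _ hNl (Nat.mul_pos hl.pos hl.pos) k).symm
    · symm
      apply ncard_dvd_zero _ hNl
      rintro ⟨k, hk⟩
      apply h
      exact ⟨k, Nat.eq_of_mul_eq_mul_left hl.pos (by rw [hk]; ring)⟩
  rw [h5, ← h6] at h4
  have : cnt R m (l * n) = Set.ncard {I : Ideal (QA R m) | Ideal.absNorm I = l * n} := rfl
  rw [← this] at h4
  omega

end dom

end H419R2
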