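import Pool.Agent.H419R2.A2

/-! The number of ideals of norm `n` is `∑_{b ∣ n} (b / Δ)`. -/

namespace H419R2

open QuadraticAlgebra Module

/-- `∑_{b ∣ n} (b / D)` -/
def rr (D : ℕ) (n : ℕ) : ℤ := ∑ b ∈ n.divisors, jacobiSym b D

theorem rr_one (D : ℕ) : rr D 1 = 1 := by
  simp [rr]

theorem divisors_prime_mul {l n : ℕ} (hl : l.Prime) (hn : n ≠ 0) :
    (l * n).divisors = n.divisors ∪ n.divisors.image (fun b => l * b) := by
  ext b
  simp only [Nat.mem_divisors, Finset.mem_union, Finset.mem_image]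
  constructor
  · rintro ⟨h1, h2⟩
    by_cases h : l ∣ b
    · obtain ⟨c, rfl⟩ := h
      right
      exact ⟨c, ⟨Nat.dvd_of_mul_dvd_mul_left hl.pos h1, hn⟩, rfl⟩
    · left
      refine ⟨?_, hn⟩
      have : Nat.Coprime b l := ((Nat.Prime.coprime_iff_not_dvd hl).mpr h).symm
      exact this.dvd_of_dvd_mul_left h1
  · rintro (⟨h1, _⟩ | ⟨c, ⟨h1, _⟩, rfl⟩)
    · exact ⟨h1.mul_left l, Nat.mul_ne_zero hl.ne_zero hn⟩
    · exact ⟨Nat.mul_dvd_mul_left l h1, Nat.mul_ne_zero hl.ne_zero hn⟩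

theorem rr_rec {D l n : ℕ} (hl : l.Prime) (hn : n ≠ 0) :
    rr D (l * n) = (1 + jacobiSym l D) * rr D n
      - jacobiSym l D * (if l ∣ n then rr D (n / l) else 0) := by
  unfold rr
  rw [divisors_prime_mul hl hn]
  have h1 := Finset.sum_union_inter (s₁ := n.divisors)
    (s₂ := n.divisors.image (fun b => l * b)) (f := fun b : ℕ => jacobiSym b D)
  have himg : ∀ s : Finset ℕ, ∑ b ∈ s.image (fun b => l * b), jacobiSym (b : ℤ) D
      = jacobiSym l D * ∑ b ∈ s, jacobiSym (b : ℤ) D := by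
    intro s
    rw [Finset.sum_image (by
      intro a _ b _ h
      exact Nat.eq_of_mul_eq_mul_left hl.pos h), Finset.mul_sum]
    apply Finset.sum_congr rfl
    intro b _
    push_cast
    rw [jacobiSym.mul_left]
  have hinter : ∑ b ∈ n.divisors ∩ n.divisors.image (fun b => l * b), jacobiSym (b : ℤ) D
      = jacobiSym l D * (if l ∣ n then ∑ b ∈ (n / l).divisors, jacobiSym (b : ℤ) D else 0) := by
    split_ifs with h
    · obtain ⟨k, rfl⟩ := h
      rw [Nat.mul_div_cancel_left _ hl.pos, ← himg]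
      apply Finset.sum_congr _ (fun _ _ => rfl)
      have hk : k ≠ 0 := by rintro rfl; simp at hn
      ext b
      simp only [Nat.mem_divisors, Finset.mem_inter, Finset.mem_image]
      constructor
      · rintro ⟨⟨h1, _⟩, ⟨c, ⟨h2, _⟩, rfl⟩⟩
        exact ⟨c, ⟨Nat.dvd_of_mul_dvd_mul_left hl.pos h1, hk⟩, rfl⟩
      · rintro ⟨c, ⟨h2, _⟩, rfl⟩
        exact ⟨⟨Nat.mul_dvd_mul_left l h2, hn⟩, ⟨c, ⟨h2.mul_left l, hn⟩, rfl⟩⟩
    · rw [mul_zero]
      apply Finset.sum_eq_zero
      intro b hb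
      exfalso
      simp only [Nat.mem_divisors, Finset.mem_inter, Finset.mem_image] at hb
      obtain ⟨⟨h1, _⟩, ⟨c, _, rfl⟩⟩ := hb
      exact h ((Dvd.intro _ rfl).trans h1)
  rw [himg, hinter] at h1
  linarith

section

variable {R m : ℤ} {D : ℕ}

theorem inert_of_not_square {l : ℕ} (hl : l.Prime) (h2 : l ≠ 2) (hD : (D : ℤ) = m ^ 2 + 4 * R)
    (h : ¬ IsSquare (((D : ℤ)) : ZMod l)) : Inert R m l := by
  haveI := Fact.mk hl
  intro u w huw
  have h0 : ((u : ZMod l)) ^ 2 + m * u * w - R * w ^ 2 = 0 := by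
    have := (ZMod.intCast_zmod_eq_zero_iff_dvd _ l).mpr huw
    push_cast at this
    exact this
  have hD' : (((D : ℤ)) : ZMod l) = (m : ZMod l) ^ 2 + 4 * R := by rw [hD]; push_cast; ring
  have h20 : (2 : ZMod l) ≠ 0 := by
    intro h3
    have : ((2 : ℕ) : ZMod l) = 0 := by exact_mod_cast h3
    rw [ZMod.natCast_eq_zero_iff] at this
    exact h2 ((Nat.prime_dvd_prime_iff_eq hl Nat.prime_two).mp this)
  have hw : (w : ZMod l) = 0 := by
    by_contra hw
    apply h
    refine ⟨(2 * u + m * w) / w, ?_⟩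
    rw [hD']
    field_simp
    linear_combination -4 * h0
  have hu : (u : ZMod l) = 0 := by
    rw [hw] at h0
    have : (u : ZMod l) ^ 2 = 0 := by linear_combination h0
    exact pow_eq_zero_iff (two_ne_zero) |>.mp this
  exact ⟨(ZMod.intCast_zmod_eq_zero_iff_dvd _ l).mp hu, (ZMod.intCast_zmod_eq_zero_iff_dvd _ l).mp hw⟩

theorem root_of_square {l : ℕ} (hl : l.Prime) (h2 : l ≠ 2) (hD : (D : ℤ) = m ^ 2 + 4 * R)
    (h : IsSquare (((D : ℤ)) : ZMod l)) : ∃ w0 : ℤ, (l : ℤ) ∣ w0 ^ 2 + m * w0 - R := by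
  haveI := Fact.mk hl
  have h20 : (2 : ZMod l) ≠ 0 := by
    intro h3
    have : ((2 : ℕ) : ZMod l) = 0 := by exact_mod_cast h3
    rw [ZMod.natCast_eq_zero_iff] at this
    exact h2 ((Nat.prime_dvd_prime_iff_eq hl Nat.prime_two).mp this)
  have hD' : (((D : ℤ)) : ZMod l) = (m : ZMod l) ^ 2 + 4 * R := by rw [hD]; push_cast; ring
  obtain ⟨y, hy⟩ := h
  obtain ⟨w0, hw0⟩ : ∃ w0 : ℤ, (w0 : ZMod l) = (y - m) / 2 :=
    ⟨(((y - m) / 2 : ZMod l).val : ℤ), by simp⟩
  refine ⟨w0, ?_⟩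
  rw [← ZMod.intCast_zmod_eq_zero_iff_dvd]
  push_cast
  rw [hw0]
  rw [hD'] at hy
  field_simp
  linear_combination -hy

theorem inert_two (hm : m % 2 = 1) (hR : R % 2 = 1) : Inert R m 2 := by
  intro u w h
  have h1 : (u ^ 2 + m * u * w - R * w ^ 2) % 2 = 0 := by omega
  rcases Int.emod_two_eq_zero_or_one u with hu | hu <;>
  rcases Int.emod_two_eq_zero_or_one w with hw | hw <;>
  simp [Int.sub_emod, Int.add_emod, Int.mul_emod, pow_two, hu, hw, hm, hR] at h1 ⊢ <;> omega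

variable [IsDomain (QA R m)] [IsPrincipalIdealRing (QA R m)]

theorem dvd_trace {l : ℕ} {p : QA R m} (hp : (QuadraticAlgebra.norm p).natAbs = l) {t : ℤ}
    (ht : t = QuadraticAlgebra.trace p) (hl : (l : ℤ) ∣ t) : p ∣ star p := by
  have h1 : p ∣ algebraMap ℤ (QA R m) t := by
    have h2 : p ∣ algebraMap ℤ (QA R m) (QuadraticAlgebra.norm p) := by
      rw [QuadraticAlgebra.algebraMap_norm_eq_mul_star]; exact ⟨_, rfl⟩
    have h3 : QuadraticAlgebra.norm p ∣ t := by rw [← Int.natAbs_dvd, hp]; exact hl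
    exact h2.trans (map_dvd _ h3)
  rw [ht, QuadraticAlgebra.algebraMap_trace_eq_add_star] at h1
  exact (dvd_add_right (dvd_refl p)).mp h1

theorem span_eq_of_dvd {l : ℕ} {p : QA R m} (hp : (QuadraticAlgebra.norm p).natAbs = l)
    (hD : (D : ℤ) = m ^ 2 + 4 * R) (hl : l.Prime) (hlD : (l : ℤ) ∣ (D : ℤ)) :
    Ideal.span {p} = Ideal.span {star p} := by
  have htr : QuadraticAlgebra.trace p ^ 2 = p.im ^ 2 * D + 4 * QuadraticAlgebra.norm p := by
    rw [norm_eq, QuadraticAlgebra.trace_def, hD]; ring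
  have hlp : Prime (l : ℤ) := Nat.prime_iff_prime_int.mp hl
  have h1 : (l : ℤ) ∣ QuadraticAlgebra.trace p := by
    apply hlp.dvd_of_dvd_pow (n := 2)
    rw [htr]
    apply dvd_add (hlD.mul_left _)
    apply Dvd.dvd.mul_left
    rw [← hp]
    exact Int.natAbs_dvd.mpr (dvd_refl _)
  have h2 := dvd_trace hp rfl h1
  have h3 : star p ∣ p := by
    obtain ⟨c, hc⟩ := h2
    refine ⟨star c, ?_⟩
    have := congrArg star hc
    rw [star_star, star_mul, mul_comm] at this
    exact this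
  apply le_antisymm
  · rw [Ideal.span_singleton_le_span_singleton]; exact h3
  · rw [Ideal.span_singleton_le_span_singleton]; exact h2

theorem span_ne_of_not_dvd {l : ℕ} {p : QA R m} (hp : (QuadraticAlgebra.norm p).natAbs = l)
    (hD : (D : ℤ) = m ^ 2 + 4 * R) (hl : l.Prime) (h2 : l ≠ 2) (hlD : ¬ (l : ℤ) ∣ (D : ℤ)) :
    Ideal.span {p} ≠ Ideal.span {star p} := by
  intro h
  have htr : QuadraticAlgebra.trace p ^ 2 = p.im ^ 2 * D + 4 * QuadraticAlgebra.norm p := by
    rw [norm_eq, QuadraticAlgebra.trace_def, hD]; ring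
  have hlp : Prime (l : ℤ) := Nat.prime_iff_prime_int.mp hl
  have hlN : (l : ℤ) ∣ QuadraticAlgebra.norm p := by
    rw [← hp]; exact Int.natAbs_dvd.mpr (dvd_refl _)
  have h3 : p ∣ star p := by
    rw [← Ideal.span_singleton_le_span_singleton, h]
  have h4 : p ∣ algebraMap ℤ (QA R m) (QuadraticAlgebra.trace p) := by
    rw [QuadraticAlgebra.algebraMap_trace_eq_add_star]
    exact dvd_add (dvd_refl p) h3
  have h5 : QuadraticAlgebra.norm p ∣ QuadraticAlgebra.trace p ^ 2 := by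
    have := map_dvd QuadraticAlgebra.norm h4
    rwa [QuadraticAlgebra.norm_algebraMap] at this
  have h6 : (l : ℤ) ∣ QuadraticAlgebra.trace p := hlp.dvd_of_dvd_pow (hlN.trans h5)
  have h7 : (l : ℤ) ∣ p.im := by
    have h8 : (l : ℤ) ∣ p.im ^ 2 * D := by
      have : p.im ^ 2 * D = QuadraticAlgebra.trace p ^ 2 - 4 * QuadraticAlgebra.norm p := by
        rw [htr]; ring
      rw [this]
      exact dvd_sub (h6.trans (dvd_pow_self _ two_ne_zero)) (hlN.mul_left _)
    rcases hlp.dvd_or_dvd h8 with h9 | h9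
    · exact hlp.dvd_of_dvd_pow h9
    · exact absurd h9 hlD
  have h8 : (l : ℤ) ∣ p.re := by
    have h9 : (l : ℤ) ∣ 2 * p.re := by
      have : 2 * p.re = QuadraticAlgebra.trace p - m * p.im := by
        rw [QuadraticAlgebra.trace_def]; ring
      rw [this]
      exact dvd_sub h6 (h7.mul_left _)
    rcases hlp.dvd_or_dvd h9 with h10 | h10
    · exfalso
      have : l ∣ 2 := by exact_mod_cast h10
      exact h2 ((Nat.prime_dvd_prime_iff_eq hl Nat.prime_two).mp this)
    · exact h10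
  have h9 : (l : ℤ) ^ 2 ∣ QuadraticAlgebra.norm p := by
    rw [norm_eq]
    obtain ⟨a, ha⟩ := h7
    obtain ⟨b, hb⟩ := h8
    rw [ha, hb]
    exact ⟨b ^ 2 + m * b * a - R * a ^ 2, by ring⟩
  have h10 : l ^ 2 ∣ l := by
    have : ((l : ℤ) ^ 2).natAbs ∣ (QuadraticAlgebra.norm p).natAbs := Int.natAbs_dvd_natAbs.mpr h9
    rwa [hp, Int.natAbs_pow, Int.natAbs_natCast] at this
  have := Nat.le_of_dvd hl.pos h10
  nlinarith [hl.two_le]

theorem cnt_rec (hD : (D : ℤ) = m ^ 2 + 4 * R) (hm : m % 2 = 1) (hR : R % 2 = 1)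
    {l : ℕ} (hl : l.Prime) (n : ℕ) :
    (cnt R m (l * n) : ℤ) = (1 + jacobiSym l D) * cnt R m n
      - jacobiSym l D * (if l ∣ n then (cnt R m (n / l) : ℤ) else 0) := by
  have hm8 : m ^ 2 % 8 = 1 := by
    obtain ⟨k, hk⟩ : ∃ k, m = 2 * k + 1 := ⟨m / 2, by omega⟩
    rw [hk]
    have : (2 * k + 1) ^ 2 = 4 * (k * (k + 1)) + 1 := by ring
    rw [this]
    have h2 : k * (k + 1) % 2 = 0 := by
      rcases Int.emod_two_eq_zero_or_one k with h | h <;> simp [Int.mul_emod, Int.add_emod, h]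
    omega
  have hD8 : D % 8 = 5 := by omega
  by_cases h2 : l = 2
  · subst h2
    have hj : jacobiSym ((2 : ℕ) : ℤ) D = -1 := by
      have hodd : Odd D := Nat.odd_iff.mpr (by omega)
      have := jacobiSym.at_two hodd
      push_cast
      rw [this, ZMod.χ₈_nat_eq_if_mod_eight]
      simp [hD8]
      omega
    rw [hj, cnt_inert hl (inert_two hm hR)]
    split_ifs <;> simp
  · have hodd : Odd l := hl.odd_of_ne_two h2
    haveI := Fact.mk hl
    have hj : jacobiSym (l : ℤ) D = legendreSym l (D : ℤ) := by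
      rw [jacobiSym.legendreSym.to_jacobiSym]
      exact (jacobiSym.quadratic_reciprocity_one_mod_four (by omega) hodd).symm
    rw [hj]
    by_cases hz : ((D : ℤ) : ZMod l) = 0
    · rw [(legendreSym.eq_zero_iff l (D : ℤ)).mpr hz]
      obtain ⟨w0, hw0⟩ := root_of_square (R := R) (m := m) hl h2 hD (by rw [hz]; exact ⟨0, by simp⟩)
      obtain ⟨p, hp⟩ := exists_norm_prime hl hw0
      have hlD : (l : ℤ) ∣ (D : ℤ) := (ZMod.intCast_zmod_eq_zero_iff_dvd _ l).mp hz
      rw [cnt_ramified hl hp (span_eq_of_dvd hp hD hl hlD)]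
      simp
    · by_cases hs : IsSquare ((D : ℤ) : ZMod l)
      · rw [(legendreSym.eq_one_iff l hz).mpr hs]
        obtain ⟨w0, hw0⟩ := root_of_square (R := R) (m := m) hl h2 hD hs
        obtain ⟨p, hp⟩ := exists_norm_prime hl hw0
        have hlD : ¬ (l : ℤ) ∣ (D : ℤ) := by
          intro h
          exact hz ((ZMod.intCast_zmod_eq_zero_iff_dvd _ l).mpr h)
        have h3 := cnt_split hl hp (span_ne_of_not_dvd hp hD hl h2 hlD) n
        split_ifs at h3 ⊢ <;> push_cast [← h3] <;> linarith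
      · rw [(legendreSym.eq_neg_one_iff l).mpr hs]
        rw [cnt_inert hl (inert_of_not_square hl h2 hD hs)]
        split_ifs <;> simp

theorem cnt_eq_rr (hD : (D : ℤ) = m ^ 2 + 4 * R) (hm : m % 2 = 1) (hR : R % 2 = 1)
    (n : ℕ) (hn : n ≠ 0) : (cnt R m n : ℤ) = rr D n := by
  induction n using Nat.strong_induction_on with
  | _ n ih =>
    by_cases h1 : n = 1
    · subst h1
      rw [cnt_one, rr_one]; simp
    · obtain ⟨l, hl, k, hk⟩ := Nat.exists_prime_and_dvd h1
      have hk0 : k ≠ 0 := by rintro rfl; simp at hk; exact hn hk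
      have hkn : k < n := by
        rw [hk]
        have := hl.two_le
        have : 0 < k := Nat.pos_of_ne_zero hk0
        nlinarith
      rw [hk, cnt_rec hD hm hR hl, rr_rec hl hk0, ih k hkn hk0]
      congr 2
      split_ifs with h
      · obtain ⟨j, hj⟩ := h
        have hj0 : j ≠ 0 := by rintro rfl; simp at hj; exact hk0 hj
        have : k / l = j := by rw [hj]; exact Nat.mul_div_cancel_left _ hl.pos
        rw [this]
        apply ih j _ hj0
        have : j ≤ k := by rw [hj]; exact Nat.le_mul_of_pos_left _ hl.pos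
        omega
      · rfl

end

end H419R2
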