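import Pool.Agent.H419R2.A3

/-! Fundamental domains for the action of the units. -/

namespace H419R2

open QuadraticAlgebra Module

theorem exists_cross (g : ℤ → ℤ) (hg : StrictMono g) : ∃ j, g (j - 1) < 0 ∧ 0 ≤ g j := by
  have h1 : ∀ n : ℕ, g 0 + n ≤ g n := by
    intro n
    induction n with
    | zero => simp
    | succ n ih =>
      have := hg (show ((n : ℤ)) < ((n + 1 : ℕ) : ℤ) by push_cast; omega)
      push_cast at this ⊢
      omega
  have h2 : ∀ n : ℕ, g (-n) ≤ g 0 - n := by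
    intro n
    induction n with
    | zero => simp
    | succ n ih =>
      have := hg (show (-((n + 1 : ℕ) : ℤ)) < (-(n : ℤ)) by push_cast; omega)
      push_cast at this ⊢
      omega
  obtain ⟨N, hN1, hN2⟩ : ∃ N : ℕ, g 0 < N ∧ -(N : ℤ) < g 0 :=
    ⟨(g 0).natAbs + 1, by omega, by omega⟩
  have hP : ∃ n : ℕ, 0 ≤ g (-(N : ℤ) + n) := by
    refine ⟨2 * N, ?_⟩
    have := h1 N
    have h3 : (-(N : ℤ) + ((2 * N : ℕ) : ℤ)) = N := by push_cast; ring
    rw [h3]
    omega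
  classical
  let n := Nat.find hP
  have hn : 0 ≤ g (-(N : ℤ) + n) := Nat.find_spec hP
  have hn0 : n ≠ 0 := by
    intro h
    rw [h] at hn
    have := h2 N
    simp only [Nat.cast_zero, add_zero] at hn
    omega
  have hn1 : ¬ 0 ≤ g (-(N : ℤ) + ((n - 1 : ℕ) : ℤ)) :=
    Nat.find_min hP (by omega)
  refine ⟨-(N : ℤ) + n, ?_, hn⟩
  have : (-(N : ℤ) + (n : ℤ) - 1) = -(N : ℤ) + ((n - 1 : ℕ) : ℤ) := by
    rw [Nat.cast_sub (by omega)]; push_cast; ring
  rw [this]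
  omega

theorem cross_unique (g : ℤ → ℤ) (hg : StrictMono g) {i j : ℤ} (hi : g (i - 1) < 0 ∧ 0 ≤ g i)
    (hj : g (j - 1) < 0 ∧ 0 ≤ g j) : i = j := by
  by_contra h
  rcases lt_or_gt_of_ne h with h | h
  · have : g i ≤ g (j - 1) := hg.monotone (by omega)
    omega
  · have : g j ≤ g (i - 1) := hg.monotone (by omega)
    omega

variable {R m : ℤ}

/-- totally positive -/
def T1 (z : QA R m) : Prop := 0 < QuadraticAlgebra.norm z ∧ 0 < QuadraticAlgebra.trace z
/-- sign `(+,-)` -/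
def T2 (z : QA R m) : Prop := QuadraticAlgebra.norm z < 0 ∧ 0 < z.im

theorem trace_sq (z : QA R m) : QuadraticAlgebra.trace z ^ 2 =
    z.im ^ 2 * (m ^ 2 + 4 * R) + 4 * QuadraticAlgebra.norm z := by
  rw [norm_eq, QuadraticAlgebra.trace_def]; ring

theorem pos_aux1 {D a b c d : ℤ} (hD : 0 < D) (ha : 0 < a) (hc : 0 < c)
    (h1 : D * b ^ 2 < a ^ 2) (h2 : D * d ^ 2 < c ^ 2) : 0 < a * c + D * (b * d) := by
  have h3 : (D * (b * d)) ^ 2 < (a * c) ^ 2 := by
    have h4 : (D * (b * d)) ^ 2 = (D * b ^ 2) * (D * d ^ 2) := by ring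
    have h5 : (a * c) ^ 2 = a ^ 2 * c ^ 2 := by ring
    rw [h4, h5]
    have h6 : 0 ≤ D * b ^ 2 := by positivity
    have h7 : 0 ≤ D * d ^ 2 := by positivity
    have h8 : 0 < a ^ 2 := by positivity
    nlinarith
  have h4 := abs_lt_of_sq_lt_sq h3 (by positivity)
  rw [abs_lt] at h4
  linarith [h4.1]

theorem pos_aux2 {D a d w c : ℤ} (hD : 0 < D) (hw : 0 < w) (hc : 0 < c)
    (h1 : a ^ 2 < D * w ^ 2) (h2 : D * d ^ 2 < c ^ 2) : 0 < a * d + w * c := by
  have h3 : (a * d) ^ 2 < (w * c) ^ 2 := by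
    have h4 : D * (a * d) ^ 2 < D * (w * c) ^ 2 := by
      have h5 : D * (a * d) ^ 2 = a ^ 2 * (D * d ^ 2) := by ring
      have h6 : D * (w * c) ^ 2 = (D * w ^ 2) * c ^ 2 := by ring
      rw [h5, h6]
      have h7 : 0 ≤ a ^ 2 := by positivity
      have h8 : 0 < c ^ 2 := by positivity
      nlinarith
    exact lt_of_mul_lt_mul_left h4 hD.le
  have h4 := abs_lt_of_sq_lt_sq h3 (by positivity)
  rw [abs_lt] at h4
  linarith [h4.1]

theorem two_trace_mul (z e : QA R m) : 2 * QuadraticAlgebra.trace (z * e) =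
    QuadraticAlgebra.trace z * QuadraticAlgebra.trace e + (m ^ 2 + 4 * R) * (z.im * e.im) := by
  simp only [QuadraticAlgebra.trace_def, QuadraticAlgebra.re_mul, QuadraticAlgebra.im_mul]
  ring

theorem two_im_mul (z e : QA R m) : 2 * (z * e).im =
    QuadraticAlgebra.trace z * e.im + z.im * QuadraticAlgebra.trace e := by
  simp only [QuadraticAlgebra.trace_def, QuadraticAlgebra.im_mul]
  ring

theorem T1_mul (hD : 0 < m ^ 2 + 4 * R) {z e : QA R m} (hz : T1 z) (he : T1 e) : T1 (z * e) := by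
  refine ⟨by rw [map_mul]; exact mul_pos hz.1 he.1, ?_⟩
  have h1 := trace_sq z
  have h2 := trace_sq e
  have h3 := pos_aux1 hD hz.2 he.2 (b := z.im) (d := e.im) (by linarith [hz.1]) (by linarith [he.1])
  rw [← two_trace_mul] at h3
  linarith

theorem T2_mul (hD : 0 < m ^ 2 + 4 * R) {z e : QA R m} (hz : T2 z) (he : T1 e) : T2 (z * e) := by
  refine ⟨by rw [map_mul]; exact mul_neg_of_neg_of_pos hz.1 he.1, ?_⟩
  have h1 := trace_sq z
  have h2 := trace_sq e
  have h3 := pos_aux2 hD hz.2 he.2 (a := QuadraticAlgebra.trace z) (d := e.im)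
    (by linarith [hz.1]) (by linarith [he.1])
  rw [← two_im_mul] at h3
  linarith

theorem T1_one : T1 (1 : QA R m) := ⟨by simp, by simp⟩

theorem T1_inv (e : (QA R m)ˣ) (he : QuadraticAlgebra.norm (e : QA R m) = 1)
    (het : T1 (e : QA R m)) : ((e⁻¹ : (QA R m)ˣ) : QA R m) = star (e : QA R m) ∧
    T1 ((e⁻¹ : (QA R m)ˣ) : QA R m) := by
  have h1 : ((e⁻¹ : (QA R m)ˣ) : QA R m) = star (e : QA R m) := by
    have h2 : (e : QA R m) * star (e : QA R m) = 1 := by
      rw [← QuadraticAlgebra.algebraMap_norm_eq_mul_star, he]; simp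
    have h3 : (e : QA R m) * ((e⁻¹ : (QA R m)ˣ) : QA R m) = 1 := by simp
    exact e.isUnit.mul_left_cancel (by rw [h2, h3])
  refine ⟨h1, ?_⟩
  rw [h1]
  exact ⟨by rw [QuadraticAlgebra.norm_star]; exact het.1,
    by rw [QuadraticAlgebra.trace_star]; exact het.2⟩

theorem T1_zpow (hD : 0 < m ^ 2 + 4 * R) (e : (QA R m)ˣ)
    (he : QuadraticAlgebra.norm (e : QA R m) = 1)
    (het : T1 (e : QA R m)) (j : ℤ) : T1 ((e ^ j : (QA R m)ˣ) : QA R m) := by
  induction j using Int.induction_on with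
  | zero => simpa using T1_one
  | succ n ih =>
    rw [zpow_add, zpow_one, Units.val_mul]
    exact T1_mul hD ih het
  | pred n ih =>
    rw [zpow_sub, zpow_one, Units.val_mul]
    exact T1_mul hD ih (T1_inv e he het).2

/-- data of a fundamental domain -/
structure FD (R m : ℤ) where
  /-- unit -/
  e : (QA R m)ˣ
  he : QuadraticAlgebra.norm (e : QA R m) = 1
  het : 0 < QuadraticAlgebra.trace (e : QA R m)
  hD : 0 < m ^ 2 + 4 * R
  /-- first functional -/
  h1 : QA R m → ℤ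
  /-- second functional -/
  h2 : QA R m → ℤ
  mono1 : ∀ z : QA R m, T1 z → h1 z < h1 (z * e)
  mono2 : ∀ z : QA R m, T2 z → h2 z < h2 (z * e)

/-- the domain -/
def FD.Dom (F : FD R m) (z : QA R m) : Prop :=
  (T1 z ∧ F.h1 (z * ((F.e⁻¹ : (QA R m)ˣ) : QA R m)) < 0 ∧ 0 ≤ F.h1 z) ∨
  (T2 z ∧ F.h2 (z * ((F.e⁻¹ : (QA R m)ˣ) : QA R m)) < 0 ∧ 0 ≤ F.h2 z)

theorem FD.T1e (F : FD R m) : T1 (F.e : QA R m) := ⟨by rw [F.he]; norm_num, F.het⟩

theorem FD.strictMono1 (F : FD R m) {z : QA R m} (hz : T1 z) :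
    StrictMono (fun j : ℤ => F.h1 (z * ((F.e ^ j : (QA R m)ˣ) : QA R m))) := by
  apply strictMono_int_of_lt_succ
  intro j
  have h := F.mono1 (z * ((F.e ^ j : (QA R m)ˣ) : QA R m))
    (T1_mul F.hD hz (T1_zpow F.hD F.e F.he F.T1e j))
  have h2 : z * ((F.e ^ j : (QA R m)ˣ) : QA R m) * (F.e : QA R m)
    = z * ((F.e ^ (j + 1) : (QA R m)ˣ) : QA R m) := by
    rw [zpow_add, zpow_one, Units.val_mul, mul_assoc]
  rw [h2] at h
  exact h

theorem FD.strictMono2 (F : FD R m) {z : QA R m} (hz : T2 z) :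
    StrictMono (fun j : ℤ => F.h2 (z * ((F.e ^ j : (QA R m)ˣ) : QA R m))) := by
  apply strictMono_int_of_lt_succ
  intro j
  have h := F.mono2 (z * ((F.e ^ j : (QA R m)ˣ) : QA R m))
    (T2_mul F.hD hz (T1_zpow F.hD F.e F.he F.T1e j))
  have h2 : z * ((F.e ^ j : (QA R m)ˣ) : QA R m) * (F.e : QA R m)
    = z * ((F.e ^ (j + 1) : (QA R m)ˣ) : QA R m) := by
    rw [zpow_add, zpow_one, Units.val_mul, mul_assoc]
  rw [h2] at h
  exact h

theorem type_cases (hD : 0 < m ^ 2 + 4 * R) {z : QA R m} (hN : QuadraticAlgebra.norm z ≠ 0) :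
    (T1 z ∨ T2 z) ∨ (T1 (-z) ∨ T2 (-z)) := by
  have htr : QuadraticAlgebra.trace (-z) = - QuadraticAlgebra.trace z := by simp
  rcases lt_or_gt_of_ne hN with h | h
  · -- norm negative
    have him : z.im ≠ 0 := by
      intro h0
      have := trace_sq z
      rw [h0] at this
      nlinarith [sq_nonneg (QuadraticAlgebra.trace z)]
    rcases lt_or_gt_of_ne him with h2 | h2
    · right; right
      exact ⟨by rw [QuadraticAlgebra.norm_neg]; exact h, by simpa using h2⟩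
    · left; right
      exact ⟨h, h2⟩
  · have htr0 : QuadraticAlgebra.trace z ≠ 0 := by
      intro h0
      have := trace_sq z
      rw [h0] at this
      have : 0 ≤ z.im ^ 2 * (m ^ 2 + 4 * R) := by positivity
      nlinarith
    rcases lt_or_gt_of_ne htr0 with h2 | h2
    · right; left
      exact ⟨by rw [QuadraticAlgebra.norm_neg]; exact h, by rw [htr]; linarith⟩
    · left; left
      exact ⟨h, h2⟩

theorem not_both {z : QA R m} (h : T1 z ∨ T2 z) : ¬ (T1 (-z) ∨ T2 (-z)) := by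
  have htr : QuadraticAlgebra.trace (-z) = - QuadraticAlgebra.trace z := by simp
  rintro (h' | h')
  · rcases h with h | h
    · have := h'.2; rw [htr] at this; linarith [h.2]
    · have := h'.1; rw [QuadraticAlgebra.norm_neg] at this; linarith [h.1]
  · rcases h with h | h
    · have := h'.1; rw [QuadraticAlgebra.norm_neg] at this; linarith [h.1]
    · have := h'.2; simp at this; linarith [h.2]

theorem FD.exists_zpow (F : FD R m) {z : QA R m} (hz : T1 z ∨ T2 z) :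
    ∃ j : ℤ, F.Dom (z * ((F.e ^ j : (QA R m)ˣ) : QA R m)) := by
  have key : ∀ j : ℤ, z * ((F.e ^ j : (QA R m)ˣ) : QA R m) * ((F.e⁻¹ : (QA R m)ˣ) : QA R m)
      = z * ((F.e ^ (j - 1) : (QA R m)ˣ) : QA R m) := by
    intro j
    rw [zpow_sub, zpow_one, Units.val_mul, mul_assoc]
  rcases hz with hz | hz
  · obtain ⟨j, hj1, hj2⟩ := exists_cross _ (F.strictMono1 hz)
    refine ⟨j, Or.inl ⟨T1_mul F.hD hz (T1_zpow F.hD F.e F.he F.T1e j), ?_, hj2⟩⟩
    rw [key]; exact hj1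
  · obtain ⟨j, hj1, hj2⟩ := exists_cross _ (F.strictMono2 hz)
    refine ⟨j, Or.inr ⟨T2_mul F.hD hz (T1_zpow F.hD F.e F.he F.T1e j), ?_, hj2⟩⟩
    rw [key]; exact hj1

theorem FD.unique_zpow (F : FD R m) {z : QA R m} (hz : F.Dom z) {j : ℤ}
    (hj : F.Dom (z * ((F.e ^ j : (QA R m)ˣ) : QA R m))) : j = 0 := by
  have key : ∀ j : ℤ, z * ((F.e ^ j : (QA R m)ˣ) : QA R m) * ((F.e⁻¹ : (QA R m)ˣ) : QA R m)
      = z * ((F.e ^ (j - 1) : (QA R m)ˣ) : QA R m) := by
    intro j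
    rw [zpow_sub, zpow_one, Units.val_mul, mul_assoc]
  have k0 : z * ((F.e⁻¹ : (QA R m)ˣ) : QA R m) = z * ((F.e ^ ((0 : ℤ) - 1) : (QA R m)ˣ) : QA R m) := by
    simp
  have k1 : F.h1 z = F.h1 (z * ((F.e ^ (0 : ℤ) : (QA R m)ˣ) : QA R m)) := by simp
  have k2 : F.h2 z = F.h2 (z * ((F.e ^ (0 : ℤ) : (QA R m)ˣ) : QA R m)) := by simp
  unfold FD.Dom at hz hj
  rw [key] at hj
  rcases hz with ⟨ht, ha, hb⟩ | ⟨ht, ha, hb⟩
  · have hN := (T1_mul F.hD ht (T1_zpow F.hD F.e F.he F.T1e j)).1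
    rcases hj with ⟨_, hc, hd⟩ | ⟨hc, _⟩
    · rw [k0] at ha
      rw [k1] at hb
      exact cross_unique _ (F.strictMono1 ht) ⟨hc, hd⟩ ⟨ha, hb⟩
    · exfalso; linarith [hc.1]
  · have hN := (T2_mul F.hD ht (T1_zpow F.hD F.e F.he F.T1e j)).1
    rcases hj with ⟨hc, _⟩ | ⟨_, hc, hd⟩
    · exfalso; linarith [hc.1]
    · rw [k0] at ha
      rw [k2] at hb
      exact cross_unique _ (F.strictMono2 ht) ⟨hc, hd⟩ ⟨ha, hb⟩

theorem FD.Dom.types {F : FD R m} {z : QA R m} (hz : F.Dom z) : T1 z ∨ T2 z := by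
  rcases hz with h | h
  · left; exact h.1
  · right; exact h.1

section dom
variable [IsDomain (QA R m)]

theorem norm_ne_zero {z : QA R m} (hz : z ≠ 0) : QuadraticAlgebra.norm z ≠ 0 := by
  intro h
  have h1 : z * star z = 0 := by
    rw [← QuadraticAlgebra.algebraMap_norm_eq_mul_star, h]; simp
  rcases mul_eq_zero.mp h1 with h2 | h2
  · exact hz h2
  · apply hz
    have := congrArg star h2
    simpa using this

theorem FD.surj (F : FD R m) {z : QA R m} (hz : z ≠ 0) :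
    ∃ z' : QA R m, F.Dom z' ∧ Ideal.span {z'} = Ideal.span {z} := by
  rcases type_cases F.hD (norm_ne_zero hz) with h | h
  · obtain ⟨j, hj⟩ := F.exists_zpow h
    refine ⟨_, hj, ?_⟩
    exact Ideal.span_singleton_mul_right_unit (Units.isUnit _) z
  · obtain ⟨j, hj⟩ := F.exists_zpow h
    refine ⟨_, hj, ?_⟩
    rw [Ideal.span_singleton_mul_right_unit (Units.isUnit _), Ideal.span_singleton_neg]

theorem FD.inj (F : FD R m)
    (hone : ∀ z : QA R m, F.Dom z → (QuadraticAlgebra.norm z).natAbs = 1 → z = 1)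
    {z z' : QA R m} (hz : F.Dom z) (hz' : F.Dom z') (h : Ideal.span {z} = Ideal.span {z'}) :
    z = z' := by
  obtain ⟨η, hη⟩ := Ideal.span_singleton_eq_span_singleton.mp h
  have hηN : (QuadraticAlgebra.norm (η : QA R m)).natAbs = 1 :=
    Int.isUnit_iff_natAbs_eq.mp (QuadraticAlgebra.isUnit_iff_norm_isUnit.mp η.isUnit)
  have hη0 : (η : QA R m) ≠ 0 := η.ne_zero
  have hzpN : ∀ j : ℤ, (QuadraticAlgebra.norm ((F.e ^ j : (QA R m)ˣ) : QA R m)).natAbs = 1 := by
    intro j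
    exact Int.isUnit_iff_natAbs_eq.mp (QuadraticAlgebra.isUnit_iff_norm_isUnit.mp (Units.isUnit _))
  have key : ∃ j : ℤ, (η : QA R m) = ((F.e ^ j : (QA R m)ˣ) : QA R m) ∨
      (η : QA R m) = -((F.e ^ j : (QA R m)ˣ) : QA R m) := by
    rcases type_cases F.hD (norm_ne_zero hη0) with h | h
    · obtain ⟨j, hj⟩ := F.exists_zpow h
      have h1 := hone _ hj (by rw [map_mul, Int.natAbs_mul, hηN, hzpN])
      refine ⟨-j, Or.inl ?_⟩
      rw [zpow_neg]
      exact (Units.eq_inv_of_mul_eq_one_right (u := F.e ^ j) h1 :)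
    · obtain ⟨j, hj⟩ := F.exists_zpow h
      have h1 := hone _ hj (by
        rw [map_mul, Int.natAbs_mul, QuadraticAlgebra.norm_neg, hηN, hzpN])
      refine ⟨-j, Or.inr ?_⟩
      rw [zpow_neg, ← (Units.eq_inv_of_mul_eq_one_right (u := F.e ^ j) h1 :), neg_neg]
  obtain ⟨j, hj | hj⟩ := key
  · rw [← hη, hj] at hz'
    have := F.unique_zpow hz hz'
    rw [← hη, hj, this]; simp
  · exfalso
    rw [hj] at hη
    have h1 : T1 (z * ((F.e ^ j : (QA R m)ˣ) : QA R m)) ∨ T2 (z * ((F.e ^ j : (QA R m)ˣ) : QA R m)) := by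
      rcases hz.types with h | h
      · left; exact T1_mul F.hD h (T1_zpow F.hD F.e F.he F.T1e j)
      · right; exact T2_mul F.hD h (T1_zpow F.hD F.e F.he F.T1e j)
    apply not_both h1
    rw [← mul_neg, hη]
    exact hz'.types

end dom

end H419R2
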