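import Pool.Agent.H419R2.A4

/-! From sums over ideals to sums over lattice points in wedges. -/

namespace H419R2

open QuadraticAlgebra Module

variable {R m : ℤ}

theorem tsum_ideals_aux [IsDomain (QA R m)] [IsPrincipalIdealRing (QA R m)] {P : Type*}
    (φ : P → Ideal (QA R m)) (hφ : Function.Injective φ) (hr : ∀ I, I ≠ ⊥ ↔ I ∈ Set.range φ)
    (F : ℕ → ℝ) (hF0 : F 0 = 0) (n : ℕ) : F n * (cnt R m n : ℝ) =
      ∑' (b : ↑((fun p => Ideal.absNorm (φ p)) ⁻¹' {n})), F (Ideal.absNorm (φ ↑b)) := by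
  have h2 : ∀ b : (fun p => Ideal.absNorm (φ p)) ⁻¹' {n}, F (Ideal.absNorm (φ b)) = F n := by
    rintro ⟨b, hb⟩
    simp only [Set.mem_preimage, Set.mem_singleton_iff] at hb
    simp only [hb]
  rw [tsum_congr h2, tsum_const]
  by_cases hn : n = 0
  · subst hn; simp [hF0]
  · rw [nsmul_eq_mul, mul_comm]
    congr 2
    unfold cnt
    have h3 : {I : Ideal (QA R m) | Ideal.absNorm I = n} =
        φ '' ((fun p => Ideal.absNorm (φ p)) ⁻¹' {n}) := by
      ext I
      simp only [Set.mem_ofPred_eq, Set.mem_image, Set.mem_preimage, Set.mem_singleton_iff]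
      constructor
      · intro h
        have hI : I ≠ ⊥ := by
          rintro rfl
          rw [Ideal.absNorm_bot] at h
          exact hn h.symm
        obtain ⟨p, rfl⟩ := (hr I).mp hI
        exact ⟨p, h, rfl⟩
      · rintro ⟨p, h, rfl⟩
        exact h
    rw [h3, Set.ncard_image_of_injective _ hφ]
    rfl

theorem tsum_ideals [IsDomain (QA R m)] [IsPrincipalIdealRing (QA R m)] {P : Type*}
    (φ : P → Ideal (QA R m)) (hφ : Function.Injective φ) (hr : ∀ I, I ≠ ⊥ ↔ I ∈ Set.range φ)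
    (F : ℕ → ℝ) (hF0 : F 0 = 0) (hs : Summable (fun p => F (Ideal.absNorm (φ p)))) :
    HasSum (fun n => F n * (cnt R m n : ℝ)) (∑' p, F (Ideal.absNorm (φ p))) := by
  have h1 := hs.hasSum.tsum_fiberwise (fun p => Ideal.absNorm (φ p))
  have heq : (fun n => F n * (cnt R m n : ℝ)) =
      (fun c => ∑' (b : ↑((fun p => Ideal.absNorm (φ p)) ⁻¹' {c})), F (Ideal.absNorm (φ ↑b))) := by
    funext n
    exact tsum_ideals_aux φ hφ hr F hF0 n
  rw [heq]
  exact h1

/-- index of lattice points `(U, Z)`, `0 ≤ Z < κ U` -/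
abbrev Idx (κ : ℕ) := Σ U : ℕ, Fin (κ * U)

/-- combining a fundamental domain with a parametrisation -/
theorem tsum_param [IsDomain (QA R m)] [IsPrincipalIdealRing (QA R m)] (Fd : FD R m)
    (hone : ∀ z : QA R m, Fd.Dom z → (QuadraticAlgebra.norm z).natAbs = 1 → z = 1)
    {P : Type*} (gen : P → QA R m) (hg : Function.Injective gen)
    (hd : ∀ z, Fd.Dom z ↔ z ∈ Set.range gen)
    (F : ℕ → ℝ) (hF0 : F 0 = 0)
    (hs : Summable (fun p => F (QuadraticAlgebra.norm (gen p)).natAbs)) :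
    HasSum (fun n => F n * (cnt R m n : ℝ)) (∑' p, F (QuadraticAlgebra.norm (gen p)).natAbs) := by
  have hN : ∀ p, F (QuadraticAlgebra.norm (gen p)).natAbs =
      F (Ideal.absNorm (Ideal.span {gen p})) := by
    intro p; rw [absNorm_span]
  simp_rw [hN] at hs ⊢
  apply tsum_ideals (fun p => Ideal.span {gen p}) _ _ F hF0 hs
  · intro p q hpq
    apply hg
    exact Fd.inj hone ((hd _).mpr ⟨p, rfl⟩) ((hd _).mpr ⟨q, rfl⟩) hpq
  · intro I
    constructor
    · intro hI
      obtain ⟨z, rfl⟩ := exists_gen I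
      have hz : z ≠ 0 := by
        rintro rfl; simp at hI
      obtain ⟨z', h1, h2⟩ := Fd.surj hz
      obtain ⟨p, rfl⟩ := (hd _).mp h1
      exact ⟨p, h2⟩
    · rintro ⟨p, rfl⟩
      simp only [ne_eq, Ideal.span_singleton_eq_bot]
      intro h
      have h1 : Fd.Dom (gen p) := (hd _).mpr ⟨p, rfl⟩
      rw [h] at h1
      rcases h1.types with h2 | h2
      · have := h2.1; simp at this
      · have := h2.1; simp at this

/-! ### Case `Δ = m² + 4r` -/

section caseP

variable (r k : ℕ)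

/-- unit `1 + k ω` -/
def eP : (QA (r : ℤ) ((r * k : ℕ) : ℤ))ˣ where
  val := ⟨1, k⟩
  inv := ⟨1 + (r * k : ℕ) * k, -k⟩
  val_inv := by
    ext
    · simp
    · simp; ring
  inv_val := by
    ext
    · simp
    · simp; ring

variable {r k}

/-- the domain for `Δ = m² + 4r` -/
def fdP (hr : 2 ≤ r) (hk : 1 ≤ k) : FD (r : ℤ) ((r * k : ℕ) : ℤ) where
  e := eP r k
  he := by rw [norm_eq]; simp only [eP]; push_cast; ring
  het := by rw [QuadraticAlgebra.trace_def]; simp only [eP]; positivity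
  hD := by positivity
  h1 := fun z => z.im
  h2 := fun z => z.re + (r * k : ℕ) * z.im - 1
  mono1 := by
    intro z hz
    have h1 := hz.1
    have h2 := hz.2
    rw [norm_eq] at h1
    rw [QuadraticAlgebra.trace_def] at h2
    have h3 : 0 < z.re + (r * k : ℕ) * z.im := by
      by_contra h
      push Not at h
      have h4 : 0 < z.re := by linarith
      have h5 : z.re * (z.re + (r * k : ℕ) * z.im) ≤ 0 := mul_nonpos_of_nonneg_of_nonpos h4.le h
      have h6 : (0 : ℤ) ≤ (r : ℤ) * z.im ^ 2 := by positivity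
      nlinarith
    have hk' : (0 : ℤ) < k := by exact_mod_cast hk
    simp only [QuadraticAlgebra.im_mul, eP]
    nlinarith [mul_pos hk' h3]
  mono2 := by
    intro z hz
    have hT : T2 (z * (eP r k : QA (r : ℤ) ((r * k : ℕ) : ℤ))) := by
      apply T2_mul (by positivity) hz
      refine ⟨?_, ?_⟩
      · rw [norm_eq]; simp only [eP]; push_cast; nlinarith
      · rw [QuadraticAlgebra.trace_def]; simp only [eP]; positivity
    have h1 := hT.2
    have hm : (0 : ℤ) < ((r * k : ℕ) : ℤ) := by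
      have : 0 < r * k := Nat.mul_pos (by omega) (by omega)
      exact_mod_cast this
    have h2 : (z * (eP r k : QA (r : ℤ) ((r * k : ℕ) : ℤ))).re = z.re + (r * k : ℕ) * z.im := by
      simp only [QuadraticAlgebra.re_mul, eP]; push_cast; ring
    rw [h2]
    nlinarith [mul_pos hm h1]

theorem domP_iff (hr : 2 ≤ r) (hk : 1 ≤ k) (z : QA (r : ℤ) ((r * k : ℕ) : ℤ)) :
    (fdP hr hk).Dom z ↔ (0 < z.re ∧ 0 ≤ z.im ∧ z.im < k * z.re) ∨
      (0 < z.im ∧ z.re ≤ 0 ∧ -((r * k : ℕ) * z.im) < z.re) := by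
  have hr' : (0 : ℤ) < r := by exact_mod_cast (by omega : 0 < r)
  have hk' : (0 : ℤ) < k := by exact_mod_cast hk
  unfold FD.Dom
  have e1 : (z * (((eP r k)⁻¹ : (QA (r : ℤ) ((r * k : ℕ) : ℤ))ˣ) : QA (r : ℤ) ((r * k : ℕ) : ℤ))).im
      = z.im - k * z.re := by
    simp only [QuadraticAlgebra.im_mul, eP, Units.inv_mk]; push_cast; ring
  have e2 : (z * (((eP r k)⁻¹ : (QA (r : ℤ) ((r * k : ℕ) : ℤ))ˣ) : QA (r : ℤ) ((r * k : ℕ) : ℤ))).re
      = (1 + (r * k : ℕ) * k) * z.re - (r * k : ℕ) * z.im := by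
    simp only [QuadraticAlgebra.re_mul, eP, Units.inv_mk]; push_cast; ring
  simp only [fdP, e1, e2]
  unfold T1 T2
  rw [norm_eq, QuadraticAlgebra.trace_def]
  constructor
  · rintro (⟨⟨h1, h2⟩, h3, h4⟩ | ⟨⟨h1, h2⟩, h3, h4⟩)
    · left
      refine ⟨?_, h4, by linarith⟩
      nlinarith
    · right
      refine ⟨h2, ?_, ?_⟩
      · have : ((1 + (r * k : ℕ) * k) * z.re - (r * k : ℕ) * z.im) + (r * k : ℕ) * (z.im - k * z.re) - 1
          = z.re - 1 := by push_cast; ring
        rw [this] at h3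
        linarith
      · linarith
  · rintro (⟨h1, h2, h3⟩ | ⟨h1, h2, h3⟩)
    · left
      refine ⟨⟨?_, ?_⟩, by linarith, h2⟩
      · have : z.re ^ 2 + ((r * k : ℕ) : ℤ) * z.re * z.im - r * z.im ^ 2 =
          z.re ^ 2 + r * (z.im * (k * z.re - z.im)) := by push_cast; ring
        rw [this]
        have h5 : 0 ≤ z.im * (k * z.re - z.im) := mul_nonneg h2 (by linarith)
        positivity
      · positivity
    · right
      refine ⟨⟨?_, h1⟩, ?_, by linarith⟩
      · have : z.re ^ 2 + ((r * k : ℕ) : ℤ) * z.re * z.im - r * z.im ^ 2 =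
          -(r * z.im ^ 2 + (-z.re) * (z.re + (r * k : ℕ) * z.im)) := by push_cast; ring
        rw [this]
        have h5 : 0 ≤ (-z.re) * (z.re + (r * k : ℕ) * z.im) := mul_nonneg (by linarith) (by linarith)
        have h6 : 0 < (r : ℤ) * z.im ^ 2 := by positivity
        linarith
      · have : ((1 + (r * k : ℕ) * k) * z.re - (r * k : ℕ) * z.im) + (r * k : ℕ) * (z.im - k * z.re) - 1
          = z.re - 1 := by push_cast; ring
        rw [this]
        linarith

/-- parametrisation -/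
def genP (r k : ℕ) : Idx k ⊕ Idx (r * k) → QA (r : ℤ) ((r * k : ℕ) : ℤ)
  | Sum.inl p => ⟨p.1, (p.2 : ℕ)⟩
  | Sum.inr p => ⟨-(p.2 : ℕ), p.1⟩

theorem genP_inj (hr : 2 ≤ r) (hk : 1 ≤ k) : Function.Injective (genP r k) := by
  rintro (⟨U, Z⟩ | ⟨U, Z⟩) (⟨U', Z'⟩ | ⟨U', Z'⟩) h
  · simp only [genP, QuadraticAlgebra.mk.injEq] at h
    obtain ⟨h1, h2⟩ := h
    have h1' : U = U' := by exact_mod_cast h1
    subst h1'
    have h2' : Z = Z' := Fin.ext (by exact_mod_cast h2)
    rw [h2']
  · exfalso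
    simp only [genP, QuadraticAlgebra.mk.injEq] at h
    obtain ⟨h1, h2⟩ := h
    have hU : 0 < U := by
      rcases Nat.eq_zero_or_pos U with h | h
      · subst h; exact absurd Z.2 (by simp)
      · exact h
    omega
  · exfalso
    simp only [genP, QuadraticAlgebra.mk.injEq] at h
    obtain ⟨h1, h2⟩ := h
    have hU : 0 < U' := by
      rcases Nat.eq_zero_or_pos U' with h | h
      · subst h; exact absurd Z'.2 (by simp)
      · exact h
    omega
  · simp only [genP, QuadraticAlgebra.mk.injEq] at h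
    obtain ⟨h1, h2⟩ := h
    have h1' : U = U' := by exact_mod_cast h2
    subst h1'
    have h2' : Z = Z' := Fin.ext (by omega)
    rw [h2']

theorem genP_range (hr : 2 ≤ r) (hk : 1 ≤ k) (z : QA (r : ℤ) ((r * k : ℕ) : ℤ)) :
    (fdP hr hk).Dom z ↔ z ∈ Set.range (genP r k) := by
  rw [domP_iff]
  constructor
  · rintro (⟨h1, h2, h3⟩ | ⟨h1, h2, h3⟩)
    · refine ⟨Sum.inl ⟨z.re.toNat, ⟨z.im.toNat, ?_⟩⟩, ?_⟩
      · have e1 : ((z.re.toNat : ℕ) : ℤ) = z.re := Int.toNat_of_nonneg h1.le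
        have e2 : ((z.im.toNat : ℕ) : ℤ) = z.im := Int.toNat_of_nonneg h2
        zify
        rw [e1, e2]; exact h3
      · ext
        · simp [genP]; exact h1.le
        · simp [genP]; exact h2
    · refine ⟨Sum.inr ⟨z.im.toNat, ⟨(-z.re).toNat, ?_⟩⟩, ?_⟩
      · have e1 : (((-z.re).toNat : ℕ) : ℤ) = -z.re := Int.toNat_of_nonneg (by linarith)
        have e2 : ((z.im.toNat : ℕ) : ℤ) = z.im := Int.toNat_of_nonneg h1.le
        zify
        push_cast at h3
        rw [e1, e2]; linarith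
      · have e1 : (((-z.re).toNat : ℕ) : ℤ) = -z.re := Int.toNat_of_nonneg (by linarith)
        have e2 : ((z.im.toNat : ℕ) : ℤ) = z.im := Int.toNat_of_nonneg h1.le
        ext
        · simp only [genP]; rw [e1]; ring
        · simp only [genP]; rw [e2]
  · rintro ⟨p | p, rfl⟩
    · left
      obtain ⟨U, Z⟩ := p
      have hU : 0 < U := by
        rcases Nat.eq_zero_or_pos U with h | h
        · subst h; exact absurd Z.2 (by simp)
        · exact h
      have hZ := Z.2
      simp only [genP]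
      refine ⟨by exact_mod_cast hU, by positivity, by exact_mod_cast hZ⟩
    · right
      obtain ⟨U, Z⟩ := p
      have hU : 0 < U := by
        rcases Nat.eq_zero_or_pos U with h | h
        · subst h; exact absurd Z.2 (by simp)
        · exact h
      have hZ := Z.2
      have hZ' : ((Z : ℕ) : ℤ) < ((r * k : ℕ) : ℤ) * U := by exact_mod_cast hZ
      simp only [genP]
      refine ⟨by exact_mod_cast hU, by simp, by linarith⟩

theorem honeP (hr : 2 ≤ r) (hk : 1 ≤ k) (z : QA (r : ℤ) ((r * k : ℕ) : ℤ))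
    (hz : (fdP hr hk).Dom z) (h1 : (QuadraticAlgebra.norm z).natAbs = 1) : z = 1 := by
  rw [domP_iff] at hz
  rw [norm_eq] at h1
  have hr' : (2 : ℤ) ≤ r := by exact_mod_cast hr
  rcases hz with ⟨h2, h3, h4⟩ | ⟨h2, h3, h4⟩
  · have e1 : z.re ^ 2 + ((r * k : ℕ) : ℤ) * z.re * z.im - r * z.im ^ 2 =
          z.re ^ 2 + r * (z.im * (k * z.re - z.im)) := by push_cast; ring
    have h5 : 0 ≤ z.im * (k * z.re - z.im) := mul_nonneg h3 (by linarith)
    have h6 : 0 ≤ z.re ^ 2 + r * (z.im * (k * z.re - z.im)) := by positivity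
    rw [e1] at h1
    have h7 : z.re ^ 2 + r * (z.im * (k * z.re - z.im)) = 1 := by omega
    have h8 : z.re = 1 := by nlinarith
    have h9 : z.im * (k * z.re - z.im) = 0 := by nlinarith
    have h10 : z.im = 0 := by
      rcases mul_eq_zero.mp h9 with h | h
      · exact h
      · linarith
    ext
    · simpa using h8
    · simpa using h10
  · exfalso
    have e1 : z.re ^ 2 + ((r * k : ℕ) : ℤ) * z.re * z.im - r * z.im ^ 2 =
          -(r * z.im ^ 2 + (-z.re) * (z.re + (r * k : ℕ) * z.im)) := by push_cast; ring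
    have h5 : 0 ≤ (-z.re) * (z.re + (r * k : ℕ) * z.im) := mul_nonneg (by linarith) (by linarith)
    have h60 : 1 ≤ z.im ^ 2 := by nlinarith
    have h6 : (r : ℤ) ≤ r * z.im ^ 2 := by nlinarith
    rw [e1, Int.natAbs_neg] at h1
    have h7 : r * z.im ^ 2 + (-z.re) * (z.re + (r * k : ℕ) * z.im) = 1 := by omega
    linarith

end caseP

end H419R2
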