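import Pool.Agent.H419R2.A5

/-! Fundamental domain, case `Δ = m² - 4r`. -/

namespace H419R2

open QuadraticAlgebra Module

section caseM

variable (r k : ℕ)

/-- unit `-1 + k ω` -/
def eM : (QA (-(r : ℤ)) ((r * k : ℕ) : ℤ))ˣ where
  val := ⟨-1, k⟩
  inv := ⟨-1 + (r * k : ℕ) * k, -k⟩
  val_inv := by
    ext
    · simp
    · simp; ring
  inv_val := by
    ext
    · simp
    · simp; ring

variable {r k}

theorem re_mul_eM (z : QA (-(r : ℤ)) ((r * k : ℕ) : ℤ)) :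
    (z * (eM r k : QA (-(r : ℤ)) ((r * k : ℕ) : ℤ))).re = -z.re - (r * k : ℕ) * z.im := by
  simp only [QuadraticAlgebra.re_mul, eM]; push_cast; ring

theorem im_mul_eM (z : QA (-(r : ℤ)) ((r * k : ℕ) : ℤ)) :
    (z * (eM r k : QA (-(r : ℤ)) ((r * k : ℕ) : ℤ))).im =
      k * z.re + ((r * k : ℕ) * k - 1) * z.im := by
  simp only [QuadraticAlgebra.im_mul, eM]; push_cast; ring

theorem re_mul_eM_inv (z : QA (-(r : ℤ)) ((r * k : ℕ) : ℤ)) :
    (z * (((eM r k)⁻¹ : (QA (-(r : ℤ)) ((r * k : ℕ) : ℤ))ˣ) : QA (-(r : ℤ)) ((r * k : ℕ) : ℤ))).re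
      = ((r * k : ℕ) * k - 1) * z.re + (r * k : ℕ) * z.im := by
  simp only [QuadraticAlgebra.re_mul, eM, Units.inv_mk]; push_cast; ring

theorem im_mul_eM_inv (z : QA (-(r : ℤ)) ((r * k : ℕ) : ℤ)) :
    (z * (((eM r k)⁻¹ : (QA (-(r : ℤ)) ((r * k : ℕ) : ℤ))ˣ) : QA (-(r : ℤ)) ((r * k : ℕ) : ℤ))).im
      = -k * z.re - z.im := by
  simp only [QuadraticAlgebra.im_mul, eM, Units.inv_mk]; push_cast; ring

theorem DM_pos (hr : 2 ≤ r) (hk : 3 ≤ k) : 0 < ((r * k : ℕ) : ℤ) ^ 2 + 4 * (-(r : ℤ)) := by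
  have hr' : (2 : ℤ) ≤ r := by exact_mod_cast hr
  have hk' : (3 : ℤ) ≤ k := by exact_mod_cast hk
  push_cast
  have h1 : (6 : ℤ) ≤ r * k := by nlinarith
  have h2 : (r : ℤ) * 3 ≤ r * k := by nlinarith
  nlinarith

theorem T1_eM (hr : 2 ≤ r) (hk : 3 ≤ k) : T1 (eM r k : QA (-(r : ℤ)) ((r * k : ℕ) : ℤ)) := by
  have hr' : (2 : ℤ) ≤ r := by exact_mod_cast hr
  have hk' : (3 : ℤ) ≤ k := by exact_mod_cast hk
  refine ⟨?_, ?_⟩
  · rw [norm_eq]; simp only [eM]; push_cast; nlinarith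
  · rw [QuadraticAlgebra.trace_def]; simp only [eM]; push_cast
    have h1 : (6 : ℤ) ≤ r * k := by nlinarith
    nlinarith

/-- the domain for `Δ = m² - 4r` -/
def fdM (hr : 2 ≤ r) (hk : 3 ≤ k) : FD (-(r : ℤ)) ((r * k : ℕ) : ℤ) where
  e := eM r k
  he := by rw [norm_eq]; simp only [eM]; push_cast; ring
  het := (T1_eM hr hk).2
  hD := DM_pos hr hk
  h1 := fun z => z.re + (r * k : ℕ) * z.im
  h2 := fun z => z.re + ((r * k : ℕ) - 1) * z.im
  mono1 := by
    intro z hz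
    have hT := (T1_mul (DM_pos hr hk) hz (T1_eM hr hk)).2
    rw [QuadraticAlgebra.trace_def] at hT
    have h2 := re_mul_eM z
    linarith
  mono2 := by
    intro z hz
    have hT := T2_mul (DM_pos hr hk) hz (T1_eM hr hk)
    have h1 := hT.1
    have h2 := hT.2
    have h3 := re_mul_eM z
    have h4 := im_mul_eM z
    rw [norm_eq] at h1
    have hr' : (2 : ℤ) ≤ r := by exact_mod_cast hr
    have hk' : (3 : ℤ) ≤ k := by exact_mod_cast hk
    have h0 : (6 : ℤ) ≤ (r * k : ℕ) := by push_cast; nlinarith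
    generalize (z * (eM r k : QA (-(r : ℤ)) ((r * k : ℕ) : ℤ))).re = u at *
    generalize (z * (eM r k : QA (-(r : ℤ)) ((r * k : ℕ) : ℤ))).im = w at *
    have h5 : z.re + ((r * k : ℕ) - 1) * z.im = (k - 1) * u + w := by
      rw [h3, h4]; push_cast; ring
    rw [h5]
    have hu : u < 0 := by
      by_contra h
      push Not at h
      have h6 : 0 ≤ ((r * k : ℕ) : ℤ) * u * w := by positivity
      have h7 : 0 ≤ (r : ℤ) * w ^ 2 := by positivity
      nlinarith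
    have h8 : (k - 2 : ℤ) * u < 0 := mul_neg_of_pos_of_neg (by linarith) hu
    have h9 : 0 < (((r * k : ℕ) : ℤ) - 2) * w := mul_pos (by linarith) h2
    linarith

theorem domM_iff (hr : 2 ≤ r) (hk : 3 ≤ k) (z : QA (-(r : ℤ)) ((r * k : ℕ) : ℤ)) :
    (fdM hr hk).Dom z ↔ (0 < z.re ∧ 0 ≤ z.re + (r * k : ℕ) * z.im) ∨
      (0 < z.im ∧ (k - 1) * z.re + z.im < 0 ∧ 0 ≤ z.re + ((r * k : ℕ) - 1) * z.im) := by
  have hr' : (2 : ℤ) ≤ r := by exact_mod_cast hr
  have hk' : (3 : ℤ) ≤ k := by exact_mod_cast hk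
  unfold FD.Dom
  simp only [fdM, re_mul_eM_inv, im_mul_eM_inv]
  have e1 : ((r * k : ℕ) * k - 1) * z.re + (r * k : ℕ) * z.im +
      (r * k : ℕ) * (-k * z.re - z.im) = -z.re := by ring
  have e2 : ((r * k : ℕ) * k - 1) * z.re + (r * k : ℕ) * z.im +
      ((r * k : ℕ) - 1) * (-k * z.re - z.im) = (k - 1) * z.re + z.im := by ring
  rw [e1, e2]
  unfold T1 T2
  rw [norm_eq, QuadraticAlgebra.trace_def]
  constructor
  · rintro (⟨⟨h1, h2⟩, h3, h4⟩ | ⟨⟨h1, h2⟩, h3, h4⟩)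
    · left
      exact ⟨by linarith, h4⟩
    · right
      exact ⟨h2, h3, h4⟩
  · rintro (⟨h1, h2⟩ | ⟨h1, h2, h3⟩)
    · left
      refine ⟨⟨?_, by linarith⟩, by linarith, h2⟩
      have : z.re ^ 2 + ((r * k : ℕ) : ℤ) * z.re * z.im - -(r : ℤ) * z.im ^ 2 =
          z.re * (z.re + (r * k : ℕ) * z.im) + r * z.im ^ 2 := by ring
      rw [this]
      by_cases h5 : z.im = 0
      · rw [h5]; nlinarith
      · have h6 : 0 < z.im ^ 2 := by positivity
        have h7 : 0 ≤ z.re * (z.re + (r * k : ℕ) * z.im) := mul_nonneg h1.le h2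
        nlinarith
    · right
      refine ⟨⟨?_, h1⟩, h2, h3⟩
      have hA : (0 : ℤ) < (r * k : ℕ) - 1 - r := by push_cast; nlinarith
      rcases le_or_gt z.im (-z.re) with h | h
      · have : z.re ^ 2 + ((r * k : ℕ) : ℤ) * z.re * z.im - -(r : ℤ) * z.im ^ 2 =
          -(((r * k : ℕ) - 1 - r) * z.im ^ 2 +
            (z.re + ((r * k : ℕ) - 1) * z.im) * (-z.re - z.im)) := by ring
        rw [this]
        have h5 : 0 ≤ (z.re + ((r * k : ℕ) - 1) * z.im) * (-z.re - z.im) :=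
          mul_nonneg h3 (by linarith)
        have h6 : 0 < (((r * k : ℕ) : ℤ) - 1 - r) * z.im ^ 2 := by positivity
        linarith
      · have : z.re ^ 2 + ((r * k : ℕ) : ℤ) * z.re * z.im - -(r : ℤ) * z.im ^ 2 =
          -(((r * k : ℕ) - 1 - r) * z.re ^ 2 +
            r * ((z.im + z.re) * (-((k - 1) * z.re + z.im)))) := by push_cast; ring
        rw [this]
        have hre : z.re < 0 := by
          by_contra h7
          push Not at h7
          have : 0 ≤ (k - 1 : ℤ) * z.re := mul_nonneg (by linarith) h7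
          linarith
        have h5 : 0 ≤ (z.im + z.re) * (-((k - 1) * z.re + z.im)) :=
          mul_nonneg (by linarith) (by linarith)
        have h6 : 0 < (((r * k : ℕ) : ℤ) - 1 - r) * z.re ^ 2 := by
          have : 0 < z.re ^ 2 := by nlinarith
          positivity
        have h8 : 0 ≤ (r : ℤ) * ((z.im + z.re) * (-((k - 1) * z.re + z.im))) := by positivity
        linarith

/-- parametrisation -/
def genM (r k : ℕ) : (Idx (r * k - 2) ⊕ Idx (k - 2)) ⊕ (Idx 1 ⊕ Idx 1) →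
    QA (-(r : ℤ)) ((r * k : ℕ) : ℤ)
  | Sum.inl (Sum.inl p) => ⟨(p.2 : ℕ) - (((r * k : ℕ) : ℤ) - 1) * p.1, p.1⟩
  | Sum.inl (Sum.inr p) => ⟨-p.1, p.1 + (p.2 : ℕ)⟩
  | Sum.inr (Sum.inl p) => ⟨p.1 - (p.2 : ℕ), (p.2 : ℕ)⟩
  | Sum.inr (Sum.inr p) => ⟨(p.2 : ℕ) + ((r * k : ℕ) : ℤ) * (p.1 - (p.2 : ℕ)), -(p.1 - (p.2 : ℕ))⟩

theorem idx_facts {κ : ℕ} (p : Idx κ) : 0 < (p.1 : ℤ) ∧ (0 : ℤ) ≤ ((p.2 : ℕ) : ℤ) ∧
    ((p.2 : ℕ) : ℤ) < (κ : ℤ) * p.1 := by
  obtain ⟨U, Z⟩ := p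
  have hU : 0 < U := by
    rcases Nat.eq_zero_or_pos U with h | h
    · subst h; exact absurd Z.2 (by simp)
    · exact h
  have hZ := Z.2
  exact ⟨by exact_mod_cast hU, by positivity, by exact_mod_cast hZ⟩

theorem idx_ext {κ : ℕ} {p q : Idx κ} (h1 : (p.1 : ℤ) = q.1)
    (h2 : (((p.2 : ℕ)) : ℤ) = ((q.2 : ℕ) : ℤ)) : p = q := by
  obtain ⟨U, Z⟩ := p
  obtain ⟨U', Z'⟩ := q
  have h1' : U = U' := by exact_mod_cast h1
  subst h1'
  have h2' : Z = Z' := Fin.ext (by exact_mod_cast h2)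
  rw [h2']

theorem idx_mk {κ : ℕ} {a b : ℤ} (ha : 0 < a) (hb : 0 ≤ b) (hab : b < κ * a) :
    ∃ p : Idx κ, (p.1 : ℤ) = a ∧ ((p.2 : ℕ) : ℤ) = b := by
  have e1 : ((a.toNat : ℕ) : ℤ) = a := Int.toNat_of_nonneg ha.le
  have e2 : ((b.toNat : ℕ) : ℤ) = b := Int.toNat_of_nonneg hb
  refine ⟨⟨a.toNat, ⟨b.toNat, ?_⟩⟩, e1, e2⟩
  zify
  rw [e1, e2]; exact hab

theorem genM_inj (hr : 2 ≤ r) (hk : 3 ≤ k) : Function.Injective (genM r k) := by
  have hr' : (2 : ℤ) ≤ r := by exact_mod_cast hr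
  have hk' : (3 : ℤ) ≤ k := by exact_mod_cast hk
  have h6 : 6 ≤ r * k := by nlinarith
  have c1 : ((r * k - 2 : ℕ) : ℤ) = ((r * k : ℕ) : ℤ) - 2 := by
    rw [Nat.cast_sub (by omega)]; rfl
  have c2 : ((k - 2 : ℕ) : ℤ) = (k : ℤ) - 2 := by
    rw [Nat.cast_sub (by omega)]; rfl
  have h6' : (6 : ℤ) ≤ ((r * k : ℕ) : ℤ) := by exact_mod_cast h6
  rintro ((p | p) | (p | p)) ((q | q) | (q | q)) h <;>
  have hp := idx_facts p <;> have hq := idx_facts q <;>
  simp only [genM, QuadraticAlgebra.mk.injEq] at h <;>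
  obtain ⟨h1, h2⟩ := h <;>
  simp only [c1, c2, Nat.cast_one, one_mul] at hp hq
  · have : p = q := idx_ext h2 (by rw [h2] at h1; linarith)
    rw [this]
  · exfalso
    rw [h2] at hp h1
    nlinarith
  · exfalso
    rw [h2] at hp h1
    nlinarith
  · exfalso
    linarith
  · exfalso
    rw [← h2] at hq h1
    nlinarith
  · have : p = q := idx_ext (by linarith) (by linarith)
    rw [this]
  · exfalso; linarith
  · exfalso; linarith
  · exfalso
    rw [← h2] at hq h1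
    nlinarith
  · exfalso; linarith
  · have : p = q := idx_ext (by linarith) (by linarith)
    rw [this]
  · exfalso; linarith
  · exfalso; linarith
  · exfalso; linarith
  · exfalso; linarith
  · have h3 : (p.1 : ℤ) - ((p.2 : ℕ) : ℤ) = q.1 - ((q.2 : ℕ) : ℤ) := by linarith
    rw [h3] at h1
    have : p = q := idx_ext (by linarith) (by linarith)
    rw [this]

theorem genM_range (hr : 2 ≤ r) (hk : 3 ≤ k) (z : QA (-(r : ℤ)) ((r * k : ℕ) : ℤ)) :
    (fdM hr hk).Dom z ↔ z ∈ Set.range (genM r k) := by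
  rw [domM_iff]
  have hr' : (2 : ℤ) ≤ r := by exact_mod_cast hr
  have hk' : (3 : ℤ) ≤ k := by exact_mod_cast hk
  have h6 : 6 ≤ r * k := by nlinarith
  have c1 : ((r * k - 2 : ℕ) : ℤ) = ((r * k : ℕ) : ℤ) - 2 := by
    rw [Nat.cast_sub (by omega)]; rfl
  have c2 : ((k - 2 : ℕ) : ℤ) = (k : ℤ) - 2 := by
    rw [Nat.cast_sub (by omega)]; rfl
  have h6' : (6 : ℤ) ≤ ((r * k : ℕ) : ℤ) := by exact_mod_cast h6
  constructor
  · rintro (⟨h1, h2⟩ | ⟨h1, h2, h3⟩)
    · rcases le_or_gt 0 z.im with h | h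
      · obtain ⟨p, hp1, hp2⟩ := idx_mk (κ := 1) (a := z.re + z.im) (b := z.im) (by linarith) h
          (by push_cast; linarith)
        refine ⟨Sum.inr (Sum.inl p), ?_⟩
        ext
        · simp only [genM]; rw [hp1, hp2]; ring
        · simp only [genM]; rw [hp2]
      · obtain ⟨p, hp1, hp2⟩ := idx_mk (κ := 1) (a := z.re + (r * k : ℕ) * z.im - z.im)
          (b := z.re + (r * k : ℕ) * z.im) (by linarith) h2 (by push_cast; linarith)
        refine ⟨Sum.inr (Sum.inr p), ?_⟩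
        ext
        · simp only [genM]; rw [hp1, hp2]; ring
        · simp only [genM]; rw [hp1, hp2]; ring
    · rcases lt_or_ge z.im (-z.re) with h | h
      · obtain ⟨p, hp1, hp2⟩ := idx_mk (κ := r * k - 2) (a := z.im)
          (b := z.re + ((r * k : ℕ) - 1) * z.im) h1 h3 (by rw [c1]; linarith)
        refine ⟨Sum.inl (Sum.inl p), ?_⟩
        ext
        · simp only [genM]; rw [hp1, hp2]; ring
        · simp only [genM]; rw [hp1]
      · have hre : z.re < 0 := by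
          by_contra h7
          push Not at h7
          have : 0 ≤ (k - 1 : ℤ) * z.re := mul_nonneg (by linarith) h7
          linarith
        obtain ⟨p, hp1, hp2⟩ := idx_mk (κ := k - 2) (a := -z.re)
          (b := z.im + z.re) (by linarith) (by linarith) (by rw [c2]; linarith)
        refine ⟨Sum.inl (Sum.inr p), ?_⟩
        ext
        · simp only [genM]; rw [hp1]; ring
        · simp only [genM]; rw [hp1, hp2]; ring
  · rintro ⟨(p | p) | (p | p), rfl⟩ <;>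
    have hp := idx_facts p <;>
    simp only [c1, c2, Nat.cast_one, one_mul] at hp <;>
    simp only [genM]
    · right
      refine ⟨hp.1, ?_, by linarith⟩
      have h7 : ((p.2 : ℕ) : ℤ) - (((r * k : ℕ) : ℤ) - 1) * p.1 < -p.1 := by linarith
      have h8 : (k - 1 : ℤ) * (((p.2 : ℕ) : ℤ) - (((r * k : ℕ) : ℤ) - 1) * p.1) ≤
          (k - 1 : ℤ) * (-p.1) := mul_le_mul_of_nonneg_left h7.le (by linarith)
      nlinarith
    · right
      refine ⟨by linarith, by linarith, ?_⟩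
      have : 0 ≤ (((r * k : ℕ) : ℤ) - 1) * ((p.2 : ℕ) : ℤ) := mul_nonneg (by linarith) hp.2.1
      nlinarith
    · left
      refine ⟨by linarith, ?_⟩
      have : 0 ≤ ((r * k : ℕ) : ℤ) * ((p.2 : ℕ) : ℤ) := mul_nonneg (by linarith) hp.2.1
      linarith
    · left
      refine ⟨?_, by linarith⟩
      have : 0 < ((r * k : ℕ) : ℤ) * (p.1 - ((p.2 : ℕ) : ℤ)) := mul_pos (by linarith) (by linarith)
      linarith

theorem honeM (hr : 2 ≤ r) (hk : 3 ≤ k) (z : QA (-(r : ℤ)) ((r * k : ℕ) : ℤ))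
    (hz : (fdM hr hk).Dom z) (h1 : (QuadraticAlgebra.norm z).natAbs = 1) : z = 1 := by
  rw [domM_iff] at hz
  rw [norm_eq] at h1
  have hr' : (2 : ℤ) ≤ r := by exact_mod_cast hr
  have hk' : (3 : ℤ) ≤ k := by exact_mod_cast hk
  have hA : (3 : ℤ) ≤ (r * k : ℕ) - 1 - r := by push_cast; nlinarith
  rcases hz with ⟨h2, h3⟩ | ⟨h2, h3, h4⟩
  · have e1 : z.re ^ 2 + ((r * k : ℕ) : ℤ) * z.re * z.im - -(r : ℤ) * z.im ^ 2 =
          z.re * (z.re + (r * k : ℕ) * z.im) + r * z.im ^ 2 := by ring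
    have h5 : 0 ≤ z.re * (z.re + (r * k : ℕ) * z.im) := mul_nonneg h2.le h3
    have h6 : 0 ≤ z.re * (z.re + (r * k : ℕ) * z.im) + r * z.im ^ 2 := by positivity
    rw [e1] at h1
    have h7 : z.re * (z.re + (r * k : ℕ) * z.im) + r * z.im ^ 2 = 1 := by omega
    have h8 : z.im = 0 := by
      by_contra h
      have h9 : 1 ≤ z.im ^ 2 := by
        have : 0 < z.im ^ 2 := by positivity
        linarith
      nlinarith
    have h10 : z.re = 1 := by
      rw [h8] at h7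
      nlinarith
    ext
    · simpa using h10
    · simpa using h8
  · exfalso
    have hre : z.re < 0 := by
      by_contra h7
      push Not at h7
      have : 0 ≤ (k - 1 : ℤ) * z.re := mul_nonneg (by linarith) h7
      linarith
    rcases le_or_gt z.im (-z.re) with h | h
    · have e1 : z.re ^ 2 + ((r * k : ℕ) : ℤ) * z.re * z.im - -(r : ℤ) * z.im ^ 2 =
        -(((r * k : ℕ) - 1 - r) * z.im ^ 2 +
          (z.re + ((r * k : ℕ) - 1) * z.im) * (-z.re - z.im)) := by ring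
      have h5 : 0 ≤ (z.re + ((r * k : ℕ) - 1) * z.im) * (-z.re - z.im) :=
        mul_nonneg h4 (by linarith)
      have h60 : 1 ≤ z.im ^ 2 := by nlinarith
      have h6 : 3 ≤ (((r * k : ℕ) : ℤ) - 1 - r) * z.im ^ 2 := by nlinarith
      rw [e1, Int.natAbs_neg] at h1
      omega
    · have e1 : z.re ^ 2 + ((r * k : ℕ) : ℤ) * z.re * z.im - -(r : ℤ) * z.im ^ 2 =
        -(((r * k : ℕ) - 1 - r) * z.re ^ 2 +
          r * ((z.im + z.re) * (-((k - 1) * z.re + z.im)))) := by push_cast; ring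
      have h5 : 0 ≤ (z.im + z.re) * (-((k - 1) * z.re + z.im)) :=
        mul_nonneg (by linarith) (by linarith)
      have h60 : 1 ≤ z.re ^ 2 := by nlinarith
      have h6 : 3 ≤ (((r * k : ℕ) : ℤ) - 1 - r) * z.re ^ 2 := by nlinarith
      have h8 : 0 ≤ (r : ℤ) * ((z.im + z.re) * (-((k - 1) * z.re + z.im))) := by positivity
      rw [e1, Int.natAbs_neg] at h1
      omega

end caseM

end H419R2
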