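import Mathlib

/-! Euler–Maclaurin summation with periodic coefficients. -/

namespace H419R2

open Finset Filter Topology

theorem mvt_bound {f f' : ℝ → ℝ} {a M : ℝ} (h : ∀ x ∈ Set.Icc a (a + 1), HasDerivAt f (f' x) x)
    (hb : ∀ x ∈ Set.Icc a (a + 1), |f' x| ≤ M) {x : ℝ} (hx : x ∈ Set.Icc a (a + 1)) :
    |f x - f a| ≤ M := by
  have hM : 0 ≤ M := (abs_nonneg _).trans (hb x hx)
  have h1 := Convex.norm_image_sub_le_of_norm_hasDerivWithin_le (f := f) (f' := f') (C := M)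
    (s := Set.Icc a (a + 1)) (x := a) (y := x)
    (fun y hy => (h y hy).hasDerivWithinAt) (fun y hy => by rw [Real.norm_eq_abs]; exact hb y hy)
    (convex_Icc _ _) ⟨le_refl _, by linarith⟩ hx
  rw [Real.norm_eq_abs, Real.norm_eq_abs] at h1
  have h2 : |x - a| ≤ 1 := by
    rw [abs_le]; constructor <;> linarith [hx.1, hx.2]
  calc |f x - f a| ≤ M * |x - a| := h1
    _ ≤ M * 1 := by gcongr
    _ = M := mul_one M

/-- chain of derivatives -/
structure Chain (G g g1 g2 g3 : ℝ → ℝ) : Prop where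
  d0 : ∀ x, HasDerivAt G (g x) x
  d1 : ∀ x, HasDerivAt g (g1 x) x
  d2 : ∀ x, HasDerivAt g1 (g2 x) x
  d3 : ∀ x, HasDerivAt g2 (g3 x) x

theorem taylor_step {G g g1 g2 g3 : ℝ → ℝ} (hc : Chain G g g1 g2 g3) {a M : ℝ}
    (hM : ∀ x ∈ Set.Icc a (a + 1), |g3 x| ≤ M) :
    |G (a + 1) - G a - g a - g1 a / 2 - g2 a / 6| ≤ M ∧
    |g (a + 1) - g a - g1 a - g2 a / 2| ≤ M ∧
    |g1 (a + 1) - g1 a - g2 a| ≤ M ∧ |g2 (a + 1) - g2 a| ≤ M := by
  have e2 : ∀ x ∈ Set.Icc a (a + 1), |g2 x - g2 a| ≤ M := fun x hx =>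
    mvt_bound (fun y _ => hc.d3 y) hM hx
  have e1 : ∀ x ∈ Set.Icc a (a + 1), |g1 x - g1 a - g2 a * (x - a)| ≤ M := by
    intro x hx
    have := mvt_bound (f := fun x => g1 x - g2 a * (x - a)) (f' := fun x => g2 x - g2 a) (M := M)
      (a := a) (fun y _ => by
        have := (hc.d2 y).sub (((hasDerivAt_id y).sub_const a).const_mul (g2 a))
        refine (this.congr_deriv ?_)
        simp) e2 hx
    have h4 : g1 x - g1 a - g2 a * (x - a) =
      (g1 x - g2 a * (x - a)) - (g1 a - g2 a * (a - a)) := by ring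
    rw [h4]; exact this
  have e0 : ∀ x ∈ Set.Icc a (a + 1),
      |g x - g a - g1 a * (x - a) - g2 a * (x - a) ^ 2 / 2| ≤ M := by
    intro x hx
    have := mvt_bound (f := fun x => g x - g1 a * (x - a) - g2 a * (x - a) ^ 2 / 2)
      (f' := fun x => g1 x - g1 a - g2 a * (x - a)) (M := M)
      (a := a) (fun y _ => by
        have h1 := (hc.d1 y).sub (((hasDerivAt_id y).sub_const a).const_mul (g1 a))
        have h2 := (((((hasDerivAt_id y).sub_const a).pow 2).const_mul (g2 a)).div_const 2)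
        have h3 := h1.sub h2
        refine (h3.congr_deriv ?_)
        simp only [id_eq]
        ring) e1 hx
    have h4 : g x - g a - g1 a * (x - a) - g2 a * (x - a) ^ 2 / 2 =
      (g x - g1 a * (x - a) - g2 a * (x - a) ^ 2 / 2) -
      (g a - g1 a * (a - a) - g2 a * (a - a) ^ 2 / 2) := by ring
    rw [h4]; exact this
  have em : ∀ x ∈ Set.Icc a (a + 1),
      |G x - G a - g a * (x - a) - g1 a * (x - a) ^ 2 / 2 - g2 a * (x - a) ^ 3 / 6| ≤ M := by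
    intro x hx
    have := mvt_bound (f := fun x => G x - g a * (x - a) - g1 a * (x - a) ^ 2 / 2
        - g2 a * (x - a) ^ 3 / 6)
      (f' := fun x => g x - g a - g1 a * (x - a) - g2 a * (x - a) ^ 2 / 2) (M := M)
      (a := a) (fun y _ => by
        have h1 := (hc.d0 y).sub (((hasDerivAt_id y).sub_const a).const_mul (g a))
        have h2 := (((((hasDerivAt_id y).sub_const a).pow 2).const_mul (g1 a)).div_const 2)
        have h3 := (((((hasDerivAt_id y).sub_const a).pow 3).const_mul (g2 a)).div_const 6)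
        have h4 := (h1.sub h2).sub h3
        refine (h4.congr_deriv ?_)
        simp only [id_eq]
        ring) e0 hx
    have h4 : G x - G a - g a * (x - a) - g1 a * (x - a) ^ 2 / 2 - g2 a * (x - a) ^ 3 / 6 =
      (G x - g a * (x - a) - g1 a * (x - a) ^ 2 / 2 - g2 a * (x - a) ^ 3 / 6) -
      (G a - g a * (a - a) - g1 a * (a - a) ^ 2 / 2 - g2 a * (a - a) ^ 3 / 6) := by ring
    rw [h4]; exact this
  have hmem : a + 1 ∈ Set.Icc a (a + 1) := ⟨by linarith, le_refl _⟩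
  have m0 := em _ hmem
  have m1 := e0 _ hmem
  have m2 := e1 _ hmem
  have m3 := e2 _ hmem
  refine ⟨?_, ?_, ?_, m3⟩
  · convert m0 using 2; ring
  · convert m1 using 2; ring
  · convert m2 using 2; ring

/-- first weight -/
noncomputable def wA (q : ℕ) (φ : ℕ → ℝ) (j : ℕ) : ℝ :=
  ∑ l ∈ range q, φ (j + l) * ((l : ℝ) / q - 1 / 2)
/-- second weight -/
noncomputable def wB (q : ℕ) (φ : ℕ → ℝ) (j : ℕ) : ℝ :=
  ∑ l ∈ range q, φ (j + l) * (((l : ℝ) ^ 2 / q - l + q / 6) / 2)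
/-- third weight -/
noncomputable def wC (q : ℕ) (φ : ℕ → ℝ) (j : ℕ) : ℝ :=
  ∑ l ∈ range q, φ (j + l) * (((l : ℝ) ^ 3 / q - 3 / 2 * l ^ 2 + q * l / 2) / 6)
/-- mean -/
noncomputable def wM (q : ℕ) (φ : ℕ → ℝ) : ℝ := (∑ l ∈ range q, φ l) / q

theorem sum_shift (q : ℕ) (ψ : ℕ → ℝ) (hψ : ψ q = ψ 0) (P : ℝ → ℝ) :
    ∑ l ∈ range q, ψ (l + 1) * P l = ∑ l ∈ range q, ψ l * P ((l : ℝ) - 1)
      + ψ 0 * (P (q - 1) - P (-1)) := by
  have h1 : ∑ l ∈ range (q + 1), ψ l * P ((l : ℝ) - 1)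
      = ∑ l ∈ range q, ψ (l + 1) * P l + ψ 0 * P (-1) := by
    rw [Finset.sum_range_succ']
    simp
  have h2 : ∑ l ∈ range (q + 1), ψ l * P ((l : ℝ) - 1)
      = ∑ l ∈ range q, ψ l * P ((l : ℝ) - 1) + ψ 0 * P (q - 1) := by
    rw [Finset.sum_range_succ, hψ]
  rw [h2] at h1
  linarith

theorem mean_shift {q : ℕ} (hq : 0 < q) {φ : ℕ → ℝ} (hφ : ∀ j, φ (j + q) = φ j) (j : ℕ) :
    ∑ l ∈ range q, φ (j + l) = q * wM q φ := by
  have hq' : (q : ℝ) ≠ 0 := by positivity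
  induction j with
  | zero => unfold wM; field_simp; simp
  | succ n ih =>
    have := sum_shift q (fun l => φ (n + l)) (by simpa using hφ n) (fun _ => 1)
    simp only [mul_one, sub_self, mul_zero, add_zero] at this
    rw [← ih, ← this]
    apply Finset.sum_congr rfl
    intro l _
    congr 1; ring

theorem wA_succ {q : ℕ} (hq : 0 < q) {φ : ℕ → ℝ} (hφ : ∀ j, φ (j + q) = φ j) (j : ℕ) :
    wA q φ (j + 1) = wA q φ j + φ j - wM q φ := by
  have hq' : (q : ℝ) ≠ 0 := by positivity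
  unfold wA
  have := sum_shift q (fun l => φ (j + l)) (by simpa using hφ j) (fun x => x / q - 1 / 2)
  have h2 : ∀ l, φ (j + 1 + l) = φ (j + (l + 1)) := fun l => by congr 1; ring
  simp only [h2]
  rw [this]
  have h3 : ∑ l ∈ range q, φ (j + l) * (((l : ℝ) - 1) / q - 1 / 2) =
      ∑ l ∈ range q, φ (j + l) * ((l : ℝ) / q - 1 / 2) - (1 / q) * ∑ l ∈ range q, φ (j + l) := by
    rw [Finset.mul_sum, ← Finset.sum_sub_distrib]
    apply Finset.sum_congr rfl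
    intro l _
    field_simp
    ring
  rw [h3, mean_shift hq hφ]
  simp only [add_zero]
  generalize ∑ l ∈ range q, φ (j + l) * ((l : ℝ) / q - 1 / 2) = S1
  field_simp
  ring

theorem wB_succ {q : ℕ} (hq : 0 < q) {φ : ℕ → ℝ} (hφ : ∀ j, φ (j + q) = φ j) (j : ℕ) :
    wB q φ (j + 1) = wB q φ j - wM q φ / 2 - wA q φ (j + 1) := by
  have hq' : (q : ℝ) ≠ 0 := by positivity
  rw [wA_succ hq hφ]
  unfold wB wA
  have := sum_shift q (fun l => φ (j + l)) (by simpa using hφ j)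
    (fun x => (x ^ 2 / q - x + q / 6) / 2)
  have h2 : ∀ l, φ (j + 1 + l) = φ (j + (l + 1)) := fun l => by congr 1; ring
  simp only [h2]
  rw [this]
  have h3 : ∑ l ∈ range q, φ (j + l) * ((((l : ℝ) - 1) ^ 2 / q - ((l : ℝ) - 1) + q / 6) / 2) =
      ∑ l ∈ range q, φ (j + l) * (((l : ℝ) ^ 2 / q - l + q / 6) / 2)
      - ∑ l ∈ range q, φ (j + l) * ((l : ℝ) / q - 1 / 2)
      + (1 / (2 * q)) * ∑ l ∈ range q, φ (j + l) := by
    rw [Finset.mul_sum, ← Finset.sum_sub_distrib, ← Finset.sum_add_distrib]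
    apply Finset.sum_congr rfl
    intro l _
    field_simp
    ring
  rw [h3, mean_shift hq hφ]
  simp only [add_zero]
  generalize ∑ l ∈ range q, φ (j + l) * ((l : ℝ) / q - 1 / 2) = S1
  generalize ∑ l ∈ range q, φ (j + l) * (((l : ℝ) ^ 2 / q - l + q / 6) / 2) = S2
  field_simp
  ring

theorem wC_succ {q : ℕ} (hq : 0 < q) {φ : ℕ → ℝ} (hφ : ∀ j, φ (j + q) = φ j) (j : ℕ) :
    wC q φ (j + 1) = wC q φ j - wM q φ / 6 - wA q φ (j + 1) / 2 - wB q φ (j + 1) := by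
  have hq' : (q : ℝ) ≠ 0 := by positivity
  rw [wB_succ hq hφ, wA_succ hq hφ]
  unfold wC wB wA
  have := sum_shift q (fun l => φ (j + l)) (by simpa using hφ j)
    (fun x => (x ^ 3 / q - 3 / 2 * x ^ 2 + q * x / 2) / 6)
  have h2 : ∀ l, φ (j + 1 + l) = φ (j + (l + 1)) := fun l => by congr 1; ring
  simp only [h2]
  rw [this]
  have h3 : ∑ l ∈ range q, φ (j + l) * ((((l : ℝ) - 1) ^ 3 / q - 3 / 2 * ((l : ℝ) - 1) ^ 2
        + q * ((l : ℝ) - 1) / 2) / 6) =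
      ∑ l ∈ range q, φ (j + l) * (((l : ℝ) ^ 3 / q - 3 / 2 * l ^ 2 + q * l / 2) / 6)
      - ∑ l ∈ range q, φ (j + l) * (((l : ℝ) ^ 2 / q - l + q / 6) / 2)
      + (1 / 2) * ∑ l ∈ range q, φ (j + l) * ((l : ℝ) / q - 1 / 2)
      - (1 / (6 * q)) * ∑ l ∈ range q, φ (j + l) := by
    rw [Finset.mul_sum, Finset.mul_sum, ← Finset.sum_sub_distrib, ← Finset.sum_add_distrib,
      ← Finset.sum_sub_distrib]
    apply Finset.sum_congr rfl
    intro l _
    field_simp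
    ring
  rw [h3, mean_shift hq hφ]
  simp only [add_zero]
  generalize ∑ l ∈ range q, φ (j + l) * ((l : ℝ) / q - 1 / 2) = S1
  generalize ∑ l ∈ range q, φ (j + l) * (((l : ℝ) ^ 2 / q - l + q / 6) / 2) = S2
  generalize ∑ l ∈ range q, φ (j + l) * (((l : ℝ) ^ 3 / q - 3 / 2 * l ^ 2 + q * l / 2) / 6) = S3
  field_simp
  ring

/-- constant bounding all weights -/
noncomputable def wK (q : ℕ) : ℝ := 1 + q + 2 * q ^ 2 + q ^ 3

theorem wK_pos (q : ℕ) : 0 < wK q := by unfold wK; positivity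

theorem abs_sum_le {q : ℕ} {φ : ℕ → ℝ} {Φ c : ℝ} (hΦ : ∀ j, |φ j| ≤ Φ) (j : ℕ) (P : ℝ → ℝ)
    (hc : 0 ≤ c) (hP : ∀ l : ℕ, l < q → |P l| ≤ c) : |∑ l ∈ range q, φ (j + l) * P l| ≤ q * c * Φ := by
  calc |∑ l ∈ range q, φ (j + l) * P l| ≤ ∑ l ∈ range q, |φ (j + l) * P l| :=
        Finset.abs_sum_le_sum_abs _ _
    _ ≤ ∑ l ∈ range q, Φ * c := by
        apply Finset.sum_le_sum
        intro l hl
        rw [abs_mul]
        exact mul_le_mul (hΦ _) (hP l (Finset.mem_range.mp hl)) (abs_nonneg _)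
          ((abs_nonneg _).trans (hΦ 0))
    _ = q * c * Φ := by rw [Finset.sum_const, Finset.card_range, nsmul_eq_mul]; ring

theorem weights_le {q : ℕ} (hq : 0 < q) {φ : ℕ → ℝ} {Φ : ℝ} (hΦ : ∀ j, |φ j| ≤ Φ) (j : ℕ) :
    |wM q φ| ≤ wK q * Φ ∧ |wA q φ j| ≤ wK q * Φ ∧ |wB q φ j| ≤ wK q * Φ ∧
    |wC q φ j| ≤ wK q * Φ := by
  have hq' : (0 : ℝ) < q := by exact_mod_cast hq
  have hq1 : (1 : ℝ) ≤ q := by exact_mod_cast hq
  have hΦ0 : 0 ≤ Φ := (abs_nonneg _).trans (hΦ 0)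
  have hlq : ∀ l : ℕ, l < q → (l : ℝ) ≤ q := fun l hl => by exact_mod_cast hl.le
  have hl2 : ∀ l : ℕ, l < q → (l : ℝ) ^ 2 / q ≤ q := fun l hl => by
    rw [div_le_iff₀ hq']; nlinarith [hlq l hl, (Nat.cast_nonneg l : (0:ℝ) ≤ l)]
  have hl3 : ∀ l : ℕ, l < q → (l : ℝ) ^ 3 / q ≤ q ^ 2 := fun l hl => by
    rw [div_le_iff₀ hq']
    have := hlq l hl
    have h0 : (0:ℝ) ≤ l := Nat.cast_nonneg l
    calc (l : ℝ) ^ 3 ≤ (q : ℝ) ^ 3 := by gcongr
      _ = (q : ℝ) ^ 2 * q := by ring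
  refine ⟨?_, ?_, ?_, ?_⟩
  · have h1 := abs_sum_le (q := q) hΦ 0 (fun _ => 1) zero_le_one (fun l _ => by simp)
    simp only [zero_add, mul_one] at h1
    unfold wM
    rw [abs_div, abs_of_pos hq', div_le_iff₀ hq']
    unfold wK
    nlinarith [mul_nonneg hq'.le hΦ0, mul_nonneg (mul_nonneg hq'.le hq'.le) hΦ0,
      mul_nonneg (pow_pos hq' 3).le hΦ0, mul_nonneg (pow_pos hq' 4).le hΦ0,
      mul_nonneg (pow_pos hq' 2).le hΦ0]
  · have h1 := abs_sum_le (q := q) hΦ j (fun x => x / q - 1 / 2) zero_le_one (fun l hl => by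
      have h2 : (l : ℝ) / q ≤ 1 := by rw [div_le_one hq']; exact hlq l hl
      have h3 : 0 ≤ (l : ℝ) / q := by positivity
      rw [abs_le]; constructor <;> linarith)
    unfold wA
    refine h1.trans ?_
    unfold wK
    nlinarith [mul_nonneg hq'.le hΦ0, mul_nonneg (pow_pos hq' 3).le hΦ0,
      mul_nonneg (pow_pos hq' 2).le hΦ0]
  · have h1 := abs_sum_le (q := q) (c := 2 * q) hΦ j (fun x => (x ^ 2 / q - x + q / 6) / 2)
      (by positivity) (fun l hl => by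
      have h2 := hl2 l hl
      have h3 := hlq l hl
      have h4 : 0 ≤ (l : ℝ) ^ 2 / q := by positivity
      have h5 : (0:ℝ) ≤ l := Nat.cast_nonneg l
      rw [abs_le]; constructor <;> linarith)
    unfold wB
    refine h1.trans ?_
    unfold wK
    nlinarith [mul_nonneg hq'.le hΦ0, mul_nonneg (pow_pos hq' 3).le hΦ0,
      mul_nonneg (pow_pos hq' 2).le hΦ0]
  · have h1 := abs_sum_le (q := q) (c := q ^ 2) hΦ j
      (fun x => (x ^ 3 / q - 3 / 2 * x ^ 2 + q * x / 2) / 6)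
      (by positivity) (fun l hl => by
      have h2 := hl3 l hl
      have h3 := hlq l hl
      have h4 : 0 ≤ (l : ℝ) ^ 3 / q := by positivity
      have h5 : (0:ℝ) ≤ l := Nat.cast_nonneg l
      have h6 : (l : ℝ) ^ 2 ≤ q ^ 2 := by gcongr
      have h7 : (q : ℝ) * l ≤ q ^ 2 := by nlinarith
      have h8 : 0 ≤ (q : ℝ) * l := by positivity
      have h9 : 0 ≤ (l : ℝ) ^ 2 := by positivity
      rw [abs_le]; constructor <;> nlinarith)
    unfold wC
    refine h1.trans ?_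
    unfold wK
    nlinarith [mul_nonneg hq'.le hΦ0, mul_nonneg (pow_pos hq' 3).le hΦ0,
      mul_nonneg (pow_pos hq' 2).le hΦ0]

/-- the Euler–Maclaurin primitive -/
noncomputable def emF (q : ℕ) (φ : ℕ → ℝ) (G g g1 g2 : ℝ → ℝ) (j : ℕ) : ℝ :=
  wM q φ * G j + wA q φ j * g j + wB q φ j * g1 j + wC q φ j * g2 j

theorem em_step {q : ℕ} (hq : 0 < q) {φ : ℕ → ℝ} (hφ : ∀ j, φ (j + q) = φ j) {Φ : ℝ}
    (hΦ : ∀ j, |φ j| ≤ Φ) {G g g1 g2 g3 : ℝ → ℝ} (hc : Chain G g g1 g2 g3) (j : ℕ) {M : ℝ}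
    (hM : ∀ x ∈ Set.Icc (j : ℝ) (j + 1), |g3 x| ≤ M) :
    |φ j * g j - (emF q φ G g g1 g2 (j + 1) - emF q φ G g g1 g2 j)| ≤ 4 * (wK q * Φ) * M := by
  obtain ⟨t0, t1, t2, t3⟩ := taylor_step hc hM
  obtain ⟨b0, -, -, -⟩ := weights_le hq hΦ j
  obtain ⟨-, b1, b2, b3⟩ := weights_le hq hΦ (j + 1)
  have hM0 : 0 ≤ M := (abs_nonneg _).trans t3
  have hA := wA_succ hq hφ j
  have hB := wB_succ hq hφ j
  have hC := wC_succ hq hφ j
  have key : φ j * g j - (emF q φ G g g1 g2 (j + 1) - emF q φ G g g1 g2 j) =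
      -(wM q φ * (G (j + 1) - G j - g j - g1 j / 2 - g2 j / 6)
      + wA q φ (j + 1) * (g (j + 1) - g j - g1 j - g2 j / 2)
      + wB q φ (j + 1) * (g1 (j + 1) - g1 j - g2 j)
      + wC q φ (j + 1) * (g2 (j + 1) - g2 j)) := by
    unfold emF
    push_cast
    have e1 : φ j = wA q φ (j + 1) - wA q φ j + wM q φ := by rw [hA]; ring
    have e2 : wB q φ j = wB q φ (j + 1) + wM q φ / 2 + wA q φ (j + 1) := by rw [hB]; ring
    have e3 : wC q φ j = wC q φ (j + 1) + wM q φ / 6 + wA q φ (j + 1) / 2 + wB q φ (j + 1) := by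
      rw [hC]; ring
    rw [e1, e3, e2]
    ring
  rw [key, abs_neg]
  have hm : ∀ a b : ℝ, |a| ≤ wK q * Φ → |b| ≤ M → |a * b| ≤ wK q * Φ * M := by
    intro a b ha hb
    rw [abs_mul]
    exact mul_le_mul ha hb (abs_nonneg _) ((abs_nonneg _).trans ha)
  calc _ ≤ |wM q φ * (G (j + 1) - G j - g j - g1 j / 2 - g2 j / 6)
      + wA q φ (j + 1) * (g (j + 1) - g j - g1 j - g2 j / 2)
      + wB q φ (j + 1) * (g1 (j + 1) - g1 j - g2 j)| +
      |wC q φ (j + 1) * (g2 (j + 1) - g2 j)| := abs_add_le _ _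
    _ ≤ |wM q φ * (G (j + 1) - G j - g j - g1 j / 2 - g2 j / 6)
      + wA q φ (j + 1) * (g (j + 1) - g j - g1 j - g2 j / 2)| +
      |wB q φ (j + 1) * (g1 (j + 1) - g1 j - g2 j)| +
      |wC q φ (j + 1) * (g2 (j + 1) - g2 j)| := by
        gcongr; exact abs_add_le _ _
    _ ≤ |wM q φ * (G (j + 1) - G j - g j - g1 j / 2 - g2 j / 6)|
      + |wA q φ (j + 1) * (g (j + 1) - g j - g1 j - g2 j / 2)| +
      |wB q φ (j + 1) * (g1 (j + 1) - g1 j - g2 j)| +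
      |wC q φ (j + 1) * (g2 (j + 1) - g2 j)| := by
        gcongr; exact abs_add_le _ _
    _ ≤ wK q * Φ * M + wK q * Φ * M + wK q * Φ * M + wK q * Φ * M := by
        gcongr
        · exact hm _ _ b0 t0
        · exact hm _ _ b1 t1
        · exact hm _ _ b2 t2
        · exact hm _ _ b3 t3
    _ = 4 * (wK q * Φ) * M := by ring

theorem em_finite {q : ℕ} (hq : 0 < q) {φ : ℕ → ℝ} (hφ : ∀ j, φ (j + q) = φ j) {Φ : ℝ}
    (hΦ : ∀ j, |φ j| ≤ Φ) {G g g1 g2 g3 : ℝ → ℝ} (hc : Chain G g g1 g2 g3) (W : ℕ) {M : ℕ → ℝ}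
    (hM : ∀ j < W, ∀ x ∈ Set.Icc (j : ℝ) (j + 1), |g3 x| ≤ M j) :
    |∑ j ∈ range W, φ j * g j - (emF q φ G g g1 g2 W - emF q φ G g g1 g2 0)|
      ≤ 4 * (wK q * Φ) * ∑ j ∈ range W, M j := by
  induction W with
  | zero => simp
  | succ n ih =>
    rw [Finset.sum_range_succ, Finset.sum_range_succ, mul_add]
    have h1 := ih (fun j hj => hM j (by omega))
    have h2 := em_step hq hφ hΦ hc n (hM n (by omega))
    have h3 : ∑ x ∈ range n, φ x * g x + φ n * g n -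
        (emF q φ G g g1 g2 (n + 1) - emF q φ G g g1 g2 0) =
      (∑ x ∈ range n, φ x * g x - (emF q φ G g g1 g2 n - emF q φ G g g1 g2 0)) +
      (φ n * g n - (emF q φ G g g1 g2 (n + 1) - emF q φ G g g1 g2 n)) := by ring
    rw [h3]
    exact (abs_add_le _ _).trans (add_le_add h1 h2)

theorem em_infinite {q : ℕ} (hq : 0 < q) {φ : ℕ → ℝ} (hφ : ∀ j, φ (j + q) = φ j) {Φ : ℝ}
    (hΦ : ∀ j, |φ j| ≤ Φ) {G g g1 g2 g3 : ℝ → ℝ} (hc : Chain G g g1 g2 g3) {M : ℕ → ℝ}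
    (hM : ∀ j : ℕ, ∀ x ∈ Set.Icc (j : ℝ) (j + 1), |g3 x| ≤ M j) (hMs : Summable M)
    {Ginf : ℝ} (hG : Tendsto (fun j : ℕ => G j) atTop (𝓝 Ginf))
    (hg : Tendsto (fun j : ℕ => g j) atTop (𝓝 0)) (hg1 : Tendsto (fun j : ℕ => g1 j) atTop (𝓝 0))
    (hg2 : Tendsto (fun j : ℕ => g2 j) atTop (𝓝 0)) (hs : Summable (fun j : ℕ => φ j * g j)) :
    |∑' j : ℕ, φ j * g j - (wM q φ * Ginf - emF q φ G g g1 g2 0)|
      ≤ 4 * (wK q * Φ) * ∑' j, M j := by
  have hΦ0 : 0 ≤ Φ := (abs_nonneg _).trans (hΦ 0)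
  have hM0 : ∀ j, 0 ≤ M j := fun j => (abs_nonneg _).trans (hM j j ⟨le_refl _, by linarith⟩)
  have hF : Tendsto (fun j : ℕ => emF q φ G g g1 g2 j) atTop (𝓝 (wM q φ * Ginf)) := by
    have hz : ∀ (w : ℕ → ℝ) (f : ℝ → ℝ), (∀ j, |w j| ≤ wK q * Φ) →
        Tendsto (fun j : ℕ => f j) atTop (𝓝 0) →
        Tendsto (fun j : ℕ => w j * f j) atTop (𝓝 0) := by
      intro w f hw hf
      apply squeeze_zero_norm (a := fun j : ℕ => wK q * Φ * |f j|)
      · intro j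
        rw [Real.norm_eq_abs, abs_mul]
        exact mul_le_mul_of_nonneg_right (hw j) (abs_nonneg _)
      · have := (hf.abs).const_mul (wK q * Φ)
        simpa using this
    unfold emF
    have h1 := hz (wA q φ) g (fun j => (weights_le hq hΦ j).2.1) hg
    have h2 := hz (wB q φ) g1 (fun j => (weights_le hq hΦ j).2.2.1) hg1
    have h3 := hz (wC q φ) g2 (fun j => (weights_le hq hΦ j).2.2.2) hg2
    have h4 := (((hG.const_mul (wM q φ)).add h1).add h2).add h3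
    simpa using h4
  have h1 : Tendsto (fun W : ℕ => |∑ j ∈ range W, φ j * g j
      - (emF q φ G g g1 g2 W - emF q φ G g g1 g2 0)|) atTop
      (𝓝 |∑' j : ℕ, φ j * g j - (wM q φ * Ginf - emF q φ G g g1 g2 0)|) := by
    apply Tendsto.abs
    apply Tendsto.sub hs.hasSum.tendsto_sum_nat
    exact hF.sub_const _
  apply le_of_tendsto h1
  filter_upwards with W
  refine (em_finite hq hφ hΦ hc W (fun j _ => hM j)).trans ?_
  apply mul_le_mul_of_nonneg_left _ (by have := wK_pos q; positivity)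
  exact hMs.sum_le_tsum _ (fun j _ => hM0 j)

end H419R2
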