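import Pool.Agent.H419R2.B1

/-! Gaussian sums with periodic coefficients. -/

namespace H419R2

open Finset Filter Topology

theorem cube_exp_le {X : ℝ} (hX : 0 ≤ X) : (1 + X) ^ 3 * Real.exp (-X) ≤ 48 * Real.exp (-X / 2) := by
  have h1 := Real.sum_le_exp_of_nonneg (x := X / 2) (by positivity) 4
  simp only [Finset.sum_range_succ, Finset.sum_range_zero, Nat.factorial] at h1
  norm_num at h1
  have h2 : (1 + X) ^ 3 ≤ 48 * Real.exp (X / 2) := by nlinarith [pow_nonneg hX 2, pow_nonneg hX 3]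
  have h3 : Real.exp (-X / 2) = Real.exp (X / 2) * Real.exp (-X) := by
    rw [← Real.exp_add]; congr 1; ring
  rw [h3, ← mul_assoc]
  exact mul_le_mul_of_nonneg_right h2 (Real.exp_pos _).le

theorem pow_exp_le {X : ℝ} (hX : 0 ≤ X) {c P : ℝ} (hc : 0 ≤ c) (hP : |P| ≤ c * (1 + X) ^ 3) :
    |P * Real.exp (-X)| ≤ 48 * c * Real.exp (-X / 2) := by
  rw [abs_mul, abs_of_pos (Real.exp_pos _)]
  calc |P| * Real.exp (-X) ≤ (c * (1 + X) ^ 3) * Real.exp (-X) := by gcongr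
    _ = c * ((1 + X) ^ 3 * Real.exp (-X)) := by ring
    _ ≤ c * (48 * Real.exp (-X / 2)) := by
        exact mul_le_mul_of_nonneg_left (cube_exp_le hX) hc
    _ = 48 * c * Real.exp (-X / 2) := by ring

/-- `∑ exp (-c u²) ≤ 9 / √c`. -/
theorem sum_gauss_le {c : ℝ} (hc : 0 < c) (hc1 : c ≤ 1) :
    Summable (fun u : ℕ => Real.exp (-c * (u : ℝ) ^ 2)) ∧
    ∑' u : ℕ, Real.exp (-c * (u : ℝ) ^ 2) ≤ 9 / √c := by
  have hs : 0 < √c := Real.sqrt_pos.mpr hc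
  have hss : √c * √c = c := Real.mul_self_sqrt hc.le
  have hs1 : √c ≤ 1 := by
    rw [← Real.sqrt_one]; exact Real.sqrt_le_sqrt hc1
  obtain ⟨N, hN1, hN2⟩ : ∃ N : ℕ, 1 / √c ≤ N ∧ (N : ℝ) ≤ 2 / √c := by
    refine ⟨⌈1 / √c⌉₊, Nat.le_ceil _, ?_⟩
    have h1 := (Nat.ceil_lt_add_one (a := 1 / √c) (by positivity)).le
    have h2 : 1 ≤ 1 / √c := by rw [le_div_iff₀ hs]; linarith
    calc (⌈1 / √c⌉₊ : ℝ) ≤ 1 / √c + 1 := h1
      _ ≤ 1 / √c + 1 / √c := by linarith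
      _ = 2 / √c := by ring
  have hN0 : (0 : ℝ) < N := lt_of_lt_of_le (by positivity) hN1
  have hNN : (1 : ℝ) ≤ N := by
    have : 0 < N := by exact_mod_cast hN0
    exact_mod_cast this
  have hcN : 1 ≤ c * N ^ 2 := by
    have h1 : 1 ≤ √c * N := by
      rw [div_le_iff₀ hs] at hN1; linarith
    nlinarith
  set ρ := Real.exp (-(2 / N)) with hρ
  have hρ0 : 0 < ρ := Real.exp_pos _
  have hx0 : (0 : ℝ) < 2 / N := by positivity
  have hx2 : (2 : ℝ) / N ≤ 2 := by rw [div_le_iff₀ hN0]; linarith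
  have hρle : ρ ≤ 1 / (1 + 2 / N) := by
    rw [hρ, Real.exp_neg, ← one_div]
    apply one_div_le_one_div_of_le (by positivity)
    linarith [Real.add_one_le_exp (2 / (N : ℝ))]
  have hρ1 : ρ < 1 := by
    apply lt_of_le_of_lt hρle
    rw [div_lt_one (by positivity)]
    linarith
  have hbd : ∀ u : ℕ, Real.exp (-c * (u : ℝ) ^ 2) ≤ Real.exp 1 * ρ ^ u := by
    intro u
    rw [hρ, ← Real.exp_nat_mul, ← Real.exp_add]
    apply Real.exp_le_exp.mpr
    have h1 : ((u : ℝ) / N) ^ 2 ≤ c * u ^ 2 := by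
      rw [div_pow, div_le_iff₀ (by positivity)]
      have : 0 ≤ (u : ℝ) ^ 2 := by positivity
      nlinarith
    have h2 : 2 * ((u : ℝ) / N) - 1 ≤ ((u : ℝ) / N) ^ 2 := by nlinarith [sq_nonneg ((u : ℝ) / N - 1)]
    have h3 : (u : ℝ) * (-(2 / N)) = -(2 * ((u : ℝ) / N)) := by ring
    rw [h3]
    linarith
  have hgs : Summable (fun u : ℕ => Real.exp 1 * ρ ^ u) :=
    (summable_geometric_of_lt_one hρ0.le hρ1).mul_left _
  have hsum : Summable (fun u : ℕ => Real.exp (-c * (u : ℝ) ^ 2)) :=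
    Summable.of_nonneg_of_le (fun u => (Real.exp_pos _).le) hbd hgs
  refine ⟨hsum, ?_⟩
  calc ∑' u : ℕ, Real.exp (-c * (u : ℝ) ^ 2) ≤ ∑' u : ℕ, Real.exp 1 * ρ ^ u :=
        hsum.tsum_le_tsum hbd hgs
    _ = Real.exp 1 * (1 - ρ)⁻¹ := by rw [tsum_mul_left, tsum_geometric_of_lt_one hρ0.le hρ1]
    _ ≤ 3 * (3 / √c) := by
        apply mul_le_mul
        · linarith [Real.exp_one_lt_d9]
        · have h1 : (2 / N : ℝ) / 3 ≤ 1 - ρ := by
            have h2 : 1 / (1 + 2 / (N : ℝ)) ≤ 1 - (2 / N : ℝ) / 3 := by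
              rw [div_le_iff₀ (by positivity)]
              nlinarith
            linarith
          have h2 : (1 - ρ)⁻¹ ≤ ((2 / N : ℝ) / 3)⁻¹ := inv_anti₀ (by positivity) h1
          refine h2.trans ?_
          have h3 : ((2 / N : ℝ) / 3)⁻¹ = 3 / 2 * N := by field_simp
          rw [h3]
          calc 3 / 2 * (N : ℝ) ≤ 3 / 2 * (2 / √c) := by gcongr
            _ = 3 / √c := by ring
        · rw [inv_nonneg]; linarith
        · norm_num
    _ = 9 / √c := by ring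

theorem sum_gauss_half {τ : ℝ} (hτ : 0 < τ) (hτ1 : τ ≤ 1) :
    Summable (fun u : ℕ => Real.exp (-(τ * (u : ℝ) ^ 2) / 2)) ∧
    ∑' u : ℕ, Real.exp (-(τ * (u : ℝ) ^ 2) / 2) ≤ 18 / √τ := by
  have h1 := sum_gauss_le (c := τ / 2) (by positivity) (by linarith)
  have e : ∀ u : ℕ, Real.exp (-(τ / 2) * (u : ℝ) ^ 2) = Real.exp (-(τ * (u : ℝ) ^ 2) / 2) := by
    intro u; congr 1; ring
  simp only [e] at h1
  refine ⟨h1.1, h1.2.trans ?_⟩
  have hs : 0 < √τ := Real.sqrt_pos.mpr hτ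
  have h2 : √τ / 2 ≤ √(τ / 2) := by
    apply Real.le_sqrt_of_sq_le
    rw [div_pow, Real.sq_sqrt hτ.le]
    linarith
  calc 9 / √(τ / 2) ≤ 9 / (√τ / 2) := by gcongr
    _ = 18 / √τ := by field_simp; norm_num

theorem tendsto_exp_half {τ : ℝ} (hτ : 0 < τ) (hτ1 : τ ≤ 1) :
    Tendsto (fun j : ℕ => Real.exp (-(τ * (j : ℝ) ^ 2) / 2)) atTop (𝓝 0) :=
  (sum_gauss_half hτ hτ1).1.tendsto_atTop_zero

theorem mul_le_one_add {τ x : ℝ} (hτ : 0 < τ) (hτ1 : τ ≤ 1) : τ * |x| ≤ 1 + τ * x ^ 2 := by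
  have h1 : |x| ≤ 1 + x ^ 2 := by
    rw [← sq_abs x]
    nlinarith [sq_nonneg (|x| - 1), abs_nonneg x]
  nlinarith

/-- chain for `x exp(-τx²)` -/
theorem chain_xexp {τ : ℝ} (hτ : 0 < τ) : Chain (fun x => -Real.exp (-(τ * x ^ 2)) / (2 * τ))
    (fun x => x * Real.exp (-(τ * x ^ 2)))
    (fun x => (1 - 2 * (τ * x ^ 2)) * Real.exp (-(τ * x ^ 2)))
    (fun x => (τ * x * (-6 + 4 * (τ * x ^ 2))) * Real.exp (-(τ * x ^ 2)))
    (fun x => (τ * (-6 + 24 * (τ * x ^ 2) - 8 * (τ * x ^ 2) ^ 2)) * Real.exp (-(τ * x ^ 2))) := by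
  have he : ∀ x : ℝ, HasDerivAt (fun x : ℝ => Real.exp (-(τ * x ^ 2)))
      (Real.exp (-(τ * x ^ 2)) * (-(τ * (2 * x)))) x := by
    intro x
    have h1 := ((hasDerivAt_pow 2 x).const_mul τ).neg.exp
    refine h1.congr_deriv ?_
    norm_num
  constructor
  · intro x
    have h := ((he x).neg).div_const (2 * τ)
    refine h.congr_deriv ?_
    field_simp
  · intro x
    have h := (hasDerivAt_id x).mul (he x)
    refine h.congr_deriv ?_
    simp only [id_eq]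
    ring
  · intro x
    have h := ((((hasDerivAt_pow 2 x).const_mul τ).const_mul 2).const_sub 1).mul (he x)
    refine h.congr_deriv ?_
    norm_num
    ring
  · intro x
    have h0 := (((hasDerivAt_pow 2 x).const_mul τ).const_mul 4).const_add (-6)
    have h := (((hasDerivAt_id x).const_mul τ).mul h0).mul (he x)
    refine h.congr_deriv ?_
    norm_num
    ring

/-- chain for `exp(-τx²)` -/
theorem chain_exp (τ : ℝ) : Chain (fun x => ∫ y in (0 : ℝ)..x, Real.exp (-(τ * y ^ 2)))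
    (fun x => Real.exp (-(τ * x ^ 2)))
    (fun x => (-2 * (τ * x)) * Real.exp (-(τ * x ^ 2)))
    (fun x => (τ * (-2 + 4 * (τ * x ^ 2))) * Real.exp (-(τ * x ^ 2)))
    (fun x => (τ * (τ * x) * (12 - 8 * (τ * x ^ 2))) * Real.exp (-(τ * x ^ 2))) := by
  have he : ∀ x : ℝ, HasDerivAt (fun x : ℝ => Real.exp (-(τ * x ^ 2)))
      (Real.exp (-(τ * x ^ 2)) * (-(τ * (2 * x)))) x := by
    intro x
    have h1 := ((hasDerivAt_pow 2 x).const_mul τ).neg.exp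
    refine h1.congr_deriv ?_
    norm_num
  constructor
  · intro x
    exact (Continuous.integral_hasStrictDerivAt (by fun_prop) 0 x).hasDerivAt
  · intro x
    refine (he x).congr_deriv ?_
    ring
  · intro x
    have h := (((hasDerivAt_id x).const_mul τ).const_mul (-2)).mul (he x)
    refine h.congr_deriv ?_
    simp only [id_eq]
    ring
  · intro x
    have h0 := ((((hasDerivAt_pow 2 x).const_mul τ).const_mul 4).const_add (-2)).const_mul τ
    have h := h0.mul (he x)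
    refine h.congr_deriv ?_
    norm_num
    ring

theorem exp_mono_half {τ : ℝ} (hτ : 0 < τ) {j : ℕ} {x : ℝ} (hx : x ∈ Set.Icc (j : ℝ) (j + 1)) :
    Real.exp (-(τ * x ^ 2) / 2) ≤ Real.exp (-(τ * (j : ℝ) ^ 2) / 2) := by
  apply Real.exp_le_exp.mpr
  have hj : (0 : ℝ) ≤ j := Nat.cast_nonneg j
  have : (j : ℝ) ^ 2 ≤ x ^ 2 := by
    apply pow_le_pow_left₀ hj hx.1
  nlinarith

theorem tendsto_of_bound {f : ℕ → ℝ} {C τ : ℝ} (hτ : 0 < τ) (hτ1 : τ ≤ 1)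
    (h : ∀ j : ℕ, |f j| ≤ C * Real.exp (-(τ * (j : ℝ) ^ 2) / 2)) :
    Tendsto f atTop (𝓝 0) := by
  apply squeeze_zero_norm (a := fun j : ℕ => C * Real.exp (-(τ * (j : ℝ) ^ 2) / 2))
  · intro j; rw [Real.norm_eq_abs]; exact h j
  · have := (tendsto_exp_half hτ hτ1).const_mul C
    simpa using this

theorem xexp_bound {τ : ℝ} (hτ : 0 < τ) (hτ1 : τ ≤ 1) (x : ℝ) :
    |x * Real.exp (-(τ * x ^ 2))| ≤ 48 / τ * Real.exp (-(τ * x ^ 2) / 2) := by
  have hX : 0 ≤ τ * x ^ 2 := by positivity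
  have h := pow_exp_le hX (c := 1 / τ) (P := x) (by positivity) (by
    have h1 := mul_le_one_add hτ hτ1 (x := x)
    have h2 : 1 + τ * x ^ 2 ≤ (1 + τ * x ^ 2) ^ 3 := by
      nlinarith [pow_nonneg hX 2, pow_nonneg hX 3]
    rw [one_div, inv_mul_eq_div, le_div_iff₀ hτ]
    linarith)
  convert h using 2
  ring

theorem summable_xexp {τ : ℝ} (hτ : 0 < τ) (hτ1 : τ ≤ 1) {φ : ℕ → ℝ} {Φ : ℝ}
    (hΦ : ∀ j, |φ j| ≤ Φ) : Summable (fun j : ℕ => φ j * (j * Real.exp (-(τ * (j : ℝ) ^ 2)))) := by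
  have hΦ0 : 0 ≤ Φ := (abs_nonneg _).trans (hΦ 0)
  apply Summable.of_norm_bounded (g := fun j : ℕ => Φ * (48 / τ * Real.exp (-(τ * (j : ℝ) ^ 2) / 2)))
  · exact ((sum_gauss_half hτ hτ1).1.mul_left _).mul_left _
  · intro j
    rw [Real.norm_eq_abs, abs_mul]
    exact mul_le_mul (hΦ j) (xexp_bound hτ hτ1 _) (abs_nonneg _) hΦ0

theorem summable_exp' {τ : ℝ} (hτ : 0 < τ) (hτ1 : τ ≤ 1) {φ : ℕ → ℝ} {Φ : ℝ}
    (hΦ : ∀ j, |φ j| ≤ Φ) : Summable (fun j : ℕ => φ j * Real.exp (-(τ * (j : ℝ) ^ 2))) := by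
  have hΦ0 : 0 ≤ Φ := (abs_nonneg _).trans (hΦ 0)
  apply Summable.of_norm_bounded (g := fun j : ℕ => Φ * Real.exp (-(τ * (j : ℝ) ^ 2) / 2))
  · exact ((sum_gauss_half hτ hτ1).1.mul_left _)
  · intro j
    rw [Real.norm_eq_abs, abs_mul, abs_of_pos (Real.exp_pos _)]
    apply mul_le_mul (hΦ j) _ (Real.exp_pos _).le hΦ0
    apply Real.exp_le_exp.mpr
    have : 0 ≤ τ * (j : ℝ) ^ 2 := by positivity
    linarith

/-- `∑ θ(u) u e^{-τu²} = mean/(2τ) - B(0) + O(√τ)` -/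
theorem gauss_O3 {q : ℕ} (hq : 0 < q) {φ : ℕ → ℝ} (hφ : ∀ j, φ (j + q) = φ j) {Φ : ℝ}
    (hΦ : ∀ j, |φ j| ≤ Φ) {τ : ℝ} (hτ : 0 < τ) (hτ1 : τ ≤ 1) :
    |∑' j : ℕ, φ j * (j * Real.exp (-(τ * (j : ℝ) ^ 2))) - (wM q φ / (2 * τ) - wB q φ 0)|
      ≤ 4 * (wK q * Φ) * (48 * 24 * 18) * √τ := by
  have hΦ0 : 0 ≤ Φ := (abs_nonneg _).trans (hΦ 0)
  have hs : 0 < √τ := Real.sqrt_pos.mpr hτ
  have hss : √τ * √τ = τ := Real.mul_self_sqrt hτ.le
  have h := em_infinite hq hφ hΦ (chain_xexp hτ)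
    (M := fun j : ℕ => 48 * (24 * τ) * Real.exp (-(τ * (j : ℝ) ^ 2) / 2))
    (by
      intro j x hx
      have hX : 0 ≤ τ * x ^ 2 := by positivity
      refine (pow_exp_le hX (c := 24 * τ) (by positivity) ?_).trans
        (mul_le_mul_of_nonneg_left (exp_mono_half hτ hx) (by positivity))
      rw [abs_mul, abs_of_pos hτ]
      have : |-6 + 24 * (τ * x ^ 2) - 8 * (τ * x ^ 2) ^ 2| ≤ 24 * (1 + τ * x ^ 2) ^ 3 := by
        rw [abs_le]
        constructor <;> nlinarith [pow_nonneg hX 2, pow_nonneg hX 3]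
      calc τ * |-6 + 24 * (τ * x ^ 2) - 8 * (τ * x ^ 2) ^ 2| ≤ τ * (24 * (1 + τ * x ^ 2) ^ 3) := by
            gcongr
        _ = 24 * τ * (1 + τ * x ^ 2) ^ 3 := by ring)
    ((sum_gauss_half hτ hτ1).1.mul_left _)
    (Ginf := 0)
    (by
      have := tendsto_of_bound (f := fun j : ℕ => -Real.exp (-(τ * (j : ℝ) ^ 2)) / (2 * τ))
        (C := 1 / (2 * τ)) hτ hτ1 (by
          intro j
          rw [abs_div, abs_neg, abs_of_pos (Real.exp_pos _), abs_of_pos (by positivity),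
            div_mul_eq_mul_div, one_mul]
          apply div_le_div_of_nonneg_right _ (by positivity)
          apply Real.exp_le_exp.mpr
          have : 0 ≤ τ * (j : ℝ) ^ 2 := by positivity
          linarith)
      exact this)
    (tendsto_of_bound hτ hτ1 (fun j => xexp_bound hτ hτ1 (j : ℝ)))
    (by
      apply tendsto_of_bound (C := 48 * 2) hτ hτ1
      intro j
      have hX : 0 ≤ τ * (j : ℝ) ^ 2 := by positivity
      apply pow_exp_le hX (by norm_num)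
      rw [abs_le]
      constructor <;> nlinarith [pow_nonneg hX 2, pow_nonneg hX 3])
    (by
      apply tendsto_of_bound (C := 48 * 6) hτ hτ1
      intro j
      have hX : 0 ≤ τ * (j : ℝ) ^ 2 := by positivity
      apply pow_exp_le hX (by norm_num)
      have h1 := mul_le_one_add hτ hτ1 (x := (j : ℝ))
      rw [abs_mul, abs_mul, abs_of_pos hτ]
      have h2 : |-6 + 4 * (τ * (j : ℝ) ^ 2)| ≤ 6 * (1 + τ * (j : ℝ) ^ 2) := by
        rw [abs_le]; constructor <;> linarith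
      calc τ * |(j : ℝ)| * |-6 + 4 * (τ * (j : ℝ) ^ 2)| ≤
            (1 + τ * (j : ℝ) ^ 2) * (6 * (1 + τ * (j : ℝ) ^ 2)) := by gcongr
        _ ≤ 6 * (1 + τ * (j : ℝ) ^ 2) ^ 3 := by nlinarith [pow_nonneg hX 2, pow_nonneg hX 3])
    (summable_xexp hτ hτ1 hΦ)
  have e1 : wM q φ * 0 - emF q φ (fun x => -Real.exp (-(τ * x ^ 2)) / (2 * τ))
      (fun x => x * Real.exp (-(τ * x ^ 2)))
      (fun x => (1 - 2 * (τ * x ^ 2)) * Real.exp (-(τ * x ^ 2)))
      (fun x => (τ * x * (-6 + 4 * (τ * x ^ 2))) * Real.exp (-(τ * x ^ 2))) 0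
      = wM q φ / (2 * τ) - wB q φ 0 := by
    unfold emF
    simp
    ring
  rw [e1] at h
  refine h.trans ?_
  rw [tsum_mul_left]
  have hb := (sum_gauss_half hτ hτ1).2
  have hK := wK_pos q
  calc 4 * (wK q * Φ) * (48 * (24 * τ) * ∑' x : ℕ, Real.exp (-(τ * (x : ℝ) ^ 2) / 2))
      ≤ 4 * (wK q * Φ) * (48 * (24 * τ) * (18 / √τ)) := by gcongr
    _ = 4 * (wK q * Φ) * (48 * 24 * 18) * √τ := by
        have : τ * (18 / √τ) = 18 * √τ := by
          rw [mul_div_assoc', div_eq_iff hs.ne']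
          nth_rewrite 1 [← hss]; ring
        calc 4 * (wK q * Φ) * (48 * (24 * τ) * (18 / √τ))
            = 4 * (wK q * Φ) * (48 * 24 * (τ * (18 / √τ))) := by ring
          _ = _ := by rw [this]; ring

/-- `∑ θ(u) e^{-τu²} = mean √(π/τ)/2 - A(0) + O(√τ)` -/
theorem gauss_O1 {q : ℕ} (hq : 0 < q) {φ : ℕ → ℝ} (hφ : ∀ j, φ (j + q) = φ j) {Φ : ℝ}
    (hΦ : ∀ j, |φ j| ≤ Φ) {τ : ℝ} (hτ : 0 < τ) (hτ1 : τ ≤ 1) :
    |∑' j : ℕ, φ j * Real.exp (-(τ * (j : ℝ) ^ 2)) - (wM q φ * (√(Real.pi / τ) / 2) - wA q φ 0)|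
      ≤ 4 * (wK q * Φ) * (48 * 24 * 18) * √τ := by
  have hΦ0 : 0 ≤ Φ := (abs_nonneg _).trans (hΦ 0)
  have hs : 0 < √τ := Real.sqrt_pos.mpr hτ
  have hss : √τ * √τ = τ := Real.mul_self_sqrt hτ.le
  have hs1 : √τ ≤ 1 := by rw [← Real.sqrt_one]; exact Real.sqrt_le_sqrt hτ1
  have hτs : τ ≤ √τ := by nlinarith
  have hexp : ∀ y : ℝ, Real.exp (-(τ * y ^ 2)) = Real.exp (-τ * y ^ 2) := by
    intro y; congr 1; ring
  have h := em_infinite hq hφ hΦ (chain_exp τ)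
    (M := fun j : ℕ => 48 * (12 * τ) * Real.exp (-(τ * (j : ℝ) ^ 2) / 2))
    (by
      intro j x hx
      have hX : 0 ≤ τ * x ^ 2 := by positivity
      refine (pow_exp_le hX (c := 12 * τ) (by positivity) ?_).trans
        (mul_le_mul_of_nonneg_left (exp_mono_half hτ hx) (by positivity))
      have h1 := mul_le_one_add hτ hτ1 (x := x)
      have h2 : |12 - 8 * (τ * x ^ 2)| ≤ 12 * (1 + τ * x ^ 2) := by
        rw [abs_le]; constructor <;> linarith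
      rw [abs_mul, abs_mul, abs_mul, abs_of_pos hτ]
      calc τ * (τ * |x|) * |12 - 8 * (τ * x ^ 2)| ≤
            τ * (1 + τ * x ^ 2) * (12 * (1 + τ * x ^ 2)) := by gcongr
        _ = 12 * τ * (1 + τ * x ^ 2) ^ 2 := by ring
        _ ≤ 12 * τ * (1 + τ * x ^ 2) ^ 3 := by
            apply mul_le_mul_of_nonneg_left _ (by positivity)
            nlinarith [pow_nonneg hX 2, pow_nonneg hX 3])
    ((sum_gauss_half hτ hτ1).1.mul_left _)
    (Ginf := √(Real.pi / τ) / 2)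
    (by
      rw [← integral_gaussian_Ioi τ]
      simp only [hexp]
      apply MeasureTheory.intervalIntegral_tendsto_integral_Ioi 0
      · exact (integrable_exp_neg_mul_sq hτ).integrableOn
      · exact tendsto_natCast_atTop_atTop)
    (by
      apply tendsto_of_bound (C := 1) hτ hτ1
      intro j
      rw [abs_of_pos (Real.exp_pos _), one_mul]
      apply Real.exp_le_exp.mpr
      have : 0 ≤ τ * (j : ℝ) ^ 2 := by positivity
      linarith)
    (by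
      apply tendsto_of_bound (C := 48 * 2) hτ hτ1
      intro j
      have hX : 0 ≤ τ * (j : ℝ) ^ 2 := by positivity
      apply pow_exp_le hX (by norm_num)
      have h1 := mul_le_one_add hτ hτ1 (x := (j : ℝ))
      rw [abs_mul, abs_mul, abs_of_pos hτ, abs_neg, abs_two]
      calc 2 * (τ * |(j : ℝ)|) ≤ 2 * (1 + τ * (j : ℝ) ^ 2) := by gcongr
        _ ≤ 2 * (1 + τ * (j : ℝ) ^ 2) ^ 3 := by nlinarith [pow_nonneg hX 2, pow_nonneg hX 3])
    (by
      apply tendsto_of_bound (C := 48 * 4) hτ hτ1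
      intro j
      have hX : 0 ≤ τ * (j : ℝ) ^ 2 := by positivity
      apply pow_exp_le hX (by norm_num)
      rw [abs_mul, abs_of_pos hτ]
      have h2 : |-2 + 4 * (τ * (j : ℝ) ^ 2)| ≤ 4 * (1 + τ * (j : ℝ) ^ 2) := by
        rw [abs_le]; constructor <;> linarith
      calc τ * |-2 + 4 * (τ * (j : ℝ) ^ 2)| ≤ 1 * (4 * (1 + τ * (j : ℝ) ^ 2)) := by gcongr
        _ ≤ 4 * (1 + τ * (j : ℝ) ^ 2) ^ 3 := by nlinarith [pow_nonneg hX 2, pow_nonneg hX 3])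
    (summable_exp' hτ hτ1 hΦ)
  have e1 : wM q φ * (√(Real.pi / τ) / 2) -
      emF q φ (fun x => ∫ y in (0 : ℝ)..x, Real.exp (-(τ * y ^ 2)))
      (fun x => Real.exp (-(τ * x ^ 2)))
      (fun x => (-2 * (τ * x)) * Real.exp (-(τ * x ^ 2)))
      (fun x => (τ * (-2 + 4 * (τ * x ^ 2))) * Real.exp (-(τ * x ^ 2))) 0
      = (wM q φ * (√(Real.pi / τ) / 2) - wA q φ 0) + 2 * τ * wC q φ 0 := by
    unfold emF
    simp
    ring
  rw [e1] at h
  have hC := (weights_le hq hΦ 0).2.2.2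
  have hK := wK_pos q
  have hb := (sum_gauss_half hτ hτ1).2
  rw [tsum_mul_left] at h
  have h5 : 4 * (wK q * Φ) * (48 * (12 * τ) * ∑' x : ℕ, Real.exp (-(τ * (x : ℝ) ^ 2) / 2))
      ≤ 4 * (wK q * Φ) * (48 * 12 * 18) * √τ := by
    calc 4 * (wK q * Φ) * (48 * (12 * τ) * ∑' x : ℕ, Real.exp (-(τ * (x : ℝ) ^ 2) / 2))
      ≤ 4 * (wK q * Φ) * (48 * (12 * τ) * (18 / √τ)) := by gcongr
    _ = 4 * (wK q * Φ) * (48 * 12 * 18) * √τ := by
        have : τ * (18 / √τ) = 18 * √τ := by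
          rw [mul_div_assoc', div_eq_iff hs.ne']
          nth_rewrite 1 [← hss]; ring
        calc 4 * (wK q * Φ) * (48 * (12 * τ) * (18 / √τ))
            = 4 * (wK q * Φ) * (48 * 12 * (τ * (18 / √τ))) := by ring
          _ = _ := by rw [this]; ring
  have h6 : |2 * τ * wC q φ 0| ≤ 4 * (wK q * Φ) * √τ := by
    rw [abs_mul, abs_of_pos (by positivity)]
    calc 2 * τ * |wC q φ 0| ≤ 2 * √τ * (wK q * Φ) := by gcongr
      _ ≤ 4 * (wK q * Φ) * √τ := by nlinarith [mul_nonneg (mul_nonneg hK.le hΦ0) hs.le]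
  have h7 : ∑' j : ℕ, φ j * Real.exp (-(τ * (j : ℝ) ^ 2)) -
      (wM q φ * (√(Real.pi / τ) / 2) - wA q φ 0) =
      (∑' j : ℕ, φ j * Real.exp (-(τ * (j : ℝ) ^ 2)) -
      ((wM q φ * (√(Real.pi / τ) / 2) - wA q φ 0) + 2 * τ * wC q φ 0)) + 2 * τ * wC q φ 0 := by ring
  rw [h7]
  refine (abs_add_le _ _).trans ?_
  have h8 := mul_nonneg (mul_nonneg hK.le hΦ0) hs.le
  linarith

end H419R2
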