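import Pool.Agent.H419R2.B2

/-! Rows of wedge sums. -/

namespace H419R2

open Finset Filter Topology

/-- quadratic form on a wedge -/
structure Wedge where
  κ : ℕ
  a : ℝ
  b : ℝ
  d : ℝ
  δ : ℝ
  hδ : 0 < δ
  hpos : ∀ σ ∈ Set.Icc (0 : ℝ) κ, δ ≤ a + b * σ + d * σ ^ 2

namespace Wedge

variable (V : Wedge)

/-- the form -/
def G (u w : ℝ) : ℝ := V.a * u ^ 2 + V.b * u * w + V.d * w ^ 2

/-- bound for the derivative -/
def L : ℝ := |V.b| + 2 * |V.d| * V.κ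

theorem L_nonneg : 0 ≤ V.L := by unfold L; positivity

theorem G_ge {u w : ℝ} (hu : 0 ≤ u) (hw : 0 ≤ w) (hwu : w ≤ V.κ * u) : V.δ * u ^ 2 ≤ V.G u w := by
  rcases hu.eq_or_lt with h | h
  · subst h
    have : w = 0 := by linarith
    subst this
    simp [G]
  · have hσ : w / u ∈ Set.Icc (0 : ℝ) V.κ := ⟨by positivity, by rw [div_le_iff₀ h]; exact hwu⟩
    have h1 := V.hpos _ hσ
    have h2 : V.G u w = (V.a + V.b * (w / u) + V.d * (w / u) ^ 2) * u ^ 2 := by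
      unfold G; field_simp
    rw [h2]
    exact mul_le_mul_of_nonneg_right h1 (by positivity)

theorem Y_le {t u w : ℝ} (ht : 0 ≤ t) (hu : 0 ≤ u) (hw : 0 ≤ w) (hwu : w ≤ V.κ * u) :
    |t * (V.b * u + 2 * V.d * w)| ≤ t * (V.L * u) := by
  rw [abs_mul, abs_of_nonneg ht]
  apply mul_le_mul_of_nonneg_left _ ht
  calc |V.b * u + 2 * V.d * w| ≤ |V.b * u| + |2 * V.d * w| := abs_add_le _ _
    _ = |V.b| * u + 2 * |V.d| * w := by
        rw [abs_mul, abs_mul, abs_mul, abs_of_nonneg hu, abs_of_nonneg hw, abs_two]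
    _ ≤ |V.b| * u + 2 * |V.d| * (V.κ * u) := by gcongr
    _ = V.L * u := by unfold L; ring

theorem chain_row (t u : ℝ) : Chain (fun w => ∫ y in (0 : ℝ)..w, Real.exp (-(t * V.G u y)))
    (fun w => Real.exp (-(t * V.G u w)))
    (fun w => (-(t * (V.b * u + 2 * V.d * w))) * Real.exp (-(t * V.G u w)))
    (fun w => ((t * (V.b * u + 2 * V.d * w)) ^ 2 - 2 * t * V.d) * Real.exp (-(t * V.G u w)))
    (fun w => (6 * t * V.d * (t * (V.b * u + 2 * V.d * w)) - (t * (V.b * u + 2 * V.d * w)) ^ 3)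
      * Real.exp (-(t * V.G u w))) := by
  have hG : ∀ w : ℝ, HasDerivAt (fun w => V.G u w) (V.b * u + 2 * V.d * w) w := by
    intro w
    unfold G
    have h1 := (((hasDerivAt_id w).const_mul (V.b * u)).const_add (V.a * u ^ 2)).add
      ((hasDerivAt_pow 2 w).const_mul V.d)
    refine h1.congr_deriv ?_
    norm_num
    ring
  have he : ∀ w : ℝ, HasDerivAt (fun w : ℝ => Real.exp (-(t * V.G u w)))
      (Real.exp (-(t * V.G u w)) * (-(t * (V.b * u + 2 * V.d * w)))) w := by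
    intro w
    exact ((hG w).const_mul t).neg.exp
  have hY : ∀ w : ℝ, HasDerivAt (fun w => t * (V.b * u + 2 * V.d * w)) (2 * t * V.d) w := by
    intro w
    have h1 := (((hasDerivAt_id w).const_mul (2 * V.d)).const_add (V.b * u)).const_mul t
    refine h1.congr_deriv ?_
    ring
  constructor
  · intro w
    refine (Continuous.integral_hasStrictDerivAt ?_ 0 w).hasDerivAt
    unfold G
    fun_prop
  · intro w
    refine (he w).congr_deriv ?_
    ring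
  · intro w
    have h := ((hY w).neg).mul (he w)
    refine h.congr_deriv ?_
    simp only [Pi.neg_apply]
    ring
  · intro w
    have h := (((hY w).pow 2).sub_const (2 * t * V.d)).mul (he w)
    refine h.congr_deriv ?_
    norm_num
    ring

/-- main term of a row -/
noncomputable def rowMain (q : ℕ) (φ : ℕ → ℝ) (t : ℝ) (u : ℕ) : ℝ :=
  wM q φ * (∫ y in (0 : ℝ)..((V.κ * u : ℕ) : ℝ), Real.exp (-(t * V.G u y)))
  + wA q φ (V.κ * u) * Real.exp (-(t * V.G u (V.κ * u : ℕ)))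
  - wA q φ 0 * Real.exp (-(t * V.G u 0))
  + wB q φ (V.κ * u) * ((-(t * (V.b * u + 2 * V.d * (V.κ * u : ℕ)))) * Real.exp (-(t * V.G u (V.κ * u : ℕ))))
  - wB q φ 0 * ((-(t * (V.b * u + 2 * V.d * 0))) * Real.exp (-(t * V.G u 0)))

/-- constant in the row estimate -/
noncomputable def rowC (q : ℕ) : ℝ :=
  wK q * (4 * (48 * V.κ * (6 * |V.d| * V.L / V.δ + V.L ^ 3 / V.δ ^ 2))
    + 2 * (48 * (V.L ^ 2 / V.δ + 2 * |V.d|)))

theorem rowC_nonneg (q : ℕ) : 0 ≤ V.rowC q := by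
  unfold rowC
  have := wK_pos q
  have := V.hδ
  have := V.L_nonneg
  positivity

theorem row_est {q : ℕ} (hq : 0 < q) {φ : ℕ → ℝ} (hφ : ∀ j, φ (j + q) = φ j) {Φ : ℝ}
    (hΦ : ∀ j, |φ j| ≤ Φ) {t : ℝ} (ht : 0 < t) (u : ℕ) :
    |∑ w ∈ range (V.κ * u), φ w * Real.exp (-(t * V.G u w)) - V.rowMain q φ t u|
      ≤ V.rowC q * Φ * (t * Real.exp (-(t * V.δ * (u : ℝ) ^ 2) / 2)) := by
  have hΦ0 : 0 ≤ Φ := (abs_nonneg _).trans (hΦ 0)
  have hδ := V.hδ
  have hL := V.L_nonneg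
  have hK := wK_pos q
  have hu0 : (0 : ℝ) ≤ u := Nat.cast_nonneg u
  set X := t * V.δ * (u : ℝ) ^ 2 with hX
  have hX0 : 0 ≤ X := by positivity
  have hexp : ∀ w : ℝ, 0 ≤ w → w ≤ V.κ * u → Real.exp (-(t * V.G u w)) ≤ Real.exp (-X) := by
    intro w hw hwu
    apply Real.exp_le_exp.mpr
    have := V.G_ge hu0 hw hwu
    rw [hX]
    nlinarith
  have h3 : ∀ x : ℝ, 0 ≤ x → x ≤ V.κ * u →
      |(6 * t * V.d * (t * (V.b * u + 2 * V.d * x)) - (t * (V.b * u + 2 * V.d * x)) ^ 3)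
      * Real.exp (-(t * V.G u x))| ≤
      (6 * t * |V.d| * (t * (V.L * u)) + (t * (V.L * u)) ^ 3) * Real.exp (-X) := by
    intro x hx hxu
    have hY := V.Y_le ht.le hu0 hx hxu
    set Y := t * (V.b * u + 2 * V.d * x)
    rw [abs_mul, abs_of_pos (Real.exp_pos _)]
    apply mul_le_mul _ (hexp x hx hxu) (Real.exp_pos _).le (by positivity)
    calc |6 * t * V.d * Y - Y ^ 3| ≤ |6 * t * V.d * Y| + |Y ^ 3| := abs_sub _ _
      _ = 6 * t * |V.d| * |Y| + |Y| ^ 3 := by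
          rw [abs_mul, abs_mul, abs_mul, abs_pow, abs_of_pos ht]; norm_num
      _ ≤ _ := by gcongr
  have h := em_finite hq hφ hΦ (V.chain_row t u) (V.κ * u)
    (M := fun _ => (6 * t * |V.d| * (t * (V.L * u)) + (t * (V.L * u)) ^ 3) * Real.exp (-X))
    (by
      intro j hj x hx
      apply h3
      · exact (Nat.cast_nonneg j).trans hx.1
      · refine hx.2.trans ?_
        have : j + 1 ≤ V.κ * u := hj
        exact_mod_cast this)
  have h2 : ∀ x : ℝ, 0 ≤ x → x ≤ V.κ * u →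
      |((t * (V.b * u + 2 * V.d * x)) ^ 2 - 2 * t * V.d) * Real.exp (-(t * V.G u x))| ≤
      48 * (t * (V.L ^ 2 / V.δ + 2 * |V.d|)) * Real.exp (-X / 2) := by
    intro x hx hxu
    have hY := V.Y_le ht.le hu0 hx hxu
    set Y := t * (V.b * u + 2 * V.d * x)
    rw [abs_mul, abs_of_pos (Real.exp_pos _)]
    have e1 : |Y ^ 2 - 2 * t * V.d| ≤ t * (V.L ^ 2 / V.δ + 2 * |V.d|) * (1 + X) ^ 3 := by
      have e2 : |Y ^ 2 - 2 * t * V.d| ≤ (t * (V.L * u)) ^ 2 + 2 * t * |V.d| := by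
        calc |Y ^ 2 - 2 * t * V.d| ≤ |Y ^ 2| + |2 * t * V.d| := abs_sub _ _
          _ = |Y| ^ 2 + 2 * t * |V.d| := by
            rw [abs_mul, abs_mul, abs_pow, abs_of_pos ht]; norm_num
          _ ≤ _ := by gcongr
      have e3 : (t * (V.L * u)) ^ 2 = t * (V.L ^ 2 / V.δ) * X := by
        rw [hX]; field_simp
      have e4 : X ≤ (1 + X) ^ 3 := by nlinarith [pow_nonneg hX0 2, pow_nonneg hX0 3]
      have e5 : 1 ≤ (1 + X) ^ 3 := by nlinarith [pow_nonneg hX0 2, pow_nonneg hX0 3]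
      calc |Y ^ 2 - 2 * t * V.d| ≤ t * (V.L ^ 2 / V.δ) * X + 2 * t * |V.d| * 1 := by
            rw [← e3]; linarith
        _ ≤ t * (V.L ^ 2 / V.δ) * (1 + X) ^ 3 + 2 * t * |V.d| * (1 + X) ^ 3 := by gcongr
        _ = _ := by ring
    calc |Y ^ 2 - 2 * t * V.d| * Real.exp (-(t * V.G u x))
        ≤ (t * (V.L ^ 2 / V.δ + 2 * |V.d|) * (1 + X) ^ 3) * Real.exp (-X) :=
          mul_le_mul e1 (hexp x hx hxu) (Real.exp_pos _).le (by positivity)
      _ = t * (V.L ^ 2 / V.δ + 2 * |V.d|) * ((1 + X) ^ 3 * Real.exp (-X)) := by ring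
      _ ≤ t * (V.L ^ 2 / V.δ + 2 * |V.d|) * (48 * Real.exp (-X / 2)) :=
          mul_le_mul_of_nonneg_left (cube_exp_le hX0) (by positivity)
      _ = _ := by ring
  rw [Finset.sum_const, Finset.card_range, nsmul_eq_mul] at h
  have h4 : ((V.κ * u : ℕ) : ℝ) *
      ((6 * t * |V.d| * (t * (V.L * u)) + (t * (V.L * u)) ^ 3) * Real.exp (-X)) ≤
      t * (48 * V.κ * (6 * |V.d| * V.L / V.δ + V.L ^ 3 / V.δ ^ 2)) * Real.exp (-X / 2) := by
    have e1 : ((V.κ * u : ℕ) : ℝ) *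
      ((6 * t * |V.d| * (t * (V.L * u)) + (t * (V.L * u)) ^ 3) * Real.exp (-X)) =
      t * V.κ * ((6 * |V.d| * V.L / V.δ) * X + (V.L ^ 3 / V.δ ^ 2) * X ^ 2) * Real.exp (-X) := by
      rw [hX]; push_cast; field_simp
    rw [e1]
    have e4 : X ≤ (1 + X) ^ 3 := by nlinarith [pow_nonneg hX0 2, pow_nonneg hX0 3]
    have e5 : X ^ 2 ≤ (1 + X) ^ 3 := by nlinarith [pow_nonneg hX0 2, pow_nonneg hX0 3]
    calc t * V.κ * ((6 * |V.d| * V.L / V.δ) * X + (V.L ^ 3 / V.δ ^ 2) * X ^ 2) * Real.exp (-X)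
        ≤ t * V.κ * ((6 * |V.d| * V.L / V.δ) * (1 + X) ^ 3 + (V.L ^ 3 / V.δ ^ 2) * (1 + X) ^ 3)
          * Real.exp (-X) := by gcongr
      _ = t * V.κ * (6 * |V.d| * V.L / V.δ + V.L ^ 3 / V.δ ^ 2) * ((1 + X) ^ 3 * Real.exp (-X)) := by
          ring
      _ ≤ t * V.κ * (6 * |V.d| * V.L / V.δ + V.L ^ 3 / V.δ ^ 2) * (48 * Real.exp (-X / 2)) :=
          mul_le_mul_of_nonneg_left (cube_exp_le hX0) (by positivity)
      _ = _ := by ring
  have h5 := weights_le hq hΦ (V.κ * u)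
  have h6 := weights_le hq hΦ 0
  set S := ∑ w ∈ range (V.κ * u), φ w * Real.exp (-(t * V.G u w))
  set g2 : ℝ → ℝ := fun w => ((t * (V.b * u + 2 * V.d * w)) ^ 2 - 2 * t * V.d) *
    Real.exp (-(t * V.G u w)) with hg2
  set F := emF q φ (fun w => ∫ y in (0 : ℝ)..w, Real.exp (-(t * V.G u y)))
    (fun w => Real.exp (-(t * V.G u w)))
    (fun w => (-(t * (V.b * u + 2 * V.d * w))) * Real.exp (-(t * V.G u w))) g2 with hF
  have key : S - V.rowMain q φ t u = (S - (F (V.κ * u) - F 0)) +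
      (wC q φ (V.κ * u) * g2 (V.κ * u : ℕ) - wC q φ 0 * g2 0) := by
    rw [hF]
    unfold rowMain emF
    simp only [Nat.cast_zero, intervalIntegral.integral_same, mul_zero]
    ring
  rw [key]
  have h7 : |wC q φ (V.κ * u) * g2 (V.κ * u : ℕ)| ≤
      (wK q * Φ) * (48 * (t * (V.L ^ 2 / V.δ + 2 * |V.d|)) * Real.exp (-X / 2)) := by
    rw [abs_mul]
    apply mul_le_mul h5.2.2.2 (h2 _ (by positivity) (by push_cast; exact le_refl _))
      (abs_nonneg _) (by positivity)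
  have h8 : |wC q φ 0 * g2 0| ≤
      (wK q * Φ) * (48 * (t * (V.L ^ 2 / V.δ + 2 * |V.d|)) * Real.exp (-X / 2)) := by
    rw [abs_mul]
    apply mul_le_mul h6.2.2.2 (h2 _ (le_refl _) (by positivity))
      (abs_nonneg _) (by positivity)
  calc |(S - (F (V.κ * u) - F 0)) +
      (wC q φ (V.κ * u) * g2 (V.κ * u : ℕ) - wC q φ 0 * g2 0)| ≤
      |S - (F (V.κ * u) - F 0)| + (|wC q φ (V.κ * u) * g2 (V.κ * u : ℕ)| + |wC q φ 0 * g2 0|) := by
        refine (abs_add_le _ _).trans ?_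
        gcongr
        exact abs_sub _ _
    _ ≤ 4 * (wK q * Φ) * (t * (48 * V.κ * (6 * |V.d| * V.L / V.δ + V.L ^ 3 / V.δ ^ 2)) *
          Real.exp (-X / 2)) +
        ((wK q * Φ) * (48 * (t * (V.L ^ 2 / V.δ + 2 * |V.d|)) * Real.exp (-X / 2)) +
         (wK q * Φ) * (48 * (t * (V.L ^ 2 / V.δ + 2 * |V.d|)) * Real.exp (-X / 2))) := by
        gcongr
        refine h.trans ?_
        exact mul_le_mul_of_nonneg_left h4 (by positivity)
    _ = _ := by unfold rowC; ring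

end Wedge

end H419R2
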