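import Pool.Agent.H419R2.B3

/-! Asymptotics of wedge sums. -/

namespace H419R2

open Finset Filter Topology

theorem wA_periodic {q : ℕ} {φ : ℕ → ℝ} (hφ : ∀ j, φ (j + q) = φ j) (j n : ℕ) :
    wA q φ (j + n * q) = wA q φ j := by
  unfold wA
  apply Finset.sum_congr rfl
  intro l _
  congr 1
  have : ∀ n i : ℕ, φ (i + n * q) = φ i := by
    intro n
    induction n with
    | zero => intro i; simp
    | succ n ih => intro i; rw [Nat.succ_mul, ← add_assoc, hφ, ih]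
  rw [show j + n * q + l = (j + l) + n * q by ring, this]

theorem wB_periodic {q : ℕ} {φ : ℕ → ℝ} (hφ : ∀ j, φ (j + q) = φ j) (j n : ℕ) :
    wB q φ (j + n * q) = wB q φ j := by
  unfold wB
  apply Finset.sum_congr rfl
  intro l _
  congr 1
  have : ∀ n i : ℕ, φ (i + n * q) = φ i := by
    intro n
    induction n with
    | zero => intro i; simp
    | succ n ih => intro i; rw [Nat.succ_mul, ← add_assoc, hφ, ih]
  rw [show j + n * q + l = (j + l) + n * q by ring, this]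

namespace Wedge

variable (V : Wedge)

/-- restriction to slope `σ` -/
def gs (σ : ℝ) : ℝ := V.a + V.b * σ + V.d * σ ^ 2

/-- upper bound for `gs` -/
def Γ : ℝ := |V.a| + |V.b| * V.κ + |V.d| * V.κ ^ 2 + 1

theorem gs_ge {σ : ℝ} (h : σ ∈ Set.Icc (0 : ℝ) V.κ) : V.δ ≤ V.gs σ := V.hpos σ h

theorem gs_pos {σ : ℝ} (h : σ ∈ Set.Icc (0 : ℝ) V.κ) : 0 < V.gs σ := V.hδ.trans_le (V.gs_ge h)

theorem gs_le {σ : ℝ} (h : σ ∈ Set.Icc (0 : ℝ) V.κ) : V.gs σ ≤ V.Γ := by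
  unfold gs Γ
  have h1 : V.a ≤ |V.a| := le_abs_self _
  have h2 : V.b * σ ≤ |V.b| * V.κ := by
    calc V.b * σ ≤ |V.b| * σ := mul_le_mul_of_nonneg_right (le_abs_self _) h.1
      _ ≤ |V.b| * V.κ := mul_le_mul_of_nonneg_left h.2 (abs_nonneg _)
  have h3 : V.d * σ ^ 2 ≤ |V.d| * V.κ ^ 2 := by
    calc V.d * σ ^ 2 ≤ |V.d| * σ ^ 2 := mul_le_mul_of_nonneg_right (le_abs_self _) (by positivity)
      _ ≤ |V.d| * V.κ ^ 2 := by
        apply mul_le_mul_of_nonneg_left _ (abs_nonneg _)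
        exact pow_le_pow_left₀ h.1 h.2 2
  linarith

theorem Γ_pos : 0 < V.Γ := by unfold Γ; positivity

theorem zero_mem : (0 : ℝ) ∈ Set.Icc (0 : ℝ) V.κ := ⟨le_refl _, Nat.cast_nonneg _⟩
theorem κ_mem : (V.κ : ℝ) ∈ Set.Icc (0 : ℝ) V.κ := ⟨Nat.cast_nonneg _, le_refl _⟩

/-- wedge sum -/
noncomputable def WS (f : ℕ → ℕ → ℝ) (t : ℝ) : ℝ :=
  ∑' u : ℕ, ∑ w ∈ range (V.κ * u), f u w * Real.exp (-(t * V.G u w))

/-- the constant term -/
noncomputable def C0 (q : ℕ) (f : ℕ → ℕ → ℝ) : ℝ :=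
  -(V.κ * wB q (fun u => wM q (f u)) 0) - wA q (fun u => wA q (f u) (V.κ * u)) 0
  + wA q (fun u => wA q (f u) 0) 0
  - (V.b + 2 * V.d * V.κ) * wM q (fun u => wB q (f u) (V.κ * u)) / (2 * V.gs V.κ)
  + V.b * wM q (fun u => wB q (f u) 0) / (2 * V.gs 0)

theorem row_bound {f : ℕ → ℕ → ℝ} {Φ : ℝ} (hΦ : ∀ u w, |f u w| ≤ Φ) {t : ℝ} (ht : 0 < t) (u : ℕ) :
    |∑ w ∈ range (V.κ * u), f u w * Real.exp (-(t * V.G u w))| ≤
      Φ * V.κ * (u * Real.exp (-(t * V.δ * (u : ℝ) ^ 2))) := by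
  have hΦ0 : 0 ≤ Φ := (abs_nonneg _).trans (hΦ 0 0)
  calc |∑ w ∈ range (V.κ * u), f u w * Real.exp (-(t * V.G u w))|
      ≤ ∑ w ∈ range (V.κ * u), |f u w * Real.exp (-(t * V.G u w))| :=
        Finset.abs_sum_le_sum_abs _ _
    _ ≤ ∑ w ∈ range (V.κ * u), Φ * Real.exp (-(t * V.δ * (u : ℝ) ^ 2)) := by
        apply Finset.sum_le_sum
        intro w hw
        rw [abs_mul, abs_of_pos (Real.exp_pos _)]
        apply mul_le_mul (hΦ _ _) _ (Real.exp_pos _).le hΦ0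
        apply Real.exp_le_exp.mpr
        have hw' : w < V.κ * u := Finset.mem_range.mp hw
        have hw2 : (w : ℝ) ≤ V.κ * u := by exact_mod_cast hw'.le
        have := V.G_ge (Nat.cast_nonneg u) (Nat.cast_nonneg w) hw2
        nlinarith
    _ = Φ * V.κ * (u * Real.exp (-(t * V.δ * (u : ℝ) ^ 2))) := by
        rw [Finset.sum_const, Finset.card_range, nsmul_eq_mul]; push_cast; ring

theorem summable_rows {f : ℕ → ℕ → ℝ} {Φ : ℝ} (hΦ : ∀ u w, |f u w| ≤ Φ) {t : ℝ} (ht : 0 < t)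
    (ht1 : t * V.Γ ≤ 1) :
    Summable (fun u : ℕ => ∑ w ∈ range (V.κ * u), f u w * Real.exp (-(t * V.G u w))) := by
  have hδ : 0 < t * V.δ := mul_pos ht V.hδ
  have hδ1 : t * V.δ ≤ 1 := by
    have := (V.gs_ge V.zero_mem).trans (V.gs_le V.zero_mem)
    nlinarith
  have h1 := summable_xexp hδ hδ1 (φ := fun _ => 1) (Φ := 1) (fun _ => by simp)
  simp only [one_mul] at h1
  apply Summable.of_norm_bounded (h1.mul_left (Φ * V.κ))
  intro u
  rw [Real.norm_eq_abs]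
  exact V.row_bound hΦ ht u

theorem G_end (u : ℕ) : V.G u (V.κ * u : ℕ) = V.gs V.κ * (u : ℝ) ^ 2 := by
  unfold G gs; push_cast; ring

theorem G_zero (u : ℕ) : V.G u 0 = V.gs 0 * (u : ℝ) ^ 2 := by
  unfold G gs; ring

theorem P0_est {q : ℕ} (hq : 0 < q) {θ : ℕ → ℝ} (hθ : ∀ j, θ (j + q) = θ j) {Φ : ℝ}
    (hΦ : ∀ j, |θ j| ≤ Φ) {t : ℝ} (ht : 0 < t) (ht1 : t * V.Γ ≤ 1) :
    Summable (fun u : ℕ => θ u *
      (∫ y in (0 : ℝ)..((V.κ * u : ℕ) : ℝ), Real.exp (-(t * V.G u y)))) ∧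
    |∑' u : ℕ, θ u * (∫ y in (0 : ℝ)..((V.κ * u : ℕ) : ℝ), Real.exp (-(t * V.G u y))) -
      ((wM q θ / 2 * ∫ σ in (0 : ℝ)..V.κ, (V.gs σ)⁻¹) / t - V.κ * wB q θ 0)| ≤
      V.κ * (4 * (wK q * Φ) * (48 * 24 * 18) * √V.Γ) * √t := by
  have hΦ0 : 0 ≤ Φ := (abs_nonneg _).trans (hΦ 0)
  have hδ : 0 < t * V.δ := mul_pos ht V.hδ
  have hδ1 : t * V.δ ≤ 1 := by
    have := (V.gs_ge V.zero_mem).trans (V.gs_le V.zero_mem)
    nlinarith
  have hgc : Continuous V.gs := by unfold gs; fun_prop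
  set F : ℕ → ℝ → ℝ := fun u σ => θ u * (u * Real.exp (-(t * V.gs σ * (u : ℝ) ^ 2))) with hF
  have hbsum := (summable_xexp hδ hδ1 (φ := fun _ => 1) (Φ := 1) (fun _ => by simp)).mul_left Φ
  simp only [one_mul] at hbsum
  have hFb : ∀ u : ℕ, ∀ σ ∈ Set.Icc (0 : ℝ) V.κ, ‖F u σ‖ ≤
      Φ * (u * Real.exp (-(t * V.δ * (u : ℝ) ^ 2))) := by
    intro u σ hσ
    rw [Real.norm_eq_abs, hF]
    simp only
    rw [abs_mul, abs_mul, abs_of_pos (Real.exp_pos _), Nat.abs_cast]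
    apply mul_le_mul (hΦ u) _ (by positivity) hΦ0
    apply mul_le_mul_of_nonneg_left _ (Nat.cast_nonneg u)
    apply Real.exp_le_exp.mpr
    have h1 := V.gs_ge hσ
    have h2 : t * V.δ ≤ t * V.gs σ := mul_le_mul_of_nonneg_left h1 ht.le
    have h3 : 0 ≤ (u : ℝ) ^ 2 := by positivity
    nlinarith
  have hFc : ∀ u, Continuous (F u) := by
    intro u; rw [hF]; simp only; fun_prop
  have hsub : Set.uIoc (0 : ℝ) V.κ ⊆ Set.Icc (0 : ℝ) V.κ := by
    rw [Set.uIoc_of_le (Nat.cast_nonneg _)]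
    exact Set.Ioc_subset_Icc_self
  have hHS : HasSum (fun u => ∫ σ in (0 : ℝ)..V.κ, F u σ)
      (∫ σ in (0 : ℝ)..V.κ, ∑' u, F u σ) := by
    apply intervalIntegral.hasSum_integral_of_dominated_convergence (F := F)
      (f := fun σ => ∑' u, F u σ)
      (fun (u : ℕ) (_ : ℝ) => Φ * (u * Real.exp (-(t * V.δ * (u : ℝ) ^ 2))))
    · intro u; exact (hFc u).aestronglyMeasurable
    · intro u
      filter_upwards with σ hσ
      exact hFb u σ (hsub hσ)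
    · filter_upwards with σ _
      exact hbsum
    · exact intervalIntegrable_const
    · filter_upwards with σ hσ
      exact (Summable.of_norm_bounded hbsum (fun u => hFb u σ (hsub hσ))).hasSum
  have hint : ∀ u : ℕ, ∫ σ in (0 : ℝ)..V.κ, F u σ =
      θ u * (∫ y in (0 : ℝ)..((V.κ * u : ℕ) : ℝ), Real.exp (-(t * V.G u y))) := by
    intro u
    rw [hF]
    simp only
    rw [intervalIntegral.integral_const_mul, intervalIntegral.integral_const_mul]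
    congr 1
    have h1 := intervalIntegral.mul_integral_comp_mul_left (a := 0) (b := V.κ)
      (f := fun y => Real.exp (-(t * V.G u y))) (u : ℝ)
    rw [mul_zero] at h1
    push_cast
    rw [mul_comm (V.κ : ℝ) (u : ℝ), ← h1]
    congr 1
    apply intervalIntegral.integral_congr
    intro σ _
    simp only
    congr 1
    unfold gs G
    ring
  simp only [hint] at hHS
  refine ⟨hHS.summable, ?_⟩
  rw [hHS.tsum_eq]
  have hSc : ContinuousOn (fun σ => ∑' u, F u σ) (Set.Icc (0 : ℝ) V.κ) :=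
    continuousOn_tsum (fun u => (hFc u).continuousOn) hbsum hFb
  have hinv : ContinuousOn (fun σ => (V.gs σ)⁻¹) (Set.Icc (0 : ℝ) V.κ) :=
    hgc.continuousOn.inv₀ (fun σ hσ => (V.gs_pos hσ).ne')
  have hi1 : IntervalIntegrable (fun σ => ∑' u, F u σ) MeasureTheory.volume (0 : ℝ) V.κ := by
    apply ContinuousOn.intervalIntegrable
    rw [Set.uIcc_of_le (Nat.cast_nonneg _)]; exact hSc
  have hi2 : IntervalIntegrable (fun σ => wM q θ / 2 / t * (V.gs σ)⁻¹ - wB q θ 0)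
      MeasureTheory.volume (0 : ℝ) V.κ := by
    apply ContinuousOn.intervalIntegrable
    rw [Set.uIcc_of_le (Nat.cast_nonneg _)]
    exact (continuousOn_const.mul hinv).sub continuousOn_const
  have hi3 : IntervalIntegrable (fun σ => (V.gs σ)⁻¹) MeasureTheory.volume (0 : ℝ) V.κ := by
    apply ContinuousOn.intervalIntegrable
    rw [Set.uIcc_of_le (Nat.cast_nonneg _)]
    exact hinv
  have hmain : ∫ σ in (0 : ℝ)..V.κ, (wM q θ / 2 / t * (V.gs σ)⁻¹ - wB q θ 0) =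
      (wM q θ / 2 * ∫ σ in (0 : ℝ)..V.κ, (V.gs σ)⁻¹) / t - V.κ * wB q θ 0 := by
    rw [intervalIntegral.integral_sub (hi3.const_mul _) intervalIntegrable_const,
      intervalIntegral.integral_const_mul, intervalIntegral.integral_const]
    simp only [sub_zero, smul_eq_mul]
    ring
  rw [← hmain, ← intervalIntegral.integral_sub hi1 hi2, ← Real.norm_eq_abs]
  have hn := intervalIntegral.norm_integral_le_of_norm_le_const (a := (0 : ℝ)) (b := V.κ)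
    (f := fun σ => (∑' u, F u σ) - (wM q θ / 2 / t * (V.gs σ)⁻¹ - wB q θ 0))
    (C := 4 * (wK q * Φ) * (48 * 24 * 18) * (√V.Γ * √t)) (by
      intro σ hσ
      have hσ' := hsub hσ
      have hg := V.gs_pos hσ'
      have hτ : 0 < t * V.gs σ := mul_pos ht hg
      have hτ1 : t * V.gs σ ≤ 1 := (mul_le_mul_of_nonneg_left (V.gs_le hσ') ht.le).trans ht1
      have h := gauss_O3 hq hθ hΦ hτ hτ1
      rw [Real.norm_eq_abs]
      have e1 : wM q θ / 2 / t * (V.gs σ)⁻¹ = wM q θ / (2 * (t * V.gs σ)) := by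
        field_simp
      rw [e1]
      refine h.trans ?_
      have hK := wK_pos q
      apply mul_le_mul_of_nonneg_left _ (by positivity)
      rw [← Real.sqrt_mul V.Γ_pos.le]
      apply Real.sqrt_le_sqrt
      rw [mul_comm]
      exact mul_le_mul_of_nonneg_right (V.gs_le hσ') ht.le)
  refine hn.trans ?_
  rw [sub_zero, abs_of_nonneg (Nat.cast_nonneg _)]
  apply le_of_eq
  ring

theorem wedge_asymp {q : ℕ} (hq : 0 < q) {f : ℕ → ℕ → ℝ} (hf1 : ∀ u w, f (u + q) w = f u w)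
    (hf2 : ∀ u w, f u (w + q) = f u w) {Φ : ℝ} (hΦ : ∀ u w, |f u w| ≤ Φ) :
    ∃ c1 c2 C : ℝ, ∀ t : ℝ, 0 < t → t * V.Γ ≤ 1 →
      |V.WS f t - (c1 / t + c2 / √t + V.C0 q f)| ≤ C * √t := by
  have hΦ0 : 0 ≤ Φ := (abs_nonneg _).trans (hΦ 0 0)
  have hK := wK_pos q
  have hΓ := V.Γ_pos
  have hδ := V.hδ
  have hgm : 0 < V.gs V.κ := V.gs_pos V.κ_mem
  have hg0 : 0 < V.gs 0 := V.gs_pos V.zero_mem
  set Φ' := wK q * Φ with hΦ'
  have hΦ'0 : 0 ≤ Φ' := by positivity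
  have hfu : ∀ u, f (u + q) = f u := fun u => funext (hf1 u)
  have hθ0 : ∀ u, |wM q (f u)| ≤ Φ' := fun u => (weights_le hq (hΦ u) 0).1
  have hθ1 : ∀ u, |wA q (f u) (V.κ * u)| ≤ Φ' := fun u => (weights_le hq (hΦ u) _).2.1
  have hθ2 : ∀ u, |wA q (f u) 0| ≤ Φ' := fun u => (weights_le hq (hΦ u) _).2.1
  have hθ3 : ∀ u, |wB q (f u) (V.κ * u)| ≤ Φ' := fun u => (weights_le hq (hΦ u) _).2.2.1
  have hθ4 : ∀ u, |wB q (f u) 0| ≤ Φ' := fun u => (weights_le hq (hΦ u) _).2.2.1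
  have p0 : ∀ u, wM q (f (u + q)) = wM q (f u) := fun u => by rw [hfu]
  have p1 : ∀ u, wA q (f (u + q)) (V.κ * (u + q)) = wA q (f u) (V.κ * u) := fun u => by
    rw [hfu, mul_add, wA_periodic (hf2 u)]
  have p2 : ∀ u, wA q (f (u + q)) 0 = wA q (f u) 0 := fun u => by rw [hfu]
  have p3 : ∀ u, wB q (f (u + q)) (V.κ * (u + q)) = wB q (f u) (V.κ * u) := fun u => by
    rw [hfu, mul_add, wB_periodic (hf2 u)]
  have p4 : ∀ u, wB q (f (u + q)) 0 = wB q (f u) 0 := fun u => by rw [hfu]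
  set θ0 : ℕ → ℝ := fun u => wM q (f u) with hdθ0
  set θ1 : ℕ → ℝ := fun u => wA q (f u) (V.κ * u) with hdθ1
  set θ2 : ℕ → ℝ := fun u => wA q (f u) 0 with hdθ2
  set θ3 : ℕ → ℝ := fun u => wB q (f u) (V.κ * u) with hdθ3
  set θ4 : ℕ → ℝ := fun u => wB q (f u) 0 with hdθ4
  set sκ := V.b + 2 * V.d * V.κ with hsκ
  set Q : ℝ := 4 * (wK q * Φ') * (48 * 24 * 18) with hQ
  have hQ0 : 0 ≤ Q := by positivity
  refine ⟨wM q θ0 / 2 * ∫ σ in (0 : ℝ)..V.κ, (V.gs σ)⁻¹,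
    wM q θ1 * (√(Real.pi / V.gs V.κ) / 2) - wM q θ2 * (√(Real.pi / V.gs 0) / 2),
    V.κ * (Q * √V.Γ) + Q * √V.Γ + Q * √V.Γ + |sκ| * (Q * √V.Γ + wK q * Φ')
      + |V.b| * (Q * √V.Γ + wK q * Φ') + V.rowC q * Φ * (18 / √V.δ), ?_⟩
  intro t ht ht1
  have hts : 0 < √t := Real.sqrt_pos.mpr ht
  have htss : √t * √t = t := Real.mul_self_sqrt ht.le
  have hΓ1 : 1 ≤ V.Γ := by
    unfold Γ
    have := abs_nonneg V.a
    have : 0 ≤ |V.b| * (V.κ : ℝ) := by positivity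
    have : 0 ≤ |V.d| * (V.κ : ℝ) ^ 2 := by positivity
    linarith
  have ht1' : t ≤ 1 := by nlinarith
  have hts1 : √t ≤ 1 := by rw [← Real.sqrt_one]; exact Real.sqrt_le_sqrt ht1'
  have htle : t ≤ √t := by nlinarith
  have hτδ : 0 < t * V.δ := mul_pos ht hδ
  have hτδ1 : t * V.δ ≤ 1 := by
    have := (V.gs_ge V.zero_mem).trans (V.gs_le V.zero_mem)
    nlinarith
  have hτm : 0 < t * V.gs V.κ := mul_pos ht hgm
  have hτm1 : t * V.gs V.κ ≤ 1 := (mul_le_mul_of_nonneg_left (V.gs_le V.κ_mem) ht.le).trans ht1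
  have hτ0 : 0 < t * V.gs 0 := mul_pos ht hg0
  have hτ01 : t * V.gs 0 ≤ 1 := (mul_le_mul_of_nonneg_left (V.gs_le V.zero_mem) ht.le).trans ht1
  obtain ⟨s0, e0⟩ := V.P0_est hq p0 hθ0 ht ht1
  have s1 := summable_exp' hτm hτm1 hθ1
  have s2 := summable_exp' hτ0 hτ01 hθ2
  have s3 := summable_xexp hτm hτm1 hθ3
  have s4 := summable_xexp hτ0 hτ01 hθ4
  have e1 := gauss_O1 hq p1 hθ1 hτm hτm1
  have e2 := gauss_O1 hq p2 hθ2 hτ0 hτ01
  have e3 := gauss_O3 hq p3 hθ3 hτm hτm1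
  have e4 := gauss_O3 hq p4 hθ4 hτ0 hτ01
  -- error rows
  set row : ℕ → ℝ := fun u => ∑ w ∈ range (V.κ * u), f u w * Real.exp (-(t * V.G u w)) with hrow
  have hEb : ∀ u, |row u - V.rowMain q (f u) t u| ≤
      V.rowC q * Φ * (t * Real.exp (-(t * V.δ * (u : ℝ) ^ 2) / 2)) := fun u =>
    V.row_est hq (hf2 u) (hΦ u) ht u
  have hgh := sum_gauss_half hτδ hτδ1
  have hEs : Summable (fun u => row u - V.rowMain q (f u) t u) :=
    Summable.of_norm_bounded ((hgh.1.mul_left t).mul_left (V.rowC q * Φ)) hEb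
  have hEle : |∑' u, (row u - V.rowMain q (f u) t u)| ≤ V.rowC q * Φ * (18 / √V.δ) * √t := by
    rw [← Real.norm_eq_abs]
    refine (tsum_of_norm_bounded ((hgh.1.mul_left t).mul_left (V.rowC q * Φ)).hasSum hEb).trans ?_
    rw [tsum_mul_left, tsum_mul_left]
    have hC := V.rowC_nonneg q
    calc V.rowC q * Φ * (t * ∑' u : ℕ, Real.exp (-(t * V.δ * (u : ℝ) ^ 2) / 2))
        ≤ V.rowC q * Φ * (t * (18 / √(t * V.δ))) := by gcongr; exact hgh.2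
      _ = V.rowC q * Φ * (18 / √V.δ) * √t := by
          rw [Real.sqrt_mul ht.le]
          have : 0 < √V.δ := Real.sqrt_pos.mpr hδ
          field_simp
          rw [sq, htss]
  have hWS : V.WS f t = (∑' u : ℕ, θ0 u * (∫ y in (0 : ℝ)..((V.κ * u : ℕ) : ℝ),
        Real.exp (-(t * V.G u y))))
      + (∑' u : ℕ, θ1 u * Real.exp (-(t * V.gs V.κ * (u : ℝ) ^ 2)))
      - (∑' u : ℕ, θ2 u * Real.exp (-(t * V.gs 0 * (u : ℝ) ^ 2)))
      - t * sκ * (∑' u : ℕ, θ3 u * (u * Real.exp (-(t * V.gs V.κ * (u : ℝ) ^ 2))))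
      + t * V.b * (∑' u : ℕ, θ4 u * (u * Real.exp (-(t * V.gs 0 * (u : ℝ) ^ 2))))
      + ∑' u, (row u - V.rowMain q (f u) t u) := by
    have H := ((((s0.hasSum.add s1.hasSum).sub s2.hasSum).sub
      (s3.hasSum.mul_left (t * sκ))).add (s4.hasSum.mul_left (t * V.b))).add hEs.hasSum
    unfold WS
    rw [← H.tsum_eq]
    apply tsum_congr
    intro u
    have hm : V.rowMain q (f u) t u = θ0 u * (∫ y in (0 : ℝ)..((V.κ * u : ℕ) : ℝ),
        Real.exp (-(t * V.G u y)))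
      + θ1 u * Real.exp (-(t * V.gs V.κ * (u : ℝ) ^ 2))
      - θ2 u * Real.exp (-(t * V.gs 0 * (u : ℝ) ^ 2))
      - t * sκ * (θ3 u * (u * Real.exp (-(t * V.gs V.κ * (u : ℝ) ^ 2))))
      + t * V.b * (θ4 u * (u * Real.exp (-(t * V.gs 0 * (u : ℝ) ^ 2)))) := by
      unfold rowMain
      rw [V.G_end, V.G_zero, ← mul_assoc t (V.gs V.κ), ← mul_assoc t (V.gs 0), hsκ]
      simp only [hdθ0, hdθ1, hdθ2, hdθ3, hdθ4]
      push_cast
      ring
    rw [hm]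
    ring
  have hsq1 : √(Real.pi / (t * V.gs V.κ)) = √(Real.pi / V.gs V.κ) / √t := by
    rw [← Real.sqrt_div' _ ht.le]
    congr 1
    field_simp
  have hsq2 : √(Real.pi / (t * V.gs 0)) = √(Real.pi / V.gs 0) / √t := by
    rw [← Real.sqrt_div' _ ht.le]
    congr 1
    field_simp
  rw [hsq1] at e1
  rw [hsq2] at e2
  have hsm : √(t * V.gs V.κ) ≤ √V.Γ * √t := by
    rw [← Real.sqrt_mul hΓ.le]
    apply Real.sqrt_le_sqrt
    rw [mul_comm]
    exact mul_le_mul_of_nonneg_right (V.gs_le V.κ_mem) ht.le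
  have hsm0 : √(t * V.gs 0) ≤ √V.Γ * √t := by
    rw [← Real.sqrt_mul hΓ.le]
    apply Real.sqrt_le_sqrt
    rw [mul_comm]
    exact mul_le_mul_of_nonneg_right (V.gs_le V.zero_mem) ht.le
  have e1' := e1.trans (mul_le_mul_of_nonneg_left hsm hQ0)
  have e2' := e2.trans (mul_le_mul_of_nonneg_left hsm0 hQ0)
  have e3' := e3.trans (mul_le_mul_of_nonneg_left hsm hQ0)
  have e4' := e4.trans (mul_le_mul_of_nonneg_left hsm0 hQ0)
  rw [hWS]
  set S0 := ∑' u : ℕ, θ0 u * (∫ y in (0 : ℝ)..((V.κ * u : ℕ) : ℝ), Real.exp (-(t * V.G u y)))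
  set S1 := ∑' u : ℕ, θ1 u * Real.exp (-(t * V.gs V.κ * (u : ℝ) ^ 2))
  set S2 := ∑' u : ℕ, θ2 u * Real.exp (-(t * V.gs 0 * (u : ℝ) ^ 2))
  set S3 := ∑' u : ℕ, θ3 u * (u * Real.exp (-(t * V.gs V.κ * (u : ℝ) ^ 2)))
  set S4 := ∑' u : ℕ, θ4 u * (u * Real.exp (-(t * V.gs 0 * (u : ℝ) ^ 2)))
  set S5 := ∑' u, (row u - V.rowMain q (f u) t u)
  have hB3 : |wB q θ3 0| ≤ wK q * Φ' := (weights_le hq hθ3 0).2.2.1
  have hB4 : |wB q θ4 0| ≤ wK q * Φ' := (weights_le hq hθ4 0).2.2.1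
  set c1 := wM q θ0 / 2 * ∫ σ in (0 : ℝ)..V.κ, (V.gs σ)⁻¹
  set F0 := S0 - (c1 / t - V.κ * wB q θ0 0) with hF0
  set F1 := S1 - (wM q θ1 * (√(Real.pi / V.gs V.κ) / √t / 2) - wA q θ1 0) with hF1
  set F2 := S2 - (wM q θ2 * (√(Real.pi / V.gs 0) / √t / 2) - wA q θ2 0) with hF2
  set F3 := S3 - (wM q θ3 / (2 * (t * V.gs V.κ)) - wB q θ3 0) with hF3
  set F4 := S4 - (wM q θ4 / (2 * (t * V.gs 0)) - wB q θ4 0) with hF4
  have key : S0 + S1 - S2 - t * sκ * S3 + t * V.b * S4 + S5 -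
      (c1 / t + (wM q θ1 * (√(Real.pi / V.gs V.κ) / 2) - wM q θ2 * (√(Real.pi / V.gs 0) / 2)) / √t
        + V.C0 q f) = F0 + F1 - F2 - t * sκ * F3 + t * V.b * F4 + S5 +
        t * sκ * wB q θ3 0 - t * V.b * wB q θ4 0 := by
    have e3 : t * sκ * (wM q θ3 / (2 * (t * V.gs V.κ))) = sκ * wM q θ3 / (2 * V.gs V.κ) := by
      field_simp
    have e4 : t * V.b * (wM q θ4 / (2 * (t * V.gs 0))) = V.b * wM q θ4 / (2 * V.gs 0) := by
      field_simp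
    have hC0 : V.C0 q f = -(V.κ * wB q θ0 0) - wA q θ1 0 + wA q θ2 0
        - sκ * wM q θ3 / (2 * V.gs V.κ) + V.b * wM q θ4 / (2 * V.gs 0) := rfl
    rw [hC0, ← e3, ← e4, hF0, hF1, hF2, hF3, hF4]
    ring
  rw [key]
  have hsΓ : 0 ≤ Q * √V.Γ := by positivity
  have q3 : |t * sκ * F3| ≤ |sκ| * (Q * √V.Γ) * √t := by
    rw [abs_mul, abs_mul, abs_of_pos ht]
    calc t * |sκ| * |F3| ≤ 1 * |sκ| * (Q * (√V.Γ * √t)) := by gcongr
      _ = _ := by ring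
  have q4 : |t * V.b * F4| ≤ |V.b| * (Q * √V.Γ) * √t := by
    rw [abs_mul, abs_mul, abs_of_pos ht]
    calc t * |V.b| * |F4| ≤ 1 * |V.b| * (Q * (√V.Γ * √t)) := by gcongr
      _ = _ := by ring
  have q5 : |t * sκ * wB q θ3 0| ≤ |sκ| * (wK q * Φ') * √t := by
    rw [abs_mul, abs_mul, abs_of_pos ht]
    calc t * |sκ| * |wB q θ3 0| ≤ √t * |sκ| * (wK q * Φ') := by gcongr
      _ = _ := by ring
  have q6 : |t * V.b * wB q θ4 0| ≤ |V.b| * (wK q * Φ') * √t := by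
    rw [abs_mul, abs_mul, abs_of_pos ht]
    calc t * |V.b| * |wB q θ4 0| ≤ √t * |V.b| * (wK q * Φ') := by gcongr
      _ = _ := by ring
  rw [abs_le] at e0 e1' e2' hEle q3 q4 q5 q6
  rw [abs_le]
  constructor
  · linarith [e0.1, e1'.1, e2'.2, hEle.1, q3.2, q4.1, q5.1, q6.2]
  · linarith [e0.2, e1'.2, e2'.1, hEle.2, q3.1, q4.2, q5.2, q6.1]

end Wedge

end H419R2
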