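import Pool.Agent.H419R2.B2
import Pool.Agent.H419R2.A3

/-! The `L`-value side. -/

namespace H419R2

open Finset Filter Topology

theorem jac_zero {D : ℕ} (hD : 1 < D) : jacobiSym 0 D = 0 := by
  rw [jacobiSym.zero_left hD]

theorem jac_abs (a : ℤ) (D : ℕ) : |(jacobiSym a D : ℝ)| ≤ 1 := by
  rcases jacobiSym.trichotomy a D with h | h | h <;> rw [h] <;> simp

theorem summable_pairs {D : ℕ} (hD : 1 < D) {f : ℕ → ℝ} (hf0 : f 0 = 0) {Φ : ℝ}
    (hΦ : ∀ j, |f j| ≤ Φ) {t : ℝ} (ht : 0 < t) :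
    Summable (fun x : ℕ × ℕ => (jacobiSym x.1 D : ℝ) * (f (x.2 * x.1) *
      Real.exp (-(t * (x.2 * x.1 : ℕ))))) := by
  have hΦ0 : 0 ≤ Φ := (abs_nonneg _).trans (hΦ 0)
  set ρ := Real.exp (-(t / 2)) with hρ
  have hρ0 : 0 < ρ := Real.exp_pos _
  have hρ1 : ρ < 1 := by rw [hρ, Real.exp_lt_one_iff]; linarith
  have hg : Summable (fun x : ℕ × ℕ => ρ ^ x.1 * ρ ^ x.2) :=
    (summable_geometric_of_lt_one hρ0.le hρ1).mul_of_nonneg
      (summable_geometric_of_lt_one hρ0.le hρ1) (fun n => by positivity) (fun n => by positivity)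
  apply Summable.of_norm_bounded (hg.mul_left Φ)
  rintro ⟨b, a⟩
  simp only
  rw [Real.norm_eq_abs]
  by_cases hb : b = 0
  · subst hb
    rw [Nat.cast_zero, jac_zero hD]
    simp only [Int.cast_zero, zero_mul, abs_zero]
    positivity
  by_cases ha : a = 0
  · subst ha
    simp only [zero_mul, hf0, mul_zero, abs_zero]
    positivity
  rw [abs_mul, abs_mul, abs_of_pos (Real.exp_pos _)]
  have hab : ((a : ℝ) + b) / 2 ≤ (a * b : ℕ) := by
    have ha1 : (1 : ℝ) ≤ a := by exact_mod_cast Nat.one_le_iff_ne_zero.mpr ha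
    have hb1 : (1 : ℝ) ≤ b := by exact_mod_cast Nat.one_le_iff_ne_zero.mpr hb
    push_cast
    nlinarith
  have he : Real.exp (-(t * (a * b : ℕ))) ≤ ρ ^ b * ρ ^ a := by
    rw [hρ, ← Real.exp_nat_mul, ← Real.exp_nat_mul, ← Real.exp_add]
    apply Real.exp_le_exp.mpr
    nlinarith
  calc |(jacobiSym b D : ℝ)| * (|f (a * b)| * Real.exp (-(t * (a * b : ℕ))))
      ≤ 1 * (Φ * (ρ ^ b * ρ ^ a)) := by
        gcongr
        · exact jac_abs _ _
        · exact hΦ _
    _ = Φ * (ρ ^ b * ρ ^ a) := by ring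

theorem Lside_hasSum {D : ℕ} (hD : 1 < D) {f : ℕ → ℝ} (hf0 : f 0 = 0) {Φ : ℝ}
    (hΦ : ∀ j, |f j| ≤ Φ) {t : ℝ} (ht : 0 < t) :
    HasSum (fun n : ℕ => f n * Real.exp (-(t * n)) * (rr D n : ℝ))
      (∑' b : ℕ, (jacobiSym b D : ℝ) * ∑' a : ℕ, f (a * b) * Real.exp (-(t * (a * b : ℕ)))) := by
  have hs := summable_pairs hD hf0 hΦ ht
  have h1 := hs.hasSum.tsum_fiberwise (fun x : ℕ × ℕ => x.2 * x.1)
  have h2 : ∑' x : ℕ × ℕ, (jacobiSym x.1 D : ℝ) * (f (x.2 * x.1) *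
      Real.exp (-(t * (x.2 * x.1 : ℕ)))) =
      ∑' b : ℕ, (jacobiSym b D : ℝ) * ∑' a : ℕ, f (a * b) * Real.exp (-(t * (a * b : ℕ))) := by
    rw [hs.tsum_prod]
    apply tsum_congr
    intro b
    simp only
    exact tsum_mul_left
  rw [h2] at h1
  have heq : (fun n : ℕ => f n * Real.exp (-(t * n)) * (rr D n : ℝ)) =
      (fun c => ∑' (x : ↑((fun x : ℕ × ℕ => x.2 * x.1) ⁻¹' {c})),
        (jacobiSym x.1.1 D : ℝ) * (f (x.1.2 * x.1.1) * Real.exp (-(t * (x.1.2 * x.1.1 : ℕ))))) := by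
    funext n
    have h3 : ∀ x : ↑((fun x : ℕ × ℕ => x.2 * x.1) ⁻¹' {n}),
        (jacobiSym x.1.1 D : ℝ) * (f (x.1.2 * x.1.1) * Real.exp (-(t * (x.1.2 * x.1.1 : ℕ)))) =
        (f n * Real.exp (-(t * n))) * (jacobiSym x.1.1 D : ℝ) := by
      rintro ⟨x, hx⟩
      have hx' : x.2 * x.1 = n := hx
      simp only [hx']
      ring
    rw [tsum_congr h3, tsum_mul_left]
    by_cases hn : n = 0
    · subst hn
      rw [hf0]; simp
    · congr 1
      have h4 : ((fun x : ℕ × ℕ => x.2 * x.1) ⁻¹' {n}) = (n.divisorsAntidiagonal : Set (ℕ × ℕ)) := by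
        ext x
        simp only [Set.mem_preimage, Set.mem_singleton_iff, Finset.mem_coe,
          Nat.mem_divisorsAntidiagonal]
        constructor
        · intro h; exact ⟨by rw [mul_comm]; exact h, hn⟩
        · intro h; rw [mul_comm]; exact h.1
      rw [h4, Finset.tsum_subtype' n.divisorsAntidiagonal (fun x : ℕ × ℕ => (jacobiSym x.1 D : ℝ))]
      unfold rr
      push_cast
      exact (Nat.sum_divisorsAntidiagonal (fun x _ => (jacobiSym (x : ℤ) D : ℝ))).symm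
  rw [heq]
  exact h1

/-- second order Abel summation for mean-zero coefficients -/
theorem em2 {q : ℕ} (hq : 0 < q) {θ : ℕ → ℝ} (hθ : ∀ j, θ (j + q) = θ j) {Φ : ℝ}
    (hΦ : ∀ j, |θ j| ≤ Φ) (hmean : wM q θ = 0) {g g1 g2 : ℝ → ℝ}
    (d1 : ∀ x, HasDerivAt g (g1 x) x) (d2 : ∀ x, HasDerivAt g1 (g2 x) x) {M : ℕ → ℝ}
    (hM : ∀ j : ℕ, ∀ x ∈ Set.Icc (j : ℝ) (j + 1), |g2 x| ≤ M j) (hMs : Summable M)
    (hg : Tendsto (fun j : ℕ => g j) atTop (𝓝 0)) (hg1 : Tendsto (fun j : ℕ => g1 j) atTop (𝓝 0))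
    (hs : Summable (fun j : ℕ => θ j * g j)) :
    |∑' j : ℕ, θ j * g j + wA q θ 0 * g 0 + wB q θ 0 * g1 0| ≤ 2 * (wK q * Φ) * ∑' j, M j := by
  have hΦ0 : 0 ≤ Φ := (abs_nonneg _).trans (hΦ 0)
  have hM0 : ∀ j, 0 ≤ M j := fun j => (abs_nonneg _).trans (hM j j ⟨le_refl _, by linarith⟩)
  have hK := wK_pos q
  set F : ℕ → ℝ := fun j => wA q θ j * g j + wB q θ j * g1 j with hF
  have hstep : ∀ j : ℕ, |θ j * g j - (F (j + 1) - F j)| ≤ 2 * (wK q * Φ) * M j := by
    intro j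
    have t1 : ∀ x ∈ Set.Icc (j : ℝ) (j + 1), |g1 x - g1 j| ≤ M j := fun x hx =>
      mvt_bound (fun y _ => d2 y) (hM j) hx
    have t0 : |g (j + 1) - g j - g1 j| ≤ M j := by
      have := mvt_bound (f := fun x => g x - g1 j * (x - j)) (f' := fun x => g1 x - g1 j) (M := M j)
        (a := (j : ℝ)) (fun y _ => by
          have := (d1 y).sub (((hasDerivAt_id y).sub_const (j : ℝ)).const_mul (g1 j))
          refine (this.congr_deriv ?_)
          simp) t1 (x := j + 1) ⟨by linarith, le_refl _⟩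
      have h4 : g (j + 1) - g j - g1 j =
        (g (j + 1) - g1 j * ((j : ℝ) + 1 - j)) - (g j - g1 j * ((j : ℝ) - j)) := by ring
      rw [h4]; exact this
    have t1' := t1 (j + 1) ⟨by linarith, le_refl _⟩
    obtain ⟨-, b1, b2, -⟩ := weights_le hq hΦ (j + 1)
    have hA := wA_succ hq hθ j
    have hB := wB_succ hq hθ j
    rw [hmean] at hA hB
    have key : θ j * g j - (F (j + 1) - F j) =
        -(wA q θ (j + 1) * (g (j + 1) - g j - g1 j) + wB q θ (j + 1) * (g1 (j + 1) - g1 j)) := by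
      rw [hF]
      simp only
      push_cast
      have e1 : θ j = wA q θ (j + 1) - wA q θ j := by rw [hA]; ring
      have e2 : wB q θ j = wB q θ (j + 1) + wA q θ (j + 1) := by rw [hB]; ring
      rw [e1, e2]
      ring
    rw [key, abs_neg]
    have hm : ∀ a b : ℝ, |a| ≤ wK q * Φ → |b| ≤ M j → |a * b| ≤ wK q * Φ * M j := by
      intro a b ha hb
      rw [abs_mul]
      exact mul_le_mul ha hb (abs_nonneg _) ((abs_nonneg _).trans ha)
    calc _ ≤ |wA q θ (j + 1) * (g (j + 1) - g j - g1 j)| + |wB q θ (j + 1) * (g1 (j + 1) - g1 j)| :=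
          abs_add_le _ _
      _ ≤ wK q * Φ * M j + wK q * Φ * M j := add_le_add (hm _ _ b1 t0) (hm _ _ b2 t1')
      _ = _ := by ring
  have hfin : ∀ W : ℕ, |∑ j ∈ range W, θ j * g j - (F W - F 0)| ≤
      2 * (wK q * Φ) * ∑ j ∈ range W, M j := by
    intro W
    induction W with
    | zero => simp
    | succ n ih =>
      rw [Finset.sum_range_succ, Finset.sum_range_succ, mul_add]
      have h3 : ∑ x ∈ range n, θ x * g x + θ n * g n - (F (n + 1) - F 0) =
        (∑ x ∈ range n, θ x * g x - (F n - F 0)) + (θ n * g n - (F (n + 1) - F n)) := by ring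
      rw [h3]
      exact (abs_add_le _ _).trans (add_le_add ih (hstep n))
  have hFt : Tendsto F atTop (𝓝 0) := by
    have hz : ∀ (w : ℕ → ℝ) (f : ℝ → ℝ), (∀ j, |w j| ≤ wK q * Φ) →
        Tendsto (fun j : ℕ => f j) atTop (𝓝 0) →
        Tendsto (fun j : ℕ => w j * f j) atTop (𝓝 0) := by
      intro w f hw hf
      apply squeeze_zero_norm (a := fun j : ℕ => wK q * Φ * |f j|)
      · intro j
        rw [Real.norm_eq_abs, abs_mul]
        exact mul_le_mul_of_nonneg_right (hw j) (abs_nonneg _)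
      · have := (hf.abs).const_mul (wK q * Φ)
        simpa using this
    have h1 := hz (wA q θ) g (fun j => (weights_le hq hΦ j).2.1) hg
    have h2 := hz (wB q θ) g1 (fun j => (weights_le hq hΦ j).2.2.1) hg1
    simpa [hF] using h1.add h2
  have h1 : Tendsto (fun W : ℕ => |∑ j ∈ range W, θ j * g j - (F W - F 0)|) atTop
      (𝓝 |∑' j : ℕ, θ j * g j - (0 - F 0)|) := by
    apply Tendsto.abs
    exact Tendsto.sub hs.hasSum.tendsto_sum_nat (hFt.sub_const _)
  have h2 : ∑' j : ℕ, θ j * g j + wA q θ 0 * g 0 + wB q θ 0 * g1 0 =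
      ∑' j : ℕ, θ j * g j - (0 - F 0) := by
    rw [hF]; simp only [Nat.cast_zero]; ring
  rw [h2]
  apply le_of_tendsto h1
  filter_upwards with W
  refine (hfin W).trans ?_
  apply mul_le_mul_of_nonneg_left _ (by positivity)
  exact hMs.sum_le_tsum _ (fun j _ => hM0 j)

end H419R2
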