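import Pool.Agent.H419R2.B5

/-! The limit of the `L`-value side. -/

namespace H419R2

open Finset Filter Topology Polynomial

/-- rational function of `exp (-x)` -/
noncomputable def qf (A B : ℝ[X]) (k : ℕ) (x : ℝ) : ℝ :=
  A.eval (Real.exp (-x)) / (B.eval (Real.exp (-x))) ^ k

/-- numerator of the derivative -/
noncomputable def dq (A B : ℝ[X]) (k : ℕ) : ℝ[X] :=
  -(X * (derivative A * B - C (k : ℝ) * A * derivative B))

theorem X_dvd_dq (A B : ℝ[X]) (k : ℕ) : X ∣ dq A B k := by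
  unfold dq
  exact (dvd_neg).mpr (Dvd.intro _ rfl)

theorem qf_deriv (A B : ℝ[X]) (k : ℕ) (hB : ∀ y : ℝ, 0 ≤ y → 1 ≤ B.eval y) (x : ℝ) :
    HasDerivAt (qf A B (k + 1)) (qf (dq A B (k + 1)) B (k + 2) x) x := by
  have hB0 : B.eval (Real.exp (-x)) ≠ 0 := by
    have := hB _ (Real.exp_pos (-x)).le
    linarith
  have he : HasDerivAt (fun x : ℝ => Real.exp (-x)) (-Real.exp (-x)) x := by
    have := (Real.hasDerivAt_exp (-x)).comp x (hasDerivAt_neg x)
    refine this.congr_deriv ?_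
    ring
  have hA : HasDerivAt (fun x : ℝ => A.eval (Real.exp (-x)))
      ((derivative A).eval (Real.exp (-x)) * (-Real.exp (-x))) x :=
    HasDerivAt.comp (h₂ := fun y : ℝ => A.eval y) x (A.hasDerivAt (Real.exp (-x))) he
  have hBd : HasDerivAt (fun x : ℝ => B.eval (Real.exp (-x)))
      ((derivative B).eval (Real.exp (-x)) * (-Real.exp (-x))) x :=
    HasDerivAt.comp (h₂ := fun y : ℝ => B.eval y) x (B.hasDerivAt (Real.exp (-x))) he
  have hBk := hBd.pow (k + 1)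
  have := hA.div hBk (pow_ne_zero _ hB0)
  refine this.congr_deriv ?_
  unfold qf dq
  simp only [eval_neg, eval_mul, eval_X, eval_sub, eval_C, Nat.add_sub_cancel, Pi.pow_apply]
  field_simp
  ring

theorem poly_bound (A : ℝ[X]) : ∃ K : ℝ, 0 ≤ K ∧ ∀ y ∈ Set.Icc (0 : ℝ) 1, |A.eval y| ≤ K := by
  obtain ⟨K, hK⟩ := (isCompact_Icc (a := (0 : ℝ)) (b := 1)).exists_bound_of_continuousOn
    (f := fun y => A.eval y) A.continuous.continuousOn
  refine ⟨K, (norm_nonneg _).trans (hK 0 ⟨le_refl _, zero_le_one⟩), fun y hy => ?_⟩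
  have := hK y hy
  rwa [Real.norm_eq_abs] at this

theorem qf_bound {A B : ℝ[X]} (k : ℕ) (hA : X ∣ A) (hB : ∀ y : ℝ, 0 ≤ y → 1 ≤ B.eval y) :
    ∃ K : ℝ, 0 ≤ K ∧ ∀ x : ℝ, 0 ≤ x → |qf A B k x| ≤ K * Real.exp (-x) := by
  obtain ⟨A', rfl⟩ := hA
  obtain ⟨K, hK0, hK⟩ := poly_bound A'
  refine ⟨K, hK0, fun x hx => ?_⟩
  have hy : Real.exp (-x) ∈ Set.Icc (0 : ℝ) 1 :=
    ⟨(Real.exp_pos _).le, by rw [Real.exp_le_one_iff]; linarith⟩
  unfold qf
  rw [eval_mul, eval_X, abs_div, abs_mul, abs_of_pos (Real.exp_pos _)]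
  have h1 : (1 : ℝ) ≤ |B.eval (Real.exp (-x)) ^ k| := by
    have := hB _ hy.1
    rw [abs_of_pos (by positivity)]
    exact one_le_pow₀ this
  calc Real.exp (-x) * |A'.eval (Real.exp (-x))| / |B.eval (Real.exp (-x)) ^ k|
      ≤ Real.exp (-x) * |A'.eval (Real.exp (-x))| :=
        div_le_self (by positivity) h1
    _ ≤ Real.exp (-x) * K := mul_le_mul_of_nonneg_left (hK _ hy) hy.1
    _ = _ := mul_comm _ _

/-- numerator -/
noncomputable def nump (q : ℕ) (φ : ℕ → ℝ) : ℝ[X] :=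
  ∑ a ∈ range q, C (∑ i ∈ range (a + 1), φ i) * X ^ a
/-- denominator -/
noncomputable def denp (q : ℕ) : ℝ[X] := ∑ a ∈ range q, X ^ a

theorem denp_ge {q : ℕ} (hq : 0 < q) (y : ℝ) (hy : 0 ≤ y) : 1 ≤ (denp q).eval y := by
  unfold denp
  rw [eval_finsetSum]
  obtain ⟨n, rfl⟩ : ∃ n, q = n + 1 := ⟨q - 1, by omega⟩
  rw [Finset.sum_range_succ']
  simp only [eval_pow, eval_X, pow_zero, eval_one]
  have : 0 ≤ ∑ k ∈ range n, y ^ (k + 1) := Finset.sum_nonneg fun i _ => by positivity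
  linarith

theorem X_dvd_nump (q : ℕ) {φ : ℕ → ℝ} (h0 : φ 0 = 0) : X ∣ nump q φ := by
  rw [X_dvd_iff]
  unfold nump
  rw [finsetSum_coeff]
  apply Finset.sum_eq_zero
  intro a _
  rw [coeff_C_mul, coeff_X_pow]
  split_ifs with h
  · subst h; simp [h0]
  · simp

theorem abel_id (φ : ℕ → ℝ) (y : ℝ) (n : ℕ) :
    (1 - y) * ∑ a ∈ range n, (∑ i ∈ range (a + 1), φ i) * y ^ a =
    ∑ a ∈ range n, φ a * y ^ a - (∑ i ∈ range n, φ i) * y ^ n := by
  induction n with
  | zero => simp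
  | succ n ih =>
    rw [Finset.sum_range_succ, mul_add, ih, Finset.sum_range_succ (fun a => φ a * y ^ a),
      Finset.sum_range_succ φ n, pow_succ]
    ring

theorem abel_sum (φ : ℕ → ℝ) (n : ℕ) :
    ∑ a ∈ range n, (∑ i ∈ range (a + 1), φ i) =
    n * ∑ i ∈ range n, φ i - ∑ i ∈ range n, i * φ i := by
  induction n with
  | zero => simp
  | succ n ih =>
    rw [Finset.sum_range_succ, ih, Finset.sum_range_succ φ n,
      Finset.sum_range_succ (fun i => (i : ℝ) * φ i)]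
    push_cast
    ring

theorem tsum_periodic {q : ℕ} (hq : 0 < q) {φ : ℕ → ℝ} (hφ : ∀ j, φ (j + q) = φ j)
    (hmean : ∑ i ∈ range q, φ i = 0) {Φ : ℝ} (hΦ : ∀ j, |φ j| ≤ Φ) {x : ℝ} (hx : 0 < x) :
    ∑' a : ℕ, φ a * Real.exp (-(x * a)) = qf (nump q φ) (denp q) 1 x := by
  set y := Real.exp (-x) with hy
  have hy0 : 0 < y := Real.exp_pos _
  have hy1 : y < 1 := by rw [hy, Real.exp_lt_one_iff]; linarith
  have he : ∀ a : ℕ, Real.exp (-(x * a)) = y ^ a := by
    intro a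
    rw [hy, ← Real.exp_nat_mul]
    congr 1; ring
  simp only [he]
  have hs : Summable (fun a : ℕ => φ a * y ^ a) := by
    apply Summable.of_norm_bounded ((summable_geometric_of_lt_one hy0.le hy1).mul_left Φ)
    intro a
    rw [Real.norm_eq_abs, abs_mul, abs_of_pos (pow_pos hy0 a)]
    exact mul_le_mul_of_nonneg_right (hΦ a) (by positivity)
  have h1 := hs.sum_add_tsum_nat_add q
  have h2 : ∑' i : ℕ, φ (i + q) * y ^ (i + q) = y ^ q * ∑' i : ℕ, φ i * y ^ i := by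
    rw [← tsum_mul_left]
    apply tsum_congr
    intro i
    rw [hφ, pow_add]; ring
  rw [h2] at h1
  have h3 := abel_id φ y q
  rw [hmean, zero_mul, sub_zero] at h3
  have h4 : (1 - y) * (denp q).eval y = 1 - y ^ q := by
    unfold denp
    rw [eval_finsetSum]
    simp only [eval_pow, eval_X]
    exact mul_neg_geom_sum y q
  have h5 : (nump q φ).eval y = ∑ a ∈ range q, (∑ i ∈ range (a + 1), φ i) * y ^ a := by
    unfold nump
    rw [eval_finsetSum]
    apply Finset.sum_congr rfl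
    intro a _
    rw [eval_mul, eval_C, eval_pow, eval_X]
  unfold qf
  rw [pow_one, ← hy]
  have hD := denp_ge hq y hy0.le
  rw [eq_div_iff (by linarith)]
  have h6 : (1 - y) * ((∑' a : ℕ, φ a * y ^ a) * (denp q).eval y) =
      (1 - y) * (nump q φ).eval y := by
    rw [h5, h3]
    have : (1 - y) * ((∑' a : ℕ, φ a * y ^ a) * (denp q).eval y) =
      (∑' a : ℕ, φ a * y ^ a) * ((1 - y) * (denp q).eval y) := by ring
    rw [this, h4]
    linarith
  exact mul_left_cancel₀ (by linarith : (1 - y) ≠ 0) h6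

theorem qf_zero {q : ℕ} (hq : 0 < q) {φ : ℕ → ℝ} (hmean : ∑ i ∈ range q, φ i = 0) :
    qf (nump q φ) (denp q) 1 0 = -(∑ i ∈ range q, i * φ i) / q := by
  have hq' : (q : ℝ) ≠ 0 := by positivity
  unfold qf nump denp
  rw [neg_zero, Real.exp_zero, eval_finsetSum, eval_finsetSum]
  simp only [eval_mul, eval_C, eval_pow, eval_X, one_pow, mul_one, pow_one, Finset.sum_const,
    Finset.card_range, nsmul_eq_mul]
  rw [abel_sum, hmean]
  ring

theorem geo_bound {t : ℝ} (ht : 0 < t) :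
    Summable (fun j : ℕ => Real.exp (-(t * j))) ∧ ∑' j : ℕ, Real.exp (-(t * j)) ≤ (1 + t) / t := by
  set ρ := Real.exp (-t) with hρ
  have hρ0 : 0 < ρ := Real.exp_pos _
  have hρ1 : ρ < 1 := by rw [hρ, Real.exp_lt_one_iff]; linarith
  have he : ∀ a : ℕ, Real.exp (-(t * a)) = ρ ^ a := by
    intro a
    rw [hρ, ← Real.exp_nat_mul]
    congr 1; ring
  simp only [he]
  refine ⟨summable_geometric_of_lt_one hρ0.le hρ1, ?_⟩
  rw [tsum_geometric_of_lt_one hρ0.le hρ1]
  have h1 : ρ * (1 + t) ≤ 1 := by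
    have h2 : 1 + t ≤ Real.exp t := by linarith [Real.add_one_le_exp t]
    calc ρ * (1 + t) ≤ ρ * Real.exp t := mul_le_mul_of_nonneg_left h2 hρ0.le
      _ = 1 := by rw [hρ, ← Real.exp_add]; simp
  rw [inv_eq_one_div, div_le_div_iff₀ (by linarith) ht]
  nlinarith

/-- the limit of a twisted sum of a smooth function -/
theorem twisted_limit {Q : ℕ} (hQ : 0 < Q) {θ : ℕ → ℝ} (hθ : ∀ j, θ (j + Q) = θ j) {Φ : ℝ}
    (hΦ : ∀ j, |θ j| ≤ Φ) (hmean : wM Q θ = 0) {A B : ℝ[X]} (hA : X ∣ A)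
    (hB : ∀ y : ℝ, 0 ≤ y → 1 ≤ B.eval y) :
    Tendsto (fun t : ℝ => ∑' b : ℕ, θ b * qf A B 1 (t * b)) (𝓝[>] 0)
      (𝓝 (-(wA Q θ 0 * qf A B 1 0))) := by
  have hΦ0 : 0 ≤ Φ := (abs_nonneg _).trans (hΦ 0)
  set A1 := dq A B 1 with hA1
  set A2 := dq A1 B 2 with hA2
  obtain ⟨K0, hK0, hb0⟩ := qf_bound 1 hA hB
  obtain ⟨K1, hK1, hb1⟩ := qf_bound 2 (X_dvd_dq A B 1) hB
  obtain ⟨K2, hK2, hb2⟩ := qf_bound 3 (X_dvd_dq A1 B 2) hB
  have hK := wK_pos Q
  have key : ∀ t : ℝ, 0 < t → |∑' b : ℕ, θ b * qf A B 1 (t * b) - (-(wA Q θ 0 * qf A B 1 0))| ≤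
      |wB Q θ 0 * qf A1 B 2 0| * t + 2 * (wK Q * Φ) * (K2 * (t * (1 + t))) := by
    intro t ht
    obtain ⟨hgs, hgb⟩ := geo_bound ht
    have hs0 : Summable (fun j : ℕ => θ j * qf A B 1 (t * j)) := by
      apply Summable.of_norm_bounded (hgs.mul_left (Φ * K0))
      intro j
      rw [Real.norm_eq_abs, abs_mul]
      calc |θ j| * |qf A B 1 (t * j)| ≤ Φ * (K0 * Real.exp (-(t * j))) := by
            apply mul_le_mul (hΦ _) (hb0 _ (by positivity)) (abs_nonneg _) hΦ0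
        _ = _ := by ring
    have hexp0 : Tendsto (fun j : ℕ => Real.exp (-(t * j))) atTop (𝓝 0) := hgs.tendsto_atTop_zero
    have hlim : ∀ (A' : ℝ[X]) (k : ℕ) (K' c : ℝ),
        (∀ x : ℝ, 0 ≤ x → |qf A' B k x| ≤ K' * Real.exp (-x)) →
        Tendsto (fun j : ℕ => c * qf A' B k (t * j)) atTop (𝓝 0) := by
      intro A' k K' c hb
      apply squeeze_zero_norm (a := fun j : ℕ => |c| * (K' * Real.exp (-(t * j))))
      · intro j
        rw [Real.norm_eq_abs, abs_mul]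
        exact mul_le_mul_of_nonneg_left (hb _ (by positivity)) (abs_nonneg _)
      · have := (hexp0.const_mul K').const_mul |c|
        simpa using this
    have hd : ∀ (A' : ℝ[X]) (k : ℕ) (x : ℝ), HasDerivAt (fun x => qf A' B (k + 1) (t * x))
        (t * qf (dq A' B (k + 1)) B (k + 2) (t * x)) x := by
      intro A' k x
      have h1 : HasDerivAt (fun x : ℝ => t * x) t x := by
        simpa using (hasDerivAt_id x).const_mul t
      have := (qf_deriv A' B k hB (t * x)).comp x h1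
      refine this.congr_deriv ?_
      ring
    have hem := em2 hQ hθ hΦ hmean (g := fun x => qf A B 1 (t * x))
      (g1 := fun x => t * qf A1 B 2 (t * x)) (g2 := fun x => t * (t * qf A2 B 3 (t * x)))
      (fun x => hd A 0 x) (fun x => (hd A1 1 x).const_mul t)
      (M := fun j : ℕ => t ^ 2 * K2 * Real.exp (-(t * j))) ?_ (hgs.mul_left _) ?_ ?_ hs0
    · rw [tsum_mul_left] at hem
      simp only [mul_zero] at hem
      have h3 : ∑' b : ℕ, θ b * qf A B 1 (t * b) - (-(wA Q θ 0 * qf A B 1 0)) =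
        (∑' b : ℕ, θ b * qf A B 1 (t * b) + wA Q θ 0 * qf A B 1 0 + wB Q θ 0 * (t * qf A1 B 2 0))
        - (wB Q θ 0 * qf A1 B 2 0) * t := by ring
      rw [h3]
      refine (abs_sub _ _).trans ?_
      rw [abs_mul (wB Q θ 0 * qf A1 B 2 0) t, abs_of_pos ht, add_comm]
      apply add_le_add (le_refl _)
      refine hem.trans ?_
      apply mul_le_mul_of_nonneg_left _ (by positivity)
      calc t ^ 2 * K2 * ∑' j : ℕ, Real.exp (-(t * j)) ≤ t ^ 2 * K2 * ((1 + t) / t) :=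
            mul_le_mul_of_nonneg_left hgb (by positivity)
        _ = K2 * (t * (1 + t)) := by field_simp
    · intro j x hx
      rw [abs_mul, abs_mul, abs_of_pos ht]
      have hx0 : 0 ≤ x := (Nat.cast_nonneg j).trans hx.1
      have h1 := hb2 (t * x) (by positivity)
      have h2 : Real.exp (-(t * x)) ≤ Real.exp (-(t * j)) := by
        apply Real.exp_le_exp.mpr
        nlinarith [hx.1]
      calc t * (t * |qf A2 B 3 (t * x)|) ≤ t * (t * (K2 * Real.exp (-(t * j)))) := by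
            gcongr
            exact h1.trans (mul_le_mul_of_nonneg_left h2 hK2)
        _ = _ := by ring
    · simpa using hlim A 1 K0 1 hb0
    · exact hlim A1 2 K1 t hb1
  rw [tendsto_iff_norm_sub_tendsto_zero]
  have hz : Tendsto (fun t : ℝ => |wB Q θ 0 * qf A1 B 2 0| * t +
      2 * (wK Q * Φ) * (K2 * (t * (1 + t)))) (𝓝[>] 0) (𝓝 0) := by
    have hc : Continuous (fun t : ℝ => |wB Q θ 0 * qf A1 B 2 0| * t +
      2 * (wK Q * Φ) * (K2 * (t * (1 + t)))) := by fun_prop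
    have := hc.tendsto 0
    simp only [mul_zero, zero_mul, add_zero] at this
    exact this.mono_left nhdsWithin_le_nhds
  apply squeeze_zero_norm' _ hz
  filter_upwards [self_mem_nhdsWithin] with t ht
  rw [norm_norm, Real.norm_eq_abs]
  exact key t ht

end H419R2
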