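import Pool.Agent.H419R2.B6

/-! The limit of the `L`-value side, final form. -/

namespace H419R2

open Finset Filter Topology Polynomial

theorem sum_range_zmod {q : ℕ} [NeZero q] {M : Type*} [AddCommMonoid M] (h : ℕ → M) :
    ∑ a ∈ range q, h a = ∑ x : ZMod q, h x.val := by
  symm
  apply Finset.sum_nbij' (fun x : ZMod q => x.val) (fun a => (a : ZMod q))
  · intro x _; exact Finset.mem_range.mpr (ZMod.val_lt x)
  · intro a _; exact Finset.mem_univ _
  · intro x _; exact ZMod.natCast_zmod_val x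
  · intro a ha; exact ZMod.val_cast_of_lt (Finset.mem_range.mp ha)
  · intro x _; rfl

theorem sum_odd_zero {q : ℕ} [NeZero q] {F : ZMod q → ℝ} (hodd : ∀ x, F (-x) = -F x) (β : ZMod q) :
    ∑ i ∈ range q, F (i * β) = 0 := by
  rw [sum_range_zmod (fun i => F (i * β))]
  simp only [ZMod.natCast_val, ZMod.cast_id', id_eq]
  have h1 : ∑ x : ZMod q, F (x * β) = ∑ x : ZMod q, F (-x * β) :=
    (Equiv.sum_comp (Equiv.neg (ZMod q)) (fun x => F (x * β))).symm
  have h2 : ∀ x : ZMod q, F (-x * β) = -F (x * β) := fun x => by rw [neg_mul, hodd]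
  simp only [h2, Finset.sum_neg_distrib] at h1
  linarith

/-- twisted coefficient -/
noncomputable def tw (q D β : ℕ) (b : ℕ) : ℝ := if b % q = β then (jacobiSym b D : ℝ) else 0

theorem tw_abs (q D β b : ℕ) : |tw q D β b| ≤ 1 := by
  unfold tw
  split_ifs
  · exact jac_abs _ _
  · simp

theorem tw_periodic (q D β b : ℕ) : tw q D β (b + q * D) = tw q D β b := by
  unfold tw
  have h1 : (b + q * D) % q = b % q := Nat.add_mul_mod_self_left _ _ _
  have h2 : jacobiSym ((b + q * D : ℕ) : ℤ) D = jacobiSym b D := by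
    apply jacobiSym.mod_left'
    push_cast
    exact Int.add_mul_emod_self_right _ _ _
  rw [h1, h2]

theorem tw_mean {q D : ℕ} (hq : 0 < q) (hD : 1 < D) (hcop : q.Coprime D) (hD2 : D % 2 = 1)
    (hJ : jacobiSym 2 D = -1) (β : ℕ) : ∑ l ∈ range (q * D), tw q D β l = 0 := by
  have hQ : 0 < q * D := by positivity
  have : NeZero (q * D) := ⟨hQ.ne'⟩
  obtain ⟨c, hc1, hc2⟩ := Nat.chineseRemainder hcop 1 2
  have hcq : c.Coprime q := by
    have := hc1.gcd_eq
    rw [Nat.gcd_one_left] at this
    exact this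
  have hcD : c.Coprime D := by
    have := hc2.gcd_eq
    have h2 : Nat.gcd 2 D = 1 := by
      exact Nat.coprime_two_left.mpr (Nat.odd_iff.mpr hD2)
    rw [h2] at this
    exact this
  have hcQ : c.Coprime (q * D) := Nat.Coprime.mul_right hcq hcD
  rw [sum_range_zmod]
  set u := ZMod.unitOfCoprime c hcQ with hu
  have h1 : ∑ x : ZMod (q * D), tw q D β x.val = ∑ x : ZMod (q * D), tw q D β ((u : ZMod (q * D)) * x).val :=
    (Equiv.sum_comp (Units.mulLeft u) (fun x : ZMod (q * D) => tw q D β x.val)).symm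
  have hper : ∀ n : ℕ, tw q D β (n % (q * D)) = tw q D β n := by
    intro n
    have h3 : ∀ k m : ℕ, tw q D β (m + (q * D) * k) = tw q D β m := by
      intro k
      induction k with
      | zero => intro m; simp
      | succ k ih => intro m; rw [Nat.mul_succ, ← add_assoc, tw_periodic, ih]
    conv_rhs => rw [← Nat.mod_add_div n (q * D), h3]
  have h2 : ∀ x : ZMod (q * D), tw q D β ((u : ZMod (q * D)) * x).val = - tw q D β x.val := by
    intro x
    have h4 : ((u : ZMod (q * D)) * x).val = (c * x.val) % (q * D) := by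
      rw [hu, ZMod.coe_unitOfCoprime, ZMod.val_mul, ZMod.val_natCast, Nat.mod_mul_mod]
    rw [h4, hper]
    unfold tw
    have h5 : (c * x.val) % q = x.val % q := by
      have : c * x.val ≡ 1 * x.val [MOD q] := hc1.mul_right _
      rw [one_mul] at this
      exact this
    have h6 : jacobiSym ((c * x.val : ℕ) : ℤ) D = - jacobiSym x.val D := by
      rw [Nat.cast_mul, jacobiSym.mul_left]
      have h7 : jacobiSym (c : ℤ) D = jacobiSym 2 D := by
        apply jacobiSym.mod_left'
        have := hc2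
        exact_mod_cast this
      rw [h7, hJ]; ring
    rw [h5, h6]
    split_ifs <;> simp
  simp only [h2, Finset.sum_neg_distrib] at h1
  linarith

theorem twisted_summable {θ : ℕ → ℝ} {Φ : ℝ}
    (hΦ : ∀ j, |θ j| ≤ Φ) {A B : ℝ[X]} (hA : X ∣ A)
    (hB : ∀ y : ℝ, 0 ≤ y → 1 ≤ B.eval y) {t : ℝ} (ht : 0 < t) :
    Summable (fun b : ℕ => θ b * qf A B 1 (t * b)) := by
  have hΦ0 : 0 ≤ Φ := (abs_nonneg _).trans (hΦ 0)
  obtain ⟨K0, hK0, hb0⟩ := qf_bound 1 hA hB
  obtain ⟨hgs, hgb⟩ := geo_bound ht
  apply Summable.of_norm_bounded (hgs.mul_left (Φ * K0))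
  intro j
  rw [Real.norm_eq_abs, abs_mul]
  calc |θ j| * |qf A B 1 (t * j)| ≤ Φ * (K0 * Real.exp (-(t * j))) := by
        apply mul_le_mul (hΦ _) (hb0 _ (by positivity)) (abs_nonneg _) hΦ0
    _ = _ := by ring

theorem Lside_limit {q D : ℕ} [NeZero q] (hD : 1 < D) (hcop : q.Coprime D) (hD2 : D % 2 = 1)
    (hJ : jacobiSym 2 D = -1) {F : ZMod q → ℝ} (hodd : ∀ x, F (-x) = -F x) :
    Tendsto (fun t : ℝ => ∑' b : ℕ, (jacobiSym b D : ℝ) *
      ∑' a : ℕ, F ((a * b : ℕ)) * Real.exp (-(t * (a * b : ℕ)))) (𝓝[>] 0)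
      (𝓝 ((∑ l ∈ range (q * D), ∑ a ∈ range q, (l : ℝ) * a * jacobiSym l D * F ((a * l : ℕ)))
        / (q * (q * D)))) := by
  have hq : 0 < q := Nat.pos_of_ne_zero (NeZero.ne q)
  have hQ : 0 < q * D := by positivity
  have hq' : (q : ℝ) ≠ 0 := by positivity
  have hD' : (D : ℝ) ≠ 0 := by positivity
  have hF0 : F 0 = 0 := by
    have := hodd 0
    rw [neg_zero] at this
    linarith
  set Φ : ℝ := ∑ x : ZMod q, |F x| with hΦdef
  have hΦ : ∀ x, |F x| ≤ Φ := fun x =>
    Finset.single_le_sum (f := fun x => |F x|) (fun _ _ => abs_nonneg _) (Finset.mem_univ x)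
  set φ : ℕ → ℕ → ℝ := fun β a => F (a * β) with hφ
  have hφper : ∀ β j, φ β (j + q) = φ β j := by
    intro β j
    simp [hφ]
  have hφmean : ∀ β, ∑ i ∈ range q, φ β i = 0 := fun β => sum_odd_zero hodd (β : ZMod q)
  have hφ0 : ∀ β, φ β 0 = 0 := by intro β; simp [hφ, hF0]
  have hB := denp_ge hq
  have htw0 : ∀ β, wM (q * D) (tw q D β) = 0 := by
    intro β
    unfold wM
    rw [tw_mean hq hD hcop hD2 hJ, zero_div]
  have hlim : Tendsto (fun t : ℝ => ∑ β ∈ range q, ∑' b : ℕ, tw q D β b *
      qf (nump q (φ β)) (denp q) 1 (t * b)) (𝓝[>] 0)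
      (𝓝 (∑ β ∈ range q, -(wA (q * D) (tw q D β) 0 * qf (nump q (φ β)) (denp q) 1 0))) := by
    apply tendsto_finsetSum
    intro β _
    exact twisted_limit hQ (tw_periodic q D β) (tw_abs q D β) (htw0 β)
      (X_dvd_nump q (hφ0 β)) hB
  have hval : (∑ β ∈ range q, -(wA (q * D) (tw q D β) 0 * qf (nump q (φ β)) (denp q) 1 0)) =
      (∑ l ∈ range (q * D), ∑ a ∈ range q, (l : ℝ) * a * jacobiSym l D * F ((a * l : ℕ)))
        / (q * (q * D)) := by
    have h1 : ∀ β ∈ range q, -(wA (q * D) (tw q D β) 0 * qf (nump q (φ β)) (denp q) 1 0) =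
        (∑ l ∈ range (q * D), (l : ℝ) * tw q D β l * ∑ a ∈ range q, a * φ β a)
          / (q * (q * D)) := by
      intro β _
      rw [qf_zero hq (hφmean β)]
      have h2 : wA (q * D) (tw q D β) 0 = (∑ l ∈ range (q * D), (l : ℝ) * tw q D β l) / (q * D) := by
        unfold wA
        have h3 : ∀ l ∈ range (q * D), tw q D β (0 + l) * ((l : ℝ) / (q * D : ℕ) - 1 / 2) =
            ((l : ℝ) * tw q D β l) / (q * D) - (1 / 2) * tw q D β l := by
          intro l _
          rw [zero_add]; push_cast; ring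
        rw [Finset.sum_congr rfl h3, Finset.sum_sub_distrib, ← Finset.mul_sum,
          tw_mean hq hD hcop hD2 hJ, ← Finset.sum_div]
        ring
      rw [h2, ← Finset.sum_mul]
      field_simp
    rw [Finset.sum_congr rfl h1, ← Finset.sum_div, Finset.sum_comm]
    congr 1
    apply Finset.sum_congr rfl
    intro l _
    rw [Finset.sum_eq_single (l % q)]
    · have : tw q D (l % q) l = jacobiSym l D := by unfold tw; simp
      rw [this, Finset.mul_sum]
      apply Finset.sum_congr rfl
      intro a _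
      simp only [hφ]
      have h5 : ((l % q : ℕ) : ZMod q) = (l : ZMod q) := ZMod.natCast_mod l q
      rw [h5]
      push_cast
      ring
    · intro β _ hne
      have : tw q D β l = 0 := by
        unfold tw; rw [if_neg (fun h => hne h.symm)]
      rw [this]; simp
    · intro h
      exact absurd (Finset.mem_range.mpr (Nat.mod_lt l hq)) h
  rw [← hval]
  refine hlim.congr' ?_
  filter_upwards [self_mem_nhdsWithin] with t ht
  have ht' : (0 : ℝ) < t := ht
  rw [← Summable.tsum_finsetSum]
  · apply tsum_congr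
    intro b
    rcases Nat.eq_zero_or_pos b with hb | hb
    · subst hb
      have hz : (jacobiSym ((0 : ℕ) : ℤ) D : ℝ) = 0 := by
        rw [Nat.cast_zero, jac_zero hD]; simp
      rw [hz, zero_mul]
      apply Finset.sum_eq_zero
      intro β _
      have : tw q D β 0 = 0 := by
        unfold tw
        rw [hz, ite_self]
      rw [this, zero_mul]
    · rw [Finset.sum_eq_single (b % q)]
      · have h1 : tw q D (b % q) b = jacobiSym b D := by unfold tw; simp
        rw [h1]
        congr 1
        have hb' : (0 : ℝ) < t * b := by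
          have : (0 : ℝ) < b := by exact_mod_cast hb
          positivity
        rw [← tsum_periodic hq (hφper _) (hφmean _) (fun j => hΦ _) hb']
        apply tsum_congr
        intro a
        simp only [hφ]
        have h5 : ((b % q : ℕ) : ZMod q) = (b : ZMod q) := ZMod.natCast_mod b q
        rw [h5]
        push_cast
        congr 2
        ring
      · intro β _ hne
        have : tw q D β b = 0 := by
          unfold tw; rw [if_neg (fun h => hne h.symm)]
        rw [this]; simp
      · intro h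
        exact absurd (Finset.mem_range.mpr (Nat.mod_lt b hq)) h
  · intro β _
    exact twisted_summable (tw_abs q D β) (X_dvd_nump q (hφ0 β)) hB ht'

end H419R2
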