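import Pool.Agent.H419R2.B4
import Pool.Agent.H419R2.B7
import Pool.Agent.H419R2.A6

/-! Uniqueness of expansions; wedge sums as sums over index types. -/

namespace H419R2

open Finset Filter Topology

theorem expansion_unique {S : ℝ → ℝ} {L c1 c2 c0 C : ℝ} (hS : Tendsto S (𝓝[>] 0) (𝓝 L))
    (h : ∀ᶠ t in 𝓝[>] (0 : ℝ), |S t - (c1 / t + c2 / √t + c0)| ≤ C * √t) : L = c0 := by
  have hsq : Tendsto (fun t : ℝ => √t) (𝓝[>] 0) (𝓝 0) := by
    have := Real.continuous_sqrt.tendsto 0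
    rw [Real.sqrt_zero] at this
    exact this.mono_left nhdsWithin_le_nhds
  have ht0 : Tendsto (fun t : ℝ => t) (𝓝[>] 0) (𝓝 0) :=
    (continuous_id.tendsto 0).mono_left nhdsWithin_le_nhds
  have hpos : ∀ᶠ t in 𝓝[>] (0 : ℝ), 0 < t := self_mem_nhdsWithin
  have h1 : Tendsto (fun t => S t - (c1 / t + c2 / √t + c0)) (𝓝[>] 0) (𝓝 0) := by
    apply squeeze_zero_norm' (a := fun t => C * √t)
    · simpa only [Real.norm_eq_abs] using h
    · simpa using hsq.const_mul C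
  have h2 : Tendsto (fun t => c1 / t + c2 / √t) (𝓝[>] 0) (𝓝 (L - c0)) := by
    have := (hS.sub h1).sub_const c0
    rw [sub_zero] at this
    refine this.congr (fun t => ?_)
    ring
  have h3 : Tendsto (fun t : ℝ => c1 + c2 * √t) (𝓝[>] 0) (𝓝 (0 * (L - c0))) := by
    refine (ht0.mul h2).congr' ?_
    filter_upwards [hpos] with t ht
    have hs : √t ≠ 0 := (Real.sqrt_pos.mpr ht).ne'
    have hst : √t * √t = t := Real.mul_self_sqrt ht.le
    have : t * (c1 / t + c2 / √t) = c1 + c2 * (t / √t) := by field_simp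
    rw [this, Real.div_sqrt]
  have h4 : Tendsto (fun t : ℝ => c1 + c2 * √t) (𝓝[>] 0) (𝓝 (c1 + c2 * 0)) :=
    tendsto_const_nhds.add (hsq.const_mul c2)
  have hc1 : c1 = 0 := by
    have := tendsto_nhds_unique h3 h4
    linarith
  subst hc1
  have h5 : Tendsto (fun _ : ℝ => c2) (𝓝[>] 0) (𝓝 (0 * (L - c0))) := by
    refine (hsq.mul h2).congr' ?_
    filter_upwards [hpos] with t ht
    have hs : √t ≠ 0 := (Real.sqrt_pos.mpr ht).ne'
    rw [zero_div, zero_add, mul_div_cancel₀ _ hs]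
  have hc2 : c2 = 0 := by
    have := tendsto_nhds_unique h5 tendsto_const_nhds
    linarith
  subst hc2
  have h6 : Tendsto (fun _ : ℝ => (0 : ℝ)) (𝓝[>] 0) (𝓝 (L - c0)) := by
    refine h2.congr (fun t => ?_)
    simp
  have := tendsto_nhds_unique h6 tendsto_const_nhds
  linarith

namespace Wedge

variable (V : Wedge)

theorem sum_fin_row (g : ℕ → ℝ) (n : ℕ) : ∑' i : Fin n, g i = ∑ w ∈ range n, g w := by
  rw [tsum_fintype]
  exact Fin.sum_univ_eq_sum_range g n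

theorem summable_idx {f : ℕ → ℕ → ℝ} {Φ : ℝ} (hΦ : ∀ u w, |f u w| ≤ Φ) {t : ℝ} (ht : 0 < t)
    (ht1 : t * V.Γ ≤ 1) :
    Summable (fun p : Idx V.κ => f p.1 (p.2 : ℕ) * Real.exp (-(t * V.G p.1 (p.2 : ℕ)))) := by
  have hΦ0 : 0 ≤ Φ := (abs_nonneg _).trans (hΦ 0 0)
  have h1 : Summable (fun p : Idx V.κ => Φ * Real.exp (-(t * V.G p.1 (p.2 : ℕ)))) := by
    rw [summable_sigma_of_nonneg (fun p => mul_nonneg hΦ0 (Real.exp_pos _).le)]
    constructor
    · intro u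
      exact Summable.of_finite
    · have h2 := V.summable_rows (f := fun _ _ => Φ) (Φ := Φ)
        (fun _ _ => by rw [abs_of_nonneg hΦ0]) ht ht1
      refine h2.congr (fun u => ?_)
      exact (sum_fin_row (fun w => Φ * Real.exp (-(t * V.G u w))) (V.κ * u)).symm
  apply Summable.of_norm_bounded h1
  intro p
  rw [Real.norm_eq_abs, abs_mul, abs_of_pos (Real.exp_pos _)]
  exact mul_le_mul_of_nonneg_right (hΦ _ _) (Real.exp_pos _).le

theorem hasSum_idx {f : ℕ → ℕ → ℝ} {Φ : ℝ} (hΦ : ∀ u w, |f u w| ≤ Φ) {t : ℝ} (ht : 0 < t)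
    (ht1 : t * V.Γ ≤ 1) :
    HasSum (fun p : Idx V.κ => f p.1 (p.2 : ℕ) * Real.exp (-(t * V.G p.1 (p.2 : ℕ))))
      (V.WS f t) := by
  have hs := V.summable_idx hΦ ht ht1
  have h1 := hs.hasSum
  rw [hs.tsum_sigma] at h1
  have h2 : ∑' (u : ℕ) (i : Fin (V.κ * u)), f u (i : ℕ) * Real.exp (-(t * V.G u (i : ℕ))) =
      V.WS f t := by
    unfold WS
    apply tsum_congr
    intro u
    exact sum_fin_row (fun w => f u w * Real.exp (-(t * V.G u w))) (V.κ * u)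
  rw [← h2]
  exact h1

/-- integral form of the coefficients -/
theorem hasSum_int {q : ℕ} [NeZero q] {F : ZMod q → ℝ} {Φ : ℝ} (hΦ : ∀ x, |F x| ≤ Φ)
    {a b d : ℤ} (ha : V.a = a) (hb : V.b = b) (hd : V.d = d) {t : ℝ} (ht : 0 < t)
    (ht1 : t * V.Γ ≤ 1) :
    HasSum (fun p : Idx V.κ =>
      F (((a * (p.1 : ℤ) ^ 2 + b * p.1 * ((p.2 : ℕ) : ℤ) + d * ((p.2 : ℕ) : ℤ) ^ 2).natAbs : ℕ)) *
      Real.exp (-(t * (a * (p.1 : ℤ) ^ 2 + b * p.1 * ((p.2 : ℕ) : ℤ) +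
        d * ((p.2 : ℕ) : ℤ) ^ 2).natAbs)))
      (V.WS (fun u w => F ((a : ZMod q) * (u : ZMod q) ^ 2 + b * u * w + d * (w : ZMod q) ^ 2)) t)
      := by
  have h1 := V.hasSum_idx (f := fun u w =>
    F ((a : ZMod q) * (u : ZMod q) ^ 2 + b * u * w + d * (w : ZMod q) ^ 2)) (Φ := Φ)
    (fun _ _ => hΦ _) ht ht1
  convert! h1 using 2 with p
  obtain ⟨hp1, hp2, hp3⟩ := idx_facts p
  set u : ℤ := (p.1 : ℤ) with hu
  set w : ℤ := ((p.2 : ℕ) : ℤ) with hw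
  have hG : V.G p.1 (p.2 : ℕ) = ((a * u ^ 2 + b * u * w + d * w ^ 2 : ℤ) : ℝ) := by
    unfold G
    rw [ha, hb, hd, hu, hw]
    push_cast
    ring
  have hG0 : 0 ≤ V.G p.1 (p.2 : ℕ) := by
    have h3 : (((p.2 : ℕ) : ℝ)) ≤ V.κ * p.1 := by
      have := hp3.le
      rw [hw, hu] at this
      exact_mod_cast this
    have := V.G_ge (Nat.cast_nonneg p.1) (Nat.cast_nonneg (p.2 : ℕ)) h3
    have h4 := V.hδ
    have h5 : 0 ≤ V.δ * (p.1 : ℝ) ^ 2 := by positivity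
    linarith
  have hg0 : 0 ≤ a * u ^ 2 + b * u * w + d * w ^ 2 := by
    rw [hG] at hG0
    exact_mod_cast hG0
  have e1 : (((a * u ^ 2 + b * u * w + d * w ^ 2).natAbs : ℕ) : ℤ) =
      a * u ^ 2 + b * u * w + d * w ^ 2 := Int.natAbs_of_nonneg hg0
  have e2 : (((a * u ^ 2 + b * u * w + d * w ^ 2).natAbs : ℕ) : ℝ) =
      ((a * u ^ 2 + b * u * w + d * w ^ 2 : ℤ) : ℝ) :=
    (Int.cast_natCast _).symm.trans (congrArg (fun z : ℤ => (z : ℝ)) e1)
  have e3 : (((a * u ^ 2 + b * u * w + d * w ^ 2).natAbs : ℕ) : ZMod q) =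
      (a : ZMod q) * (p.1 : ZMod q) ^ 2 + b * p.1 * ((p.2 : ℕ) : ZMod q)
        + d * ((p.2 : ℕ) : ZMod q) ^ 2 := by
    have : (((a * u ^ 2 + b * u * w + d * w ^ 2).natAbs : ℕ) : ZMod q) =
      ((((a * u ^ 2 + b * u * w + d * w ^ 2).natAbs : ℕ) : ℤ) : ZMod q) :=
      (Int.cast_natCast _).symm
    rw [this, e1, hu, hw]
    push_cast
    ring
  rw [e2, e3, hG]

/-- asymptotics for integral forms -/
theorem asymp_int {q : ℕ} [NeZero q] (F : ZMod q → ℝ) (a b d : ℤ) :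
    ∃ c1 c2 C : ℝ, ∀ t : ℝ, 0 < t → t * V.Γ ≤ 1 →
      |V.WS (fun u w => F ((a : ZMod q) * (u : ZMod q) ^ 2 + b * u * w + d * (w : ZMod q) ^ 2)) t
        - (c1 / t + c2 / √t + V.C0 q (fun u w => F ((a : ZMod q) * (u : ZMod q) ^ 2 + b * u * w
          + d * (w : ZMod q) ^ 2)))| ≤ C * √t := by
  have hq : 0 < q := Nat.pos_of_ne_zero (NeZero.ne q)
  apply V.wedge_asymp hq (Φ := ∑ x : ZMod q, |F x|)
  · intro u w; simp
  · intro u w; simp
  · intro u w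
    exact Finset.single_le_sum (f := fun x => |F x|) (fun _ _ => abs_nonneg _) (Finset.mem_univ _)

end Wedge

end H419R2
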