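import Pool.Agent.H419R2.C1

/-! Bernoulli sums over `ZMod q`. -/

namespace H419R2

open Finset Filter Topology

variable {q : ℕ} [NeZero q]

/-- `x/q - 1/2` -/
noncomputable def bz (x : ZMod q) : ℝ := (x.val : ℝ) / q - 1 / 2
/-- sawtooth -/
noncomputable def B1 (x : ZMod q) : ℝ := if x = 0 then 0 else (x.val : ℝ) / q - 1 / 2
/-- second Bernoulli function -/
noncomputable def B2 (x : ZMod q) : ℝ := (x.val : ℝ) ^ 2 / (q : ℝ) ^ 2 - (x.val : ℝ) / q + 1 / 6
/-- double sum -/
noncomputable def SS (h : ZMod q → ZMod q → ℝ) : ℝ := ∑ x, ∑ y, h x y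

theorem SS_add (g h : ZMod q → ZMod q → ℝ) : SS (fun x y => g x y + h x y) = SS g + SS h := by
  unfold SS; simp only [Finset.sum_add_distrib]

theorem SS_sub (g h : ZMod q → ZMod q → ℝ) : SS (fun x y => g x y - h x y) = SS g - SS h := by
  unfold SS; simp only [Finset.sum_sub_distrib]

theorem SS_mul (c : ℝ) (h : ZMod q → ZMod q → ℝ) : SS (fun x y => c * h x y) = c * SS h := by
  unfold SS; simp only [Finset.mul_sum]

theorem SS_congr {g h : ZMod q → ZMod q → ℝ} (H : ∀ x y, g x y = h x y) : SS g = SS h := by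
  have : g = h := by funext x y; exact H x y
  rw [this]

theorem SS_swap (h : ZMod q → ZMod q → ℝ) : SS h = SS (fun x y => h y x) := Finset.sum_comm

theorem SS_neg1 (h : ZMod q → ZMod q → ℝ) : SS h = SS (fun x y => h (-x) y) :=
  (Equiv.sum_comp (Equiv.neg (ZMod q)) (fun x => ∑ y, h x y)).symm

theorem SS_neg2 (h : ZMod q → ZMod q → ℝ) : SS h = SS (fun x y => h x (-y)) := by
  unfold SS
  apply Finset.sum_congr rfl
  intro x _
  exact (Equiv.sum_comp (Equiv.neg (ZMod q)) (fun y => h x y)).symm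

theorem SS_shift (h : ZMod q → ZMod q → ℝ) : SS h = SS (fun x y => h x (y + x)) := by
  unfold SS
  apply Finset.sum_congr rfl
  intro x _
  exact (Equiv.sum_comp (Equiv.addRight x) (fun y => h x y)).symm

/-- `(u, w) = (-y, x + y)` -/
theorem cvA (h : ZMod q → ZMod q → ℝ) : SS h = SS (fun x y => h (-y) (x + y)) := by
  rw [SS_neg1 h, SS_shift, SS_swap]

/-- `(u, w) = (x, -(x+y))` -/
theorem cvB (h : ZMod q → ZMod q → ℝ) : SS h = SS (fun x y => h x (-(x + y))) := by
  rw [SS_neg2 h, SS_shift]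
  exact SS_congr (fun x y => by rw [add_comm])

/-- `(u, w) = (x+y, y)` -/
theorem cvC (h : ZMod q → ZMod q → ℝ) : SS h = SS (fun x y => h (x + y) y) := by
  rw [SS_swap h, SS_shift, SS_swap]

/-- `(u, w) = (x+y, -x)` -/
theorem cvC' (h : ZMod q → ZMod q → ℝ) : SS h = SS (fun x y => h (x + y) (-x)) := by
  rw [SS_swap h, SS_neg1, SS_shift]
  exact SS_congr (fun x y => by rw [add_comm])

/-- `(u, w) = (x+y, x)` -/
theorem cvD (h : ZMod q → ZMod q → ℝ) : SS h = SS (fun x y => h (x + y) x) := by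
  rw [SS_swap h, SS_shift]
  exact SS_congr (fun x y => by rw [add_comm])

/-- `(u, w) = (x+y, -y)` -/
theorem cvD' (h : ZMod q → ZMod q → ℝ) : SS h = SS (fun x y => h (x + y) (-y)) := by
  rw [cvC' h, SS_swap]
  exact SS_congr (fun x y => by rw [add_comm])

/-- `(u, w) = (y, -x)` -/
theorem cvE (h : ZMod q → ZMod q → ℝ) : SS h = SS (fun x y => h y (-x)) := by
  rw [SS_swap h, SS_neg1]

theorem qpos : (0 : ℝ) < q := by
  have : 0 < q := Nat.pos_of_ne_zero (NeZero.ne q)
  exact_mod_cast this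

theorem val_neg_real {x : ZMod q} (hx : x ≠ 0) : (((-x).val : ℕ) : ℝ) = q - x.val := by
  have h : NeZero x := ⟨hx⟩
  have h1 : (-x).val = q - x.val := ZMod.val_neg_of_ne_zero x
  rw [h1, Nat.cast_sub (ZMod.val_lt x).le]

theorem B1_neg (x : ZMod q) : B1 (-x) = -B1 x := by
  unfold B1
  by_cases hx : x = 0
  · subst hx; simp
  · rw [if_neg hx, if_neg (neg_ne_zero.mpr hx), val_neg_real hx]
    have := qpos (q := q)
    field_simp
    ring

theorem B2_neg (x : ZMod q) : B2 (-x) = B2 x := by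
  unfold B2
  by_cases hx : x = 0
  · subst hx; simp
  · rw [val_neg_real hx]
    have := qpos (q := q)
    field_simp
    ring

theorem bz_sub_neg (x : ZMod q) : bz x - bz (-x) = 2 * B1 x := by
  unfold bz B1
  by_cases hx : x = 0
  · subst hx; simp
  · rw [if_neg hx, val_neg_real hx]
    have := qpos (q := q)
    field_simp
    ring

omit [NeZero q] in
theorem bz_eq (x : ZMod q) : bz x = B1 x - (if x = 0 then 1 / 2 else 0) := by
  unfold bz B1
  by_cases hx : x = 0
  · subst hx; simp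
  · rw [if_neg hx, if_neg hx]; ring

/-- addition identity for the sawtooth -/
theorem B1_identity (x y : ZMod q) (h : ¬ (x = 0 ∧ y = 0)) :
    (B1 x + B1 y) * B1 (x + y) = B1 x * B1 y + (B2 x + B2 y + B2 (x + y)) / 2 := by
  have hq := qpos (q := q)
  by_cases hx : x = 0
  · subst hx
    have hy : y ≠ 0 := fun hy => h ⟨rfl, hy⟩
    rw [zero_add]
    unfold B1 B2
    rw [if_pos rfl, if_neg hy, ZMod.val_zero, Nat.cast_zero]
    field_simp
    ring
  by_cases hy : y = 0
  · subst hy
    rw [add_zero]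
    unfold B1 B2
    rw [if_pos rfl, if_neg hx, ZMod.val_zero, Nat.cast_zero]
    field_simp
    ring
  by_cases hxy : x + y = 0
  · have : y = -x := by rw [eq_neg_iff_add_eq_zero, add_comm]; exact hxy
    subst this
    rw [B1_neg, B2_neg, hxy]
    unfold B1 B2
    rw [if_pos rfl, if_neg hx, ZMod.val_zero, Nat.cast_zero]
    field_simp
    ring
  · unfold B1 B2
    rw [if_neg hx, if_neg hy, if_neg hxy]
    have hX := ZMod.val_lt x
    have hY := ZMod.val_lt y
    rcases lt_or_ge (x.val + y.val) q with h1 | h1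
    · have e : (x + y).val = x.val + y.val := by rw [ZMod.val_add, Nat.mod_eq_of_lt h1]
      rw [e]
      push_cast
      field_simp
      ring
    · have e : (((x + y).val : ℕ) : ℝ) = x.val + y.val - q := by
        have e1 : (x + y).val = x.val + y.val - q := by
          rw [ZMod.val_add, Nat.mod_eq_sub_mod h1, Nat.mod_eq_of_lt (by omega)]
        rw [e1, Nat.cast_sub h1]
        push_cast; ring
      rw [e]
      field_simp
      ring

theorem wM_zmod (ψ : ZMod q → ℝ) : wM q (fun l => ψ l) = (∑ x, ψ x) / q := by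
  unfold wM
  rw [sum_range_zmod]
  simp

theorem wA_zmod (ψ : ZMod q → ℝ) (j : ℕ) :
    wA q (fun l => ψ l) j = ∑ x, ψ (j + x) * bz x := by
  unfold wA
  rw [sum_range_zmod (fun l => ψ ((j + l : ℕ)) * ((l : ℝ) / q - 1 / 2))]
  apply Finset.sum_congr rfl
  intro x _
  unfold bz
  push_cast
  rw [ZMod.natCast_zmod_val]

theorem wB_zmod (ψ : ZMod q → ℝ) (j : ℕ) :
    wB q (fun l => ψ l) j = ∑ x, ψ (j + x) * (q / 2 * B2 x) := by
  unfold wB
  rw [sum_range_zmod (fun l => ψ ((j + l : ℕ)) * (((l : ℝ) ^ 2 / q - l + q / 6) / 2))]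
  apply Finset.sum_congr rfl
  intro x _
  unfold B2
  push_cast
  rw [ZMod.natCast_zmod_val]
  have := qpos (q := q)
  field_simp

theorem Wedge.C0_eq (V : Wedge) (ψ : ZMod q → ZMod q → ℝ) :
    V.C0 q (fun u w => ψ u w) = -(V.κ / 2) * SS (fun u w => ψ u w * B2 u)
      - SS (fun u w => ψ u (V.κ * u + w) * (bz u * bz w))
      + SS (fun u w => ψ u w * (bz u * bz w))
      - (V.b + 2 * V.d * V.κ) / (4 * V.gs V.κ) * SS (fun u w => ψ u (V.κ * u + w) * B2 w)
      + V.b / (4 * V.gs 0) * SS (fun u w => ψ u w * B2 w) := by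
  have hq := qpos (q := q)
  have e1 : wB q (fun u => wM q (fun w => ψ u w)) 0 = 1 / 2 * SS (fun u w => ψ u w * B2 u) := by
    have h1 : (fun u : ℕ => wM q (fun w => ψ u w)) =
        (fun u : ℕ => (fun x : ZMod q => (∑ y, ψ x y) / q) (u : ZMod q)) := by
      funext u; exact wM_zmod (ψ u)
    refine (congrArg (fun g => wB q g 0) h1).trans
      ((wB_zmod (fun x : ZMod q => (∑ y, ψ x y) / q) 0).trans ?_)
    beta_reduce
    unfold SS
    rw [Finset.mul_sum]
    apply Finset.sum_congr rfl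
    intro x _
    rw [Nat.cast_zero, zero_add, ← Finset.sum_mul]
    field_simp
  have e2 : wA q (fun u => wA q (fun w => ψ u w) (V.κ * u)) 0 =
      SS (fun u w => ψ u (V.κ * u + w) * (bz u * bz w)) := by
    have h1 : (fun u : ℕ => wA q (fun w => ψ u w) (V.κ * u)) =
        (fun u : ℕ => (fun x : ZMod q => ∑ y, ψ x (V.κ * x + y) * bz y) (u : ZMod q)) := by
      funext u
      rw [wA_zmod (ψ u)]
      push_cast
      rfl
    refine (congrArg (fun g => wA q g 0) h1).trans
      ((wA_zmod (fun x : ZMod q => ∑ y, ψ x (V.κ * x + y) * bz y) 0).trans ?_)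
    beta_reduce
    unfold SS
    apply Finset.sum_congr rfl
    intro x _
    rw [Nat.cast_zero, zero_add, Finset.sum_mul]
    apply Finset.sum_congr rfl
    intro y _
    ring
  have e3 : wA q (fun u => wA q (fun w => ψ u w) 0) 0 =
      SS (fun u w => ψ u w * (bz u * bz w)) := by
    have h1 : (fun u : ℕ => wA q (fun w => ψ u w) 0) =
        (fun u : ℕ => (fun x : ZMod q => ∑ y, ψ x y * bz y) (u : ZMod q)) := by
      funext u
      rw [wA_zmod (ψ u)]
      simp
    refine (congrArg (fun g => wA q g 0) h1).trans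
      ((wA_zmod (fun x : ZMod q => ∑ y, ψ x y * bz y) 0).trans ?_)
    beta_reduce
    unfold SS
    apply Finset.sum_congr rfl
    intro x _
    rw [Nat.cast_zero, zero_add, Finset.sum_mul]
    apply Finset.sum_congr rfl
    intro y _
    ring
  have e4 : wM q (fun u => wB q (fun w => ψ u w) (V.κ * u)) =
      1 / 2 * SS (fun u w => ψ u (V.κ * u + w) * B2 w) := by
    have h1 : (fun u : ℕ => wB q (fun w => ψ u w) (V.κ * u)) =
        (fun u : ℕ => (fun x : ZMod q => ∑ y, ψ x (V.κ * x + y) * (q / 2 * B2 y)) (u : ZMod q)) := by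
      funext u
      rw [wB_zmod (ψ u)]
      push_cast
      rfl
    refine (congrArg (fun g => wM q g) h1).trans
      ((wM_zmod (fun x : ZMod q => ∑ y, ψ x (V.κ * x + y) * (q / 2 * B2 y))).trans ?_)
    beta_reduce
    unfold SS
    rw [Finset.mul_sum, Finset.sum_div]
    apply Finset.sum_congr rfl
    intro x _
    rw [Finset.mul_sum, Finset.sum_div]
    apply Finset.sum_congr rfl
    intro y _
    field_simp
  have e5 : wM q (fun u => wB q (fun w => ψ u w) 0) =
      1 / 2 * SS (fun u w => ψ u w * B2 w) := by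
    have h1 : (fun u : ℕ => wB q (fun w => ψ u w) 0) =
        (fun u : ℕ => (fun x : ZMod q => ∑ y, ψ x y * (q / 2 * B2 y)) (u : ZMod q)) := by
      funext u
      rw [wB_zmod (ψ u)]
      simp
    refine (congrArg (fun g => wM q g) h1).trans
      ((wM_zmod (fun x : ZMod q => ∑ y, ψ x y * (q / 2 * B2 y))).trans ?_)
    beta_reduce
    unfold SS
    rw [Finset.mul_sum, Finset.sum_div]
    apply Finset.sum_congr rfl
    intro x _
    rw [Finset.mul_sum, Finset.sum_div]
    apply Finset.sum_congr rfl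
    intro y _
    field_simp
  unfold Wedge.C0
  rw [e1, e2, e3, e4, e5]
  have g1 := (V.gs_pos V.κ_mem).ne'
  have g2 := (V.gs_pos V.zero_mem).ne'
  field_simp
  ring

theorem SS_B1_zero {ψ : ZMod q → ZMod q → ℝ} (h2 : ∀ u w, ψ (-u) (-w) = ψ u w) :
    SS (fun u w => ψ u w * (2 * B1 u * (if w = 0 then 1 / 2 else 0))) = 0 := by
  have h1 : SS (fun u w => ψ u w * (2 * B1 u * (if w = 0 then 1 / 2 else 0))) =
      ∑ u, ψ u 0 * B1 u := by
    unfold SS
    apply Finset.sum_congr rfl
    intro x _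
    rw [Finset.sum_eq_single 0]
    · beta_reduce
      rw [if_pos rfl]; ring
    · intro y _ hy
      beta_reduce
      rw [if_neg hy]; ring
    · intro h; exact absurd (Finset.mem_univ _) h
  rw [h1]
  have h3 : ∑ u : ZMod q, ψ u 0 * B1 u = ∑ u : ZMod q, ψ (-u) 0 * B1 (-u) :=
    (Equiv.sum_comp (Equiv.neg (ZMod q)) (fun u => ψ u 0 * B1 u)).symm
  have h4 : ∀ u : ZMod q, ψ (-u) 0 * B1 (-u) = -(ψ u 0 * B1 u) := by
    intro u
    have := h2 u 0
    rw [neg_zero] at this
    rw [this, B1_neg]; ring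
  simp only [h4, Finset.sum_neg_distrib] at h3
  linarith

theorem Wedge.C0_refl (V : Wedge) (ψ : ZMod q → ZMod q → ℝ)
    (h1 : ∀ u w, ψ u (V.κ * u + w) = ψ (-u) w) (h2 : ∀ u w, ψ (-u) (-w) = ψ u w)
    (hb : V.b + 2 * V.d * V.κ = -V.b) (hg : V.gs V.κ = V.gs 0) :
    V.C0 q (fun u w => ψ u w) = SS (fun u w => ψ u w * (-(V.κ / 2) * B2 u + 2 * (B1 u * B1 w) +
      V.b / (2 * V.gs 0) * B2 w)) := by
  rw [V.C0_eq ψ, hb, hg]
  simp only [h1]
  have a1 : SS (fun u w => ψ (-u) w * (bz u * bz w)) = SS (fun u w => ψ u w * (bz (-u) * bz w)) := by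
    rw [SS_neg1]
    simp only [neg_neg]
  have a2 : SS (fun u w => ψ (-u) w * B2 w) = SS (fun u w => ψ u w * B2 w) := by
    rw [SS_neg1]
    simp only [neg_neg]
  rw [a1, a2]
  have a3 : SS (fun u w => ψ u w * (bz u * bz w)) - SS (fun u w => ψ u w * (bz (-u) * bz w)) =
      SS (fun u w => ψ u w * (2 * (B1 u * B1 w))) := by
    rw [← SS_sub]
    have a4 : SS (fun u w => ψ u w * (bz u * bz w) - ψ u w * (bz (-u) * bz w)) =
        SS (fun u w => ψ u w * (2 * (B1 u * B1 w)) -
          ψ u w * (2 * B1 u * (if w = 0 then 1 / 2 else 0))) := by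
      apply SS_congr
      intro u w
      have := bz_sub_neg u
      have h5 := bz_eq w
      have h6 : ψ u w * (bz u * bz w) - ψ u w * (bz (-u) * bz w) =
        ψ u w * ((bz u - bz (-u)) * bz w) := by ring
      rw [h6, this, h5]
      ring
    rw [a4, SS_sub, SS_B1_zero h2, sub_zero]
  have a5 : SS (fun u w => ψ u w * (-(V.κ / 2) * B2 u + 2 * (B1 u * B1 w) +
      V.b / (2 * V.gs 0) * B2 w)) = -(V.κ / 2) * SS (fun u w => ψ u w * B2 u) +
      SS (fun u w => ψ u w * (2 * (B1 u * B1 w))) +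
      V.b / (2 * V.gs 0) * SS (fun u w => ψ u w * B2 w) := by
    rw [← SS_mul, ← SS_mul, ← SS_add, ← SS_add]
    apply SS_congr
    intro u w
    ring
  rw [a5, ← a3]
  have g2 := (V.gs_pos V.zero_mem).ne'
  field_simp
  ring

end H419R2
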