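import Pool.Agent.H419R2.C2

/-! The main identity. -/

namespace H419R2

open Finset Filter Topology

/-- expansions -/
def HasExp (S : ℝ → ℝ) (c0 : ℝ) : Prop :=
  ∃ c1 c2 C : ℝ, ∀ᶠ t in 𝓝[>] (0 : ℝ), |S t - (c1 / t + c2 / √t + c0)| ≤ C * √t

theorem HasExp.add {S T : ℝ → ℝ} {a b : ℝ} (hS : HasExp S a) (hT : HasExp T b) :
    HasExp (fun t => S t + T t) (a + b) := by
  obtain ⟨c1, c2, C, h⟩ := hS
  obtain ⟨d1, d2, C', h'⟩ := hT
  refine ⟨c1 + d1, c2 + d2, C + C', ?_⟩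
  filter_upwards [h, h'] with t ht ht'
  have : S t + T t - ((c1 + d1) / t + (c2 + d2) / √t + (a + b)) =
    (S t - (c1 / t + c2 / √t + a)) + (T t - (d1 / t + d2 / √t + b)) := by ring
  rw [this, add_mul]
  exact (abs_add_le _ _).trans (add_le_add ht ht')

theorem HasExp.congr {S T : ℝ → ℝ} {a : ℝ} (hS : HasExp S a)
    (h : ∀ᶠ t in 𝓝[>] (0 : ℝ), S t = T t) : HasExp T a := by
  obtain ⟨c1, c2, C, h'⟩ := hS
  refine ⟨c1, c2, C, ?_⟩
  filter_upwards [h, h'] with t ht ht'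
  rw [← ht]; exact ht'

theorem HasExp.unique {S : ℝ → ℝ} {L c0 : ℝ} (h : HasExp S c0)
    (hS : Tendsto S (𝓝[>] 0) (𝓝 L)) : L = c0 := by
  obtain ⟨c1, c2, C, h'⟩ := h
  exact expansion_unique hS h'

theorem Wedge.small (V : Wedge) : ∀ᶠ t in 𝓝[>] (0 : ℝ), 0 < t ∧ t * V.Γ ≤ 1 := by
  have h1 : ∀ᶠ t in 𝓝[>] (0 : ℝ), t < 1 / V.Γ := by
    have : Set.Iio (1 / V.Γ) ∈ 𝓝 (0 : ℝ) := Iio_mem_nhds (by have := V.Γ_pos; positivity)
    exact nhdsWithin_le_nhds this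
  filter_upwards [self_mem_nhdsWithin, h1] with t ht ht1
  refine ⟨ht, ?_⟩
  rw [lt_div_iff₀ V.Γ_pos] at ht1
  exact ht1.le

theorem Wedge.hasExp (V : Wedge) {q : ℕ} [NeZero q] (F : ZMod q → ℝ) (a b d : ℤ) :
    HasExp (V.WS (fun u w => F ((a : ZMod q) * (u : ZMod q) ^ 2 + b * u * w + d * (w : ZMod q) ^ 2)))
      (V.C0 q (fun u w => F ((a : ZMod q) * (u : ZMod q) ^ 2 + b * u * w
          + d * (w : ZMod q) ^ 2))) := by
  obtain ⟨c1, c2, C, h⟩ := V.asymp_int F a b d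
  refine ⟨c1, c2, C, ?_⟩
  filter_upwards [V.small] with t ht
  exact h t ht.1 ht.2

theorem jac_two {D : ℕ} {m R : ℤ} (hD : (D : ℤ) = m ^ 2 + 4 * R) (hm : m % 2 = 1) (hR : R % 2 = 1) :
    D % 2 = 1 ∧ jacobiSym 2 D = -1 := by
  have h1 : D % 8 = 5 := by
    obtain ⟨a, ha⟩ : ∃ a, m = 2 * a + 1 := ⟨m / 2, by omega⟩
    obtain ⟨b, hb⟩ : ∃ b, R = 2 * b + 1 := ⟨R / 2, by omega⟩
    have h2 : (D : ℤ) = 4 * (a * (a + 1)) + 8 * b + 5 := by rw [hD, ha, hb]; ring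
    obtain ⟨c, hc⟩ : Even (a * (a + 1)) := Int.even_mul_succ_self a
    rw [hc] at h2
    omega
  have h2 : D % 2 = 1 := by omega
  refine ⟨h2, ?_⟩
  rw [jacobiSym.at_two (Nat.odd_iff.mpr h2), ZMod.χ₈_nat_eq_if_mod_eight]
  simp [h1, h2]

/-- analytic comparison -/
theorem compare {R m : ℤ} [IsDomain (QA R m)] [IsPrincipalIdealRing (QA R m)] (Fd : FD R m)
    (hone : ∀ z : QA R m, Fd.Dom z → (QuadraticAlgebra.norm z).natAbs = 1 → z = 1)
    {P : Type*} (gen : P → QA R m) (hg : Function.Injective gen)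
    (hd : ∀ z, Fd.Dom z ↔ z ∈ Set.range gen)
    {D q : ℕ} [NeZero q] (hD : (D : ℤ) = m ^ 2 + 4 * R) (hD1 : 1 < D) (hm : m % 2 = 1)
    (hR : R % 2 = 1)
    (hcop : q.Coprime D) {F : ZMod q → ℝ} (hodd : ∀ x, F (-x) = -F x) {W : ℝ → ℝ} {c0 : ℝ}
    (hW : ∀ᶠ t in 𝓝[>] (0 : ℝ), HasSum (fun p => F (((QuadraticAlgebra.norm (gen p)).natAbs : ℕ)) *
      Real.exp (-(t * (QuadraticAlgebra.norm (gen p)).natAbs))) (W t))
    (hexp : HasExp W c0) :
    (∑ l ∈ range (q * D), ∑ a ∈ range q, (l : ℝ) * a * jacobiSym l D * F ((a * l : ℕ)))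
        / (q * (q * D)) = c0 := by
  obtain ⟨hD2, hJ⟩ := jac_two hD hm hR
  have hlim := Lside_limit hD1 hcop hD2 hJ hodd
  refine (hexp.congr ?_).unique hlim
  have hF0 : F 0 = 0 := by
    have := hodd 0
    rw [neg_zero] at this
    linarith
  filter_upwards [hW, self_mem_nhdsWithin] with t hWt ht
  have ht' : (0 : ℝ) < t := ht
  have h1 := tsum_param Fd hone gen hg hd (fun n : ℕ => F n * Real.exp (-(t * n)))
    (by simp [hF0]) hWt.summable
  have h2 := Lside_hasSum (f := fun n : ℕ => F n) hD1 (by simp [hF0])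
    (Φ := ∑ x : ZMod q, |F x|)
    (fun j => Finset.single_le_sum (f := fun x => |F x|) (fun _ _ => abs_nonneg _)
      (Finset.mem_univ _)) ht'
  have h3 : (fun n : ℕ => F n * Real.exp (-(t * n)) * (cnt R m n : ℝ)) =
      (fun n : ℕ => F n * Real.exp (-(t * n)) * (rr D n : ℝ)) := by
    funext n
    by_cases hn : n = 0
    · subst hn; simp [hF0]
    · have h4 := cnt_eq_rr hD hm hR n hn
      have h5 : (cnt R m n : ℝ) = (rr D n : ℝ) := by
        rw [← h4]; push_cast; rfl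
      rw [h5]
  rw [h3] at h1
  have h6 := h1.unique h2
  rw [hWt.tsum_eq] at h6
  exact h6

/-- first wedge, case P -/
def wP1 (r k : ℕ) : Wedge where
  κ := k
  a := ((1 : ℤ) : ℝ)
  b := (((r * k : ℕ) : ℤ) : ℝ)
  d := ((-(r : ℤ) : ℤ) : ℝ)
  δ := 1
  hδ := one_pos
  hpos := by
    rintro σ ⟨h1, h2⟩
    push_cast
    have : 0 ≤ (r : ℝ) * (σ * (k - σ)) := by
      apply mul_nonneg (Nat.cast_nonneg _) (mul_nonneg h1 (by linarith))
    nlinarith

/-- second wedge, case P -/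
def wP2 (r k : ℕ) (hr : 2 ≤ r) : Wedge where
  κ := r * k
  a := ((r : ℤ) : ℝ)
  b := (((r * k : ℕ) : ℤ) : ℝ)
  d := ((-1 : ℤ) : ℝ)
  δ := 1
  hδ := one_pos
  hpos := by
    rintro σ ⟨h1, h2⟩
    push_cast at h2 ⊢
    have hr' : (2 : ℝ) ≤ r := by exact_mod_cast hr
    have : 0 ≤ σ * (r * k - σ) := mul_nonneg h1 (by linarith)
    nlinarith

theorem mainP {r k : ℕ} (hr : 2 ≤ r) (hk : 1 ≤ k)
    [IsDomain (QA (r : ℤ) ((r * k : ℕ) : ℤ))] [IsPrincipalIdealRing (QA (r : ℤ) ((r * k : ℕ) : ℤ))]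
    {D q : ℕ} [NeZero q] (hD : (D : ℤ) = ((r * k : ℕ) : ℤ) ^ 2 + 4 * (r : ℤ)) (hD1 : 1 < D)
    (hm : ((r * k : ℕ) : ℤ) % 2 = 1) (hR : (r : ℤ) % 2 = 1)
    (hcop : q.Coprime D) {F : ZMod q → ℝ} (hodd : ∀ x, F (-x) = -F x) :
    (∑ l ∈ range (q * D), ∑ a ∈ range q, (l : ℝ) * a * jacobiSym l D * F ((a * l : ℕ)))
        / (q * (q * D)) = SS (fun x y => F (x ^ 2 + (r : ZMod q) * (k : ZMod q) * (x * y) -
          (r : ZMod q) * y ^ 2) *
          (4 * (B1 x * B1 y) - k * B2 x + (r * k) * B2 y)) := by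
  set V1 := wP1 r k with hV1
  set V2 := wP2 r k hr with hV2
  have hr0 : (r : ℝ) ≠ 0 := by
    have : (2 : ℝ) ≤ r := by exact_mod_cast hr
    linarith
  set Φ := ∑ x : ZMod q, |F x| with hΦdef
  have hΦ : ∀ x, |F x| ≤ Φ := fun x =>
    Finset.single_le_sum (f := fun x => |F x|) (fun _ _ => abs_nonneg _) (Finset.mem_univ x)
  have key := compare (fdP hr hk) (honeP hr hk) (genP r k) (genP_inj hr hk) (genP_range hr hk)
    hD hD1 hm hR hcop hodd
    (W := fun t => V1.WS (fun u w => F (((1 : ℤ) : ZMod q) * (u : ZMod q) ^ 2 +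
      (((r * k : ℕ) : ℤ) : ZMod q) * u * w + ((-(r : ℤ) : ℤ) : ZMod q) * (w : ZMod q) ^ 2)) t +
      V2.WS (fun u w => F (((r : ℤ) : ZMod q) * (u : ZMod q) ^ 2 +
      (((r * k : ℕ) : ℤ) : ZMod q) * u * w + ((-1 : ℤ) : ZMod q) * (w : ZMod q) ^ 2)) t)
    ?_ (HasExp.add (V1.hasExp F _ _ _) (V2.hasExp F _ _ _))
  · rw [key]
    have e1 := V1.C0_refl (fun u w : ZMod q => F (((1 : ℤ) : ZMod q) * (u : ZMod q) ^ 2 +
      (((r * k : ℕ) : ℤ) : ZMod q) * u * w + ((-(r : ℤ) : ℤ) : ZMod q) * (w : ZMod q) ^ 2))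
      ?_ ?_ ?_ ?_
    · have e2 := V2.C0_refl (fun u w : ZMod q => F (((r : ℤ) : ZMod q) * (u : ZMod q) ^ 2 +
        (((r * k : ℕ) : ℤ) : ZMod q) * u * w + ((-1 : ℤ) : ZMod q) * (w : ZMod q) ^ 2))
        ?_ ?_ ?_ ?_
      · rw [e1, e2, cvE (fun u w => F (((r : ℤ) : ZMod q) * (u : ZMod q) ^ 2 +
          (((r * k : ℕ) : ℤ) : ZMod q) * u * w + ((-1 : ℤ) : ZMod q) * (w : ZMod q) ^ 2) * _),
          ← SS_add]
        apply SS_congr
        intro x y
        have g1 : V1.gs 0 = 1 := by simp [Wedge.gs, hV1, wP1]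
        have g2 : V2.gs 0 = r := by simp [Wedge.gs, hV2, wP2]
        have b1 : V1.b = r * k := by simp [hV1, wP1]
        have b2 : V2.b = r * k := by simp [hV2, wP2]
        have k1 : (V1.κ : ℝ) = k := by simp [hV1, wP1]
        have k2 : (V2.κ : ℝ) = r * k := by simp [hV2, wP2]
        rw [g1, g2, b1, b2, k1, k2, B1_neg, B2_neg]
        have f1 : F (((1 : ℤ) : ZMod q) * x ^ 2 + (((r * k : ℕ) : ℤ) : ZMod q) * x * y +
            ((-(r : ℤ) : ℤ) : ZMod q) * y ^ 2) = F (x ^ 2 + (r : ZMod q) * (k : ZMod q) * (x * y) -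
            (r : ZMod q) * y ^ 2) := by
          congr 1; push_cast; ring
        have f2 : F (((r : ℤ) : ZMod q) * y ^ 2 + (((r * k : ℕ) : ℤ) : ZMod q) * y * -x +
            ((-1 : ℤ) : ZMod q) * (-x) ^ 2) = - F (x ^ 2 + (r : ZMod q) * (k : ZMod q) * (x * y) -
            (r : ZMod q) * y ^ 2) := by
          rw [← hodd]; congr 1; push_cast; ring
        rw [f1, f2]
        field_simp
        ring
      · intro u w
        congr 1
        simp only [hV2, wP2]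
        push_cast; ring
      · intro u w
        congr 1
        push_cast; ring
      · simp only [hV2, wP2]
        push_cast; ring
      · simp only [Wedge.gs, hV2, wP2]
        push_cast; ring
    · intro u w
      congr 1
      simp only [hV1, wP1]
      push_cast; ring
    · intro u w
      congr 1
      push_cast; ring
    · simp only [hV1, wP1]
      push_cast; ring
    · simp only [Wedge.gs, hV1, wP1]
      push_cast; ring
  · filter_upwards [V1.small, V2.small] with t h1 h2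
    apply HasSum.sum
    · have := V1.hasSum_int hΦ (a := 1) (b := ((r * k : ℕ) : ℤ)) (d := -(r : ℤ)) rfl rfl rfl h1.1 h1.2
      refine (congrArg (fun g : Idx k → ℝ => HasSum g _) (funext fun p => ?_)).mpr this
      have e : (QuadraticAlgebra.norm (genP r k (Sum.inl p))).natAbs =
        (1 * (p.1 : ℤ) ^ 2 + ((r * k : ℕ) : ℤ) * p.1 * ((p.2 : ℕ) : ℤ) +
          -(r : ℤ) * ((p.2 : ℕ) : ℤ) ^ 2).natAbs := by
        rw [norm_eq]
        simp only [genP]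
        congr 1
        ring
      simp only [Function.comp]
      rw [e]
    · have := V2.hasSum_int hΦ (a := (r : ℤ)) (b := ((r * k : ℕ) : ℤ)) (d := -1) rfl rfl rfl h2.1 h2.2
      refine (congrArg (fun g : Idx (r * k) → ℝ => HasSum g _) (funext fun p => ?_)).mpr this
      have e : (QuadraticAlgebra.norm (genP r k (Sum.inr p))).natAbs =
        ((r : ℤ) * (p.1 : ℤ) ^ 2 + ((r * k : ℕ) : ℤ) * p.1 * ((p.2 : ℕ) : ℤ) +
          -1 * ((p.2 : ℕ) : ℤ) ^ 2).natAbs := by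
        rw [norm_eq, ← Int.natAbs_neg]
        simp only [genP]
        congr 1
        ring
      simp only [Function.comp]
      rw [e]

end H419R2
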