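import Pool.Agent.H419R2.C3

/-! The main identity, case `Δ = m² - 4r`. -/

namespace H419R2

open Finset Filter Topology

/-- wedge A -/
def wMA (r k : ℕ) (hr : 2 ≤ r) (hk : 3 ≤ k) : Wedge where
  κ := r * k - 2
  a := (((r : ℤ) * k - 1 - r : ℤ) : ℝ)
  b := (((r : ℤ) * k - 2 : ℤ) : ℝ)
  d := ((-1 : ℤ) : ℝ)
  δ := 1
  hδ := one_pos
  hpos := by
    rintro σ ⟨h1, h2⟩
    have hr' : (2 : ℝ) ≤ r := by exact_mod_cast hr
    have hk' : (3 : ℝ) ≤ k := by exact_mod_cast hk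
    have h6 : 2 ≤ r * k := by nlinarith
    rw [Nat.cast_sub h6] at h2
    push_cast at h2 ⊢
    have : 0 ≤ σ * (r * k - 2 - σ) := mul_nonneg h1 (by linarith)
    nlinarith

/-- wedge B -/
def wMB (r k : ℕ) (hr : 2 ≤ r) (hk : 3 ≤ k) : Wedge where
  κ := k - 2
  a := (((r : ℤ) * k - 1 - r : ℤ) : ℝ)
  b := (((r : ℤ) * (k - 2) : ℤ) : ℝ)
  d := ((-(r : ℤ) : ℤ) : ℝ)
  δ := 1
  hδ := one_pos
  hpos := by
    rintro σ ⟨h1, h2⟩
    have hr' : (2 : ℝ) ≤ r := by exact_mod_cast hr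
    have hk' : (3 : ℝ) ≤ k := by exact_mod_cast hk
    rw [Nat.cast_sub (by omega)] at h2
    push_cast at h2 ⊢
    have : 0 ≤ (r : ℝ) * (σ * (k - 2 - σ)) := mul_nonneg (by linarith) (mul_nonneg h1 (by linarith))
    nlinarith

/-- wedge C -/
def wMC (r k : ℕ) (hr : 2 ≤ r) (hk : 3 ≤ k) : Wedge where
  κ := 1
  a := ((1 : ℤ) : ℝ)
  b := (((r : ℤ) * k - 2 : ℤ) : ℝ)
  d := ((1 - (r : ℤ) * k + r : ℤ) : ℝ)
  δ := 1
  hδ := one_pos
  hpos := by
    rintro σ ⟨h1, h2⟩
    have hr' : (2 : ℝ) ≤ r := by exact_mod_cast hr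
    have hk' : (3 : ℝ) ≤ k := by exact_mod_cast hk
    push_cast at h2 ⊢
    have h3 : 0 ≤ σ * (1 - σ) := mul_nonneg h1 (by linarith)
    have h4 : 0 ≤ ((r : ℝ) * k - 1 - r) * (σ * (1 - σ)) := mul_nonneg (by nlinarith) h3
    have h5 : 0 ≤ ((r : ℝ) - 1) * σ := mul_nonneg (by linarith) h1
    nlinarith

/-- wedge D -/
def wMD (r k : ℕ) (hr : 2 ≤ r) (hk : 3 ≤ k) : Wedge where
  κ := 1
  a := ((r : ℤ) : ℝ)
  b := (((r : ℤ) * k - 2 * r : ℤ) : ℝ)
  d := ((1 - (r : ℤ) * k + r : ℤ) : ℝ)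
  δ := 1
  hδ := one_pos
  hpos := by
    rintro σ ⟨h1, h2⟩
    have hr' : (2 : ℝ) ≤ r := by exact_mod_cast hr
    have hk' : (3 : ℝ) ≤ k := by exact_mod_cast hk
    push_cast at h2 ⊢
    have h3 : 0 ≤ σ * (1 - σ) := mul_nonneg h1 (by linarith)
    have h4 : 0 ≤ ((r : ℝ) * k - 1 - r) * (σ * (1 - σ)) := mul_nonneg (by nlinarith) h3
    have h5 : 0 ≤ ((r : ℝ) - 1) * (1 - σ) := mul_nonneg (by linarith) (by linarith)
    nlinarith

section

variable {q : ℕ} [NeZero q]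

theorem bz_comb (x y : ZMod q) :
    -(bz (x + y) * bz (-x)) + bz (x + y) * bz y + (-(bz (x + y) * bz (-y)) + bz (x + y) * bz x) =
      2 * ((B1 x + B1 y) * B1 (x + y)) := by
  have h1 := bz_sub_neg x
  have h2 := bz_sub_neg y
  have h3 : -(bz (x + y) * bz (-x)) + bz (x + y) * bz y +
      (-(bz (x + y) * bz (-y)) + bz (x + y) * bz x) =
      bz (x + y) * ((bz x - bz (-x)) + (bz y - bz (-y))) := by ring
  rw [h3, h1, h2, bz_eq (x + y)]
  by_cases h : x + y = 0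
  · have : y = -x := by rw [eq_neg_iff_add_eq_zero, add_comm]; exact h
    subst this
    rw [B1_neg]; ring
  · rw [if_neg h]; ring

theorem C0_C (V : Wedge) (hκ : V.κ = 1) (ψ φ : ZMod q → ZMod q → ℝ)
    (h : ∀ x y, ψ (x + y) y = φ x y) :
    V.C0 q (fun u w => ψ u w) = SS (fun x y => φ x y * (-(1 / 2) * B2 (x + y)
      + (-(bz (x + y) * bz (-x)) + bz (x + y) * bz y)
      - (V.b + 2 * V.d) / (4 * V.gs 1) * B2 x + V.b / (4 * V.gs 0) * B2 y)) := by
  rw [V.C0_eq ψ, hκ]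
  simp only [Nat.cast_one, one_mul, mul_one]
  rw [cvC (fun u w => ψ u w * B2 u), cvC' (fun u w => ψ u (u + w) * (bz u * bz w)),
    cvC (fun u w => ψ u w * (bz u * bz w)), cvC' (fun u w => ψ u (u + w) * B2 w),
    cvC (fun u w => ψ u w * B2 w)]
  rw [← SS_mul, ← SS_mul, ← SS_mul, ← SS_sub, ← SS_add, ← SS_sub, ← SS_add]
  apply SS_congr
  intro x y
  have e1 : x + y + -x = y := by ring
  rw [e1, h, B2_neg]
  ring

theorem C0_D (V : Wedge) (hκ : V.κ = 1) (ψ φ : ZMod q → ZMod q → ℝ)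
    (h : ∀ x y, ψ (x + y) x = φ x y) :
    V.C0 q (fun u w => ψ u w) = SS (fun x y => φ x y * (-(1 / 2) * B2 (x + y)
      + (-(bz (x + y) * bz (-y)) + bz (x + y) * bz x)
      - (V.b + 2 * V.d) / (4 * V.gs 1) * B2 y + V.b / (4 * V.gs 0) * B2 x)) := by
  rw [V.C0_eq ψ, hκ]
  simp only [Nat.cast_one, one_mul, mul_one]
  rw [cvD (fun u w => ψ u w * B2 u), cvD' (fun u w => ψ u (u + w) * (bz u * bz w)),
    cvD (fun u w => ψ u w * (bz u * bz w)), cvD' (fun u w => ψ u (u + w) * B2 w),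
    cvD (fun u w => ψ u w * B2 w)]
  rw [← SS_mul, ← SS_mul, ← SS_mul, ← SS_sub, ← SS_add, ← SS_sub, ← SS_add]
  apply SS_congr
  intro x y
  have e1 : x + y + -y = x := by ring
  rw [e1, h, B2_neg]
  ring

/-- pointwise combination -/
theorem comb_pt (x y : ZMod q) (h : ¬ (x = 0 ∧ y = 0)) (m k r : ℝ) (hmk : m = r * k)
    (hr : r ≠ 0) (hP : m - 1 - r ≠ 0) :
    -(-((m - 2) / 2) * B2 (-y) + 2 * (B1 (-y) * B1 (x + y)) +
        (m - 2) / (2 * (m - 1 - r)) * B2 (x + y)) +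
    -(-((k - 2) / 2) * B2 x + 2 * (B1 x * B1 (-(x + y))) +
        (r * (k - 2)) / (2 * (m - 1 - r)) * B2 (-(x + y))) +
    ((-(1 / 2) * B2 (x + y) + (-(bz (x + y) * bz (-x)) + bz (x + y) * bz y)
      - (2 * r - m) / (4 * r) * B2 x + (m - 2) / (4 * 1) * B2 y) +
    (-(1 / 2) * B2 (x + y) + (-(bz (x + y) * bz (-y)) + bz (x + y) * bz x)
      - (2 - m) / (4 * 1) * B2 y + (m - 2 * r) / (4 * r) * B2 x)) =
    4 * (B1 x * B1 y) + k * B2 x + m * B2 y := by
  have h1 := B1_identity x y h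
  have h2 := bz_comb x y
  rw [B1_neg, B1_neg, B2_neg, B2_neg]
  have e1 : (m - 2 * r) / (4 * r) = (k - 2) / 4 := by rw [hmk]; field_simp
  have e2 : (2 * r - m) / (4 * r) = -((k - 2) / 4) := by rw [hmk]; field_simp; ring
  have e3 : (m - 2) / (2 * (m - 1 - r)) + (r * (k - 2)) / (2 * (m - 1 - r)) = 1 := by
    rw [← add_div, div_eq_one_iff_eq (by simpa using hP)]
    rw [hmk]; ring
  rw [e1, e2]
  linear_combination (4 : ℝ) * h1 + h2 - B2 (x + y) * e3

end

theorem mainM {r k : ℕ} (hr : 2 ≤ r) (hk : 3 ≤ k)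
    [IsDomain (QA (-(r : ℤ)) ((r * k : ℕ) : ℤ))]
    [IsPrincipalIdealRing (QA (-(r : ℤ)) ((r * k : ℕ) : ℤ))]
    {D q : ℕ} [NeZero q] (hD : (D : ℤ) = ((r * k : ℕ) : ℤ) ^ 2 + 4 * (-(r : ℤ))) (hD1 : 1 < D)
    (hm : ((r * k : ℕ) : ℤ) % 2 = 1) (hR : (-(r : ℤ)) % 2 = 1)
    (hcop : q.Coprime D) {F : ZMod q → ℝ} (hodd : ∀ x, F (-x) = -F x) :
    (∑ l ∈ range (q * D), ∑ a ∈ range q, (l : ℝ) * a * jacobiSym l D * F ((a * l : ℕ)))
        / (q * (q * D)) = SS (fun x y => F (x ^ 2 + (r : ZMod q) * (k : ZMod q) * (x * y) +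
          (r : ZMod q) * y ^ 2) *
          (4 * (B1 x * B1 y) + k * B2 x + (r * k) * B2 y)) := by
  set VA := wMA r k hr hk with hVA
  set VB := wMB r k hr hk with hVB
  set VC := wMC r k hr hk with hVC
  set VD := wMD r k hr hk with hVD
  have hr' : (2 : ℝ) ≤ r := by exact_mod_cast hr
  have hk' : (3 : ℝ) ≤ k := by exact_mod_cast hk
  have hrk : 6 ≤ r * k := by nlinarith
  have hF0 : F 0 = 0 := by
    have := hodd 0
    rw [neg_zero] at this
    linarith
  set Φ := ∑ x : ZMod q, |F x| with hΦdef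
  have hΦ : ∀ x, |F x| ≤ Φ := fun x =>
    Finset.single_le_sum (f := fun x => |F x|) (fun _ _ => abs_nonneg _) (Finset.mem_univ x)
  have key := compare (fdM hr hk) (honeM hr hk) (genM r k) (genM_inj hr hk) (genM_range hr hk)
    hD hD1 hm hR hcop hodd
    (W := fun t => (VA.WS (fun u w => F (((((r : ℤ) * k - 1 - r : ℤ)) : ZMod q) * (u : ZMod q) ^ 2 +
      (((r : ℤ) * k - 2 : ℤ) : ZMod q) * u * w + ((-1 : ℤ) : ZMod q) * (w : ZMod q) ^ 2)) t +
      VB.WS (fun u w => F (((((r : ℤ) * k - 1 - r : ℤ)) : ZMod q) * (u : ZMod q) ^ 2 +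
      (((r : ℤ) * (k - 2) : ℤ) : ZMod q) * u * w +
        ((-(r : ℤ) : ℤ) : ZMod q) * (w : ZMod q) ^ 2)) t) +
      (VC.WS (fun u w => F (((1 : ℤ) : ZMod q) * (u : ZMod q) ^ 2 +
      (((r : ℤ) * k - 2 : ℤ) : ZMod q) * u * w +
        ((1 - (r : ℤ) * k + r : ℤ) : ZMod q) * (w : ZMod q) ^ 2)) t +
      VD.WS (fun u w => F (((r : ℤ) : ZMod q) * (u : ZMod q) ^ 2 +
      (((r : ℤ) * k - 2 * r : ℤ) : ZMod q) * u * w +
        ((1 - (r : ℤ) * k + r : ℤ) : ZMod q) * (w : ZMod q) ^ 2)) t))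
    ?_ (HasExp.add (HasExp.add (VA.hasExp F _ _ _) (VB.hasExp F _ _ _))
      (HasExp.add (VC.hasExp F _ _ _) (VD.hasExp F _ _ _)))
  · rw [key]
    have kA : ((VA.κ : ℕ) : ℝ) = r * k - 2 := by
      simp only [hVA, wMA]
      rw [Nat.cast_sub (by omega)]
      push_cast; ring
    have kB : ((VB.κ : ℕ) : ℝ) = k - 2 := by
      simp only [hVB, wMB]
      rw [Nat.cast_sub (by omega)]
      push_cast; ring
    have kA' : ((VA.κ : ℕ) : ZMod q) = r * k - 2 := by
      simp only [hVA, wMA]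
      rw [Nat.cast_sub (by omega)]
      push_cast; ring
    have kB' : ((VB.κ : ℕ) : ZMod q) = k - 2 := by
      simp only [hVB, wMB]
      rw [Nat.cast_sub (by omega)]
      push_cast; ring
    have eA := VA.C0_refl (fun u w : ZMod q => F (((((r : ℤ) * k - 1 - r : ℤ)) : ZMod q) *
      (u : ZMod q) ^ 2 +
      (((r : ℤ) * k - 2 : ℤ) : ZMod q) * u * w + ((-1 : ℤ) : ZMod q) * (w : ZMod q) ^ 2))
      (by
        intro u w
        congr 1
        rw [kA']
        push_cast; ring)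
      (by
        intro u w
        congr 1
        push_cast; ring)
      (by
        rw [kA]
        simp only [hVA, wMA]
        push_cast; ring)
      (by
        unfold Wedge.gs
        rw [kA]
        simp only [hVA, wMA]
        push_cast; ring)
    have eB := VB.C0_refl (fun u w : ZMod q => F (((((r : ℤ) * k - 1 - r : ℤ)) : ZMod q) *
      (u : ZMod q) ^ 2 +
      (((r : ℤ) * (k - 2) : ℤ) : ZMod q) * u * w +
        ((-(r : ℤ) : ℤ) : ZMod q) * (w : ZMod q) ^ 2))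
      (by
        intro u w
        congr 1
        rw [kB']
        push_cast; ring)
      (by
        intro u w
        congr 1
        push_cast; ring)
      (by
        rw [kB]
        simp only [hVB, wMB]
        push_cast; ring)
      (by
        unfold Wedge.gs
        rw [kB]
        simp only [hVB, wMB]
        push_cast; ring)
    have eC := C0_C VC rfl (fun u w : ZMod q => F (((1 : ℤ) : ZMod q) * (u : ZMod q) ^ 2 +
      (((r : ℤ) * k - 2 : ℤ) : ZMod q) * u * w +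
        ((1 - (r : ℤ) * k + r : ℤ) : ZMod q) * (w : ZMod q) ^ 2))
      (fun x y => F (x ^ 2 + (r : ZMod q) * (k : ZMod q) * (x * y) + (r : ZMod q) * y ^ 2))
      (by
        intro x y
        congr 1
        push_cast; ring)
    have eD := C0_D VD rfl (fun u w : ZMod q => F (((r : ℤ) : ZMod q) * (u : ZMod q) ^ 2 +
      (((r : ℤ) * k - 2 * r : ℤ) : ZMod q) * u * w +
        ((1 - (r : ℤ) * k + r : ℤ) : ZMod q) * (w : ZMod q) ^ 2))
      (fun x y => F (x ^ 2 + (r : ZMod q) * (k : ZMod q) * (x * y) + (r : ZMod q) * y ^ 2))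
      (by
        intro x y
        congr 1
        push_cast; ring)
    rw [eA, eB, eC, eD]
    rw [cvA (fun u w : ZMod q => F (((((r : ℤ) * k - 1 - r : ℤ)) : ZMod q) *
      (u : ZMod q) ^ 2 +
      (((r : ℤ) * k - 2 : ℤ) : ZMod q) * u * w + ((-1 : ℤ) : ZMod q) * (w : ZMod q) ^ 2) * _),
      cvB (fun u w : ZMod q => F (((((r : ℤ) * k - 1 - r : ℤ)) : ZMod q) *
      (u : ZMod q) ^ 2 +
      (((r : ℤ) * (k - 2) : ℤ) : ZMod q) * u * w +
        ((-(r : ℤ) : ℤ) : ZMod q) * (w : ZMod q) ^ 2) * _)]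
    rw [← SS_add, ← SS_add, ← SS_add]
    apply SS_congr
    intro x y
    have gA : VA.gs 0 = r * k - 1 - r := by simp [Wedge.gs, hVA, wMA]
    have gB : VB.gs 0 = r * k - 1 - r := by simp [Wedge.gs, hVB, wMB]
    have gC0 : VC.gs 0 = 1 := by simp [Wedge.gs, hVC, wMC]
    have gC1 : VC.gs 1 = r := by simp [Wedge.gs, hVC, wMC]; ring
    have gD0 : VD.gs 0 = r := by simp [Wedge.gs, hVD, wMD]
    have gD1 : VD.gs 1 = 1 := by simp [Wedge.gs, hVD, wMD]; ring
    have bA : VA.b = r * k - 2 := by simp [hVA, wMA]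
    have bB : VB.b = r * (k - 2) := by simp [hVB, wMB]
    have bC : VC.b = r * k - 2 := by simp [hVC, wMC]
    have bD : VD.b = r * k - 2 * r := by simp [hVD, wMD]
    have dC : VC.b + 2 * VC.d = 2 * r - r * k := by simp [hVC, wMC]; ring
    have dD : VD.b + 2 * VD.d = 2 - r * k := by simp [hVD, wMD]; ring
    rw [gA, gB, gC0, gC1, gD0, gD1, bA, bB, dC, dD, bC, bD, kA, kB]
    have fA : F (((((r : ℤ) * k - 1 - r : ℤ)) : ZMod q) * (-y) ^ 2 +
        (((r : ℤ) * k - 2 : ℤ) : ZMod q) * -y * (x + y) + ((-1 : ℤ) : ZMod q) * (x + y) ^ 2) =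
        -F (x ^ 2 + (r : ZMod q) * (k : ZMod q) * (x * y) + (r : ZMod q) * y ^ 2) := by
      rw [← hodd]; congr 1; push_cast; ring
    have fB : F (((((r : ℤ) * k - 1 - r : ℤ)) : ZMod q) * x ^ 2 +
        (((r : ℤ) * (k - 2) : ℤ) : ZMod q) * x * -(x + y) +
        ((-(r : ℤ) : ℤ) : ZMod q) * (-(x + y)) ^ 2) =
        -F (x ^ 2 + (r : ZMod q) * (k : ZMod q) * (x * y) + (r : ZMod q) * y ^ 2) := by
      rw [← hodd]; congr 1; push_cast; ring
    rw [fA, fB]
    by_cases h : x = 0 ∧ y = 0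
    · obtain ⟨hx, hy⟩ := h
      have : x ^ 2 + (r : ZMod q) * (k : ZMod q) * (x * y) + (r : ZMod q) * y ^ 2 = 0 := by
        rw [hx, hy]; ring
      rw [this, hF0]
      ring
    · have hc := comb_pt x y h (r * k) k r rfl (by linarith) (by nlinarith)
      rw [← hc]
      ring
  · filter_upwards [VA.small, VB.small, VC.small, VD.small] with t hA hB hC hD'
    apply HasSum.sum
    · apply HasSum.sum
      · have := VA.hasSum_int hΦ (a := (r : ℤ) * k - 1 - r) (b := (r : ℤ) * k - 2) (d := -1)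
          rfl rfl rfl hA.1 hA.2
        refine (congrArg (fun g : Idx (r * k - 2) → ℝ => HasSum g _) (funext fun p => ?_)).mpr this
        have e : (QuadraticAlgebra.norm (genM r k (Sum.inl (Sum.inl p)))).natAbs =
          (((r : ℤ) * k - 1 - r) * (p.1 : ℤ) ^ 2 + ((r : ℤ) * k - 2) * p.1 * ((p.2 : ℕ) : ℤ) +
            -1 * ((p.2 : ℕ) : ℤ) ^ 2).natAbs := by
          rw [norm_eq, ← Int.natAbs_neg]
          simp only [genM]
          congr 1
          push_cast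
          ring
        simp only [Function.comp]
        rw [e]
      · have := VB.hasSum_int hΦ (a := (r : ℤ) * k - 1 - r) (b := (r : ℤ) * (k - 2))
          (d := -(r : ℤ)) rfl rfl rfl hB.1 hB.2
        refine (congrArg (fun g : Idx (k - 2) → ℝ => HasSum g _) (funext fun p => ?_)).mpr this
        have e : (QuadraticAlgebra.norm (genM r k (Sum.inl (Sum.inr p)))).natAbs =
          (((r : ℤ) * k - 1 - r) * (p.1 : ℤ) ^ 2 + ((r : ℤ) * (k - 2)) * p.1 * ((p.2 : ℕ) : ℤ) +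
            -(r : ℤ) * ((p.2 : ℕ) : ℤ) ^ 2).natAbs := by
          rw [norm_eq, ← Int.natAbs_neg]
          simp only [genM]
          congr 1
          push_cast
          ring
        simp only [Function.comp]
        rw [e]
    · apply HasSum.sum
      · have := VC.hasSum_int hΦ (a := 1) (b := (r : ℤ) * k - 2) (d := 1 - (r : ℤ) * k + r)
          rfl rfl rfl hC.1 hC.2
        refine (congrArg (fun g : Idx 1 → ℝ => HasSum g _) (funext fun p => ?_)).mpr this
        have e : (QuadraticAlgebra.norm (genM r k (Sum.inr (Sum.inl p)))).natAbs =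
          (1 * (p.1 : ℤ) ^ 2 + ((r : ℤ) * k - 2) * p.1 * ((p.2 : ℕ) : ℤ) +
            (1 - (r : ℤ) * k + r) * ((p.2 : ℕ) : ℤ) ^ 2).natAbs := by
          rw [norm_eq]
          simp only [genM]
          congr 1
          push_cast
          ring
        simp only [Function.comp]
        rw [e]
      · have := VD.hasSum_int hΦ (a := (r : ℤ)) (b := (r : ℤ) * k - 2 * r)
          (d := 1 - (r : ℤ) * k + r) rfl rfl rfl hD'.1 hD'.2
        refine (congrArg (fun g : Idx 1 → ℝ => HasSum g _) (funext fun p => ?_)).mpr this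
        have e : (QuadraticAlgebra.norm (genM r k (Sum.inr (Sum.inr p)))).natAbs =
          ((r : ℤ) * (p.1 : ℤ) ^ 2 + ((r : ℤ) * k - 2 * r) * p.1 * ((p.2 : ℕ) : ℤ) +
            (1 - (r : ℤ) * k + r) * ((p.2 : ℕ) : ℤ) ^ 2).natAbs := by
          rw [norm_eq]
          simp only [genM]
          congr 1
          push_cast
          ring
        simp only [Function.comp]
        rw [e]

end H419R2
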