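import Mathlib

set_option autoImplicit false

/-! Partial sums of the sawtooth Fourier series: uniform bound and pointwise limit. -/

namespace H419R2.Saw

open Real Finset Filter Topology

noncomputable def B (N : ℕ) (x : ℝ) : ℝ :=
  (1 / π) * ∑ n ∈ Finset.Icc 1 N, Real.sin (2 * π * (n : ℝ) * x) / (n : ℝ)

lemma B_zero (x : ℝ) : B 0 x = 0 := by simp [B]

lemma B_neg (N : ℕ) (x : ℝ) : B N (-x) = -B N x := by
  unfold B
  rw [← mul_neg, ← Finset.sum_neg_distrib]
  congr 1
  refine Finset.sum_congr rfl fun n _ => ?_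
  rw [mul_neg, Real.sin_neg, neg_div]

lemma B_add_int (N : ℕ) (x : ℝ) (m : ℤ) : B N (x + m) = B N x := by
  unfold B
  congr 1
  refine Finset.sum_congr rfl fun n _ => ?_
  congr 1
  have : 2 * π * (n : ℝ) * (x + m) = 2 * π * (n : ℝ) * x + ((n * m : ℤ) : ℝ) * (2 * π) := by
    push_cast; ring
  rw [this, Real.sin_add_int_mul_two_pi]

lemma B_int (N : ℕ) (m : ℤ) : B N (m : ℝ) = 0 := by
  have := B_add_int N 0 m
  rw [zero_add] at this
  rw [this]
  simp [B]

lemma dirichlet (N : ℕ) (x : ℝ) :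
    Real.sin (π * x) * (1 + ∑ n ∈ Finset.Icc 1 N, 2 * Real.cos (2 * π * (n : ℝ) * x))
      = Real.sin ((2 * N + 1) * π * x) := by
  induction N with
  | zero => simp
  | succ N ih =>
    rw [Finset.sum_Icc_succ_top (by omega), ← add_assoc, mul_add, ih]
    have h1 : (2 * ((N + 1 : ℕ) : ℝ) + 1) * π * x
        = 2 * π * ((N + 1 : ℕ) : ℝ) * x + π * x := by ring
    have h2 : (2 * (N : ℝ) + 1) * π * x = 2 * π * ((N + 1 : ℕ) : ℝ) * x - π * x := by
      push_cast; ring
    rw [h1, h2, Real.sin_add, Real.sin_sub]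
    ring

lemma hasDerivAt_B (N : ℕ) (x : ℝ) :
    HasDerivAt (B N) (∑ n ∈ Finset.Icc 1 N, 2 * Real.cos (2 * π * (n : ℝ) * x)) x := by
  have h : HasDerivAt (fun y : ℝ => (1 / π) * ∑ n ∈ Finset.Icc 1 N,
      Real.sin (2 * π * (n : ℝ) * y) / (n : ℝ))
      ((1 / π) * ∑ n ∈ Finset.Icc 1 N, (Real.cos (2 * π * (n : ℝ) * x) * (2 * π * (n : ℝ))) / (n : ℝ)) x := by
    refine HasDerivAt.const_mul _ (HasDerivAt.fun_sum fun n _ => ?_)
    refine HasDerivAt.div_const ?_ _
    have h0 : HasDerivAt (fun y : ℝ => 2 * π * (n : ℝ) * y) (2 * π * (n : ℝ)) x := by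
      simpa using (hasDerivAt_id x).const_mul (2 * π * (n : ℝ))
    exact h0.sin
  refine HasDerivAt.congr_deriv (f := B N) h ?_
  rw [Finset.mul_sum]
  refine Finset.sum_congr rfl fun n hn => ?_
  have hn0 : (n : ℝ) ≠ 0 := by
    have : 1 ≤ n := (Finset.mem_Icc.1 hn).1
    positivity
  field_simp

lemma B_half (N : ℕ) : B N (1 / 2) = 0 := by
  unfold B
  have : ∀ n ∈ Finset.Icc 1 N, Real.sin (2 * π * (n : ℝ) * (1 / 2)) / (n : ℝ) = 0 := by
    intro n _
    have : 2 * π * (n : ℝ) * (1 / 2) = (n : ℝ) * π := by ring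
    rw [this, Real.sin_nat_mul_pi, zero_div]
  rw [Finset.sum_eq_zero this, mul_zero]

lemma sin_ge {x : ℝ} (h0 : 0 ≤ x) (h1 : x ≤ 1 / 2) : 2 * x ≤ Real.sin (π * x) := by
  have := Real.mul_le_sin (x := π * x) (by positivity) (by nlinarith [Real.pi_pos])
  calc 2 * x = 2 / π * (π * x) := by field_simp
    _ ≤ _ := this

/-- the key estimate on `(0, 1/2]` -/
lemma key (N : ℕ) {x : ℝ} (h0 : 0 < x) (h1 : x ≤ 1 / 2) :
    |B N x - (1 / 2 - x)| ≤ 1 / ((2 * N + 1) * π * x) := by
  set w : ℝ := (2 * N + 1) * π with hw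
  have hwpos : 0 < w := by positivity
  have hsin : ∀ u ∈ Set.Ioc (0 : ℝ) (1 / 2), 0 < Real.sin (π * u) := by
    intro u hu
    have := sin_ge hu.1.le hu.2
    linarith [hu.1]
  have hcos : ∀ u ∈ Set.Ioc (0 : ℝ) (1 / 2), 0 ≤ Real.cos (π * u) := by
    intro u hu
    apply Real.cos_nonneg_of_mem_Icc
    constructor <;> nlinarith [hu.1, hu.2, Real.pi_pos]
  let H : ℝ → ℝ := fun u => B N u - 1 / 2 + u + Real.cos (w * u) / (w * Real.sin (π * u))
  let K : ℝ → ℝ := fun u => 1 / (w * Real.sin (π * u))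
  have hH : ∀ u ∈ Set.Ioc (0 : ℝ) (1 / 2), HasDerivAt H
      (-(π * Real.cos (π * u) / (w * Real.sin (π * u) ^ 2)) * Real.cos (w * u)) u := by
    intro u hu
    have hs := (hsin u hu).ne'
    have hd := dirichlet N u
    have e1 : HasDerivAt (fun y : ℝ => w * Real.sin (π * y)) (w * (Real.cos (π * u) * π)) u := by
      refine HasDerivAt.const_mul _ ?_
      have h0 : HasDerivAt (fun y : ℝ => π * y) π u := by
        simpa using (hasDerivAt_id u).const_mul π
      exact h0.sin
    have e2 : HasDerivAt (fun y : ℝ => Real.cos (w * y)) (-Real.sin (w * u) * w) u := by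
      have h0 : HasDerivAt (fun y : ℝ => w * y) w u := by
        simpa using (hasDerivAt_id u).const_mul w
      exact h0.cos
    have e3 := e2.div e1 (mul_ne_zero hwpos.ne' hs)
    have e4 := (((hasDerivAt_B N u).sub_const (1 / 2)).add (hasDerivAt_id u)).add e3
    have e5 : Real.sin (w * u) = Real.sin (π * u) *
        (1 + ∑ n ∈ Finset.Icc 1 N, 2 * Real.cos (2 * π * (n : ℝ) * u)) := by
      rw [hd, hw]
    refine HasDerivAt.congr_deriv (f := H) e4 ?_
    rw [e5]
    generalize ∑ n ∈ Finset.Icc 1 N, 2 * Real.cos (2 * π * (n : ℝ) * u) = D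
    field_simp
    ring
  have hK : ∀ u ∈ Set.Ioc (0 : ℝ) (1 / 2), HasDerivAt K
      (-(π * Real.cos (π * u) / (w * Real.sin (π * u) ^ 2))) u := by
    intro u hu
    have hs := (hsin u hu).ne'
    have e1 : HasDerivAt (fun y : ℝ => w * Real.sin (π * y)) (w * (Real.cos (π * u) * π)) u := by
      refine HasDerivAt.const_mul _ ?_
      have h0 : HasDerivAt (fun y : ℝ => π * y) π u := by
        simpa using (hasDerivAt_id u).const_mul π
      exact h0.sin
    have e3 := (hasDerivAt_const u (1 : ℝ)).div e1 (mul_ne_zero hwpos.ne' hs)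
    refine HasDerivAt.congr_deriv (f := K) e3 ?_
    field_simp
    ring
  have hx : x ∈ Set.Icc x (1 / 2) := ⟨le_rfl, h1⟩
  have hh : (1 / 2 : ℝ) ∈ Set.Icc x (1 / 2) := ⟨h1, le_rfl⟩
  have hsub : ∀ u ∈ Set.Icc x (1 / 2), u ∈ Set.Ioc (0 : ℝ) (1 / 2) :=
    fun u hu => ⟨lt_of_lt_of_le h0 hu.1, hu.2⟩
  have hg : ∀ u ∈ Set.Ioc (0 : ℝ) (1 / 2), 0 ≤ π * Real.cos (π * u) / (w * Real.sin (π * u) ^ 2) := by
    intro u hu
    have := hcos u hu
    positivity
  have a1 : AntitoneOn (fun u => H u + K u) (Set.Icc x (1 / 2)) := by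
    refine antitoneOn_of_deriv_nonpos (convex_Icc _ _) ?_ ?_ ?_
    · intro u hu
      exact ((hH u (hsub u hu)).add (hK u (hsub u hu))).continuousAt.continuousWithinAt
    · intro u hu
      have hu' := hsub u (interior_subset hu)
      exact ((hH u hu').add (hK u hu')).differentiableAt.differentiableWithinAt
    · intro u hu
      have hu' := hsub u (interior_subset hu)
      have := ((hH u hu').add (hK u hu')).deriv
      have h3 : deriv (fun u => H u + K u) u = _ := this
      rw [h3]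
      nlinarith [hg u hu', Real.neg_one_le_cos (w * u)]
  have a2 : AntitoneOn (fun u => K u - H u) (Set.Icc x (1 / 2)) := by
    refine antitoneOn_of_deriv_nonpos (convex_Icc _ _) ?_ ?_ ?_
    · intro u hu
      exact ((hK u (hsub u hu)).sub (hH u (hsub u hu))).continuousAt.continuousWithinAt
    · intro u hu
      have hu' := hsub u (interior_subset hu)
      exact ((hK u hu').sub (hH u hu')).differentiableAt.differentiableWithinAt
    · intro u hu
      have hu' := hsub u (interior_subset hu)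
      have := ((hK u hu').sub (hH u hu')).deriv
      have h3 : deriv (fun u => K u - H u) u = _ := this
      rw [h3]
      nlinarith [hg u hu', Real.cos_le_one (w * u)]
  have b1 := a1 hx hh h1
  have b2 := a2 hx hh h1
  have hH2 : H (1 / 2) = 0 := by
    show B N (1 / 2) - 1 / 2 + 1 / 2 + Real.cos (w * (1 / 2)) / (w * Real.sin (π * (1 / 2))) = 0
    have : w * (1 / 2) = (N : ℝ) * π + π / 2 := by rw [hw]; ring
    rw [B_half, this, Real.cos_add_pi_div_two, Real.sin_nat_mul_pi]
    simp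
  have hK2 : 0 ≤ K (1 / 2) := by
    have := hsin (1 / 2) ⟨by norm_num, le_rfl⟩
    show 0 ≤ 1 / (w * Real.sin (π * (1 / 2)))
    positivity
  simp only [hH2] at b1 b2
  have hs := hsin x ⟨h0, h1⟩
  have hKx : K x ≤ 1 / (w * (2 * x)) := by
    show 1 / (w * Real.sin (π * x)) ≤ _
    apply one_div_le_one_div_of_le (by positivity)
    exact mul_le_mul_of_nonneg_left (sin_ge h0.le h1) hwpos.le
  have hc : |Real.cos (w * x) / (w * Real.sin (π * x))| ≤ K x := by
    rw [abs_div, abs_of_pos (by positivity : 0 < w * Real.sin (π * x))]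
    exact div_le_div_of_nonneg_right (Real.abs_cos_le_one _) (by positivity)
  have hHx : |H x| ≤ K x := by
    rw [abs_le]; constructor <;> linarith
  have hfin : B N x - (1 / 2 - x) = H x - Real.cos (w * x) / (w * Real.sin (π * x)) := by
    show _ = B N x - 1 / 2 + x + Real.cos (w * x) / (w * Real.sin (π * x)) - _
    ring
  rw [hfin]
  calc |H x - Real.cos (w * x) / (w * Real.sin (π * x))|
      ≤ |H x| + |Real.cos (w * x) / (w * Real.sin (π * x))| := abs_sub _ _
    _ ≤ K x + K x := add_le_add hHx hc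
    _ ≤ 1 / (w * (2 * x)) + 1 / (w * (2 * x)) := add_le_add hKx hKx
    _ = 1 / (w * x) := by field_simp; ring

lemma B_abs_half (N : ℕ) {x : ℝ} (h0 : 0 ≤ x) (h1 : x ≤ 1 / 2) : |B N x| ≤ 1 := by
  rcases h0.eq_or_lt with h | h
  · subst h
    have := B_int N 0
    simp only [Int.cast_zero] at this
    rw [this]; simp
  by_cases hx : 1 ≤ (2 * N + 1) * x
  · have hk := key N h h1
    have h2 : 1 / ((2 * N + 1) * π * x) ≤ 1 / 2 := by
      apply one_div_le_one_div_of_le (by norm_num)
      have : (2 : ℝ) ≤ π := by linarith [Real.pi_gt_three]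
      nlinarith [mul_le_mul this hx (by norm_num) Real.pi_pos.le]
    rw [abs_le] at hk ⊢
    constructor <;> linarith [hk.1, hk.2]
  · push Not at hx
    unfold B
    have h3 : |∑ n ∈ Finset.Icc 1 N, Real.sin (2 * π * (n : ℝ) * x) / (n : ℝ)|
        ≤ ∑ n ∈ Finset.Icc 1 N, 2 * π * x := by
      refine (Finset.abs_sum_le_sum_abs _ _).trans (Finset.sum_le_sum fun n hn => ?_)
      have hn0 : (0 : ℝ) < n := by
        have : 1 ≤ n := (Finset.mem_Icc.1 hn).1
        positivity
      rw [abs_div, abs_of_pos hn0, div_le_iff₀ hn0]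
      have h4 : |Real.sin (2 * π * (n : ℝ) * x)| ≤ |2 * π * (n : ℝ) * x| := Real.abs_sin_le_abs
      rw [abs_of_pos (a := 2 * π * (n : ℝ) * x) (by positivity)] at h4
      linarith
    rw [Finset.sum_const, Nat.card_Icc, nsmul_eq_mul] at h3
    have h5 : ((N + 1 - 1 : ℕ) : ℝ) = N := by simp
    rw [h5] at h3
    rw [abs_mul, abs_of_pos (by positivity : (0 : ℝ) < 1 / π)]
    calc 1 / π * |∑ n ∈ Finset.Icc 1 N, Real.sin (2 * π * (n : ℝ) * x) / (n : ℝ)|
        ≤ 1 / π * (N * (2 * π * x)) := mul_le_mul_of_nonneg_left h3 (by positivity)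
      _ = 2 * N * x := by field_simp
      _ ≤ 1 := by nlinarith

lemma B_abs (N : ℕ) (x : ℝ) : |B N x| ≤ 1 := by
  have h1 : B N x = B N (x - round x) := by
    have := B_add_int N (x - round x) (round x)
    rw [sub_add_cancel] at this
    exact this
  have h2 : |x - round x| ≤ 1 / 2 := abs_sub_round x
  rw [h1]
  rcases abs_cases (x - round x) with ⟨h3, h4⟩ | ⟨h3, h4⟩
  · rw [h3] at h2
    exact B_abs_half N h4 h2
  · rw [h3] at h2
    have := B_abs_half N (x := -(x - round x)) (by linarith) h2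
    rwa [B_neg, abs_neg] at this

/-- the sawtooth -/
noncomputable def psi (x : ℝ) : ℝ := if Int.fract x = 0 then 0 else 1 / 2 - Int.fract x

lemma psi_add_int (x : ℝ) (m : ℤ) : psi (x + m) = psi x := by
  unfold psi; rw [Int.fract_add_intCast]

lemma psi_zero : psi 0 = 0 := by simp [psi]

lemma psi_neg (x : ℝ) : psi (-x) = -psi x := by
  unfold psi
  by_cases h : Int.fract x = 0
  · have : Int.fract (-x) = 0 := by
      rw [Int.fract_neg_eq_zero]; exact h
    simp [h, this]
  · rw [if_neg (by rwa [Int.fract_neg_eq_zero]), if_neg h, Int.fract_neg h]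
    ring

lemma psi_of_lt {x : ℝ} (h0 : 0 < x) (h1 : x < 1) : psi x = 1 / 2 - x := by
  unfold psi
  have : Int.fract x = x := Int.fract_eq_self.2 ⟨h0.le, h1⟩
  rw [this, if_neg h0.ne']

lemma psi_abs (x : ℝ) : |psi x| ≤ 1 / 2 := by
  unfold psi
  split_ifs
  · simp
  · have := Int.fract_nonneg x
    have := (Int.fract_lt_one x).le
    rw [abs_le]; constructor <;> linarith

lemma neg_psi_le (x : ℝ) : -psi x ≤ x - (⌈x⌉ - 1) - 1 / 2 := by
  unfold psi
  by_cases h : Int.fract x = 0
  · rw [if_pos h]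
    have h2 : (⌈x⌉ : ℝ) = x := by
      obtain ⟨m, hm⟩ := Int.fract_eq_zero_iff.1 h
      rw [← hm]; simp
    rw [h2]; norm_num
  · rw [if_neg h]
    have h2 : (⌈x⌉ : ℝ) ≤ ⌊x⌋ + 1 := by exact_mod_cast Int.ceil_le_floor_add_one x
    have h3 : Int.fract x = x - ⌊x⌋ := rfl
    rw [h3]; linarith

lemma tendsto_half {x : ℝ} (h0 : 0 < x) (h1 : x ≤ 1 / 2) :
    Tendsto (fun N : ℕ => B N x) atTop (𝓝 (1 / 2 - x)) := by
  rw [tendsto_iff_norm_sub_tendsto_zero]
  refine squeeze_zero (fun N => norm_nonneg _) (fun N => ?_)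
    (g := fun N : ℕ => (1 / (π * x)) * (1 / ((N : ℝ) + 1))) ?_
  · rw [Real.norm_eq_abs]
    refine (key N h0 h1).trans ?_
    rw [← one_div_mul_one_div_rev, ← one_div_mul_one_div_rev, ← one_div_mul_one_div_rev]
    have : 1 / (2 * (N : ℝ) + 1) ≤ 1 / ((N : ℝ) + 1) :=
      one_div_le_one_div_of_le (by positivity) (by linarith [(Nat.cast_nonneg N : (0 : ℝ) ≤ N)])
    calc 1 / x * (1 / π * (1 / (2 * (N : ℝ) + 1))) ≤ 1 / x * (1 / π * (1 / ((N : ℝ) + 1))) := by
          gcongr
      _ = _ := by ring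
  · have := tendsto_one_div_add_atTop_nhds_zero_nat (𝕜 := ℝ)
    simpa using this.const_mul (1 / (π * x))

lemma tendsto_B (x : ℝ) : Tendsto (fun N : ℕ => B N x) atTop (𝓝 (psi x)) := by
  have hx : x = Int.fract x + (⌊x⌋ : ℤ) := (Int.fract_add_floor x).symm
  set y := Int.fract x with hy
  have e1 : (fun N : ℕ => B N x) = fun N : ℕ => B N y := by
    funext N; rw [hx, B_add_int]
  have e2 : psi x = psi y := by rw [hx, psi_add_int]
  rw [e1, e2]
  have hy0 : 0 ≤ y := Int.fract_nonneg x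
  have hy1 : y < 1 := Int.fract_lt_one x
  rcases hy0.eq_or_lt with h | h
  · rw [← h, psi_zero]
    have : (fun N : ℕ => B N 0) = fun _ => (0 : ℝ) := by
      funext N
      have := B_int N 0
      simpa using this
    rw [this]
    exact tendsto_const_nhds
  · rw [psi_of_lt h hy1]
    by_cases h2 : y ≤ 1 / 2
    · exact tendsto_half h h2
    · push Not at h2
      have h3 := tendsto_half (x := 1 - y) (by linarith) (by linarith)
      have h4 : (fun N : ℕ => B N y) = fun N : ℕ => -B N (1 - y) := by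
        funext N
        rw [← B_neg]
        have := B_add_int N (-(1 - y)) 1
        rw [← this]
        congr 1
        push_cast; ring
      rw [h4]
      have h5 : 1 / 2 - y = -(1 / 2 - (1 - y)) := by ring
      rw [h5]
      exact h3.neg

end H419R2.Saw
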