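import Mathlib
import Pool.Agent.H419R2.Saw

set_option autoImplicit false

/-! Completely multiplicative signs with finitely many flipped primes. -/

namespace H419R2.Flip

open Real Finset Filter Topology H419R2.Saw

/-- the completely multiplicative sign function with value `-1` exactly at the primes of `L` -/
noncomputable def sg : List ℕ → ℕ → ℝ
  | [], _ => 1
  | p :: L, n => (-1 : ℝ) ^ (padicValNat p n) * sg L n

lemma sg_eq (L : List ℕ) (n : ℕ) : sg L n = 1 ∨ sg L n = -1 := by
  induction L with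
  | nil => left; rfl
  | cons p L ih =>
    show (-1 : ℝ) ^ (padicValNat p n) * sg L n = 1 ∨ (-1 : ℝ) ^ (padicValNat p n) * sg L n = -1
    rcases neg_one_pow_eq_or ℝ (padicValNat p n) with h | h <;> rcases ih with h2 | h2 <;>
      rw [h, h2] <;> norm_num

lemma sg_one (L : List ℕ) : sg L 1 = 1 := by
  induction L with
  | nil => rfl
  | cons p L ih =>
    show (-1 : ℝ) ^ (padicValNat p 1) * sg L 1 = 1
    rw [ih]; simp

lemma sg_mul (L : List ℕ) (hL : ∀ p ∈ L, p.Prime) (m n : ℕ) (hm : 1 ≤ m) (hn : 1 ≤ n) :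
    sg L (m * n) = sg L m * sg L n := by
  induction L with
  | nil => simp [sg]
  | cons p L ih =>
    show (-1 : ℝ) ^ (padicValNat p (m * n)) * sg L (m * n)
      = (-1 : ℝ) ^ (padicValNat p m) * sg L m * ((-1 : ℝ) ^ (padicValNat p n) * sg L n)
    have hp : Fact p.Prime := ⟨hL p (by simp)⟩
    rw [padicValNat.mul (by omega) (by omega), pow_add,
      ih (fun q hq => hL q (by simp [hq]))]
    ring

lemma sg_prime (L : List ℕ) (hL : ∀ p ∈ L, p.Prime) (p : ℕ) (hp : p.Prime) (hpL : p ∉ L) :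
    sg L p = 1 := by
  induction L with
  | nil => rfl
  | cons q L ih =>
    show (-1 : ℝ) ^ (padicValNat q p) * sg L p = 1
    have hq : Fact q.Prime := ⟨hL q (by simp)⟩
    have hp' : Fact p.Prime := ⟨hp⟩
    have hne : q ≠ p := by
      intro h; apply hpL; simp [h]
    rw [padicValNat_primes hne, ih (fun r hr => hL r (by simp [hr]))
      (fun h => hpL (by simp [h]))]
    norm_num

noncomputable def A (L : List ℕ) (N : ℕ) (t : ℝ) : ℝ :=
  (1 / π) * ∑ n ∈ Finset.Icc 1 N, sg L n * Real.sin (2 * π * (n : ℝ) * t) / (n : ℝ)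

lemma A_nil (N : ℕ) (t : ℝ) : A [] N t = B N t := by
  unfold A B
  simp [sg]

lemma A_step (L : List ℕ) (hL : ∀ p ∈ L, p.Prime) (p : ℕ) (hp : p.Prime) (hpL : p ∉ L)
    (N : ℕ) (t : ℝ) :
    A (p :: L) N t = A L N t - (1 / (p : ℝ)) * (A L (N / p) (p * t) + A (p :: L) (N / p) (p * t)) := by
  have hp' : Fact p.Prime := ⟨hp⟩
  have hp0 : (p : ℝ) ≠ 0 := by exact_mod_cast hp.ne_zero
  have h1 : ∑ n ∈ Finset.Icc 1 N, (sg (p :: L) n - sg L n) * Real.sin (2 * π * (n : ℝ) * t) / (n : ℝ)
      = ∑ m ∈ Finset.Icc 1 (N / p), (sg (p :: L) (p * m) - sg L (p * m)) *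
          Real.sin (2 * π * ((p * m : ℕ) : ℝ) * t) / ((p * m : ℕ) : ℝ) := by
    have hinj : Set.InjOn (fun m : ℕ => p * m) (Finset.Icc 1 (N / p) : Finset ℕ) := by
      intro a _ b _ h
      exact Nat.eq_of_mul_eq_mul_left hp.pos h
    rw [← Finset.sum_image (f := fun n : ℕ => (sg (p :: L) n - sg L n) *
      Real.sin (2 * π * (n : ℝ) * t) / (n : ℝ)) hinj]
    symm
    apply Finset.sum_subset
    · intro n hn
      obtain ⟨m, hm, rfl⟩ := Finset.mem_image.1 hn
      rw [Finset.mem_Icc] at hm ⊢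
      constructor
      · exact Nat.mul_pos hp.pos hm.1
      · calc p * m ≤ p * (N / p) := Nat.mul_le_mul_left _ hm.2
          _ ≤ N := Nat.mul_div_le N p
    · intro n hn hn2
      have hnd : ¬ p ∣ n := by
        rintro ⟨m, rfl⟩
        apply hn2
        rw [Finset.mem_Icc] at hn
        refine Finset.mem_image.2 ⟨m, Finset.mem_Icc.2 ⟨?_, ?_⟩, rfl⟩
        · rcases Nat.eq_zero_or_pos m with h | h
          · subst h; simp at hn
          · exact h
        · rw [Nat.le_div_iff_mul_le hp.pos, mul_comm]; exact hn.2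
      have : sg (p :: L) n = sg L n := by
        show (-1 : ℝ) ^ (padicValNat p n) * sg L n = sg L n
        rw [padicValNat.eq_zero_of_not_dvd hnd]; simp
      rw [this]; simp
  have h2 : ∀ m ∈ Finset.Icc 1 (N / p), (sg (p :: L) (p * m) - sg L (p * m)) *
      Real.sin (2 * π * ((p * m : ℕ) : ℝ) * t) / ((p * m : ℕ) : ℝ)
      = -(1 / (p : ℝ)) * (sg L m * Real.sin (2 * π * (m : ℝ) * (p * t)) / (m : ℝ)
        + sg (p :: L) m * Real.sin (2 * π * (m : ℝ) * (p * t)) / (m : ℝ)) := by
    intro m hm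
    have hm1 : 1 ≤ m := (Finset.mem_Icc.1 hm).1
    have hm0 : (m : ℝ) ≠ 0 := by positivity
    have e1 : sg L (p * m) = sg L m := by
      rw [sg_mul L hL p m hp.one_lt.le hm1, sg_prime L hL p hp hpL, one_mul]
    have e2 : sg (p :: L) (p * m) = - sg (p :: L) m := by
      show (-1 : ℝ) ^ (padicValNat p (p * m)) * sg L (p * m)
        = -((-1 : ℝ) ^ (padicValNat p m) * sg L m)
      rw [e1, padicValNat.mul hp.ne_zero (by omega), padicValNat_self, pow_add]
      ring
    rw [e1, e2]
    have e3 : 2 * π * ((p * m : ℕ) : ℝ) * t = 2 * π * (m : ℝ) * (p * t) := by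
      push_cast; ring
    rw [e3]
    push_cast
    field_simp
    ring
  have h3 : A (p :: L) N t - A L N t = (1 / π) * ∑ n ∈ Finset.Icc 1 N,
      (sg (p :: L) n - sg L n) * Real.sin (2 * π * (n : ℝ) * t) / (n : ℝ) := by
    unfold A
    rw [← mul_sub, ← Finset.sum_sub_distrib]
    congr 1
    refine Finset.sum_congr rfl fun n _ => ?_
    ring
  rw [h1, Finset.sum_congr rfl h2, ← Finset.mul_sum, Finset.sum_add_distrib] at h3
  have h4 : A (p :: L) N t = A L N t + (1 / π) * (-(1 / (p : ℝ)) *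
      (∑ m ∈ Finset.Icc 1 (N / p), sg L m * Real.sin (2 * π * (m : ℝ) * (p * t)) / (m : ℝ)
        + ∑ m ∈ Finset.Icc 1 (N / p), sg (p :: L) m * Real.sin (2 * π * (m : ℝ) * (p * t)) / (m : ℝ))) := by
    rw [← h3]; ring
  rw [h4]
  unfold A
  ring

/-- uniform bounds -/
noncomputable def cC : List ℕ → ℝ
  | [] => 1
  | p :: L => cC L * (((p : ℝ) + 1) / ((p : ℝ) - 1))

noncomputable def dD : List ℕ → ℝ
  | [] => 0
  | p :: L => dD L + (cC L + cC (p :: L)) / (p : ℝ)

noncomputable def eE : List ℕ → ℝ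
  | [] => 0
  | p :: L => eE L + (cC L + cC (p :: L)) / (p : ℝ) ^ 2 + 2 / (p : ℝ) * dD L

noncomputable def fo : List ℕ → ℕ → ℝ → ℝ
  | [], N, t => B N t
  | p :: L, N, t => fo L N t - 2 / (p : ℝ) * B (N / p) (p * t)

noncomputable def F : List ℕ → ℝ → ℝ
  | [], t => psi t
  | p :: L, t => F L t - 2 / (p : ℝ) * psi (p * t)

lemma cC_nonneg (L : List ℕ) (hL : ∀ p ∈ L, p.Prime) : 0 ≤ cC L := by
  induction L with
  | nil => simp [cC]
  | cons p L ih =>
    have hp : (2 : ℝ) ≤ p := by exact_mod_cast (hL p (by simp)).two_le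
    have := ih (fun q hq => hL q (by simp [hq]))
    show 0 ≤ cC L * (((p : ℝ) + 1) / ((p : ℝ) - 1))
    apply mul_nonneg this
    apply div_nonneg <;> linarith

lemma A_bound (L : List ℕ) (hL : ∀ p ∈ L, p.Prime) (hN : L.Nodup) (N : ℕ) (t : ℝ) :
    |A L N t| ≤ cC L := by
  induction L generalizing N t with
  | nil => rw [A_nil]; exact B_abs N t
  | cons p L ih =>
    have hp : p.Prime := hL p (by simp)
    have hpr : (2 : ℝ) ≤ p := by exact_mod_cast hp.two_le
    have hL' : ∀ q ∈ L, q.Prime := fun q hq => hL q (by simp [hq])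
    rw [List.nodup_cons] at hN
    have hc := cC_nonneg L hL'
    have hc' := cC_nonneg (p :: L) hL
    have hrec : cC (p :: L) = cC L * (((p : ℝ) + 1) / ((p : ℝ) - 1)) := rfl
    induction N using Nat.strong_induction_on generalizing t with
    | _ N ihN =>
      rcases Nat.eq_zero_or_pos N with h | h
      · subst h
        have : A (p :: L) 0 t = 0 := by simp [A]
        rw [this, abs_zero]; exact hc'
      · rw [A_step L hL' p hp hN.1]
        have h1 := ih hL' hN.2 N t
        have h2 := ih hL' hN.2 (N / p) (p * t)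
        have h3 := ihN (N / p) (Nat.div_lt_self h hp.one_lt) (p * t)
        calc |A L N t - 1 / (p : ℝ) * (A L (N / p) (p * t) + A (p :: L) (N / p) (p * t))|
            ≤ |A L N t| + |1 / (p : ℝ) * (A L (N / p) (p * t) + A (p :: L) (N / p) (p * t))| :=
              abs_sub _ _
          _ ≤ cC L + 1 / (p : ℝ) * (cC L + cC (p :: L)) := by
              rw [abs_mul, abs_of_pos (by positivity : (0 : ℝ) < 1 / p)]
              have := abs_add_le (A L (N / p) (p * t)) (A (p :: L) (N / p) (p * t))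
              gcongr
              linarith
          _ = cC (p :: L) := by
              rw [hrec]
              have : (p : ℝ) - 1 ≠ 0 := by linarith
              field_simp
              ring

lemma A_close (L : List ℕ) (hL : ∀ p ∈ L, p.Prime) (hN : L.Nodup) (N : ℕ) (t : ℝ) :
    |A L N t - B N t| ≤ dD L := by
  induction L generalizing N t with
  | nil => rw [A_nil]; simp [dD]
  | cons p L ih =>
    have hp : p.Prime := hL p (by simp)
    have hpr : (2 : ℝ) ≤ p := by exact_mod_cast hp.two_le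
    have hL' : ∀ q ∈ L, q.Prime := fun q hq => hL q (by simp [hq])
    have hN' := hN
    rw [List.nodup_cons] at hN
    have h1 := ih hL' hN.2 N t
    have h2 := A_bound L hL' hN.2 (N / p) (p * t)
    have h3 := A_bound (p :: L) hL hN' (N / p) (p * t)
    rw [A_step L hL' p hp hN.1]
    show _ ≤ dD L + (cC L + cC (p :: L)) / (p : ℝ)
    calc |A L N t - 1 / (p : ℝ) * (A L (N / p) (p * t) + A (p :: L) (N / p) (p * t)) - B N t|
        = |(A L N t - B N t) - 1 / (p : ℝ) * (A L (N / p) (p * t) + A (p :: L) (N / p) (p * t))| := by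
          congr 1; ring
      _ ≤ |A L N t - B N t| + |1 / (p : ℝ) * (A L (N / p) (p * t) + A (p :: L) (N / p) (p * t))| :=
          abs_sub _ _
      _ ≤ dD L + 1 / (p : ℝ) * (cC L + cC (p :: L)) := by
          rw [abs_mul, abs_of_pos (by positivity : (0 : ℝ) < 1 / p)]
          have := abs_add_le (A L (N / p) (p * t)) (A (p :: L) (N / p) (p * t))
          gcongr
          linarith
      _ = _ := by ring

lemma A_fo (L : List ℕ) (hL : ∀ p ∈ L, p.Prime) (hN : L.Nodup) (N : ℕ) (t : ℝ) :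
    |A L N t - fo L N t| ≤ eE L := by
  induction L generalizing N t with
  | nil => rw [A_nil]; simp [eE, fo]
  | cons p L ih =>
    have hp : p.Prime := hL p (by simp)
    have hpr : (2 : ℝ) ≤ p := by exact_mod_cast hp.two_le
    have hL' : ∀ q ∈ L, q.Prime := fun q hq => hL q (by simp [hq])
    have hN' := hN
    rw [List.nodup_cons] at hN
    have h1 := ih hL' hN.2 N t
    have h2 := A_bound L hL' hN.2 (N / p / p) (p * (p * t))
    have h3 := A_bound (p :: L) hL hN' (N / p / p) (p * (p * t))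
    have h4 := A_close L hL' hN.2 (N / p) (p * t)
    rw [A_step L hL' p hp hN.1 N t, A_step L hL' p hp hN.1 (N / p) (p * t)]
    show |_ - (fo L N t - 2 / (p : ℝ) * B (N / p) (p * t))|
      ≤ eE L + (cC L + cC (p :: L)) / (p : ℝ) ^ 2 + 2 / (p : ℝ) * dD L
    set a := A L N t
    set b := A L (N / p) (p * t)
    set c := A L (N / p / p) (p * (p * t))
    set d := A (p :: L) (N / p / p) (p * (p * t))
    calc |a - 1 / (p : ℝ) * (b + (b - 1 / (p : ℝ) * (c + d)))
          - (fo L N t - 2 / (p : ℝ) * B (N / p) (p * t))|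
        = |(a - fo L N t) + (1 / (p : ℝ) ^ 2) * (c + d)
            + -(2 / (p : ℝ) * (b - B (N / p) (p * t)))| := by
          congr 1; ring
      _ ≤ |(a - fo L N t) + (1 / (p : ℝ) ^ 2) * (c + d)|
            + |-(2 / (p : ℝ) * (b - B (N / p) (p * t)))| := abs_add_le _ _
      _ ≤ |a - fo L N t| + |(1 / (p : ℝ) ^ 2) * (c + d)|
            + |-(2 / (p : ℝ) * (b - B (N / p) (p * t)))| := by
          gcongr; exact abs_add_le _ _
      _ = |a - fo L N t| + (1 / (p : ℝ) ^ 2) * |c + d|
            + 2 / (p : ℝ) * |b - B (N / p) (p * t)| := by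
          rw [abs_neg, abs_mul, abs_mul, abs_of_pos (by positivity : (0 : ℝ) < 1 / (p : ℝ) ^ 2),
            abs_of_pos (by positivity : (0 : ℝ) < 2 / (p : ℝ))]
      _ ≤ eE L + (1 / (p : ℝ) ^ 2) * (cC L + cC (p :: L)) + 2 / (p : ℝ) * dD L := by
          have := abs_add_le c d
          gcongr
          linarith
      _ = _ := by ring

lemma tendsto_fo (L : List ℕ) (hL : ∀ p ∈ L, p.Prime) (t : ℝ) :
    Tendsto (fun N : ℕ => fo L N t) atTop (𝓝 (F L t)) := by
  induction L with
  | nil => exact tendsto_B t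
  | cons p L ih =>
    have hp : p.Prime := hL p (by simp)
    have h1 := ih (fun q hq => hL q (by simp [hq]))
    have h2 : Tendsto (fun N : ℕ => B (N / p) (p * t)) atTop (𝓝 (psi (p * t))) :=
      (tendsto_B (p * t)).comp (Nat.tendsto_div_const_atTop hp.ne_zero)
    exact h1.sub (h2.const_mul _)

theorem limit_close (L : List ℕ) (hL : ∀ p ∈ L, p.Prime) (hN : L.Nodup) (t l : ℝ)
    (h : Tendsto (fun N : ℕ => A L N t) atTop (𝓝 l)) : |l - F L t| ≤ eE L := by
  have h1 : Tendsto (fun N : ℕ => |A L N t - fo L N t|) atTop (𝓝 |l - F L t|) :=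
    (h.sub (tendsto_fo L hL t)).abs
  exact le_of_tendsto h1 (Eventually.of_forall fun N => A_fo L hL hN N t)

end H419R2.Flip
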