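import Mathlib
import Pool.Agent.H419R2.Flip

set_option autoImplicit false

/-! The explicit nine primes. -/

namespace H419R2.Cex

open Real Finset Filter Topology H419R2.Saw H419R2.Flip

def P : List ℕ := [10007, 27299, 35111, 44729, 62653, 63907, 71693, 97729, 182243]

def chk (p k : ℕ) : Bool :=
  decide ((17 * (k : ℚ) / (p : ℚ) + 1 / 500000)
    ≤ (P.map (fun q : ℕ => (2 * (((q * k + p - 1) / p : ℕ) : ℚ) - 1) / (q : ℚ))).sum)

def chkAll : Bool :=
  P.all fun p => (List.range 49).all fun k =>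
    k == 0 || decide (2655 * p ≤ k * 10000000) || chk p k

theorem chkAll_true : chkAll = true := by decide +kernel

lemma P_prime : ∀ p ∈ P, p.Prime := by
  intro p hp
  simp only [P, List.mem_cons, List.not_mem_nil, or_false] at hp
  rcases hp with h | h | h | h | h | h | h | h | h <;> subst h <;> norm_num

lemma P_nodup : P.Nodup := by decide +kernel

lemma F_sum (L : List ℕ) (t : ℝ) :
    F L t = psi t - (L.map (fun p : ℕ => 2 / (p : ℝ) * psi (p * t))).sum := by
  induction L with
  | nil => simp [F]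
  | cons p L ih =>
    show F L t - 2 / (p : ℝ) * psi (p * t) = _
    rw [ih, List.map_cons, List.sum_cons]
    ring

lemma F_neg (L : List ℕ) (t : ℝ) : F L (-t) = -F L t := by
  induction L with
  | nil => exact psi_neg t
  | cons p L ih =>
    show F L (-t) - 2 / (p : ℝ) * psi (p * -t) = -(F L t - 2 / (p : ℝ) * psi (p * t))
    rw [ih, mul_neg, psi_neg]
    ring

lemma F_add_int (L : List ℕ) (t : ℝ) (m : ℤ) : F L (t + m) = F L t := by
  induction L with
  | nil => exact psi_add_int t m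
  | cons p L ih =>
    show F L (t + m) - 2 / (p : ℝ) * psi (p * (t + m)) = F L t - 2 / (p : ℝ) * psi (p * t)
    have : (p : ℝ) * (t + m) = p * t + ((p * m : ℤ) : ℝ) := by push_cast; ring
    rw [ih, this, psi_add_int]

lemma sum_map_le (L : List ℕ) (f g : ℕ → ℝ) (h : ∀ p ∈ L, f p ≤ g p) :
    (L.map f).sum ≤ (L.map g).sum := by
  induction L with
  | nil => simp
  | cons p L ih =>
    simp only [List.map_cons, List.sum_cons]
    exact add_le_add (h p (by simp)) (ih fun q hq => h q (by simp [hq]))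

lemma inv_sum : (P.map (fun p : ℕ => 1 / (p : ℝ))).sum ≤ 249 / 1000000 := by
  norm_num [P]

/-- the crude bound -/
lemma crude (t : ℝ) : |F P t - psi t| ≤ 249 / 1000000 := by
  have h1 : F P t - psi t = -(P.map (fun p : ℕ => 2 / (p : ℝ) * psi (p * t))).sum := by
    rw [F_sum]; ring
  rw [h1, abs_neg]
  refine le_trans ?_ inv_sum
  have hb : ∀ p : ℕ, |2 / (p : ℝ) * psi (p * t)| ≤ 1 / (p : ℝ) := by
    intro p
    rw [abs_mul, abs_of_nonneg (by positivity : (0 : ℝ) ≤ 2 / p)]
    have := psi_abs (p * t)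
    calc 2 / (p : ℝ) * |psi (p * t)| ≤ 2 / (p : ℝ) * (1 / 2) := by gcongr
      _ = 1 / (p : ℝ) := by ring
  rw [abs_le]
  constructor
  · have := sum_map_le P (fun p : ℕ => -(1 / (p : ℝ))) (fun p : ℕ => 2 / (p : ℝ) * psi (p * t))
      (fun p _ => (abs_le.1 (hb p)).1)
    have h2 : (P.map (fun p : ℕ => -(1 / (p : ℝ)))).sum = -(P.map (fun p : ℕ => 1 / (p : ℝ))).sum := by
      norm_num [P]
    rw [h2] at this
    exact this
  · exact sum_map_le P _ _ (fun p _ => (abs_le.1 (hb p)).2)

/-- the fine bound near `0` -/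
lemma fine (t : ℝ) (h0 : 0 < t) (h1 : t < 26 / 100000) : F P t ≤ 1 / 2 - 1 / 500000 := by
  -- ceilings
  set c : ℕ → ℕ := fun q => ⌈(q : ℝ) * t⌉₊ with hc
  have hqpos : ∀ q ∈ P, 0 < q := fun q hq => (P_prime q hq).pos
  have hPne : P.toFinset.Nonempty := ⟨10007, by simp [P]⟩
  obtain ⟨p, hp, hmin⟩ := P.toFinset.exists_min_image (fun q => (c q : ℝ) / (q : ℝ)) hPne
  rw [List.mem_toFinset] at hp
  have hmin' : ∀ q ∈ P, (c p : ℝ) / (p : ℝ) ≤ (c q : ℝ) / (q : ℝ) :=
    fun q hq => hmin q (List.mem_toFinset.2 hq)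
  set k : ℕ := c p with hk
  have hp0 : 0 < p := hqpos p hp
  have hp0' : (0 : ℝ) < p := by exact_mod_cast hp0
  have hkpos : 1 ≤ k := by
    rw [hk, hc]
    exact Nat.one_le_ceil_iff.2 (by positivity)
  have hcle : ∀ q : ℕ, (q : ℝ) * t ≤ c q := fun q => Nat.le_ceil _
  have hcq : ∀ q ∈ P, c q = (q * k + p - 1) / p := by
    intro q hq
    have hq0 : (0 : ℝ) < q := by exact_mod_cast hqpos q hq
    apply le_antisymm
    · apply Nat.ceil_le.2
      have h2 : (q : ℝ) * t ≤ (q : ℝ) * (k : ℝ) / p := by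
        rw [mul_div_assoc]
        apply mul_le_mul_of_nonneg_left _ hq0.le
        rw [le_div_iff₀ hp0', mul_comm]
        exact hcle p
      refine h2.trans ?_
      rw [div_le_iff₀ hp0']
      have h3 : q * k ≤ (q * k + p - 1) / p * p := by
        have h4 := Nat.div_add_mod (q * k + p - 1) p
        have h5 := Nat.mod_lt (q * k + p - 1) hp0
        have h6 : (q * k + p - 1) / p * p = p * ((q * k + p - 1) / p) := Nat.mul_comm _ _
        omega
      exact_mod_cast h3
    · have h2 := hmin' q hq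
      rw [div_le_div_iff₀ hp0' hq0] at h2
      have h3 : k * q ≤ c q * p := by exact_mod_cast h2
      apply Nat.le_of_lt_succ
      rw [Nat.div_lt_iff_lt_mul hp0]
      have h4 : (c q).succ * p = c q * p + p := by rw [Nat.succ_mul]
      have h5 : q * k = k * q := Nat.mul_comm _ _
      omega
  -- size of k
  have hkb : k * 10000000 < 2655 * p := by
    have h2 := hmin' 182243 (by simp [P])
    have h3 : (c 182243 : ℝ) < ((182243 : ℕ) : ℝ) * t + 1 := Nat.ceil_lt_add_one (by positivity)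
    have h4 : (k : ℝ) / p < 2655 / 10000000 := by
      refine lt_of_le_of_lt h2 ?_
      rw [div_lt_iff₀ (by norm_num)]
      push_cast at h3 ⊢
      linarith
    rw [div_lt_div_iff₀ hp0' (by norm_num)] at h4
    exact_mod_cast h4
  have hk49 : k < 49 := by
    have hple : p ≤ 182243 := by
      simp only [P, List.mem_cons, List.not_mem_nil, or_false] at hp
      omega
    omega
  -- the check
  have hchk : chk p k = true := by
    have h2 := chkAll_true
    unfold chkAll at h2
    rw [List.all_eq_true] at h2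
    have h3 := h2 p hp
    rw [List.all_eq_true] at h3
    have h4 := h3 k (List.mem_range.2 hk49)
    rw [Bool.or_eq_true, Bool.or_eq_true, beq_iff_eq, decide_eq_true_eq] at h4
    rcases h4 with (h4 | h4) | h4
    · omega
    · omega
    · exact h4
  unfold chk at hchk
  rw [decide_eq_true_eq] at hchk
  have hchk' : (17 * (k : ℝ) / (p : ℝ) + 1 / 500000)
      ≤ (P.map (fun q : ℕ => (2 * (((q * k + p - 1) / p : ℕ) : ℝ) - 1) / (q : ℝ))).sum := by
    have h2 : (((17 * (k : ℚ) / (p : ℚ) + 1 / 500000 : ℚ)) : ℝ)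
      ≤ (((P.map (fun q : ℕ => (2 * (((q * k + p - 1) / p : ℕ) : ℚ) - 1) / (q : ℚ))).sum : ℚ) : ℝ) := by
      exact_mod_cast hchk
    have h3 : (((P.map (fun q : ℕ => (2 * (((q * k + p - 1) / p : ℕ) : ℚ) - 1) / (q : ℚ))).sum : ℚ) : ℝ)
      = (P.map (fun q : ℕ => (2 * (((q * k + p - 1) / p : ℕ) : ℝ) - 1) / (q : ℝ))).sum := by
      simp only [P, List.map_cons, List.map_nil, List.sum_cons, List.sum_nil]
      push_cast
      rfl
    rw [h3] at h2
    push_cast at h2 ⊢
    exact h2
  -- the bound for F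
  have hF : F P t ≤ 1 / 2 - t + (P.map (fun q : ℕ => 2 * t - (2 * (((q * k + p - 1) / p : ℕ) : ℝ) - 1) / (q : ℝ))).sum := by
    rw [F_sum, psi_of_lt h0 (by linarith)]
    have h2 : -(P.map (fun q : ℕ => 2 / (q : ℝ) * psi (q * t))).sum
        = (P.map (fun q : ℕ => -(2 / (q : ℝ) * psi (q * t)))).sum := by
      simp only [P, List.map_cons, List.map_nil, List.sum_cons, List.sum_nil]
      ring
    have h3 := sum_map_le P (fun q : ℕ => -(2 / (q : ℝ) * psi (q * t)))
      (fun q : ℕ => 2 * t - (2 * (((q * k + p - 1) / p : ℕ) : ℝ) - 1) / (q : ℝ)) ?_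
    · linarith
    · intro q hq
      have hq0 : (0 : ℝ) < q := by exact_mod_cast hqpos q hq
      show -(2 / (q : ℝ) * psi (q * t)) ≤ 2 * t - (2 * (((q * k + p - 1) / p : ℕ) : ℝ) - 1) / (q : ℝ)
      have h4 := neg_psi_le ((q : ℝ) * t)
      have h5 : ((⌈(q : ℝ) * t⌉ : ℤ) : ℝ) = (((q * k + p - 1) / p : ℕ) : ℝ) := by
        rw [← hcq q hq, hc]
        show _ = ((⌈(q : ℝ) * t⌉₊ : ℕ) : ℝ)
        rw [← Int.natCast_ceil_eq_ceil (by positivity)]
        norm_cast
      rw [h5] at h4
      calc -(2 / (q : ℝ) * psi (q * t)) = 2 / (q : ℝ) * (-psi (q * t)) := by ring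
        _ ≤ 2 / (q : ℝ) * (q * t - ((((q * k + p - 1) / p : ℕ) : ℝ) - 1) - 1 / 2) := by gcongr
        _ = _ := by field_simp; ring
  have hsum : (P.map (fun q : ℕ => 2 * t - (2 * (((q * k + p - 1) / p : ℕ) : ℝ) - 1) / (q : ℝ))).sum
      = 18 * t - (P.map (fun q : ℕ => (2 * (((q * k + p - 1) / p : ℕ) : ℝ) - 1) / (q : ℝ))).sum := by
    simp only [P, List.map_cons, List.map_nil, List.sum_cons, List.sum_nil]
    ring
  rw [hsum] at hF
  have ht : t ≤ (k : ℝ) / p := by
    rw [le_div_iff₀ hp0', mul_comm]; exact hcle p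
  have h17 : 17 * (k : ℝ) / p = 17 * ((k : ℝ) / p) := by ring
  rw [h17] at hchk'
  linarith

lemma F_half (t : ℝ) (h0 : 0 ≤ t) (h1 : t ≤ 1 / 2) : |F P t| ≤ 1 / 2 - 1 / 500000 := by
  rcases h0.eq_or_lt with h | h
  · have h2 : F P 0 = 0 := by
      have := F_neg P 0
      rw [neg_zero] at this
      linarith
    rw [← h, h2]; norm_num
  · have hc := abs_le.1 (crude t)
    rw [psi_of_lt h (by linarith)] at hc
    rw [abs_le]
    constructor
    · linarith [hc.1]
    · by_cases h3 : t < 26 / 100000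
      · exact fine t h h3
      · push Not at h3
        linarith [hc.2]

theorem F_bound (t : ℝ) : |F P t| ≤ 1 / 2 - 1 / 500000 := by
  have h1 : F P t = F P (t - round t) := by
    have := F_add_int P (t - round t) (round t)
    rw [sub_add_cancel] at this
    exact this
  have h2 : |t - round t| ≤ 1 / 2 := abs_sub_round t
  rw [h1]
  rcases abs_cases (t - round t) with ⟨h3, h4⟩ | ⟨h3, h4⟩
  · rw [h3] at h2
    exact F_half _ h4 h2
  · rw [h3] at h2
    have := F_half (-(t - round t)) (by linarith) h2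
    rwa [F_neg, abs_neg] at this

theorem eE_P : eE P ≤ 1 / 1000000 := by
  norm_num [P, eE, dD, cC]

end H419R2.Cex
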