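import Pool.Agent.H419R2.C4
import Pool.Agent.H419R2.A1

/-! Integral relations. -/

namespace H419R2

open Finset

theorem isDomain_of {m R D : ℤ} (hDm : D = m ^ 2 + 4 * R) (hsf : Squarefree D) (hD1 : 1 < D) :
    IsDomain (QA R m) := by
  have hns := not_sq_of_squarefree hsf hD1
  have hn : ∀ z : QA R m, QuadraticAlgebra.norm z = 0 → z = 0 := by
    intro z hz
    rw [norm_eq] at hz
    have h1 : (2 * z.re + m * z.im) ^ 2 = D * z.im ^ 2 := by rw [hDm]; linear_combination 4 * hz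
    have him : z.im = 0 := by
      by_contra h
      apply hns
      refine ⟨(2 * z.re + m * z.im) / z.im, ?_⟩
      have h' : (z.im : ℚ) ≠ 0 := by exact_mod_cast h
      have h2 : (2 * (z.re : ℚ) + m * z.im) ^ 2 = D * (z.im : ℚ) ^ 2 := by exact_mod_cast h1
      field_simp
      linear_combination h2
    have hre : z.re = 0 := by
      rw [him] at h1
      have : (2 * z.re) ^ 2 = 0 := by linear_combination h1
      have := pow_eq_zero_iff (two_ne_zero) |>.mp this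
      omega
    ext
    · simpa using hre
    · simpa using him
  have : NoZeroDivisors (QA R m) := by
    refine ⟨?_⟩
    intro a b hab
    have : QuadraticAlgebra.norm a * QuadraticAlgebra.norm b = 0 := by
      rw [← map_mul, hab]; simp
    rcases mul_eq_zero.mp this with h | h
    · left; exact hn a h
    · right; exact hn b h
  exact NoZeroDivisors.to_isDomain _

section

variable {q : ℕ} [NeZero q]

/-- integral weight -/
def wt (K m : ℤ) (x y : ZMod q) : ℤ :=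
  (if x = 0 ∨ y = 0 then 0 else 6 * (2 * (x.val : ℤ) - (q : ℤ)) * (2 * (y.val : ℤ) - (q : ℤ))) -
    K * (6 * (x.val : ℤ) ^ 2 - 6 * (x.val : ℤ) * (q : ℤ) + (q : ℤ) ^ 2) +
    m * (6 * (y.val : ℤ) ^ 2 - 6 * (y.val : ℤ) * (q : ℤ) + (q : ℤ) ^ 2)

theorem wt_real (K m : ℤ) (x y : ZMod q) :
    (wt K m x y : ℝ) = 6 * q ^ 2 * (4 * (B1 x * B1 y) - K * B2 x + m * B2 y) := by
  have hq := qpos (q := q)
  unfold wt B1 B2
  by_cases hx : x = 0
  · subst hx
    simp
    field_simp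
  · by_cases hy : y = 0
    · subst hy
      simp
      field_simp
    · rw [if_neg (by tauto), if_neg hx, if_neg hy]
      push_cast
      field_simp
      ring

end

/-- consequence of class number one -/
structure Good (R K : ℤ) (D : ℕ) : Prop where
  hD : (D : ℤ) = (R * K) ^ 2 + 4 * R
  hD1 : 1 < D
  rel : ∀ (q : ℕ) [NeZero q], q.Coprime D → ∀ f : ZMod q → ℤ, (∀ x, f (-x) = -f x) →
    (D : ℤ) * ∑ x : ZMod q, ∑ y : ZMod q, f (x ^ 2 + (R : ZMod q) * (K : ZMod q) * (x * y)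
      - (R : ZMod q) * y ^ 2) * wt K (R * K) x y =
    6 * ∑ l ∈ range (q * D), ∑ a ∈ range q, (l : ℤ) * a * jacobiSym l D * f ((a * l : ℕ))
  inert : ∀ l : ℕ, l.Prime → l ≠ 2 → 2 * (l : ℤ) ≤ R * K → l ≠ R.natAbs →
    ¬ IsSquare (((D : ℤ)) : ZMod l)

theorem rel_of {q D : ℕ} [NeZero q] (hD : 0 < D) {R K : ℤ} {f : ZMod q → ℤ}
    (h : (∑ l ∈ range (q * D), ∑ a ∈ range q, (l : ℝ) * a * jacobiSym l D *
      ((f ((a * l : ℕ)) : ℤ) : ℝ)) / (q * (q * D)) =
      SS (fun x y => ((f (x ^ 2 + (R : ZMod q) * (K : ZMod q) * (x * y)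
      - (R : ZMod q) * y ^ 2) : ℤ) : ℝ) *
          (4 * (B1 x * B1 y) - K * B2 x + (R * K : ℤ) * B2 y))) :
    (D : ℤ) * ∑ x : ZMod q, ∑ y : ZMod q, f (x ^ 2 + (R : ZMod q) * (K : ZMod q) * (x * y)
      - (R : ZMod q) * y ^ 2) * wt K (R * K) x y =
    6 * ∑ l ∈ range (q * D), ∑ a ∈ range q, (l : ℤ) * a * jacobiSym l D * f ((a * l : ℕ)) := by
  have hq := qpos (q := q)
  have hD' : (0 : ℝ) < D := by exact_mod_cast hD
  have e1 : ((∑ x : ZMod q, ∑ y : ZMod q, f (x ^ 2 + (R : ZMod q) * (K : ZMod q) * (x * y)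
      - (R : ZMod q) * y ^ 2) * wt K (R * K) x y : ℤ) : ℝ) =
      6 * q ^ 2 * SS (fun x y => ((f (x ^ 2 + (R : ZMod q) * (K : ZMod q) * (x * y)
      - (R : ZMod q) * y ^ 2) : ℤ) : ℝ) *
          (4 * (B1 x * B1 y) - K * B2 x + (R * K : ℤ) * B2 y)) := by
    rw [← SS_mul]
    unfold SS
    rw [Int.cast_sum]
    apply Finset.sum_congr rfl
    intro x _
    rw [Int.cast_sum]
    apply Finset.sum_congr rfl
    intro y _
    rw [Int.cast_mul, wt_real]
    ring
  have e2 : ((∑ l ∈ range (q * D), ∑ a ∈ range q, (l : ℤ) * a * jacobiSym l D *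
      f ((a * l : ℕ)) : ℤ) : ℝ) = ∑ l ∈ range (q * D), ∑ a ∈ range q, (l : ℝ) * a *
      jacobiSym l D * ((f ((a * l : ℕ)) : ℤ) : ℝ) := by
    push_cast
    rfl
  have e3 : (((D : ℤ) * ∑ x : ZMod q, ∑ y : ZMod q, f (x ^ 2 + (R : ZMod q) * (K : ZMod q) * (x * y)
      - (R : ZMod q) * y ^ 2) * wt K (R * K) x y : ℤ) : ℝ) =
    ((6 * ∑ l ∈ range (q * D), ∑ a ∈ range q, (l : ℤ) * a * jacobiSym l D *
      f ((a * l : ℕ)) : ℤ) : ℝ) := by
    rw [Int.cast_mul, e1, Int.cast_mul 6, e2, ← h]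
    push_cast
    field_simp
  exact_mod_cast e3

theorem small_normP {r k : ℕ} (hr : 2 ≤ r) (hk : 1 ≤ k)
    (p : Idx k ⊕ Idx (r * k)) {l : ℕ} (hl : l.Prime) (hlm : 2 * l ≤ r * k) (hlr : l ≠ r) :
    (QuadraticAlgebra.norm (genP r k p)).natAbs ≠ l := by
  have hr' : (2 : ℤ) ≤ r := by exact_mod_cast hr
  have hk' : (1 : ℤ) ≤ k := by exact_mod_cast hk
  have hlm' : 2 * (l : ℤ) ≤ r * k := by exact_mod_cast hlm
  have hl2 := hl.two_le
  intro h
  rw [norm_eq] at h
  rcases p with p | p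
  · obtain ⟨h1, h2, h3⟩ := idx_facts p
    simp only [genP] at h
    set U : ℤ := (p.1 : ℤ) with hU
    set Z : ℤ := ((p.2 : ℕ) : ℤ) with hZ
    have e1 : U ^ 2 + ((r * k : ℕ) : ℤ) * U * Z - r * Z ^ 2 = U ^ 2 + r * (Z * (k * U - Z)) := by
      push_cast; ring
    rw [e1] at h
    rcases h2.eq_or_lt with h4 | h4
    · rw [← h4] at h
      simp only [zero_mul, mul_zero, add_zero] at h
      rw [Int.natAbs_pow] at h
      exact (Irreducible.not_isSquare hl) ⟨U.natAbs, by rw [← h]; ring⟩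
    · have h5 : (k * U - 1) ≤ Z * (k * U - Z) := by nlinarith
      have h6 : r * (k * U - 1) ≤ r * (Z * (k * U - Z)) := by nlinarith
      have h7 : U ^ 2 + r * (Z * (k * U - Z)) = l := by
        have : 0 ≤ U ^ 2 + r * (Z * (k * U - Z)) := by nlinarith
        omega
      have h8 : 2 ≤ k * U := by linarith
      rcases le_or_gt 2 U with h9 | h9
      · have h10 : (r : ℤ) * k * 2 ≤ r * k * U := by
          have : (0 : ℤ) ≤ r * k := by positivity
          nlinarith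
        have h11 : (r : ℤ) * 1 ≤ r * k := by nlinarith
        nlinarith
      · have hU1 : U = 1 := by linarith
        rw [hU1] at h6 h7 h8
        have h11 : (r : ℤ) * 2 ≤ r * k := by nlinarith
        nlinarith
  · obtain ⟨h1, h2, h3⟩ := idx_facts p
    simp only [genP] at h
    set U : ℤ := (p.1 : ℤ) with hU
    set Z : ℤ := ((p.2 : ℕ) : ℤ) with hZ
    have e1 : (-Z) ^ 2 + ((r * k : ℕ) : ℤ) * (-Z) * U - r * U ^ 2 =
        -(r * U ^ 2 + Z * (((r * k : ℕ) : ℤ) * U - Z)) := by ring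
    rw [e1, Int.natAbs_neg] at h
    rcases h2.eq_or_lt with h4 | h4
    · rw [← h4] at h
      simp only [zero_mul, add_zero] at h
      rw [Int.natAbs_mul, Int.natAbs_pow, Int.natAbs_natCast] at h
      have hU1 : 1 ≤ U.natAbs := by omega
      rcases hU1.eq_or_lt with h5 | h5
      · rw [← h5] at h
        apply hlr; rw [← h]; ring
      · have h6 : r ∣ l := ⟨_, h.symm⟩
        have h7 := (Nat.dvd_prime hl).mp h6
        rcases h7 with h7 | h7
        · omega
        · exact hlr h7.symm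
    · have hmU : ((r * k : ℕ) : ℤ) = r * k := by push_cast; ring
      rw [hmU] at h h3
      have h5 : (r * k * U - 1) ≤ Z * (r * k * U - Z) := by nlinarith
      have h7 : r * U ^ 2 + Z * (r * k * U - Z) = l := by
        have : 0 ≤ r * U ^ 2 + Z * (r * k * U - Z) := by nlinarith
        omega
      have h8 : (r : ℤ) * k ≤ r * k * U := by
        have : (0 : ℤ) ≤ r * k := by positivity
        nlinarith
      nlinarith

theorem small_normM {r k : ℕ} (hr : 2 ≤ r) (hk : 3 ≤ k)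
    (p : (Idx (r * k - 2) ⊕ Idx (k - 2)) ⊕ (Idx 1 ⊕ Idx 1)) {l : ℕ} (hl : l.Prime)
    (hlm : 2 * l ≤ r * k) (hlr : l ≠ r) (h7 : 7 ≤ r * k) :
    (QuadraticAlgebra.norm (genM r k p)).natAbs ≠ l := by
  have hr' : (2 : ℤ) ≤ r := by exact_mod_cast hr
  have hk' : (3 : ℤ) ≤ k := by exact_mod_cast hk
  have h7' : (7 : ℤ) ≤ r * k := by exact_mod_cast h7
  have hlm' : 2 * (l : ℤ) ≤ r * k := by exact_mod_cast hlm
  have hmU : ((r * k : ℕ) : ℤ) = r * k := by push_cast; ring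
  have hl2 := hl.two_le
  have hP : (l : ℤ) < r * k - 1 - r := by
    have : (3 : ℤ) * r ≤ r * k := by nlinarith
    linarith
  intro h
  rw [norm_eq] at h
  rcases p with (p | p) | (p | p)
  · obtain ⟨h1, h2, h3⟩ := idx_facts p
    simp only [genM] at h
    set U : ℤ := (p.1 : ℤ) with hU
    set Z : ℤ := ((p.2 : ℕ) : ℤ) with hZ
    rw [hmU] at h
    have hc : ((r * k - 2 : ℕ) : ℤ) = r * k - 2 := by
      rw [Nat.cast_sub (by omega)]; push_cast; ring
    rw [hc] at h3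
    have e1 : (Z - (r * k - 1) * U) ^ 2 + r * k * (Z - (r * k - 1) * U) * U - -(r : ℤ) * U ^ 2 =
        -((r * k - 1 - r) * U ^ 2 + Z * ((r * k - 2) * U - Z)) := by ring
    rw [e1, Int.natAbs_neg] at h
    have h5 : 0 ≤ Z * ((r * k - 2) * U - Z) := mul_nonneg h2 (by linarith)
    have h6 : 1 ≤ U ^ 2 := by nlinarith
    have h8 : (r * k - 1 - r) * 1 ≤ (r * k - 1 - r) * U ^ 2 :=
      mul_le_mul_of_nonneg_left h6 (by linarith)
    omega
  · obtain ⟨h1, h2, h3⟩ := idx_facts p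
    simp only [genM] at h
    set U : ℤ := (p.1 : ℤ) with hU
    set Z : ℤ := ((p.2 : ℕ) : ℤ) with hZ
    rw [hmU] at h
    have hc : ((k - 2 : ℕ) : ℤ) = k - 2 := by
      rw [Nat.cast_sub (by omega)]; push_cast; ring
    rw [hc] at h3
    have e1 : (-U) ^ 2 + r * k * (-U) * (U + Z) - -(r : ℤ) * (U + Z) ^ 2 =
        -((r * k - 1 - r) * U ^ 2 + r * (Z * ((k - 2) * U - Z))) := by ring
    rw [e1, Int.natAbs_neg] at h
    have h5 : 0 ≤ (r : ℤ) * (Z * ((k - 2) * U - Z)) :=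
      mul_nonneg (by linarith) (mul_nonneg h2 (by linarith))
    have h6 : 1 ≤ U ^ 2 := by nlinarith
    have h8 : (r * k - 1 - r) * 1 ≤ (r * k - 1 - r) * U ^ 2 :=
      mul_le_mul_of_nonneg_left h6 (by linarith)
    omega
  · obtain ⟨h1, h2, h3⟩ := idx_facts p
    simp only [genM] at h
    set U : ℤ := (p.1 : ℤ) with hU
    set Z : ℤ := ((p.2 : ℕ) : ℤ) with hZ
    rw [hmU] at h
    rw [Nat.cast_one, one_mul] at h3
    obtain ⟨V, hV⟩ : ∃ V, V = U - Z := ⟨_, rfl⟩
    rw [← hV] at h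
    have hV1 : 1 ≤ V := by omega
    rcases h2.eq_or_lt with h4 | h4
    · rw [← h4] at h
      have e2 : V ^ 2 + r * k * V * 0 - -(r : ℤ) * 0 ^ 2 = V ^ 2 := by ring
      rw [e2, Int.natAbs_pow] at h
      exact (Irreducible.not_isSquare hl) ⟨V.natAbs, by rw [← h]; ring⟩
    · have e2 : V ^ 2 + r * k * V * Z - -(r : ℤ) * Z ^ 2 = V ^ 2 + r * k * (V * Z) + r * Z ^ 2 := by
        ring
      rw [e2] at h
      have h5 : 1 ≤ V * Z := by nlinarith
      have h6 : (r : ℤ) * k * 1 ≤ r * k * (V * Z) := mul_le_mul_of_nonneg_left h5 (by linarith)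
      have h8 : 0 ≤ V ^ 2 := by positivity
      have h9 : 0 ≤ (r : ℤ) * Z ^ 2 := by positivity
      omega
  · obtain ⟨h1, h2, h3⟩ := idx_facts p
    simp only [genM] at h
    set U : ℤ := (p.1 : ℤ) with hU
    set Z : ℤ := ((p.2 : ℕ) : ℤ) with hZ
    rw [hmU] at h
    rw [Nat.cast_one, one_mul] at h3
    obtain ⟨V, hV⟩ : ∃ V, V = U - Z := ⟨_, rfl⟩
    rw [← hV] at h
    have hV1 : 1 ≤ V := by omega
    have e2 : (Z + r * k * V) ^ 2 + r * k * (Z + r * k * V) * -V - -(r : ℤ) * (-V) ^ 2 =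
        Z ^ 2 + r * k * (V * Z) + r * V ^ 2 := by ring
    rw [e2] at h
    rcases h2.eq_or_lt with h4 | h4
    · rw [← h4] at h
      have e3 : (0 : ℤ) ^ 2 + r * k * (V * 0) + r * V ^ 2 = r * V ^ 2 := by ring
      rw [e3, Int.natAbs_mul, Int.natAbs_pow, Int.natAbs_natCast] at h
      have h6 : r ∣ l := ⟨_, h.symm⟩
      have h7 := (Nat.dvd_prime hl).mp h6
      rcases h7 with h7 | h7
      · omega
      · exact hlr h7.symm
    · have h5 : 1 ≤ V * Z := by nlinarith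
      have h6 : (r : ℤ) * k * 1 ≤ r * k * (V * Z) := mul_le_mul_of_nonneg_left h5 (by linarith)
      have h8 : 0 ≤ Z ^ 2 := by positivity
      have h9 : 0 ≤ (r : ℤ) * V ^ 2 := by positivity
      omega

end H419R2
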