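import Pool.Agent.H419R2.D2

/-! Kernel-friendly arithmetic and its correctness. -/

namespace H419R2

open Finset

/-- forced evaluation -/
def force {α : Type} (n : ℕ) (f : ℕ → α) : α :=
  @Nat.rec (fun _ => α) (f 0) (fun k _ => f (Nat.succ k)) n

theorem force_eq {α : Type} (n : ℕ) (f : ℕ → α) : force n f = f n := by
  cases n <;> rfl

/-- table lookup -/
def look (T x : ℕ) : ℕ := Nat.mod (Nat.shiftRight T (Nat.mul 7 x)) 128

theorem look_lt (T x : ℕ) : look T x < 128 := Nat.mod_lt _ (by norm_num)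

/-- bounded universal quantifier -/
def allR (n : ℕ) (f : ℕ → Bool) : Bool :=
  @Nat.rec (fun _ => Bool) true (fun i ih => and (f i) ih) n

theorem allR_iff (n : ℕ) (f : ℕ → Bool) : allR n f = true ↔ ∀ i < n, f i = true := by
  induction n with
  | zero => simp [allR]
  | succ n ih =>
    have : allR (n + 1) f = and (f n) (allR n f) := rfl
    rw [this, Bool.and_eq_true, ih]
    constructor
    · rintro ⟨h1, h2⟩ i hi
      rcases Nat.lt_succ_iff_lt_or_eq.mp hi with h | h
      · exact h2 i h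
      · rw [h]; exact h1
    · intro h
      exact ⟨h n (Nat.lt_succ_self n), fun i hi => h i (Nat.lt_succ_of_lt hi)⟩

/-- bounded sum -/
def sumR (n : ℕ) (f : ℕ → ℕ) : ℕ :=
  @Nat.rec (fun _ => ℕ) 0 (fun i ih => Nat.add (f i) ih) n

theorem sumR_eq (n : ℕ) (f : ℕ → ℕ) : sumR n f = ∑ i ∈ range n, f i := by
  induction n with
  | zero => rfl
  | succ n ih =>
    have : sumR (n + 1) f = f n + sumR n f := rfl
    rw [this, ih, Finset.sum_range_succ, add_comm]

/-- list sum -/
def sumL {α : Type} (l : List α) (f : α → ℕ) : ℕ :=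
  @List.rec α (fun _ => ℕ) 0 (fun x _ ih => Nat.add (f x) ih) l

theorem sumL_eq {α : Type} (l : List α) (f : α → ℕ) : sumL l f = (l.map f).sum := by
  induction l with
  | nil => rfl
  | cons a l ih =>
    have : sumL (a :: l) f = f a + sumL l f := rfl
    rw [this, ih, List.map_cons, List.sum_cons]

/-- list universal quantifier -/
def allL {α : Type} (l : List α) (f : α → Bool) : Bool :=
  @List.rec α (fun _ => Bool) true (fun x _ ih => and (f x) ih) l

theorem allL_iff {α : Type} (l : List α) (f : α → Bool) :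
    allL l f = true ↔ ∀ x ∈ l, f x = true := by
  induction l with
  | nil => simp [allL]
  | cons a l ih =>
    have : allL (a :: l) f = and (f a) (allL l f) := rfl
    rw [this, Bool.and_eq_true, ih]
    simp

/-- list existential quantifier -/
def anyL {α : Type} (l : List α) (f : α → Bool) : Bool :=
  @List.rec α (fun _ => Bool) false (fun x _ ih => or (f x) ih) l

theorem anyL_iff {α : Type} (l : List α) (f : α → Bool) :
    anyL l f = true ↔ ∃ x ∈ l, f x = true := by
  induction l with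
  | nil => simp [anyL]
  | cons a l ih =>
    have : anyL (a :: l) f = or (f a) (anyL l f) := rfl
    rw [this, Bool.or_eq_true, ih]
    simp

/-- bit test -/
def tb (m i : ℕ) : Bool := Nat.beq (Nat.mod (Nat.shiftRight m i) 2) 1

theorem tb_eq (m i : ℕ) : tb m i = m.testBit i := by
  have h1 : tb m i = decide (m / 2 ^ i % 2 = 1) := by
    unfold tb
    have : Nat.mod (Nat.shiftRight m i) 2 = m / 2 ^ i % 2 := by
      change (m >>> i) % 2 = _
      rw [Nat.shiftRight_eq_div_pow]
    rw [this]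
    by_cases h : m / 2 ^ i % 2 = 1
    · rw [h]; rfl
    · rw [decide_eq_false h]
      exact Bool.eq_false_iff.mpr (fun h' => h (Nat.eq_of_beq_eq_true h'))
  rw [h1, Nat.testBit_eq_decide_div_mod_eq]

/-! ### Characters -/

/-- multiplicativity check -/
def chkMul (q p T : ℕ) : Bool :=
  allR q (fun x => force (look T x) (fun cx => allR q (fun y =>
    Nat.beq (Nat.mod (look T (Nat.mod (Nat.mul x y) q)) p) (Nat.mod (Nat.mul cx (look T y)) p))))

/-- other checks -/
def chkOth (q p T : ℕ) : Bool :=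
  and (Nat.beq (Nat.mod (Nat.add (look T (Nat.sub q 1)) 1) p) 0)
    (and (Nat.beq (Nat.mod (sumR q (fun a => Nat.mul a (look T a))) p) 0)
      (allR q (fun x => or (Nat.beq (Nat.gcd x q) 1) (Nat.beq (look T x) 0))))

/-- the character -/
def chi (q p T : ℕ) (x : ZMod q) : ZMod p := ((look T x.val : ℕ) : ZMod p)

theorem cast_eq_of_mod {p a b : ℕ} (h : Nat.beq (Nat.mod a p) (Nat.mod b p) = true) :
    (a : ZMod p) = (b : ZMod p) := by
  have h1 : a % p = b % p := Nat.eq_of_beq_eq_true h
  rw [ZMod.natCast_eq_natCast_iff']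
  exact h1

theorem cast_zero_of_mod {p a : ℕ} (h : Nat.beq (Nat.mod a p) 0 = true) :
    (a : ZMod p) = 0 := by
  have h1 : a % p = 0 := Nat.eq_of_beq_eq_true h
  rw [ZMod.natCast_eq_zero_iff]
  exact Nat.dvd_of_mod_eq_zero h1

section chi

variable {q p T : ℕ} [NeZero q]

theorem chi_mul (h : chkMul q p T = true) (x y : ZMod q) :
    chi q p T (x * y) = chi q p T x * chi q p T y := by
  unfold chkMul at h
  rw [allR_iff] at h
  have h1 := h x.val (ZMod.val_lt x)
  rw [force_eq, allR_iff] at h1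
  have h2 := cast_eq_of_mod (h1 y.val (ZMod.val_lt y))
  unfold chi
  rw [ZMod.val_mul]
  have h3 : (x.val * y.val) % q = Nat.mod (Nat.mul x.val y.val) q := rfl
  rw [h3, h2]
  exact Nat.cast_mul _ _

theorem chi_neg (hq : 1 < q) (h : chkMul q p T = true) (h' : chkOth q p T = true) (x : ZMod q) :
    chi q p T (-x) = -chi q p T x := by
  have h1 : -x = (-1) * x := by ring
  rw [h1, chi_mul h]
  have h2 : chi q p T (-1) = -1 := by
    unfold chkOth at h'
    rw [Bool.and_eq_true] at h'
    have h3 := cast_zero_of_mod h'.1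
    unfold chi
    have h4 : (-1 : ZMod q).val = q - 1 := by
      obtain ⟨n, rfl⟩ : ∃ n, q = n + 1 := ⟨q - 1, by omega⟩
      exact ZMod.val_neg_one n
    rw [h4]
    have h5 : ((Nat.add (look T (Nat.sub q 1)) 1 : ℕ) : ZMod p) = ((look T (q - 1) : ℕ) : ZMod p) + 1 := by
      change (((look T (q - 1)) + 1 : ℕ) : ZMod p) = _
      push_cast; rfl
    rw [h5] at h3
    linear_combination h3
  rw [h2]; ring

omit [NeZero q] in
theorem chi_sum (h' : chkOth q p T = true) : ∑ a ∈ range q, (a : ZMod p) * chi q p T a = 0 := by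
  unfold chkOth at h'
  rw [Bool.and_eq_true, Bool.and_eq_true] at h'
  have h3 := cast_zero_of_mod h'.2.1
  rw [sumR_eq] at h3
  push_cast at h3
  rw [← h3]
  apply Finset.sum_congr rfl
  intro a ha
  unfold chi
  rw [ZMod.val_cast_of_lt (Finset.mem_range.mp ha)]
  change _ = ((a * look T a : ℕ) : ZMod p)
  push_cast
  rfl

theorem chi_nonunit (h' : chkOth q p T = true) (x : ZMod q) (hx : Nat.gcd x.val q ≠ 1) :
    chi q p T x = 0 := by
  unfold chkOth at h'
  rw [Bool.and_eq_true, Bool.and_eq_true, allR_iff] at h'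
  have h1 := h'.2.2 x.val (ZMod.val_lt x)
  rw [Bool.or_eq_true] at h1
  rcases h1 with h1 | h1
  · exact absurd (Nat.eq_of_beq_eq_true h1) hx
  · unfold chi
    rw [Nat.eq_of_beq_eq_true h1]; simp

end chi

/-! ### Orbits -/

/-- primitivity -/
def prim (q x y : ℕ) : Bool := Nat.beq (Nat.gcd (Nat.gcd x y) q) 1

/-- strictly increasing from a bound -/
def incB (U : List ℕ) : ℕ → Bool :=
  @List.rec ℕ (fun _ => ℕ → Bool) (fun _ => true)
    (fun e _ ih b => and (Nat.ble b e) (ih (Nat.succ e))) U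

theorem incB_spec (U : List ℕ) (b : ℕ) (h : incB U b = true) : (∀ e ∈ U, b ≤ e) ∧ U.Nodup := by
  induction U generalizing b with
  | nil => simp
  | cons e U ih =>
    have h1 : incB (e :: U) b = and (Nat.ble b e) (incB U (Nat.succ e)) := rfl
    rw [h1, Bool.and_eq_true] at h
    obtain ⟨h2, h3⟩ := h
    have h4 := Nat.le_of_ble_eq_true h2
    obtain ⟨h5, h6⟩ := ih _ h3
    constructor
    · intro x hx
      rcases List.mem_cons.mp hx with h7 | h7
      · rw [h7]; exact h4
      · have := h5 x h7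
        omega
    · rw [List.nodup_cons]
      refine ⟨fun h7 => ?_, h6⟩
      have := h5 e h7
      omega

/-- pairwise inequivalence -/
def pairB (q : ℕ) (l : List (ℕ × ℕ)) : Bool :=
  @List.rec (ℕ × ℕ) (fun _ => Bool) true
    (fun v vs ih => and (allL vs (fun v' => not (Nat.beq (Nat.mod (Nat.mul v.1 v'.2) q)
      (Nat.mod (Nat.mul v.2 v'.1) q)))) ih) l

theorem pairB_spec (q : ℕ) (l : List (ℕ × ℕ)) (h : pairB q l = true) :
    l.Pairwise (fun v v' => ¬ (v.1 * v'.2 % q = v.2 * v'.1 % q)) := by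
  induction l with
  | nil => exact List.Pairwise.nil
  | cons v l ih =>
    have h1 : pairB q (v :: l) = and (allL l (fun v' => not (Nat.beq (Nat.mod (Nat.mul v.1 v'.2) q)
      (Nat.mod (Nat.mul v.2 v'.1) q)))) (pairB q l) := rfl
    rw [h1, Bool.and_eq_true, allL_iff] at h
    refine List.Pairwise.cons ?_ (ih h.2)
    intro v' hv' h3
    have h4 := h.1 v' hv'
    have h5 : Nat.beq (Nat.mod (Nat.mul v.1 v'.2) q) (Nat.mod (Nat.mul v.2 v'.1) q) = true := by
      change Nat.beq (v.1 * v'.2 % q) (v.2 * v'.1 % q) = true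
      rw [h3]; exact Nat.beq_refl _
    rw [h5] at h4
    exact absurd h4 (by simp)

/-- orbit check -/
def chkOrb (q : ℕ) (U : List ℕ) (reps : List (ℕ × ℕ)) : Bool :=
  and (and (incB U 0) (allL U (fun e => and (Nat.beq (Nat.gcd e q) 1) (Nat.ble (Nat.succ e) q))))
    (and (and (pairB q reps) (allL reps (fun v => prim q v.1 v.2)))
    (Nat.ble (sumR q (fun x => sumR q (fun y => @Bool.rec (fun _ => ℕ) 0 1 (prim q x y))))
      (Nat.mul reps.length U.length)))

theorem isUnit_of_gcd {q e : ℕ} (h : Nat.gcd e q = 1) : IsUnit (e : ZMod q) :=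
  (ZMod.isUnit_iff_coprime e q).mpr h

theorem bezout3 {q a b : ℕ} (h : Nat.gcd (Nat.gcd a b) q = 1) :
    ∃ x y : ZMod q, x * a + y * b = 1 := by
  have h1 := isUnit_of_gcd h
  obtain ⟨u, hu⟩ := h1.exists_left_inv
  have h2 : ((Nat.gcd a b : ℕ) : ZMod q) = (Nat.gcdA a b : ZMod q) * a + (Nat.gcdB a b : ZMod q) * b := by
    have h3 := Nat.gcd_eq_gcd_ab a b
    have h4 := congrArg (fun z : ℤ => (z : ZMod q)) h3
    push_cast at h4
    rw [h4]; ring
  refine ⟨u * Nat.gcdA a b, u * Nat.gcdB a b, ?_⟩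
  rw [← hu, h2]; ring

theorem prim_iff {q x y : ℕ} : prim q x y = true ↔ Nat.gcd (Nat.gcd x y) q = 1 := by
  unfold prim
  constructor
  · exact Nat.eq_of_beq_eq_true
  · intro h; rw [h]; rfl

theorem flat_sum {M : Type*} [AddCommMonoid M] (H : ℕ → ℕ → M) (g1 g2 : ℕ × ℕ → ℕ → ℕ)
    (U : List ℕ) (reps : List (ℕ × ℕ)) :
    ((reps.flatMap (fun v => U.map (fun e => (g1 v e, g2 v e)))).map (fun x => H x.1 x.2)).sum =
      (reps.map (fun v => (U.map (fun e => H (g1 v e) (g2 v e))).sum)).sum := by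
  induction reps with
  | nil => simp
  | cons v reps ih =>
    rw [List.flatMap_cons, List.map_append, List.sum_append, List.map_cons, List.sum_cons, ih]
    congr 1
    rw [List.map_map]; rfl

theorem orbit_sum {q : ℕ} {U : List ℕ} {reps : List (ℕ × ℕ)} (h : chkOrb q U reps = true)
    (hq : 0 < q) {M : Type*} [AddCommMonoid M] (H : ℕ → ℕ → M)
    (h0 : ∀ a < q, ∀ b < q, Nat.gcd (Nat.gcd a b) q ≠ 1 → H a b = 0) :
    ∑ a ∈ range q, ∑ b ∈ range q, H a b =
      (reps.map (fun v => (U.map (fun e => H (e * v.1 % q) (e * v.2 % q))).sum)).sum := by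
  classical
  unfold chkOrb at h
  simp only [Bool.and_eq_true] at h
  obtain ⟨⟨hU1, hU2⟩, ⟨hp, hr⟩, hl⟩ := h
  have hUn := (incB_spec _ _ hU1).2
  have hpw := pairB_spec _ _ hp
  rw [allL_iff] at hU2 hr
  have hU3 : ∀ e ∈ U, IsUnit (e : ZMod q) ∧ e < q := by
    intro e he
    have := hU2 e he
    rw [Bool.and_eq_true] at this
    exact ⟨isUnit_of_gcd (Nat.eq_of_beq_eq_true this.1), Nat.le_of_ble_eq_true this.2⟩
  set L : List (ℕ × ℕ) := reps.flatMap (fun v => U.map (fun e => (e * v.1 % q, e * v.2 % q)))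
    with hL
  have hLlen : L.length = reps.length * U.length := by
    rw [hL, List.length_flatMap]
    simp
  have hLsum := flat_sum H (fun v e => e * v.1 % q) (fun v e => e * v.2 % q) U reps
  rw [← hLsum, ← hL, Finset.sum_sigma' (range q) (fun _ => range q) (fun a b => H a b)]
  set P : Finset (ℕ × ℕ) := (range q ×ˢ range q).filter (fun x => prim q x.1 x.2 = true) with hP
  have hsub : L.toFinset ⊆ P := by
    intro x hx
    rw [List.mem_toFinset, hL, List.mem_flatMap] at hx
    obtain ⟨v, hv, hx⟩ := hx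
    rw [List.mem_map] at hx
    obtain ⟨e, he, rfl⟩ := hx
    rw [hP, Finset.mem_filter, Finset.mem_product, Finset.mem_range, Finset.mem_range]
    refine ⟨⟨Nat.mod_lt _ hq, Nat.mod_lt _ hq⟩, ?_⟩
    rw [prim_iff]
    simp only
    have h1 : Nat.Coprime e q := (ZMod.isUnit_iff_coprime e q).mp (hU3 e he).1
    have h2 := prim_iff.mp (hr v hv)
    set g := Nat.gcd (Nat.gcd (e * v.1 % q) (e * v.2 % q)) q with hg
    have g1 : g ∣ q := Nat.gcd_dvd_right _ _
    have g2 : g ∣ e * v.1 := (Nat.dvd_mod_iff g1).mp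
      ((Nat.gcd_dvd_left _ _).trans (Nat.gcd_dvd_left _ _))
    have g3 : g ∣ e * v.2 := (Nat.dvd_mod_iff g1).mp
      ((Nat.gcd_dvd_left _ _).trans (Nat.gcd_dvd_right _ _))
    have g4 : g.Coprime e := Nat.Coprime.coprime_dvd_left g1 h1.symm
    have g5 := Nat.dvd_gcd (Nat.dvd_gcd (g4.dvd_of_dvd_mul_left g2) (g4.dvd_of_dvd_mul_left g3)) g1
    rw [h2] at g5
    exact Nat.dvd_one.mp g5
  have hcard : P.card = sumR q (fun x => sumR q (fun y => @Bool.rec (fun _ => ℕ) 0 1 (prim q x y))) := by
    rw [hP, Finset.card_filter, Finset.sum_product, sumR_eq]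
    apply Finset.sum_congr rfl
    intro x _
    rw [sumR_eq]
    apply Finset.sum_congr rfl
    intro y _
    simp only
    cases prim q x y <;> simp
  have hlen : P.card ≤ L.length := by
    rw [hLlen, hcard]
    exact Nat.le_of_ble_eq_true hl
  have hnd : L.Nodup := by
    rw [hL, List.nodup_flatMap]
    constructor
    · intro v hv
      apply List.Nodup.map_on _ hUn
      intro e he e' he' hee
      rw [Prod.mk.injEq] at hee
      have a1 : (e : ZMod q) * v.1 = e' * v.1 := by
        rw [← Nat.cast_mul, ← Nat.cast_mul, ZMod.natCast_eq_natCast_iff']; exact hee.1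
      have a2 : (e : ZMod q) * v.2 = e' * v.2 := by
        rw [← Nat.cast_mul, ← Nat.cast_mul, ZMod.natCast_eq_natCast_iff']; exact hee.2
      obtain ⟨x, y, hxy⟩ := bezout3 (prim_iff.mp (hr v hv))
      have a3 : (e : ZMod q) = e' := by
        linear_combination x * a1 + y * a2 - ((e : ZMod q) - e') * hxy
      rw [ZMod.natCast_eq_natCast_iff', Nat.mod_eq_of_lt (hU3 e he).2,
        Nat.mod_eq_of_lt (hU3 e' he').2] at a3
      exact a3
    · refine hpw.imp ?_
      intro v v' hvv
      rw [Function.onFun, List.disjoint_left]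
      intro x hx hx'
      rw [List.mem_map] at hx hx'
      obtain ⟨e, he, rfl⟩ := hx
      obtain ⟨e', he', hee⟩ := hx'
      rw [Prod.mk.injEq] at hee
      apply hvv
      have a1 : (e' : ZMod q) * v'.1 = e * v.1 := by
        rw [← Nat.cast_mul, ← Nat.cast_mul, ZMod.natCast_eq_natCast_iff']; exact hee.1
      have a2 : (e' : ZMod q) * v'.2 = e * v.2 := by
        rw [← Nat.cast_mul, ← Nat.cast_mul, ZMod.natCast_eq_natCast_iff']; exact hee.2
      have a3 : (e : ZMod q) * (e' * ((v.1 : ZMod q) * v'.2 - v.2 * v'.1)) = 0 := by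
        linear_combination (-(e : ZMod q) * v.2) * a1 + ((e : ZMod q) * v.1) * a2
      have a4 := ((hU3 e he).1.mul_right_eq_zero).mp a3
      have a5 := ((hU3 e' he').1.mul_right_eq_zero).mp a4
      rw [← ZMod.natCast_eq_natCast_iff']
      push_cast
      linear_combination a5
  have h2 : L.toFinset.card = L.length := List.toFinset_card_of_nodup hnd
  have hPL : L.toFinset = P := Finset.eq_of_subset_of_card_le hsub (by omega)
  rw [← List.sum_toFinset (fun x : ℕ × ℕ => H x.1 x.2) hnd, hPL, hP]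
  have h5 : ∑ x ∈ (range q).sigma fun _ => range q, H x.fst x.snd =
      ∑ x ∈ range q ×ˢ range q, H x.1 x.2 := by
    rw [Finset.sum_product, Finset.sum_sigma]
  rw [h5]
  symm
  apply Finset.sum_subset (Finset.filter_subset _ _)
  intro x hx hx2
  rw [Finset.mem_product, Finset.mem_range, Finset.mem_range] at hx
  apply h0 x.1 hx.1 x.2 hx.2
  intro h6
  apply hx2
  rw [Finset.mem_filter, Finset.mem_product, Finset.mem_range, Finset.mem_range]
  exact ⟨hx, prim_iff.mpr h6⟩

end H419R2
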