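import Pool.Agent.H419R2.E1

/-! Evaluation of the coefficients of a relation. -/

namespace H419R2

open Finset

/-- first weight -/
def G1 (q p x y : ℕ) : ℕ :=
  @Bool.rec (fun _ => ℕ) (Nat.mul (Nat.mul 6 (Nat.add (Nat.mul 2 x) (Nat.mul (Nat.sub p 1) q)))
    (Nat.add (Nat.mul 2 y) (Nat.mul (Nat.sub p 1) q))) 0 (or (Nat.beq x 0) (Nat.beq y 0))

/-- second weight -/
def G2 (q p x : ℕ) : ℕ :=
  Nat.add (Nat.add (Nat.mul 6 (Nat.mul x x)) (Nat.mul (Nat.mul 6 (Nat.sub p 1)) (Nat.mul x q)))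
    (Nat.mul q q)

/-- squared value -/
def sqv (T e : ℕ) : ℕ := Nat.mul (look T e) (look T e)

/-- orbit sums -/
def t11 (q p T : ℕ) (U : List ℕ) (u w : ℕ) : ℕ :=
  Nat.mod (sumL U (fun e => Nat.mul (sqv T e)
    (G1 q p (Nat.mod (Nat.mul e u) q) (Nat.mod (Nat.mul e w) q)))) p
/-- orbit sums -/
def t20 (q p T : ℕ) (U : List ℕ) (u : ℕ) : ℕ :=
  Nat.mod (sumL U (fun e => Nat.mul (sqv T e) (G2 q p (Nat.mod (Nat.mul e u) q)))) p

/-- table entry -/
def ent (q p T : ℕ) (U : List ℕ) (v : ℕ × ℕ) : ℕ × ℕ × ℕ × ℕ :=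
  (Nat.mod (Nat.mul v.1 v.1) q, Nat.mod (Nat.mul v.1 v.2) q, Nat.mod (Nat.mul v.2 v.2) q,
    Nat.add (t11 q p T U v.1 v.2) (Nat.add (Nat.mul 16777216 (t20 q p T U v.1))
      (Nat.mul 281474976710656 (t20 q p T U v.2))))

/-- comparison of tables -/
def chkTab (q p T : ℕ) (U : List ℕ) (reps : List (ℕ × ℕ)) : List (ℕ × ℕ × ℕ × ℕ) → Bool :=
  @List.rec (ℕ × ℕ) (fun _ => List (ℕ × ℕ × ℕ × ℕ) → Bool)
    (fun l => @List.rec (ℕ × ℕ × ℕ × ℕ) (fun _ => Bool) true (fun _ _ _ => false) l)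
    (fun v _ ih l => @List.rec (ℕ × ℕ × ℕ × ℕ) (fun _ => Bool) false (fun t ts _ =>
      and (and (Nat.beq t.1 (ent q p T U v).1) (Nat.beq t.2.1 (ent q p T U v).2.1))
        (and (and (Nat.beq t.2.2.1 (ent q p T U v).2.2.1) (Nat.beq t.2.2.2 (ent q p T U v).2.2.2))
          (ih ts))) l) reps

theorem chkTab_spec (q p T : ℕ) (U : List ℕ) (reps : List (ℕ × ℕ)) (tab : List (ℕ × ℕ × ℕ × ℕ))
    (h : chkTab q p T U reps tab = true) : tab = reps.map (ent q p T U) := by
  induction reps generalizing tab with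
  | nil =>
    cases tab with
    | nil => rfl
    | cons t ts => exact absurd h (by simp [chkTab])
  | cons v reps ih =>
    cases tab with
    | nil => exact absurd h (by simp [chkTab])
    | cons t ts =>
      have h1 : chkTab q p T U (v :: reps) (t :: ts) =
        and (and (Nat.beq t.1 (ent q p T U v).1) (Nat.beq t.2.1 (ent q p T U v).2.1))
        (and (and (Nat.beq t.2.2.1 (ent q p T U v).2.2.1)
          (Nat.beq t.2.2.2 (ent q p T U v).2.2.2)) (chkTab q p T U reps ts)) := rfl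
      rw [h1] at h
      simp only [Bool.and_eq_true] at h
      obtain ⟨⟨h2, h3⟩, ⟨h4, h5⟩, h6⟩ := h
      rw [List.map_cons, ← ih ts h6]
      congr 1
      obtain ⟨a, b, c, d⟩ := t
      rw [Prod.ext_iff, Prod.ext_iff, Prod.ext_iff]
      exact ⟨Nat.eq_of_beq_eq_true h2, Nat.eq_of_beq_eq_true h3, Nat.eq_of_beq_eq_true h4,
        Nat.eq_of_beq_eq_true h5⟩

/-- evaluation -/
def evalc (q T m s : ℕ) (L : List (ℕ × ℕ × ℕ × ℕ)) : ℕ :=
  sumL L (fun x => Nat.mul (look T (Nat.mod (Nat.add (Nat.add x.1 (Nat.mul m x.2.1))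
    (Nat.mul s x.2.2.1)) q)) x.2.2.2)

section

variable {q p T : ℕ} {U : List ℕ} {reps : List (ℕ × ℕ)}

/-- weight in `ZMod p` -/
def wv (q p : ℕ) (K m : ZMod p) (a b : ℕ) : ZMod p :=
  (G1 q p a b : ZMod p) - K * (G2 q p a : ZMod p) + m * (G2 q p b : ZMod p)

theorem cast_pred (hp : 0 < p) : ((p - 1 : ℕ) : ZMod p) = -1 := by
  rw [Nat.cast_sub hp]; simp

theorem wt_cast [NeZero q] (hp : 0 < p) (K m : ℤ) (x y : ZMod q) :
    (wt K m x y : ZMod p) = wv q p (K : ZMod p) (m : ZMod p) x.val y.val := by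
  have h2 : ∀ a : ℕ, ((G2 q p a : ℕ) : ZMod p) = 6 * (a : ZMod p) ^ 2 - 6 * a * q + q ^ 2 := by
    intro a
    have : G2 q p a = 6 * (a * a) + 6 * (p - 1) * (a * q) + q * q := rfl
    rw [this]
    push_cast
    rw [cast_pred hp]
    ring
  have h1 : ((G1 q p x.val y.val : ℕ) : ZMod p) = if x = 0 ∨ y = 0 then 0 else
      6 * (2 * (x.val : ZMod p) - q) * (2 * (y.val : ZMod p) - q) := by
    unfold G1
    by_cases h : x = 0 ∨ y = 0
    · rw [if_pos h]
      have : or (Nat.beq x.val 0) (Nat.beq y.val 0) = true := by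
        rcases h with h | h
        · rw [h]; simp
        · rw [h]; simp
      rw [this]; simp
    · rw [if_neg h]
      push Not at h
      have e1 : Nat.beq x.val 0 = false :=
        Bool.eq_false_iff.mpr (fun h' => h.1 ((ZMod.val_eq_zero x).mp (Nat.eq_of_beq_eq_true h')))
      have e2 : Nat.beq y.val 0 = false :=
        Bool.eq_false_iff.mpr (fun h' => h.2 ((ZMod.val_eq_zero y).mp (Nat.eq_of_beq_eq_true h')))
      rw [e1, e2]
      change ((6 * (2 * x.val + (p - 1) * q) * (2 * y.val + (p - 1) * q) : ℕ) : ZMod p) = _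
      push_cast
      rw [cast_pred hp]
      ring
  unfold wt wv
  rw [h1, h2, h2]
  split_ifs
  · push_cast; ring
  · push_cast; ring

theorem chi_cast [NeZero q] (n : ℕ) : chi q p T (n : ZMod q) = ((look T (n % q) : ℕ) : ZMod p) := by
  unfold chi
  rw [ZMod.val_natCast]

theorem sumL_cast (l : List ℕ) (f : ℕ → ℕ) :
    ((sumL l f : ℕ) : ZMod p) = (l.map (fun e => ((f e : ℕ) : ZMod p))).sum := by
  rw [sumL_eq, Nat.cast_list_sum, List.map_map]
  rfl

theorem inner_sum [NeZero q] (hU : ∀ e ∈ U, e < q) (K m : ZMod p) (u w : ℕ) :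
    (U.map (fun e : ℕ => chi q p T (e : ZMod q) * chi q p T (e : ZMod q) *
      wv q p K m (e * u % q) (e * w % q))).sum =
    (t11 q p T U u w : ZMod p) - K * (t20 q p T U u : ZMod p) + m * (t20 q p T U w : ZMod p) := by
  have e1 : ((t11 q p T U u w : ℕ) : ZMod p) = (U.map (fun e : ℕ => chi q p T (e : ZMod q) *
      chi q p T (e : ZMod q) * (G1 q p (e * u % q) (e * w % q) : ZMod p))).sum := by
    have : t11 q p T U u w = (sumL U (fun e => Nat.mul (sqv T e)
      (G1 q p (Nat.mod (Nat.mul e u) q) (Nat.mod (Nat.mul e w) q)))) % p := rfl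
    rw [this, ZMod.natCast_mod, sumL_cast]
    congr 1
    apply List.map_congr_left
    intro e he
    rw [chi_cast, Nat.mod_eq_of_lt (hU e he)]
    change (((look T e * look T e) * G1 q p (e * u % q) (e * w % q) : ℕ) : ZMod p) = _
    push_cast; ring
  have e2 : ∀ u : ℕ, ((t20 q p T U u : ℕ) : ZMod p) = (U.map (fun e : ℕ => chi q p T (e : ZMod q) *
      chi q p T (e : ZMod q) * (G2 q p (e * u % q) : ZMod p))).sum := by
    intro u
    have : t20 q p T U u = (sumL U (fun e => Nat.mul (sqv T e)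
      (G2 q p (Nat.mod (Nat.mul e u) q)))) % p := rfl
    rw [this, ZMod.natCast_mod, sumL_cast]
    congr 1
    apply List.map_congr_left
    intro e he
    rw [chi_cast, Nat.mod_eq_of_lt (hU e he)]
    change (((look T e * look T e) * G2 q p (e * u % q) : ℕ) : ZMod p) = _
    push_cast; ring
  rw [e1, e2, e2, ← List.sum_map_mul_left, ← List.sum_map_mul_left]
  clear e1 e2 hU
  induction U with
  | nil => simp
  | cons e U ih =>
    simp only [List.map_cons, List.sum_cons]
    rw [ih]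
    unfold wv
    ring

theorem list_bound (l : List (ℕ × ℕ)) (f : ℕ × ℕ → ℕ) (hf : ∀ v, f v ≤ 16384) :
    (l.map f).sum ≤ l.length * 16384 := by
  induction l with
  | nil => simp
  | cons v l ih =>
    rw [List.map_cons, List.sum_cons, List.length_cons, Nat.succ_mul]
    have := hf v
    omega

/-- packed sum -/
theorem evalc_split (hp : 0 < p) (hp128 : p ≤ 128) (hlen : reps.length ≤ 1000) (m s : ℕ) :
    ∃ A B C : ℕ,
      Nat.mod (evalc q T m s (reps.map (ent q p T U))) 16777216 = A ∧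
      Nat.mod (Nat.div (evalc q T m s (reps.map (ent q p T U))) 16777216) 16777216 = B ∧
      Nat.div (evalc q T m s (reps.map (ent q p T U))) 281474976710656 = C ∧
      A = (reps.map (fun v => look T ((v.1 * v.1 % q + m * (v.1 * v.2 % q) +
        s * (v.2 * v.2 % q)) % q) * t11 q p T U v.1 v.2)).sum ∧
      B = (reps.map (fun v => look T ((v.1 * v.1 % q + m * (v.1 * v.2 % q) +
        s * (v.2 * v.2 % q)) % q) * t20 q p T U v.1)).sum ∧
      C = (reps.map (fun v => look T ((v.1 * v.1 % q + m * (v.1 * v.2 % q) +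
        s * (v.2 * v.2 % q)) % q) * t20 q p T U v.2)).sum := by
  set A := (reps.map (fun v => look T ((v.1 * v.1 % q + m * (v.1 * v.2 % q) +
        s * (v.2 * v.2 % q)) % q) * t11 q p T U v.1 v.2)).sum with hA
  set B := (reps.map (fun v => look T ((v.1 * v.1 % q + m * (v.1 * v.2 % q) +
        s * (v.2 * v.2 % q)) % q) * t20 q p T U v.1)).sum with hB
  set C := (reps.map (fun v => look T ((v.1 * v.1 % q + m * (v.1 * v.2 % q) +
        s * (v.2 * v.2 % q)) % q) * t20 q p T U v.2)).sum with hC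
  have hP : evalc q T m s (reps.map (ent q p T U)) =
      A + 16777216 * B + 281474976710656 * C := by
    rw [hA, hB, hC]
    unfold evalc
    rw [sumL_eq, List.map_map]
    clear hA hB hC A B C hlen
    induction reps with
    | nil => simp
    | cons v reps ih =>
      simp only [List.map_cons, List.sum_cons]
      rw [ih]
      have e : ((fun x : ℕ × ℕ × ℕ × ℕ => (look T (((x.1.add (m.mul x.2.1)).add
          (s.mul x.2.2.1)).mod q)).mul x.2.2.2) ∘ ent q p T U) v =
        look T ((v.1 * v.1 % q + m * (v.1 * v.2 % q) + s * (v.2 * v.2 % q)) % q) *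
          (t11 q p T U v.1 v.2 + (16777216 * t20 q p T U v.1 +
            281474976710656 * t20 q p T U v.2)) := rfl
      rw [e]
      ring
  have hmul : ∀ a b : ℕ, a < 128 → b < 128 → a * b ≤ 16384 := by
    intro a b ha hb
    nlinarith
  have bA : A ≤ reps.length * 16384 := by
    apply list_bound
    intro v
    exact hmul _ _ (look_lt _ _) ((Nat.mod_lt _ hp).trans_le hp128)
  have bB : B ≤ reps.length * 16384 := by
    apply list_bound
    intro v
    exact hmul _ _ (look_lt _ _) ((Nat.mod_lt _ hp).trans_le hp128)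
  have bA' : A < 16777216 := by nlinarith
  have bB' : B < 16777216 := by nlinarith
  refine ⟨A, B, C, ?_, ?_, ?_, rfl, rfl, rfl⟩
  · change (evalc q T m s (reps.map (ent q p T U))) % 16777216 = A
    rw [hP]; omega
  · change (evalc q T m s (reps.map (ent q p T U))) / 16777216 % 16777216 = B
    rw [hP]; omega
  · change (evalc q T m s (reps.map (ent q p T U))) / 281474976710656 = C
    rw [hP]; omega

theorem coef_sound [NeZero q] (hp : 0 < p) (hp128 : p ≤ 128) (hlen : reps.length ≤ 1000)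
    (hmul : chkMul q p T = true) (hoth : chkOth q p T = true) (horb : chkOrb q U reps = true)
    (hU : ∀ e ∈ U, e < q) {m s : ℕ} {R K : ℤ} (hm : (m : ZMod q) = R * K)
    (hs : (s : ZMod q) = -R) :
    ∑ x : ZMod q, ∑ y : ZMod q, chi q p T (x ^ 2 + (R : ZMod q) * (K : ZMod q) * (x * y)
      - (R : ZMod q) * y ^ 2) * (wt K (R * K) x y : ZMod p) =
    ((Nat.mod (evalc q T m s (reps.map (ent q p T U))) 16777216 : ℕ) : ZMod p) -
    (K : ZMod p) * ((Nat.mod (Nat.div (evalc q T m s (reps.map (ent q p T U))) 16777216)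
      16777216 : ℕ) : ZMod p) +
    (R : ZMod p) * (K : ZMod p) *
      ((Nat.div (evalc q T m s (reps.map (ent q p T U))) 281474976710656 : ℕ) : ZMod p) := by
  have hq : 0 < q := Nat.pos_of_ne_zero (NeZero.ne q)
  set H : ℕ → ℕ → ZMod p := fun a b => chi q p T ((a : ZMod q) ^ 2 +
    (R : ZMod q) * (K : ZMod q) * ((a : ZMod q) * b) - (R : ZMod q) * (b : ZMod q) ^ 2) *
    wv q p (K : ZMod p) ((R : ZMod p) * (K : ZMod p)) a b with hH
  have h1 : ∑ x : ZMod q, ∑ y : ZMod q, chi q p T (x ^ 2 + (R : ZMod q) * (K : ZMod q) * (x * y)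
      - (R : ZMod q) * y ^ 2) * (wt K (R * K) x y : ZMod p) =
      ∑ a ∈ range q, ∑ b ∈ range q, H a b := by
    rw [sum_range_zmod]
    apply Finset.sum_congr rfl
    intro x _
    rw [sum_range_zmod]
    apply Finset.sum_congr rfl
    intro y _
    rw [hH]
    simp only
    rw [wt_cast hp, ZMod.natCast_zmod_val, ZMod.natCast_zmod_val]
    push_cast
    rfl
  have hN : ∀ a b : ℕ, (a : ZMod q) ^ 2 + (R : ZMod q) * (K : ZMod q) * ((a : ZMod q) * b)
      - (R : ZMod q) * (b : ZMod q) ^ 2 = ((a * a + m * (a * b) + s * (b * b) : ℕ) : ZMod q) := by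
    intro a b
    push_cast
    rw [hm, hs]
    ring
  have h2 := orbit_sum horb hq H (by
    intro a _ b _ hg
    rw [hH]
    simp only
    rw [hN, chi_nonunit hoth, zero_mul]
    rw [ZMod.val_natCast]
    intro h3
    apply hg
    set g := Nat.gcd (Nat.gcd a b) q with hgdef
    have g1 : g ∣ q := Nat.gcd_dvd_right _ _
    have g2 : g ∣ a := (Nat.gcd_dvd_left _ _).trans (Nat.gcd_dvd_left _ _)
    have g3 : g ∣ b := (Nat.gcd_dvd_left _ _).trans (Nat.gcd_dvd_right _ _)
    have g4 : g ∣ a * a + m * (a * b) + s * (b * b) :=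
      dvd_add (dvd_add (g2.mul_right a) ((g2.mul_right b).mul_left m)) ((g3.mul_right b).mul_left s)
    have g5 : g ∣ (a * a + m * (a * b) + s * (b * b)) % q := (Nat.dvd_mod_iff g1).mpr g4
    have g6 := Nat.dvd_gcd g5 g1
    rw [h3] at g6
    exact Nat.dvd_one.mp g6)
  rw [h1, h2]
  obtain ⟨A, B, C, hA, hB, hC, eA, eB, eC⟩ := evalc_split (q := q) (T := T) (U := U) hp hp128 hlen m s
  rw [hA, hB, hC, eA, eB, eC]
  rw [Nat.cast_list_sum, Nat.cast_list_sum, Nat.cast_list_sum, List.map_map, List.map_map,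
    List.map_map]
  have h3 : ∀ v : ℕ × ℕ, (U.map (fun e => H (e * v.1 % q) (e * v.2 % q))).sum =
      ((look T ((v.1 * v.1 % q + m * (v.1 * v.2 % q) + s * (v.2 * v.2 % q)) % q) : ℕ) : ZMod p) *
      ((t11 q p T U v.1 v.2 : ZMod p) - (K : ZMod p) * (t20 q p T U v.1 : ZMod p) +
        ((R : ZMod p) * (K : ZMod p)) * (t20 q p T U v.2 : ZMod p)) := by
    intro v
    rw [← inner_sum hU, ← List.sum_map_mul_left]
    congr 1
    apply List.map_congr_left
    intro e _
    have e1 : ((e * v.1 % q : ℕ) : ZMod q) = e * v.1 := by rw [ZMod.natCast_mod]; push_cast; rfl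
    have e2 : ((e * v.2 % q : ℕ) : ZMod q) = e * v.2 := by rw [ZMod.natCast_mod]; push_cast; rfl
    have e3 : chi q p T (((v.1 * v.1 % q + m * (v.1 * v.2 % q) + s * (v.2 * v.2 % q) : ℕ)) : ZMod q)
      = ((look T ((v.1 * v.1 % q + m * (v.1 * v.2 % q) + s * (v.2 * v.2 % q)) % q) : ℕ) : ZMod p) :=
      chi_cast _
    rw [hH]
    simp only
    rw [← e3, e1, e2]
    have e4 : ((e : ZMod q) * v.1) ^ 2 + (R : ZMod q) * (K : ZMod q) * (((e : ZMod q) * v.1) *
        ((e : ZMod q) * v.2)) - (R : ZMod q) * ((e : ZMod q) * v.2) ^ 2 =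
        (e : ZMod q) * (e : ZMod q) *
        ((v.1 * v.1 % q + m * (v.1 * v.2 % q) + s * (v.2 * v.2 % q) : ℕ) : ZMod q) := by
      push_cast
      rw [ZMod.natCast_mod, ZMod.natCast_mod, ZMod.natCast_mod, hm, hs]
      push_cast
      ring
    rw [e4, chi_mul hmul, chi_mul hmul]
    ring
  clear h1 h2 hA hB hC eA eB eC horb hlen
  induction reps with
  | nil => simp
  | cons v reps ih =>
    simp only [List.map_cons, List.sum_cons]
    rw [ih, h3]
    simp only [Function.comp]
    push_cast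
    ring

end

end H419R2
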