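import Pool.Agent.H419R2.E2

/-! The residue search and its soundness. -/

namespace H419R2

open Finset

/-- character data -/
structure CD where
  q : ℕ
  p : ℕ
  T : ℕ
  U : List ℕ
  reps : List (ℕ × ℕ)
  tab : List (ℕ × ℕ × ℕ × ℕ)

/-- validity of the data -/
structure CD.OK (c : CD) : Prop where
  q1 : 1 < c.q
  pp : c.p.Prime
  p2 : c.p ≠ 2
  p128 : c.p ≤ 128
  len : c.reps.length ≤ 1000
  mul : chkMul c.q c.p c.T = true
  oth : chkOth c.q c.p c.T = true
  orb : chkOrb c.q c.U c.reps = true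
  hU : ∀ e ∈ c.U, e < c.q
  tabOK : chkTab c.q c.p c.T c.U c.reps c.tab = true

/-- the relation attached to the data -/
def CD.Rel (c : CD) (R K : ℤ) : Prop :=
  ∀ _ : NeZero c.q, ∑ x : ZMod c.q, ∑ y : ZMod c.q,
    chi c.q c.p c.T (x ^ 2 + (R : ZMod c.q) * (K : ZMod c.q) * (x * y)
      - (R : ZMod c.q) * y ^ 2) * (wt K (R * K) x y : ZMod c.p) = 0

theorem CD.rel_of_good {c : CD} (hc : c.OK) {R K : ℤ} {D : ℕ} (G : Good R K D)
    (hpD : ¬ (c.p : ℤ) ∣ D) (hcop : c.q.Coprime D) : c.Rel R K := by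
  intro _
  exact G.rel_mod hc.pp hc.p2 hpD hcop _ (chi_mul hc.mul) (chi_neg hc.q1 hc.mul hc.oth)
    (chi_sum hc.oth)

theorem wt_neg {q : ℕ} [NeZero q] (K m : ℤ) (x y : ZMod q) : wt (-K) (-m) x (-y) = -wt K m x y := by
  unfold wt
  by_cases hy : y = 0
  · subst hy
    simp
    ring
  · have h : NeZero y := ⟨hy⟩
    have h1 : (-y).val = q - y.val := ZMod.val_neg_of_ne_zero y
    have h2 : (((-y).val : ℕ) : ℤ) = q - y.val := by
      rw [h1, Nat.cast_sub (ZMod.val_lt y).le]
    by_cases hx : x = 0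
    · subst hx
      simp only [true_or, if_true, h2]
      ring
    · rw [if_neg (by simp [hx, hy]), if_neg (by simp [hx, hy]), h2]
      ring

theorem CD.rel_neg {c : CD} {R K : ℤ} (h : c.Rel R K) : c.Rel R (-K) := by
  intro i
  have h1 := h i
  have h2 : ∀ x : ZMod c.q, ∑ y : ZMod c.q,
      chi c.q c.p c.T (x ^ 2 + (R : ZMod c.q) * ((-K : ℤ) : ZMod c.q) * (x * y)
      - (R : ZMod c.q) * y ^ 2) * (wt (-K) (R * -K) x y : ZMod c.p) =
      -∑ y : ZMod c.q, chi c.q c.p c.T (x ^ 2 + (R : ZMod c.q) * (K : ZMod c.q) * (x * y)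
      - (R : ZMod c.q) * y ^ 2) * (wt K (R * K) x y : ZMod c.p) := by
    intro x
    rw [← Finset.sum_neg_distrib]
    rw [← Equiv.sum_comp (Equiv.neg (ZMod c.q))]
    apply Finset.sum_congr rfl
    intro y _
    simp only [Equiv.neg_apply]
    rw [mul_neg R K, wt_neg]
    have e : x ^ 2 + (R : ZMod c.q) * ((-K : ℤ) : ZMod c.q) * (x * -y) -
        (R : ZMod c.q) * (-y) ^ 2 = x ^ 2 + (R : ZMod c.q) * (K : ZMod c.q) * (x * y)
      - (R : ZMod c.q) * y ^ 2 := by push_cast; ring
    rw [e]
    push_cast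
    ring
  rw [Finset.sum_congr rfl (fun x _ => h2 x), Finset.sum_neg_distrib, h1, neg_zero]

/-- evaluation -/
def CD.ev (c : CD) (r k : ℕ) : ℕ :=
  force (Nat.mod (Nat.mul r k) c.q) (fun m => force (Nat.sub c.q (Nat.mod r c.q)) (fun s =>
    evalc c.q c.T m s c.tab))

/-- linear condition -/
def condP (p P r k : ℕ) : Bool :=
  Nat.beq (Nat.mod (Nat.add (Nat.add (Nat.mod P 16777216)
    (Nat.mul (Nat.sub p (Nat.mod k p)) (Nat.mod (Nat.div P 16777216) 16777216)))
    (Nat.mul (Nat.mod (Nat.mul r k) p) (Nat.div P 281474976710656))) p) 0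

/-- condition without knowledge modulo `p` -/
def condU (p P : ℕ) : Bool :=
  or (Nat.beq (Nat.mod (Nat.mod P 16777216) p) 0)
    (or (not (Nat.beq (Nat.mod (Nat.mod (Nat.div P 16777216) 16777216) p) 0))
      (not (Nat.beq (Nat.mod (Nat.div P 281474976710656) p) 0)))

theorem CD.ev_rel {c : CD} (hc : c.OK) {R K : ℤ} (h : c.Rel R K) {r k : ℕ}
    (hr : (r : ZMod c.q) = R) (hk : (k : ZMod c.q) = K) :
    ((Nat.mod (c.ev r k) 16777216 : ℕ) : ZMod c.p) -
    (K : ZMod c.p) * ((Nat.mod (Nat.div (c.ev r k) 16777216) 16777216 : ℕ) : ZMod c.p) +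
    (R : ZMod c.p) * (K : ZMod c.p) *
      ((Nat.div (c.ev r k) 281474976710656 : ℕ) : ZMod c.p) = 0 := by
  have hq : NeZero c.q := ⟨by have := hc.q1; omega⟩
  have htab := chkTab_spec _ _ _ _ _ _ hc.tabOK
  have hev : c.ev r k = evalc c.q c.T (Nat.mod (Nat.mul r k) c.q) (Nat.sub c.q (Nat.mod r c.q))
      (c.reps.map (ent c.q c.p c.T c.U)) := by
    unfold CD.ev
    rw [force_eq, force_eq, ← htab]
  rw [hev, ← coef_sound hc.pp.pos hc.p128 hc.len hc.mul hc.oth hc.orb hc.hU]
  · exact h hq
  · change (((r * k) % c.q : ℕ) : ZMod c.q) = _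
    rw [ZMod.natCast_mod]
    push_cast
    rw [hr, hk]
  · change ((c.q - r % c.q : ℕ) : ZMod c.q) = _
    rw [Nat.cast_sub (Nat.mod_lt _ (by have := hc.q1; omega)).le, ZMod.natCast_mod, hr]
    simp

theorem condP_sound {c : CD} (hc : c.OK) {R K : ℤ} (h : c.Rel R K) {r k r' k' : ℕ}
    (hr : (r : ZMod c.q) = R) (hk : (k : ZMod c.q) = K)
    (hr' : (r' : ZMod c.p) = R) (hk' : (k' : ZMod c.p) = K) :
    condP c.p (c.ev r k) r' k' = true := by
  have h1 := CD.ev_rel hc h hr hk
  set A := Nat.mod (c.ev r k) 16777216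
  set B := Nat.mod (Nat.div (c.ev r k) 16777216) 16777216
  set C := Nat.div (c.ev r k) 281474976710656
  have h2 : ((A + (c.p - k' % c.p) * B + (r' * k' % c.p) * C : ℕ) : ZMod c.p) = 0 := by
    push_cast
    rw [Nat.cast_sub (Nat.mod_lt _ hc.pp.pos).le, ZMod.natCast_mod, ZMod.natCast_mod]
    push_cast
    have hp0 : ((c.p : ℕ) : ZMod c.p) = 0 := CharP.cast_eq_zero _ _
    rw [hr', hk', hp0]
    linear_combination h1
  rw [ZMod.natCast_eq_zero_iff] at h2
  have h3 : (A + (c.p - k' % c.p) * B + (r' * k' % c.p) * C) % c.p = 0 :=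
    Nat.mod_eq_zero_of_dvd h2
  unfold condP
  change Nat.beq ((A + (c.p - k' % c.p) * B + (r' * k' % c.p) * C) % c.p) 0 = true
  rw [h3]; rfl

theorem condU_sound {c : CD} (hc : c.OK) {R K : ℤ} (h : c.Rel R K) {r k : ℕ}
    (hr : (r : ZMod c.q) = R) (hk : (k : ZMod c.q) = K) :
    condU c.p (c.ev r k) = true := by
  have h1 := CD.ev_rel hc h hr hk
  unfold condU
  set A := Nat.mod (c.ev r k) 16777216
  set B := Nat.mod (Nat.div (c.ev r k) 16777216) 16777216
  set C := Nat.div (c.ev r k) 281474976710656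
  by_cases hB : Nat.beq (Nat.mod B c.p) 0 = true
  · by_cases hC : Nat.beq (Nat.mod C c.p) 0 = true
    · have hA : Nat.beq (Nat.mod A c.p) 0 = true := by
        rw [cast_zero_of_mod hB, cast_zero_of_mod hC] at h1
        have h2 : ((A : ℕ) : ZMod c.p) = 0 := by
          rw [← h1]; ring
        rw [ZMod.natCast_eq_zero_iff] at h2
        have h3 : A % c.p = 0 := Nat.mod_eq_zero_of_dvd h2
        change Nat.beq (A % c.p) 0 = true
        rw [h3]; rfl
      rw [hA]; rfl
    · rw [Bool.or_eq_true, Bool.or_eq_true]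
      right; right
      rw [Bool.eq_false_iff.mpr hC]; rfl
  · rw [Bool.or_eq_true, Bool.or_eq_true]
    right; left
    rw [Bool.eq_false_iff.mpr hB]; rfl

/-- residue -/
def res (z : ℤ) (M : ℕ) : ℕ := (z % (M : ℤ)).toNat

theorem res_int (z : ℤ) {M : ℕ} (hM : 0 < M) : ((res z M : ℕ) : ℤ) = z % M :=
  Int.toNat_of_nonneg (Int.emod_nonneg _ (by positivity))

theorem res_cast (z : ℤ) {M n : ℕ} (hM : 0 < M) (h : n ∣ M) : ((res z M : ℕ) : ZMod n) = z := by
  have h1 : ((res z M : ℕ) : ZMod n) = (((res z M : ℕ) : ℤ) : ZMod n) := (Int.cast_natCast _).symm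
  rw [h1, res_int z hM, ZMod.intCast_eq_intCast_iff]
  exact (Int.mod_modEq z M).of_dvd (by exact_mod_cast h)

theorem res_lt (z : ℤ) {M : ℕ} (hM : 0 < M) : res z M < M := by
  have h1 := res_int z hM
  have h2 : z % (M : ℤ) < M := Int.emod_lt_of_pos _ (by exact_mod_cast hM)
  rw [← h1] at h2
  exact_mod_cast h2

theorem res_step (z : ℤ) {M l : ℕ} (hM : 0 < M) (hl : 0 < l) :
    ∃ i < l, Nat.add (res z M) (Nat.mul M i) = res z (M * l) := by
  refine ⟨res z (M * l) / M, ?_, ?_⟩
  · rw [Nat.div_lt_iff_lt_mul hM, mul_comm]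
    exact res_lt z (by positivity)
  · have h1 : res z (M * l) % M = res z M := by
      have h2 : ((res z (M * l) % M : ℕ) : ℤ) = ((res z M : ℕ) : ℤ) := by
        rw [Int.natCast_mod, res_int z (by positivity : 0 < M * l), res_int z hM]
        exact Int.emod_emod_of_dvd _ (by push_cast; exact Dvd.intro _ rfl)
      exact_mod_cast h2
    change res z M + M * (res z (M * l) / M) = _
    rw [← h1]
    exact Nat.mod_add_div _ _

/-- conditions evaluated in advance -/
def withPre (pre : List CD) : ℕ → ℕ → ((ℕ → ℕ → Bool) → Bool) → Bool :=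
  @List.rec CD (fun _ => ℕ → ℕ → ((ℕ → ℕ → Bool) → Bool) → Bool)
    (fun _ _ cont => cont (fun _ _ => true))
    (fun c _ ih r k cont => force (c.ev r k) (fun P => ih r k (fun F =>
      cont (fun r1 k1 => and (condP c.p P r1 k1) (F r1 k1))))) pre

theorem withPre_spec (pre : List CD) (r k : ℕ) (cont : (ℕ → ℕ → Bool) → Bool) :
    withPre pre r k cont = cont (fun r1 k1 => allL pre (fun c => condP c.p (c.ev r k) r1 k1)) := by
  induction pre generalizing cont with
  | nil => rfl
  | cons c pre ih =>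
    have : withPre (c :: pre) r k cont = force (c.ev r k) (fun P => withPre pre r k (fun F =>
      cont (fun r1 k1 => and (condP c.p P r1 k1) (F r1 k1)))) := rfl
    rw [this, force_eq, ih]
    rfl

/-- conditions evaluated afterwards -/
def postB (post : List (Bool × CD)) (r k : ℕ) : Bool :=
  allL post (fun bc => force (bc.2.ev r k) (fun P =>
    @Bool.rec (fun _ => Bool) (condU bc.2.p P) (condP bc.2.p P r k) bc.1))

/-- membership -/
def memB (S : List (ℕ × ℕ)) (r k : ℕ) : Bool :=
  anyL S (fun t => and (Nat.beq t.1 r) (Nat.beq t.2 k))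

theorem memB_iff (S : List (ℕ × ℕ)) (r k : ℕ) (h : memB S r k = true) : (r, k) ∈ S := by
  unfold memB at h
  rw [anyL_iff] at h
  obtain ⟨t, ht, h1⟩ := h
  rw [Bool.and_eq_true] at h1
  have h2 : t = (r, k) := Prod.ext (Nat.eq_of_beq_eq_true h1.1) (Nat.eq_of_beq_eq_true h1.2)
  rw [← h2]; exact ht

/-- test of one residue pair -/
def testB (l iq : ℕ) (F : ℕ → ℕ → Bool) (post : List (Bool × CD)) (S : List (ℕ × ℕ))
    (r k : ℕ) : Bool :=
  or (tb iq (Nat.mod (Nat.add (Nat.mul (Nat.mul r k) (Nat.mul r k)) (Nat.mul 4 r)) l))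
    (or (not (F r k)) (or (not (postB post r k)) (memB S r k)))

/-- squares table check -/
def chkIq (l iq : ℕ) : Bool :=
  allR l (fun x => or (not (tb iq x)) (not (allR l (fun y =>
    not (Nat.beq (Nat.mod (Nat.mul y y) l) x)))))

theorem tb_square {l iq : ℕ} (hl : 0 < l) (h : chkIq l iq = true) {x : ℕ}
    (hx : tb iq (Nat.mod x l) = true) : IsSquare ((x : ℕ) : ZMod l) := by
  unfold chkIq at h
  rw [allR_iff] at h
  have h1 := h (x % l) (Nat.mod_lt _ hl)
  have hx' : tb iq (x % l) = true := hx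
  rw [Bool.or_eq_true, hx'] at h1
  rcases h1 with h1 | h1
  · exact absurd h1 (by simp)
  · have h2 : ¬ (allR l (fun y => not (Nat.beq (Nat.mod (Nat.mul y y) l) (x % l))) = true) := by
      intro h3
      rw [h3] at h1
      exact absurd h1 (by simp)
    rw [allR_iff] at h2
    push Not at h2
    obtain ⟨y, _, hy2⟩ := h2
    have h3 : Nat.beq (Nat.mod (Nat.mul y y) l) (x % l) = true := by simpa using hy2
    have h4 : y * y % l = x % l := Nat.eq_of_beq_eq_true h3
    refine ⟨(y : ZMod l), ?_⟩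
    rw [← Nat.cast_mul, ZMod.natCast_eq_natCast_iff']
    exact h4.symm

/-- one step of the search -/
structure Step where
  l : ℕ
  iq : ℕ
  pre : List CD
  post : List (Bool × CD)
  S : List (ℕ × ℕ)

/-- structural checks -/
def stepOK (M : ℕ) (st : Step) : Bool :=
  and (chkIq st.l st.iq) (and (Nat.ble 1 st.l)
    (and (allL st.pre (fun c => and (Nat.beq (Nat.mod M c.q) 0)
      (Nat.beq (Nat.mod (Nat.mul M st.l) c.p) 0)))
    (allL st.post (fun bc => and (Nat.beq (Nat.mod (Nat.mul M st.l) bc.2.q) 0)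
      (or (not bc.1) (Nat.beq (Nat.mod (Nat.mul M st.l) bc.2.p) 0))))))

/-- hypotheses for one step -/
structure StepHyp (R K : ℤ) (st : Step) : Prop where
  pre : ∀ c ∈ st.pre, c.OK ∧ c.Rel R K
  post : ∀ bc ∈ st.post, bc.2.OK ∧ bc.2.Rel R K
  inert : ¬ IsSquare (((R * K) ^ 2 + 4 * R : ℤ) : ZMod st.l)

theorem dvd_of_beq {a b : ℕ} (h : Nat.beq (Nat.mod a b) 0 = true) : b ∣ a :=
  Nat.dvd_of_mod_eq_zero (Nat.eq_of_beq_eq_true h)

theorem testB_sound {M : ℕ} (hM : 0 < M) {st : Step} (hst : stepOK M st = true) {R K : ℤ}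
    (H : StepHyp R K st)
    (h : testB st.l st.iq (fun r1 k1 => allL st.pre (fun c => condP c.p
      (c.ev (res R M) (res K M)) r1 k1)) st.post st.S (res R (M * st.l)) (res K (M * st.l)) = true) :
    (res R (M * st.l), res K (M * st.l)) ∈ st.S := by
  unfold stepOK at hst
  simp only [Bool.and_eq_true] at hst
  obtain ⟨h1, h2, h3, h4⟩ := hst
  rw [allL_iff] at h3 h4
  have hl : 0 < st.l := Nat.le_of_ble_eq_true h2
  have hMl : 0 < M * st.l := by positivity
  unfold testB at h
  rw [Bool.or_eq_true] at h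
  rcases h with h | h
  · exfalso
    apply H.inert
    have h5 := tb_square hl h1 h
    have e : ((Nat.add (Nat.mul (Nat.mul (res R (M * st.l)) (res K (M * st.l)))
        (Nat.mul (res R (M * st.l)) (res K (M * st.l)))) (Nat.mul 4 (res R (M * st.l))) : ℕ) :
        ZMod st.l) = (((R * K) ^ 2 + 4 * R : ℤ) : ZMod st.l) := by
      change (((res R (M * st.l) * res K (M * st.l)) * (res R (M * st.l) * res K (M * st.l)) +
        4 * res R (M * st.l) : ℕ) : ZMod st.l) = _
      push_cast
      rw [res_cast R hMl (Dvd.intro_left _ rfl), res_cast K hMl (Dvd.intro_left _ rfl)]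
      ring
    rw [e] at h5
    exact h5
  rw [Bool.or_eq_true] at h
  rcases h with h | h
  · exfalso
    have h5 : allL st.pre (fun c => condP c.p (c.ev (res R M) (res K M)) (res R (M * st.l))
        (res K (M * st.l))) = true := by
      rw [allL_iff]
      intro c hc
      obtain ⟨hc1, hc2⟩ := H.pre c hc
      have h6 := h3 c hc
      rw [Bool.and_eq_true] at h6
      have d1 := dvd_of_beq h6.1
      have d2 : c.p ∣ M * st.l := dvd_of_beq h6.2
      exact condP_sound hc1 hc2 (res_cast R hM d1) (res_cast K hM d1) (res_cast R hMl d2)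
        (res_cast K hMl d2)
    have h' : (!(allL st.pre (fun c => condP c.p (c.ev (res R M) (res K M)) (res R (M * st.l))
        (res K (M * st.l))))) = true := h
    rw [h5] at h'
    exact absurd h' (by simp)
  rw [Bool.or_eq_true] at h
  rcases h with h | h
  · exfalso
    have h5 : postB st.post (res R (M * st.l)) (res K (M * st.l)) = true := by
      unfold postB
      rw [allL_iff]
      rintro ⟨b, c⟩ hc
      obtain ⟨hc1, hc2⟩ := H.post _ hc
      have h6 := h4 _ hc
      rw [Bool.and_eq_true] at h6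
      have d1 : c.q ∣ M * st.l := dvd_of_beq h6.1
      rw [force_eq]
      cases b with
      | false => exact condU_sound hc1 hc2 (res_cast R hMl d1) (res_cast K hMl d1)
      | true =>
        have d2 : c.p ∣ M * st.l := by
          have h7 := h6.2
          rw [Bool.or_eq_true] at h7
          rcases h7 with h7 | h7
          · exact absurd h7 (by simp)
          · exact dvd_of_beq h7
        exact condP_sound hc1 hc2 (res_cast R hMl d1) (res_cast K hMl d1) (res_cast R hMl d2)
          (res_cast K hMl d2)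
    rw [h5] at h
    exact absurd h (by simp)
  · exact memB_iff _ _ _ h

/-- generic stage -/
def stageG (M : ℕ) (st : Step) (S : List (ℕ × ℕ)) : Bool :=
  allL S (fun s => force s.1 (fun r0 => force s.2 (fun k0 => withPre st.pre r0 k0 (fun F =>
    allR st.l (fun i => force (Nat.add r0 (Nat.mul M i)) (fun r => allR st.l (fun j =>
      force (Nat.add k0 (Nat.mul M j)) (fun k => testB st.l st.iq F st.post st.S r k))))))))

/-- special stage -/
def stageS (M : ℕ) (r1 : ℕ) (st : Step) (S : List (ℕ × ℕ)) : Bool :=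
  allL S (fun s => force s.1 (fun r0 => force s.2 (fun k0 => withPre st.pre r0 k0 (fun F =>
    allR st.l (fun j =>
      force (Nat.add k0 (Nat.mul M j)) (fun k => testB st.l st.iq F st.post st.S r1 k))))))

theorem stageG_sound {M : ℕ} (hM : 0 < M) {st : Step} (hst : stepOK M st = true) {R K : ℤ}
    (H : StepHyp R K st) {S : List (ℕ × ℕ)} (h : stageG M st S = true)
    (hS : (res R M, res K M) ∈ S) : (res R (M * st.l), res K (M * st.l)) ∈ st.S := by
  have hl : 0 < st.l := by
    unfold stepOK at hst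
    simp only [Bool.and_eq_true] at hst
    exact Nat.le_of_ble_eq_true hst.2.1
  unfold stageG at h
  rw [allL_iff] at h
  have h1 := h _ hS
  rw [force_eq, force_eq, withPre_spec, allR_iff] at h1
  obtain ⟨i, hi, hi2⟩ := res_step R hM hl
  obtain ⟨j, hj, hj2⟩ := res_step K hM hl
  have h2 := h1 i hi
  rw [force_eq, allR_iff] at h2
  have h3 := h2 j hj
  rw [force_eq, hi2, hj2] at h3
  exact testB_sound hM hst H h3

theorem stageS_sound {M : ℕ} (hM : 0 < M) {st : Step} (hst : stepOK M st = true) {R K : ℤ}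
    (H : StepHyp R K st) {S : List (ℕ × ℕ)} (h : stageS M (res R (M * st.l)) st S = true)
    (hS : (res R M, res K M) ∈ S) : (res R (M * st.l), res K (M * st.l)) ∈ st.S := by
  have hl : 0 < st.l := by
    unfold stepOK at hst
    simp only [Bool.and_eq_true] at hst
    exact Nat.le_of_ble_eq_true hst.2.1
  unfold stageS at h
  rw [allL_iff] at h
  have h1 := h _ hS
  rw [force_eq, force_eq, withPre_spec, allR_iff] at h1
  obtain ⟨j, hj, hj2⟩ := res_step K hM hl
  have h3 := h1 j hj
  rw [force_eq, hj2] at h3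
  exact testB_sound hM hst H h3

/-- generic run -/
def runG (steps : List Step) : ℕ → List (ℕ × ℕ) → Bool :=
  @List.rec Step (fun _ => ℕ → List (ℕ × ℕ) → Bool)
    (fun _ S => @List.rec (ℕ × ℕ) (fun _ => Bool) true (fun _ _ _ => false) S)
    (fun st _ ih M S => and (stepOK M st) (and (stageG M st S)
      (force (Nat.mul M st.l) (fun M' => ih M' st.S)))) steps

theorem runG_sound (steps : List Step) {M : ℕ} (hM : 0 < M) {S : List (ℕ × ℕ)}
    (h : runG steps M S = true) {R K : ℤ} (H : ∀ st ∈ steps, StepHyp R K st)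
    (hS : (res R M, res K M) ∈ S) : False := by
  induction steps generalizing M S with
  | nil =>
    cases S with
    | nil => simp at hS
    | cons a b => exact absurd h (by simp [runG])
  | cons st steps ih =>
    have h1 : runG (st :: steps) M S = and (stepOK M st) (and (stageG M st S)
      (force (Nat.mul M st.l) (fun M' => runG steps M' st.S))) := rfl
    rw [h1, force_eq] at h
    simp only [Bool.and_eq_true] at h
    obtain ⟨h2, h3, h4⟩ := h
    have hl : 0 < st.l := by
      unfold stepOK at h2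
      simp only [Bool.and_eq_true] at h2
      exact Nat.le_of_ble_eq_true h2.2.1
    have h5 := stageG_sound hM h2 (H st (by simp)) h3 hS
    exact ih (M := M * st.l) (by positivity) h4 (fun st' hst' => H st' (by simp [hst'])) h5

/-- residue of `±a` -/
def rs (neg : Bool) (a N : ℕ) : ℕ :=
  @Bool.rec (fun _ => ℕ) (Nat.mod a N) (Nat.mod (Nat.sub N (Nat.mod a N)) N) neg

theorem rs_eq (neg : Bool) (a N : ℕ) (hN : 0 < N) :
    rs neg a N = res (@Bool.rec (fun _ => ℤ) (a : ℤ) (-(a : ℤ)) neg) N := by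
  have h1 : ((rs neg a N : ℕ) : ℤ) = ((res (@Bool.rec (fun _ => ℤ) (a : ℤ) (-(a : ℤ)) neg) N : ℕ) : ℤ) := by
    rw [res_int _ hN]
    cases neg with
    | false =>
      change ((a % N : ℕ) : ℤ) = (a : ℤ) % N
      push_cast; rfl
    | true =>
      change (((N - a % N) % N : ℕ) : ℤ) = (-(a : ℤ)) % N
      rw [Int.natCast_mod, Nat.cast_sub (Nat.mod_lt _ hN).le, Int.natCast_mod]
      rw [Int.sub_emod_emod, ← Int.neg_emod_eq_sub_emod]
  exact_mod_cast h1

/-- special run -/
def runS (neg : Bool) (a : ℕ) (steps : List Step) : ℕ → List (ℕ × ℕ) → Bool :=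
  @List.rec Step (fun _ => ℕ → List (ℕ × ℕ) → Bool)
    (fun _ S => @List.rec (ℕ × ℕ) (fun _ => Bool) true (fun _ _ _ => false) S)
    (fun st _ ih M S => and (stepOK M st) (force (Nat.mul M st.l) (fun M' =>
      and (force (rs neg a M') (fun r1 => stageS M r1 st S)) (ih M' st.S)))) steps

theorem runS_sound (neg : Bool) (a : ℕ) (steps : List Step) {M : ℕ} (hM : 0 < M)
    {S : List (ℕ × ℕ)} (h : runS neg a steps M S = true) {R K : ℤ}
    (hR : R = @Bool.rec (fun _ => ℤ) (a : ℤ) (-(a : ℤ)) neg) (H : ∀ st ∈ steps, StepHyp R K st)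
    (hS : (res R M, res K M) ∈ S) : False := by
  induction steps generalizing M S with
  | nil =>
    cases S with
    | nil => simp at hS
    | cons a b => exact absurd h (by simp [runS])
  | cons st steps ih =>
    have h1 : runS neg a (st :: steps) M S = and (stepOK M st) (force (Nat.mul M st.l) (fun M' =>
      and (force (rs neg a M') (fun r1 => stageS M r1 st S)) (runS neg a steps M' st.S))) := rfl
    rw [h1, force_eq, force_eq] at h
    simp only [Bool.and_eq_true] at h
    obtain ⟨h2, h3, h4⟩ := h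
    have hl : 0 < st.l := by
      unfold stepOK at h2
      simp only [Bool.and_eq_true] at h2
      exact Nat.le_of_ble_eq_true h2.2.1
    have hMl : 0 < M * st.l := by positivity
    have e : rs neg a (Nat.mul M st.l) = res R (M * st.l) := by
      rw [hR]
      exact rs_eq neg a (M * st.l) hMl
    rw [e] at h3
    have h5 := stageS_sound hM h2 (H st (by simp)) h3 hS
    exact ih (M := M * st.l) hMl h4 (fun st' hst' => H st' (by simp [hst'])) h5

end H419R2
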