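import Pool.Agent.H419R2.F1
import Pool.Agent.H419R2.F2
import Pool.Agent.H419R2.F3
import Pool.Agent.H419R2.F4
import Pool.Agent.H419R2.F5
import Pool.Agent.H419R2.F6

/-! Special residue searches. -/

set_option maxRecDepth 100000

namespace H419R2

/-- steps -/
def stepsP3 : List Step := [⟨7, 23, [], [], [(3,5),(3,9),(3,21)]⟩,
  ⟨13, 5659, [], [], [(3,33),(3,201),(3,257),(3,285),(3,313),(3,341),(3,149),(3,205),(3,233),(3,261),(3,289),(3,345),(3,49),(3,77),(3,105),(3,133),(3,189),(3,357)]⟩,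
  ⟨37, 96068509339, [c91_37], [(true, c148_7),(false, c148_19)], []⟩]
theorem runP3_ok : runS false 3 stepsP3 4 [(3, 1)] = true := by decide +kernel

/-- steps -/
def stepsM3 : List Step := [⟨13, 5659, [], [], [(49,5),(49,9),(49,17),(49,21),(49,37),(49,41)]⟩,
  ⟨7, 23, [], [], [(361,5),(361,109),(361,213),(361,317),(361,9),(361,61),(361,165),(361,269),(361,17),(361,121),(361,173),(361,277),(361,73),(361,177),(361,229),(361,333),(361,37),(361,89),(361,193),(361,297),(361,93),(361,145),(361,249),(361,353)]⟩,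
  ⟨37, 96068509339, [c91_37], [(true, c148_7),(false, c148_19)], [(13465,9)]⟩,
  ⟨19, 199411, [], [(true, c133_37),(true, c133_13)], [(255889,9)]⟩,
  ⟨5, 19, [], [(true, c95_13),(true, c185_13),(true, c140_13)], [(1279457,9)]⟩,
  ⟨109, 473022961816146413042658758988475, [c148_109,c95_109], [], []⟩]
theorem runM3_ok : runS true 3 stepsM3 4 [(1, 1)] = true := by decide +kernel

/-- steps -/
def stepsP5 : List Step := [⟨3, 3, [], [], [(5,9)]⟩,
  ⟨37, 96068509339, [], [(false, c148_7),(false, c148_19)], [(5,297),(5,441)]⟩,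
  ⟨19, 199411, [c111_19_0,c111_19_1], [(false, c228_7)], []⟩]
theorem runP5_ok : runS false 5 stepsP5 4 [(1, 1)] = true := by decide +kernel

/-- steps -/
def stepsM5 : List Step := [⟨37, 96068509339, [], [(false, c148_7),(false, c148_19)], [(143,1),(143,5),(143,129)]⟩,
  ⟨3, 3, [], [], [(439,1),(439,149),(439,5),(439,301),(439,277),(439,425)]⟩,
  ⟨19, 199411, [c111_19_0,c111_19_1], [(false, c228_7)], []⟩]
theorem runM5_ok : runS true 5 stepsM5 4 [(3, 1)] = true := by decide +kernel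

/-- steps -/
def stepsP7 : List Step := [⟨37, 96068509339, [], [(false, c148_19)], [(7,5),(7,49)]⟩,
  ⟨3, 3, [], [], [(7,5),(7,301),(7,49),(7,197)]⟩,
  ⟨19, 199411, [c111_19_0,c111_19_1], [], [(7,5)]⟩,
  ⟨5, 19, [], [], [(7,5),(7,8441),(7,33749)]⟩,
  ⟨13, 5659, [c95_13,c185_13], [], [(7,5)]⟩,
  ⟨73, 9059857384996697084767, [c247_73_0], [], []⟩]
theorem runP7_ok : runS false 7 stepsP7 4 [(3, 1)] = true := by decide +kernel

/-- steps -/
def stepsM7 : List Step := [⟨3, 3, [], [], [(5,9)]⟩,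
  ⟨37, 96068509339, [], [(false, c148_19)], [(437,429),(437,441)]⟩,
  ⟨19, 199411, [c111_19_0,c111_19_1], [], [(8429,8433)]⟩,
  ⟨5, 19, [], [], [(42173,8433),(42173,25305),(42173,42177)]⟩,
  ⟨13, 5659, [c95_13,c185_13], [], []⟩]
theorem runM7_ok : runS true 7 stepsM7 4 [(1, 1)] = true := by decide +kernel

/-- steps -/
def stepsP13 : List Step := [⟨37, 96068509339, [], [(false, c148_7),(false, c148_19)], []⟩]
theorem runP13_ok : runS false 13 stepsP13 4 [(1, 1)] = true := by decide +kernel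

/-- steps -/
def stepsM13 : List Step := [⟨3, 3, [], [], [(11,9)]⟩,
  ⟨37, 96068509339, [], [(false, c148_7),(false, c148_19)], [(431,165),(431,297)]⟩,
  ⟨19, 199411, [c111_19_0,c111_19_1], [(false, c228_7)], []⟩]
theorem runM13_ok : runS true 13 stepsM13 4 [(3, 1)] = true := by decide +kernel

/-- steps -/
def stepsP19 : List Step := [⟨5, 19, [], [], [(19,1),(19,9)]⟩,
  ⟨7, 23, [], [(false, c140_13)], [(19,1),(19,21)]⟩,
  ⟨3, 3, [], [], [(19,1),(19,281),(19,161),(19,301)]⟩,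
  ⟨13, 5659, [c105_13], [], [(19,1)]⟩,
  ⟨37, 96068509339, [c91_37], [(true, c148_7),(true, c185_13)], []⟩]
theorem runP19_ok : runS false 19 stepsP19 4 [(3, 1)] = true := by decide +kernel

/-- steps -/
def stepsM19 : List Step := [⟨5, 19, [], [], [(1,13),(1,17)]⟩,
  ⟨7, 23, [], [(false, c140_13)], []⟩]
theorem runM19_ok : runS true 19 stepsM19 4 [(1, 1)] = true := by decide +kernel

/-- steps -/
def stepsP37 : List Step := [⟨5, 19, [], [], [(17,1),(17,5),(17,9)]⟩,
  ⟨7, 23, [], [(false, c140_13)], [(37,125)]⟩,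
  ⟨3, 3, [], [], [(37,125),(37,265)]⟩,
  ⟨13, 5659, [c105_13], [], [(37,2785)]⟩,
  ⟨19, 199411, [], [(true, c95_13),(true, c133_13),(true, c228_7)], [(37,13705)]⟩,
  ⟨109, 473022961816146413042658758988475, [c95_109], [], []⟩]
theorem runP37_ok : runS false 37 stepsP37 4 [(1, 1)] = true := by decide +kernel

/-- steps -/
def stepsM37 : List Step := [⟨3, 3, [], [], [(11,9)]⟩,
  ⟨7, 23, [], [], [(47,21),(47,57),(47,69)]⟩,
  ⟨5, 19, [], [(false, c140_13)], [(383,225),(383,393)]⟩,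
  ⟨13, 5659, [c105_13], [], [(5423,4845),(5423,4593)]⟩,
  ⟨19, 199411, [], [(true, c95_13),(true, c133_13),(true, c228_7)], []⟩]
theorem runM37_ok : runS true 37 stepsM37 4 [(3, 1)] = true := by decide +kernel

/-- steps -/
def stepsP109 : List Step := [⟨5, 19, [], [], [(9,1),(9,9)]⟩,
  ⟨7, 23, [], [(false, c140_13)], [(109,9)]⟩,
  ⟨3, 3, [], [], [(109,149),(109,289)]⟩,
  ⟨13, 5659, [c105_13], [], []⟩]
theorem runP109_ok : runS false 109 stepsP109 4 [(1, 1)] = true := by decide +kernel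

/-- steps -/
def stepsM109 : List Step := [⟨3, 3, [], [], [(11,9)]⟩,
  ⟨5, 19, [], [], [(11,33),(11,57)]⟩,
  ⟨7, 23, [], [(false, c140_13)], [(311,33)]⟩,
  ⟨13, 5659, [c105_13], [], [(5351,3393)]⟩,
  ⟨37, 96068509339, [c91_37], [(true, c148_7),(false, c148_19),(true, c185_13)], []⟩]
theorem runM109_ok : runS true 109 stepsM109 4 [(3, 1)] = true := by decide +kernel

end H419R2
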