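import Pool.Agent.H419R2.R1
import Pool.Agent.H419R2.R2

/-! Final assembly of the residue search. -/

set_option maxRecDepth 100000

namespace H419R2

/-- the primes used -/
def AA : List ℕ := [3, 5, 7, 13, 19, 37, 73, 109]

/-- relations and inertness -/
structure Sys (R K : ℤ) : Prop where
  inert : ∀ l ∈ AA, l ≠ R.natAbs → ¬ IsSquare (((R * K) ^ 2 + 4 * R : ℤ) : ZMod l)
  rel : ∀ (c : CD) (fs : List ℕ), c.OK → c.q ∣ 4 * fs.prod →
    (∀ l ∈ fs, l ∈ AA ∧ l ≠ R.natAbs) → c.p ∈ AA → c.p ≠ R.natAbs → c.Rel R K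

theorem Sys.neg {R K : ℤ} (h : Sys R K) : Sys R (-K) := by
  refine ⟨?_, ?_⟩
  · intro l hl hlR
    have := h.inert l hl hlR
    have e : (R * -K) ^ 2 + 4 * R = (R * K) ^ 2 + 4 * R := by ring
    rw [e]; exact this
  · intro c fs hc hq hfs hp hpR
    exact CD.rel_neg (h.rel c fs hc hq hfs hp hpR)

theorem AA_prime : ∀ l ∈ AA, l.Prime ∧ l ≠ 2 ∧ l ≤ 109 := by
  intro l hl
  simp only [AA, List.mem_cons, List.mem_nil_iff, or_false] at hl
  rcases hl with rfl | rfl | rfl | rfl | rfl | rfl | rfl | rfl <;> norm_num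

theorem sys_of_good {R K : ℤ} {D : ℕ} (G : Good R K D) (hD2 : D % 2 = 1)
    (h : 218 ≤ R * K) : Sys R K := by
  have hin : ∀ l ∈ AA, l ≠ R.natAbs → ¬ IsSquare (((R * K) ^ 2 + 4 * R : ℤ) : ZMod l) := by
    intro l hl hlR
    obtain ⟨h1, h2, h3⟩ := AA_prime l hl
    have h4 : (l : ℤ) ≤ 109 := by exact_mod_cast h3
    have := G.inert l h1 h2 (by linarith) hlR
    rw [G.hD] at this
    exact this
  have hnd : ∀ l ∈ AA, l ≠ R.natAbs → ¬ (l : ℤ) ∣ D := by
    intro l hl hlR hd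
    apply hin l hl hlR
    rw [← G.hD]
    have : ((D : ℤ) : ZMod l) = 0 := (ZMod.intCast_zmod_eq_zero_iff_dvd _ l).mpr hd
    rw [this]
    exact ⟨0, by ring⟩
  refine ⟨hin, ?_⟩
  intro c fs hc hq hfs hp hpR
  refine CD.rel_of_good hc G (hnd _ hp hpR) ?_
  apply Nat.Coprime.coprime_dvd_left hq
  have hD2' : Nat.Coprime 2 D := Nat.coprime_two_left.mpr (Nat.odd_iff.mpr hD2)
  have h4 : Nat.Coprime 4 D := by
    have : Nat.Coprime (2 ^ 2) D := Nat.Coprime.pow_left 2 hD2'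
    exact this
  apply Nat.Coprime.mul_left h4
  have : ∀ fs : List ℕ, (∀ l ∈ fs, l ∈ AA ∧ l ≠ R.natAbs) → Nat.Coprime fs.prod D := by
    intro fs
    induction fs with
    | nil => intro _; simp
    | cons l fs ih =>
      intro h1
      rw [List.prod_cons]
      apply Nat.Coprime.mul_left
      · have h2 := h1 l (by simp)
        rw [(AA_prime l h2.1).1.coprime_iff_not_dvd]
        intro h3
        exact hnd l h2.1 h2.2 (by exact_mod_cast h3)
      · exact ih (fun l' hl' => h1 l' (by simp [hl']))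
  exact this fs hfs

section

variable {R K : ℤ}

theorem Hc148_7 (hs : Sys R K) (n7 : 7 ≠ R.natAbs) (n37 : 37 ≠ R.natAbs) :
    c148_7.OK ∧ c148_7.Rel R K :=
  ⟨c148_7_ok, hs.rel c148_7 [37] c148_7_ok (by change 148 ∣ _; decide)
    (List.forall_mem_cons.mpr ⟨⟨by decide, n37⟩, List.forall_mem_nil _⟩)
    (by change 7 ∈ AA; decide) n7⟩

theorem Hc148_19 (hs : Sys R K) (n19 : 19 ≠ R.natAbs) (n37 : 37 ≠ R.natAbs) :
    c148_19.OK ∧ c148_19.Rel R K :=
  ⟨c148_19_ok, hs.rel c148_19 [37] c148_19_ok (by change 148 ∣ _; decide)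
    (List.forall_mem_cons.mpr ⟨⟨by decide, n37⟩, List.forall_mem_nil _⟩)
    (by change 19 ∈ AA; decide) n19⟩

theorem Hc148_109 (hs : Sys R K) (n37 : 37 ≠ R.natAbs) (n109 : 109 ≠ R.natAbs) :
    c148_109.OK ∧ c148_109.Rel R K :=
  ⟨c148_109_ok, hs.rel c148_109 [37] c148_109_ok (by change 148 ∣ _; decide)
    (List.forall_mem_cons.mpr ⟨⟨by decide, n37⟩, List.forall_mem_nil _⟩)
    (by change 109 ∈ AA; decide) n109⟩

theorem Hc111_19_0 (hs : Sys R K) (n3 : 3 ≠ R.natAbs) (n19 : 19 ≠ R.natAbs) (n37 : 37 ≠ R.natAbs) :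
    c111_19_0.OK ∧ c111_19_0.Rel R K :=
  ⟨c111_19_0_ok, hs.rel c111_19_0 [3, 37] c111_19_0_ok (by change 111 ∣ _; decide)
    (List.forall_mem_cons.mpr ⟨⟨by decide, n3⟩, List.forall_mem_cons.mpr ⟨⟨by decide, n37⟩, List.forall_mem_nil _⟩⟩)
    (by change 19 ∈ AA; decide) n19⟩

theorem Hc111_19_1 (hs : Sys R K) (n3 : 3 ≠ R.natAbs) (n19 : 19 ≠ R.natAbs) (n37 : 37 ≠ R.natAbs) :
    c111_19_1.OK ∧ c111_19_1.Rel R K :=
  ⟨c111_19_1_ok, hs.rel c111_19_1 [3, 37] c111_19_1_ok (by change 111 ∣ _; decide)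
    (List.forall_mem_cons.mpr ⟨⟨by decide, n3⟩, List.forall_mem_cons.mpr ⟨⟨by decide, n37⟩, List.forall_mem_nil _⟩⟩)
    (by change 19 ∈ AA; decide) n19⟩

theorem Hc228_7 (hs : Sys R K) (n3 : 3 ≠ R.natAbs) (n7 : 7 ≠ R.natAbs) (n19 : 19 ≠ R.natAbs) :
    c228_7.OK ∧ c228_7.Rel R K :=
  ⟨c228_7_ok, hs.rel c228_7 [3, 19] c228_7_ok (by change 228 ∣ _; decide)
    (List.forall_mem_cons.mpr ⟨⟨by decide, n3⟩, List.forall_mem_cons.mpr ⟨⟨by decide, n19⟩, List.forall_mem_nil _⟩⟩)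
    (by change 7 ∈ AA; decide) n7⟩

theorem Hc133_37 (hs : Sys R K) (n7 : 7 ≠ R.natAbs) (n19 : 19 ≠ R.natAbs) (n37 : 37 ≠ R.natAbs) :
    c133_37.OK ∧ c133_37.Rel R K :=
  ⟨c133_37_ok, hs.rel c133_37 [7, 19] c133_37_ok (by change 133 ∣ _; decide)
    (List.forall_mem_cons.mpr ⟨⟨by decide, n7⟩, List.forall_mem_cons.mpr ⟨⟨by decide, n19⟩, List.forall_mem_nil _⟩⟩)
    (by change 37 ∈ AA; decide) n37⟩

theorem Hc133_13 (hs : Sys R K) (n7 : 7 ≠ R.natAbs) (n13 : 13 ≠ R.natAbs) (n19 : 19 ≠ R.natAbs) :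
    c133_13.OK ∧ c133_13.Rel R K :=
  ⟨c133_13_ok, hs.rel c133_13 [7, 19] c133_13_ok (by change 133 ∣ _; decide)
    (List.forall_mem_cons.mpr ⟨⟨by decide, n7⟩, List.forall_mem_cons.mpr ⟨⟨by decide, n19⟩, List.forall_mem_nil _⟩⟩)
    (by change 13 ∈ AA; decide) n13⟩

theorem Hc140_13 (hs : Sys R K) (n5 : 5 ≠ R.natAbs) (n7 : 7 ≠ R.natAbs) (n13 : 13 ≠ R.natAbs) :
    c140_13.OK ∧ c140_13.Rel R K :=
  ⟨c140_13_ok, hs.rel c140_13 [5, 7] c140_13_ok (by change 140 ∣ _; decide)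
    (List.forall_mem_cons.mpr ⟨⟨by decide, n5⟩, List.forall_mem_cons.mpr ⟨⟨by decide, n7⟩, List.forall_mem_nil _⟩⟩)
    (by change 13 ∈ AA; decide) n13⟩

theorem Hc95_13 (hs : Sys R K) (n5 : 5 ≠ R.natAbs) (n13 : 13 ≠ R.natAbs) (n19 : 19 ≠ R.natAbs) :
    c95_13.OK ∧ c95_13.Rel R K :=
  ⟨c95_13_ok, hs.rel c95_13 [5, 19] c95_13_ok (by change 95 ∣ _; decide)
    (List.forall_mem_cons.mpr ⟨⟨by decide, n5⟩, List.forall_mem_cons.mpr ⟨⟨by decide, n19⟩, List.forall_mem_nil _⟩⟩)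
    (by change 13 ∈ AA; decide) n13⟩

theorem Hc95_109 (hs : Sys R K) (n5 : 5 ≠ R.natAbs) (n19 : 19 ≠ R.natAbs) (n109 : 109 ≠ R.natAbs) :
    c95_109.OK ∧ c95_109.Rel R K :=
  ⟨c95_109_ok, hs.rel c95_109 [5, 19] c95_109_ok (by change 95 ∣ _; decide)
    (List.forall_mem_cons.mpr ⟨⟨by decide, n5⟩, List.forall_mem_cons.mpr ⟨⟨by decide, n19⟩, List.forall_mem_nil _⟩⟩)
    (by change 109 ∈ AA; decide) n109⟩

theorem Hc185_13 (hs : Sys R K) (n5 : 5 ≠ R.natAbs) (n13 : 13 ≠ R.natAbs) (n37 : 37 ≠ R.natAbs) :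
    c185_13.OK ∧ c185_13.Rel R K :=
  ⟨c185_13_ok, hs.rel c185_13 [5, 37] c185_13_ok (by change 185 ∣ _; decide)
    (List.forall_mem_cons.mpr ⟨⟨by decide, n5⟩, List.forall_mem_cons.mpr ⟨⟨by decide, n37⟩, List.forall_mem_nil _⟩⟩)
    (by change 13 ∈ AA; decide) n13⟩

theorem Hc105_13 (hs : Sys R K) (n3 : 3 ≠ R.natAbs) (n5 : 5 ≠ R.natAbs) (n7 : 7 ≠ R.natAbs) (n13 : 13 ≠ R.natAbs) :
    c105_13.OK ∧ c105_13.Rel R K :=
  ⟨c105_13_ok, hs.rel c105_13 [3, 5, 7] c105_13_ok (by change 105 ∣ _; decide)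
    (List.forall_mem_cons.mpr ⟨⟨by decide, n3⟩, List.forall_mem_cons.mpr ⟨⟨by decide, n5⟩, List.forall_mem_cons.mpr ⟨⟨by decide, n7⟩, List.forall_mem_nil _⟩⟩⟩)
    (by change 13 ∈ AA; decide) n13⟩

theorem Hc91_37 (hs : Sys R K) (n7 : 7 ≠ R.natAbs) (n13 : 13 ≠ R.natAbs) (n37 : 37 ≠ R.natAbs) :
    c91_37.OK ∧ c91_37.Rel R K :=
  ⟨c91_37_ok, hs.rel c91_37 [7, 13] c91_37_ok (by change 91 ∣ _; decide)
    (List.forall_mem_cons.mpr ⟨⟨by decide, n7⟩, List.forall_mem_cons.mpr ⟨⟨by decide, n13⟩, List.forall_mem_nil _⟩⟩)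
    (by change 37 ∈ AA; decide) n37⟩

theorem Hc247_73_0 (hs : Sys R K) (n13 : 13 ≠ R.natAbs) (n19 : 19 ≠ R.natAbs) (n73 : 73 ≠ R.natAbs) :
    c247_73_0.OK ∧ c247_73_0.Rel R K :=
  ⟨c247_73_0_ok, hs.rel c247_73_0 [13, 19] c247_73_0_ok (by change 247 ∣ _; decide)
    (List.forall_mem_cons.mpr ⟨⟨by decide, n13⟩, List.forall_mem_cons.mpr ⟨⟨by decide, n19⟩, List.forall_mem_nil _⟩⟩)
    (by change 73 ∈ AA; decide) n73⟩

end

theorem noP3 {K : ℤ} (hs : Sys 3 K) (hK : K % 4 = 1) : False := by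
  have n7 : 7 ≠ (3 : ℤ).natAbs := by decide
  have n13 : 13 ≠ (3 : ℤ).natAbs := by decide
  have n19 : 19 ≠ (3 : ℤ).natAbs := by decide
  have n37 : 37 ≠ (3 : ℤ).natAbs := by decide
  have H : ∀ st ∈ stepsP3, StepHyp 3 K st :=
    List.forall_mem_cons.mpr ⟨⟨List.forall_mem_nil _,
      List.forall_mem_nil _,
      hs.inert 7 (by decide) n7⟩,
    List.forall_mem_cons.mpr ⟨⟨List.forall_mem_nil _,
      List.forall_mem_nil _,
      hs.inert 13 (by decide) n13⟩,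
    List.forall_mem_cons.mpr ⟨⟨List.forall_mem_cons.mpr ⟨Hc91_37 hs n7 n13 n37, List.forall_mem_nil _⟩,
      List.forall_mem_cons.mpr ⟨Hc148_7 hs n7 n37, List.forall_mem_cons.mpr ⟨Hc148_19 hs n19 n37, List.forall_mem_nil _⟩⟩,
      hs.inert 37 (by decide) n37⟩,
    List.forall_mem_nil _⟩⟩⟩
  refine runS_sound false 3 stepsP3 (M := 4) (by decide) runP3_ok (R := 3) (K := K) rfl H ?_
  have e1 : res 3 4 = 3 := by decide
  have e2 : res K 4 = 1 := by
    unfold res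
    change (K % 4).toNat = 1
    rw [hK]; rfl
  rw [e1, e2]
  exact List.mem_singleton.mpr rfl

theorem noM3 {K : ℤ} (hs : Sys (-3) K) (hK : K % 4 = 1) : False := by
  have n5 : 5 ≠ (-3 : ℤ).natAbs := by decide
  have n7 : 7 ≠ (-3 : ℤ).natAbs := by decide
  have n13 : 13 ≠ (-3 : ℤ).natAbs := by decide
  have n19 : 19 ≠ (-3 : ℤ).natAbs := by decide
  have n37 : 37 ≠ (-3 : ℤ).natAbs := by decide
  have n109 : 109 ≠ (-3 : ℤ).natAbs := by decide
  have H : ∀ st ∈ stepsM3, StepHyp (-3) K st :=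
    List.forall_mem_cons.mpr ⟨⟨List.forall_mem_nil _,
      List.forall_mem_nil _,
      hs.inert 13 (by decide) n13⟩,
    List.forall_mem_cons.mpr ⟨⟨List.forall_mem_nil _,
      List.forall_mem_nil _,
      hs.inert 7 (by decide) n7⟩,
    List.forall_mem_cons.mpr ⟨⟨List.forall_mem_cons.mpr ⟨Hc91_37 hs n7 n13 n37, List.forall_mem_nil _⟩,
      List.forall_mem_cons.mpr ⟨Hc148_7 hs n7 n37, List.forall_mem_cons.mpr ⟨Hc148_19 hs n19 n37, List.forall_mem_nil _⟩⟩,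
      hs.inert 37 (by decide) n37⟩,
    List.forall_mem_cons.mpr ⟨⟨List.forall_mem_nil _,
      List.forall_mem_cons.mpr ⟨Hc133_37 hs n7 n19 n37, List.forall_mem_cons.mpr ⟨Hc133_13 hs n7 n13 n19, List.forall_mem_nil _⟩⟩,
      hs.inert 19 (by decide) n19⟩,
    List.forall_mem_cons.mpr ⟨⟨List.forall_mem_nil _,
      List.forall_mem_cons.mpr ⟨Hc95_13 hs n5 n13 n19, List.forall_mem_cons.mpr ⟨Hc185_13 hs n5 n13 n37, List.forall_mem_cons.mpr ⟨Hc140_13 hs n5 n7 n13, List.forall_mem_nil _⟩⟩⟩,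
      hs.inert 5 (by decide) n5⟩,
    List.forall_mem_cons.mpr ⟨⟨List.forall_mem_cons.mpr ⟨Hc148_109 hs n37 n109, List.forall_mem_cons.mpr ⟨Hc95_109 hs n5 n19 n109, List.forall_mem_nil _⟩⟩,
      List.forall_mem_nil _,
      hs.inert 109 (by decide) n109⟩,
    List.forall_mem_nil _⟩⟩⟩⟩⟩⟩
  refine runS_sound true 3 stepsM3 (M := 4) (by decide) runM3_ok (R := (-3)) (K := K) rfl H ?_
  have e1 : res (-3) 4 = 1 := by decide
  have e2 : res K 4 = 1 := by
    unfold res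
    change (K % 4).toNat = 1
    rw [hK]; rfl
  rw [e1, e2]
  exact List.mem_singleton.mpr rfl

theorem noP5 {K : ℤ} (hs : Sys 5 K) (hK : K % 4 = 1) : False := by
  have n3 : 3 ≠ (5 : ℤ).natAbs := by decide
  have n7 : 7 ≠ (5 : ℤ).natAbs := by decide
  have n19 : 19 ≠ (5 : ℤ).natAbs := by decide
  have n37 : 37 ≠ (5 : ℤ).natAbs := by decide
  have H : ∀ st ∈ stepsP5, StepHyp 5 K st :=
    List.forall_mem_cons.mpr ⟨⟨List.forall_mem_nil _,
      List.forall_mem_nil _,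
      hs.inert 3 (by decide) n3⟩,
    List.forall_mem_cons.mpr ⟨⟨List.forall_mem_nil _,
      List.forall_mem_cons.mpr ⟨Hc148_7 hs n7 n37, List.forall_mem_cons.mpr ⟨Hc148_19 hs n19 n37, List.forall_mem_nil _⟩⟩,
      hs.inert 37 (by decide) n37⟩,
    List.forall_mem_cons.mpr ⟨⟨List.forall_mem_cons.mpr ⟨Hc111_19_0 hs n3 n19 n37, List.forall_mem_cons.mpr ⟨Hc111_19_1 hs n3 n19 n37, List.forall_mem_nil _⟩⟩,
      List.forall_mem_cons.mpr ⟨Hc228_7 hs n3 n7 n19, List.forall_mem_nil _⟩,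
      hs.inert 19 (by decide) n19⟩,
    List.forall_mem_nil _⟩⟩⟩
  refine runS_sound false 5 stepsP5 (M := 4) (by decide) runP5_ok (R := 5) (K := K) rfl H ?_
  have e1 : res 5 4 = 1 := by decide
  have e2 : res K 4 = 1 := by
    unfold res
    change (K % 4).toNat = 1
    rw [hK]; rfl
  rw [e1, e2]
  exact List.mem_singleton.mpr rfl

theorem noM5 {K : ℤ} (hs : Sys (-5) K) (hK : K % 4 = 1) : False := by
  have n3 : 3 ≠ (-5 : ℤ).natAbs := by decide
  have n7 : 7 ≠ (-5 : ℤ).natAbs := by decide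
  have n19 : 19 ≠ (-5 : ℤ).natAbs := by decide
  have n37 : 37 ≠ (-5 : ℤ).natAbs := by decide
  have H : ∀ st ∈ stepsM5, StepHyp (-5) K st :=
    List.forall_mem_cons.mpr ⟨⟨List.forall_mem_nil _,
      List.forall_mem_cons.mpr ⟨Hc148_7 hs n7 n37, List.forall_mem_cons.mpr ⟨Hc148_19 hs n19 n37, List.forall_mem_nil _⟩⟩,
      hs.inert 37 (by decide) n37⟩,
    List.forall_mem_cons.mpr ⟨⟨List.forall_mem_nil _,
      List.forall_mem_nil _,
      hs.inert 3 (by decide) n3⟩,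
    List.forall_mem_cons.mpr ⟨⟨List.forall_mem_cons.mpr ⟨Hc111_19_0 hs n3 n19 n37, List.forall_mem_cons.mpr ⟨Hc111_19_1 hs n3 n19 n37, List.forall_mem_nil _⟩⟩,
      List.forall_mem_cons.mpr ⟨Hc228_7 hs n3 n7 n19, List.forall_mem_nil _⟩,
      hs.inert 19 (by decide) n19⟩,
    List.forall_mem_nil _⟩⟩⟩
  refine runS_sound true 5 stepsM5 (M := 4) (by decide) runM5_ok (R := (-5)) (K := K) rfl H ?_
  have e1 : res (-5) 4 = 3 := by decide
  have e2 : res K 4 = 1 := by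
    unfold res
    change (K % 4).toNat = 1
    rw [hK]; rfl
  rw [e1, e2]
  exact List.mem_singleton.mpr rfl

theorem noP7 {K : ℤ} (hs : Sys 7 K) (hK : K % 4 = 1) : False := by
  have n3 : 3 ≠ (7 : ℤ).natAbs := by decide
  have n5 : 5 ≠ (7 : ℤ).natAbs := by decide
  have n13 : 13 ≠ (7 : ℤ).natAbs := by decide
  have n19 : 19 ≠ (7 : ℤ).natAbs := by decide
  have n37 : 37 ≠ (7 : ℤ).natAbs := by decide
  have n73 : 73 ≠ (7 : ℤ).natAbs := by decide
  have H : ∀ st ∈ stepsP7, StepHyp 7 K st :=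
    List.forall_mem_cons.mpr ⟨⟨List.forall_mem_nil _,
      List.forall_mem_cons.mpr ⟨Hc148_19 hs n19 n37, List.forall_mem_nil _⟩,
      hs.inert 37 (by decide) n37⟩,
    List.forall_mem_cons.mpr ⟨⟨List.forall_mem_nil _,
      List.forall_mem_nil _,
      hs.inert 3 (by decide) n3⟩,
    List.forall_mem_cons.mpr ⟨⟨List.forall_mem_cons.mpr ⟨Hc111_19_0 hs n3 n19 n37, List.forall_mem_cons.mpr ⟨Hc111_19_1 hs n3 n19 n37, List.forall_mem_nil _⟩⟩,
      List.forall_mem_nil _,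
      hs.inert 19 (by decide) n19⟩,
    List.forall_mem_cons.mpr ⟨⟨List.forall_mem_nil _,
      List.forall_mem_nil _,
      hs.inert 5 (by decide) n5⟩,
    List.forall_mem_cons.mpr ⟨⟨List.forall_mem_cons.mpr ⟨Hc95_13 hs n5 n13 n19, List.forall_mem_cons.mpr ⟨Hc185_13 hs n5 n13 n37, List.forall_mem_nil _⟩⟩,
      List.forall_mem_nil _,
      hs.inert 13 (by decide) n13⟩,
    List.forall_mem_cons.mpr ⟨⟨List.forall_mem_cons.mpr ⟨Hc247_73_0 hs n13 n19 n73, List.forall_mem_nil _⟩,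
      List.forall_mem_nil _,
      hs.inert 73 (by decide) n73⟩,
    List.forall_mem_nil _⟩⟩⟩⟩⟩⟩
  refine runS_sound false 7 stepsP7 (M := 4) (by decide) runP7_ok (R := 7) (K := K) rfl H ?_
  have e1 : res 7 4 = 3 := by decide
  have e2 : res K 4 = 1 := by
    unfold res
    change (K % 4).toNat = 1
    rw [hK]; rfl
  rw [e1, e2]
  exact List.mem_singleton.mpr rfl

theorem noM7 {K : ℤ} (hs : Sys (-7) K) (hK : K % 4 = 1) : False := by
  have n3 : 3 ≠ (-7 : ℤ).natAbs := by decide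
  have n5 : 5 ≠ (-7 : ℤ).natAbs := by decide
  have n13 : 13 ≠ (-7 : ℤ).natAbs := by decide
  have n19 : 19 ≠ (-7 : ℤ).natAbs := by decide
  have n37 : 37 ≠ (-7 : ℤ).natAbs := by decide
  have H : ∀ st ∈ stepsM7, StepHyp (-7) K st :=
    List.forall_mem_cons.mpr ⟨⟨List.forall_mem_nil _,
      List.forall_mem_nil _,
      hs.inert 3 (by decide) n3⟩,
    List.forall_mem_cons.mpr ⟨⟨List.forall_mem_nil _,
      List.forall_mem_cons.mpr ⟨Hc148_19 hs n19 n37, List.forall_mem_nil _⟩,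
      hs.inert 37 (by decide) n37⟩,
    List.forall_mem_cons.mpr ⟨⟨List.forall_mem_cons.mpr ⟨Hc111_19_0 hs n3 n19 n37, List.forall_mem_cons.mpr ⟨Hc111_19_1 hs n3 n19 n37, List.forall_mem_nil _⟩⟩,
      List.forall_mem_nil _,
      hs.inert 19 (by decide) n19⟩,
    List.forall_mem_cons.mpr ⟨⟨List.forall_mem_nil _,
      List.forall_mem_nil _,
      hs.inert 5 (by decide) n5⟩,
    List.forall_mem_cons.mpr ⟨⟨List.forall_mem_cons.mpr ⟨Hc95_13 hs n5 n13 n19, List.forall_mem_cons.mpr ⟨Hc185_13 hs n5 n13 n37, List.forall_mem_nil _⟩⟩,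
      List.forall_mem_nil _,
      hs.inert 13 (by decide) n13⟩,
    List.forall_mem_nil _⟩⟩⟩⟩⟩
  refine runS_sound true 7 stepsM7 (M := 4) (by decide) runM7_ok (R := (-7)) (K := K) rfl H ?_
  have e1 : res (-7) 4 = 1 := by decide
  have e2 : res K 4 = 1 := by
    unfold res
    change (K % 4).toNat = 1
    rw [hK]; rfl
  rw [e1, e2]
  exact List.mem_singleton.mpr rfl

theorem noP13 {K : ℤ} (hs : Sys 13 K) (hK : K % 4 = 1) : False := by
  have n7 : 7 ≠ (13 : ℤ).natAbs := by decide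
  have n19 : 19 ≠ (13 : ℤ).natAbs := by decide
  have n37 : 37 ≠ (13 : ℤ).natAbs := by decide
  have H : ∀ st ∈ stepsP13, StepHyp 13 K st :=
    List.forall_mem_cons.mpr ⟨⟨List.forall_mem_nil _,
      List.forall_mem_cons.mpr ⟨Hc148_7 hs n7 n37, List.forall_mem_cons.mpr ⟨Hc148_19 hs n19 n37, List.forall_mem_nil _⟩⟩,
      hs.inert 37 (by decide) n37⟩,
    List.forall_mem_nil _⟩
  refine runS_sound false 13 stepsP13 (M := 4) (by decide) runP13_ok (R := 13) (K := K) rfl H ?_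
  have e1 : res 13 4 = 1 := by decide
  have e2 : res K 4 = 1 := by
    unfold res
    change (K % 4).toNat = 1
    rw [hK]; rfl
  rw [e1, e2]
  exact List.mem_singleton.mpr rfl

theorem noM13 {K : ℤ} (hs : Sys (-13) K) (hK : K % 4 = 1) : False := by
  have n3 : 3 ≠ (-13 : ℤ).natAbs := by decide
  have n7 : 7 ≠ (-13 : ℤ).natAbs := by decide
  have n19 : 19 ≠ (-13 : ℤ).natAbs := by decide
  have n37 : 37 ≠ (-13 : ℤ).natAbs := by decide
  have H : ∀ st ∈ stepsM13, StepHyp (-13) K st :=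
    List.forall_mem_cons.mpr ⟨⟨List.forall_mem_nil _,
      List.forall_mem_nil _,
      hs.inert 3 (by decide) n3⟩,
    List.forall_mem_cons.mpr ⟨⟨List.forall_mem_nil _,
      List.forall_mem_cons.mpr ⟨Hc148_7 hs n7 n37, List.forall_mem_cons.mpr ⟨Hc148_19 hs n19 n37, List.forall_mem_nil _⟩⟩,
      hs.inert 37 (by decide) n37⟩,
    List.forall_mem_cons.mpr ⟨⟨List.forall_mem_cons.mpr ⟨Hc111_19_0 hs n3 n19 n37, List.forall_mem_cons.mpr ⟨Hc111_19_1 hs n3 n19 n37, List.forall_mem_nil _⟩⟩,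
      List.forall_mem_cons.mpr ⟨Hc228_7 hs n3 n7 n19, List.forall_mem_nil _⟩,
      hs.inert 19 (by decide) n19⟩,
    List.forall_mem_nil _⟩⟩⟩
  refine runS_sound true 13 stepsM13 (M := 4) (by decide) runM13_ok (R := (-13)) (K := K) rfl H ?_
  have e1 : res (-13) 4 = 3 := by decide
  have e2 : res K 4 = 1 := by
    unfold res
    change (K % 4).toNat = 1
    rw [hK]; rfl
  rw [e1, e2]
  exact List.mem_singleton.mpr rfl

theorem noP19 {K : ℤ} (hs : Sys 19 K) (hK : K % 4 = 1) : False := by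
  have n3 : 3 ≠ (19 : ℤ).natAbs := by decide
  have n5 : 5 ≠ (19 : ℤ).natAbs := by decide
  have n7 : 7 ≠ (19 : ℤ).natAbs := by decide
  have n13 : 13 ≠ (19 : ℤ).natAbs := by decide
  have n37 : 37 ≠ (19 : ℤ).natAbs := by decide
  have H : ∀ st ∈ stepsP19, StepHyp 19 K st :=
    List.forall_mem_cons.mpr ⟨⟨List.forall_mem_nil _,
      List.forall_mem_nil _,
      hs.inert 5 (by decide) n5⟩,
    List.forall_mem_cons.mpr ⟨⟨List.forall_mem_nil _,
      List.forall_mem_cons.mpr ⟨Hc140_13 hs n5 n7 n13, List.forall_mem_nil _⟩,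
      hs.inert 7 (by decide) n7⟩,
    List.forall_mem_cons.mpr ⟨⟨List.forall_mem_nil _,
      List.forall_mem_nil _,
      hs.inert 3 (by decide) n3⟩,
    List.forall_mem_cons.mpr ⟨⟨List.forall_mem_cons.mpr ⟨Hc105_13 hs n3 n5 n7 n13, List.forall_mem_nil _⟩,
      List.forall_mem_nil _,
      hs.inert 13 (by decide) n13⟩,
    List.forall_mem_cons.mpr ⟨⟨List.forall_mem_cons.mpr ⟨Hc91_37 hs n7 n13 n37, List.forall_mem_nil _⟩,
      List.forall_mem_cons.mpr ⟨Hc148_7 hs n7 n37, List.forall_mem_cons.mpr ⟨Hc185_13 hs n5 n13 n37, List.forall_mem_nil _⟩⟩,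
      hs.inert 37 (by decide) n37⟩,
    List.forall_mem_nil _⟩⟩⟩⟩⟩
  refine runS_sound false 19 stepsP19 (M := 4) (by decide) runP19_ok (R := 19) (K := K) rfl H ?_
  have e1 : res 19 4 = 3 := by decide
  have e2 : res K 4 = 1 := by
    unfold res
    change (K % 4).toNat = 1
    rw [hK]; rfl
  rw [e1, e2]
  exact List.mem_singleton.mpr rfl

theorem noM19 {K : ℤ} (hs : Sys (-19) K) (hK : K % 4 = 1) : False := by
  have n5 : 5 ≠ (-19 : ℤ).natAbs := by decide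
  have n7 : 7 ≠ (-19 : ℤ).natAbs := by decide
  have n13 : 13 ≠ (-19 : ℤ).natAbs := by decide
  have H : ∀ st ∈ stepsM19, StepHyp (-19) K st :=
    List.forall_mem_cons.mpr ⟨⟨List.forall_mem_nil _,
      List.forall_mem_nil _,
      hs.inert 5 (by decide) n5⟩,
    List.forall_mem_cons.mpr ⟨⟨List.forall_mem_nil _,
      List.forall_mem_cons.mpr ⟨Hc140_13 hs n5 n7 n13, List.forall_mem_nil _⟩,
      hs.inert 7 (by decide) n7⟩,
    List.forall_mem_nil _⟩⟩
  refine runS_sound true 19 stepsM19 (M := 4) (by decide) runM19_ok (R := (-19)) (K := K) rfl H ?_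
  have e1 : res (-19) 4 = 1 := by decide
  have e2 : res K 4 = 1 := by
    unfold res
    change (K % 4).toNat = 1
    rw [hK]; rfl
  rw [e1, e2]
  exact List.mem_singleton.mpr rfl

theorem noP37 {K : ℤ} (hs : Sys 37 K) (hK : K % 4 = 1) : False := by
  have n3 : 3 ≠ (37 : ℤ).natAbs := by decide
  have n5 : 5 ≠ (37 : ℤ).natAbs := by decide
  have n7 : 7 ≠ (37 : ℤ).natAbs := by decide
  have n13 : 13 ≠ (37 : ℤ).natAbs := by decide
  have n19 : 19 ≠ (37 : ℤ).natAbs := by decide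
  have n109 : 109 ≠ (37 : ℤ).natAbs := by decide
  have H : ∀ st ∈ stepsP37, StepHyp 37 K st :=
    List.forall_mem_cons.mpr ⟨⟨List.forall_mem_nil _,
      List.forall_mem_nil _,
      hs.inert 5 (by decide) n5⟩,
    List.forall_mem_cons.mpr ⟨⟨List.forall_mem_nil _,
      List.forall_mem_cons.mpr ⟨Hc140_13 hs n5 n7 n13, List.forall_mem_nil _⟩,
      hs.inert 7 (by decide) n7⟩,
    List.forall_mem_cons.mpr ⟨⟨List.forall_mem_nil _,
      List.forall_mem_nil _,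
      hs.inert 3 (by decide) n3⟩,
    List.forall_mem_cons.mpr ⟨⟨List.forall_mem_cons.mpr ⟨Hc105_13 hs n3 n5 n7 n13, List.forall_mem_nil _⟩,
      List.forall_mem_nil _,
      hs.inert 13 (by decide) n13⟩,
    List.forall_mem_cons.mpr ⟨⟨List.forall_mem_nil _,
      List.forall_mem_cons.mpr ⟨Hc95_13 hs n5 n13 n19, List.forall_mem_cons.mpr ⟨Hc133_13 hs n7 n13 n19, List.forall_mem_cons.mpr ⟨Hc228_7 hs n3 n7 n19, List.forall_mem_nil _⟩⟩⟩,
      hs.inert 19 (by decide) n19⟩,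
    List.forall_mem_cons.mpr ⟨⟨List.forall_mem_cons.mpr ⟨Hc95_109 hs n5 n19 n109, List.forall_mem_nil _⟩,
      List.forall_mem_nil _,
      hs.inert 109 (by decide) n109⟩,
    List.forall_mem_nil _⟩⟩⟩⟩⟩⟩
  refine runS_sound false 37 stepsP37 (M := 4) (by decide) runP37_ok (R := 37) (K := K) rfl H ?_
  have e1 : res 37 4 = 1 := by decide
  have e2 : res K 4 = 1 := by
    unfold res
    change (K % 4).toNat = 1
    rw [hK]; rfl
  rw [e1, e2]
  exact List.mem_singleton.mpr rfl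

theorem noM37 {K : ℤ} (hs : Sys (-37) K) (hK : K % 4 = 1) : False := by
  have n3 : 3 ≠ (-37 : ℤ).natAbs := by decide
  have n5 : 5 ≠ (-37 : ℤ).natAbs := by decide
  have n7 : 7 ≠ (-37 : ℤ).natAbs := by decide
  have n13 : 13 ≠ (-37 : ℤ).natAbs := by decide
  have n19 : 19 ≠ (-37 : ℤ).natAbs := by decide
  have H : ∀ st ∈ stepsM37, StepHyp (-37) K st :=
    List.forall_mem_cons.mpr ⟨⟨List.forall_mem_nil _,
      List.forall_mem_nil _,
      hs.inert 3 (by decide) n3⟩,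
    List.forall_mem_cons.mpr ⟨⟨List.forall_mem_nil _,
      List.forall_mem_nil _,
      hs.inert 7 (by decide) n7⟩,
    List.forall_mem_cons.mpr ⟨⟨List.forall_mem_nil _,
      List.forall_mem_cons.mpr ⟨Hc140_13 hs n5 n7 n13, List.forall_mem_nil _⟩,
      hs.inert 5 (by decide) n5⟩,
    List.forall_mem_cons.mpr ⟨⟨List.forall_mem_cons.mpr ⟨Hc105_13 hs n3 n5 n7 n13, List.forall_mem_nil _⟩,
      List.forall_mem_nil _,
      hs.inert 13 (by decide) n13⟩,
    List.forall_mem_cons.mpr ⟨⟨List.forall_mem_nil _,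
      List.forall_mem_cons.mpr ⟨Hc95_13 hs n5 n13 n19, List.forall_mem_cons.mpr ⟨Hc133_13 hs n7 n13 n19, List.forall_mem_cons.mpr ⟨Hc228_7 hs n3 n7 n19, List.forall_mem_nil _⟩⟩⟩,
      hs.inert 19 (by decide) n19⟩,
    List.forall_mem_nil _⟩⟩⟩⟩⟩
  refine runS_sound true 37 stepsM37 (M := 4) (by decide) runM37_ok (R := (-37)) (K := K) rfl H ?_
  have e1 : res (-37) 4 = 3 := by decide
  have e2 : res K 4 = 1 := by
    unfold res
    change (K % 4).toNat = 1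
    rw [hK]; rfl
  rw [e1, e2]
  exact List.mem_singleton.mpr rfl

theorem noP109 {K : ℤ} (hs : Sys 109 K) (hK : K % 4 = 1) : False := by
  have n3 : 3 ≠ (109 : ℤ).natAbs := by decide
  have n5 : 5 ≠ (109 : ℤ).natAbs := by decide
  have n7 : 7 ≠ (109 : ℤ).natAbs := by decide
  have n13 : 13 ≠ (109 : ℤ).natAbs := by decide
  have H : ∀ st ∈ stepsP109, StepHyp 109 K st :=
    List.forall_mem_cons.mpr ⟨⟨List.forall_mem_nil _,
      List.forall_mem_nil _,
      hs.inert 5 (by decide) n5⟩,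
    List.forall_mem_cons.mpr ⟨⟨List.forall_mem_nil _,
      List.forall_mem_cons.mpr ⟨Hc140_13 hs n5 n7 n13, List.forall_mem_nil _⟩,
      hs.inert 7 (by decide) n7⟩,
    List.forall_mem_cons.mpr ⟨⟨List.forall_mem_nil _,
      List.forall_mem_nil _,
      hs.inert 3 (by decide) n3⟩,
    List.forall_mem_cons.mpr ⟨⟨List.forall_mem_cons.mpr ⟨Hc105_13 hs n3 n5 n7 n13, List.forall_mem_nil _⟩,
      List.forall_mem_nil _,
      hs.inert 13 (by decide) n13⟩,
    List.forall_mem_nil _⟩⟩⟩⟩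
  refine runS_sound false 109 stepsP109 (M := 4) (by decide) runP109_ok (R := 109) (K := K) rfl H ?_
  have e1 : res 109 4 = 1 := by decide
  have e2 : res K 4 = 1 := by
    unfold res
    change (K % 4).toNat = 1
    rw [hK]; rfl
  rw [e1, e2]
  exact List.mem_singleton.mpr rfl

theorem noM109 {K : ℤ} (hs : Sys (-109) K) (hK : K % 4 = 1) : False := by
  have n3 : 3 ≠ (-109 : ℤ).natAbs := by decide
  have n5 : 5 ≠ (-109 : ℤ).natAbs := by decide
  have n7 : 7 ≠ (-109 : ℤ).natAbs := by decide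
  have n13 : 13 ≠ (-109 : ℤ).natAbs := by decide
  have n19 : 19 ≠ (-109 : ℤ).natAbs := by decide
  have n37 : 37 ≠ (-109 : ℤ).natAbs := by decide
  have H : ∀ st ∈ stepsM109, StepHyp (-109) K st :=
    List.forall_mem_cons.mpr ⟨⟨List.forall_mem_nil _,
      List.forall_mem_nil _,
      hs.inert 3 (by decide) n3⟩,
    List.forall_mem_cons.mpr ⟨⟨List.forall_mem_nil _,
      List.forall_mem_nil _,
      hs.inert 5 (by decide) n5⟩,
    List.forall_mem_cons.mpr ⟨⟨List.forall_mem_nil _,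
      List.forall_mem_cons.mpr ⟨Hc140_13 hs n5 n7 n13, List.forall_mem_nil _⟩,
      hs.inert 7 (by decide) n7⟩,
    List.forall_mem_cons.mpr ⟨⟨List.forall_mem_cons.mpr ⟨Hc105_13 hs n3 n5 n7 n13, List.forall_mem_nil _⟩,
      List.forall_mem_nil _,
      hs.inert 13 (by decide) n13⟩,
    List.forall_mem_cons.mpr ⟨⟨List.forall_mem_cons.mpr ⟨Hc91_37 hs n7 n13 n37, List.forall_mem_nil _⟩,
      List.forall_mem_cons.mpr ⟨Hc148_7 hs n7 n37, List.forall_mem_cons.mpr ⟨Hc148_19 hs n19 n37, List.forall_mem_cons.mpr ⟨Hc185_13 hs n5 n13 n37, List.forall_mem_nil _⟩⟩⟩,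
      hs.inert 37 (by decide) n37⟩,
    List.forall_mem_nil _⟩⟩⟩⟩⟩
  refine runS_sound true 109 stepsM109 (M := 4) (by decide) runM109_ok (R := (-109)) (K := K) rfl H ?_
  have e1 : res (-109) 4 = 3 := by decide
  have e2 : res K 4 = 1 := by
    unfold res
    change (K % 4).toNat = 1
    rw [hK]; rfl
  rw [e1, e2]
  exact List.mem_singleton.mpr rfl

theorem noG {R K : ℤ} (hs : Sys R K) (hR : R % 2 = 1) (hK : K % 4 = 1)
    (n3 : 3 ≠ R.natAbs)
    (n5 : 5 ≠ R.natAbs)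
    (n7 : 7 ≠ R.natAbs)
    (n13 : 13 ≠ R.natAbs)
    (n19 : 19 ≠ R.natAbs)
    (n37 : 37 ≠ R.natAbs)
    (n109 : 109 ≠ R.natAbs) : False := by
  have H : ∀ st ∈ stepsG, StepHyp R K st :=
    List.forall_mem_cons.mpr ⟨⟨List.forall_mem_nil _,
      List.forall_mem_cons.mpr ⟨Hc148_7 hs n7 n37, List.forall_mem_cons.mpr ⟨Hc148_19 hs n19 n37, List.forall_mem_nil _⟩⟩,
      hs.inert 37 (by decide) n37⟩,
    List.forall_mem_cons.mpr ⟨⟨List.forall_mem_nil _,
      List.forall_mem_nil _,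
      hs.inert 3 (by decide) n3⟩,
    List.forall_mem_cons.mpr ⟨⟨List.forall_mem_cons.mpr ⟨Hc111_19_0 hs n3 n19 n37, List.forall_mem_cons.mpr ⟨Hc111_19_1 hs n3 n19 n37, List.forall_mem_nil _⟩⟩,
      List.forall_mem_cons.mpr ⟨Hc228_7 hs n3 n7 n19, List.forall_mem_nil _⟩,
      hs.inert 19 (by decide) n19⟩,
    List.forall_mem_cons.mpr ⟨⟨List.forall_mem_nil _,
      List.forall_mem_cons.mpr ⟨Hc133_37 hs n7 n19 n37, List.forall_mem_nil _⟩,
      hs.inert 7 (by decide) n7⟩,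
    List.forall_mem_cons.mpr ⟨⟨List.forall_mem_nil _,
      List.forall_mem_cons.mpr ⟨Hc140_13 hs n5 n7 n13, List.forall_mem_nil _⟩,
      hs.inert 5 (by decide) n5⟩,
    List.forall_mem_cons.mpr ⟨⟨List.forall_mem_cons.mpr ⟨Hc95_13 hs n5 n13 n19, List.forall_mem_cons.mpr ⟨Hc133_13 hs n7 n13 n19, List.forall_mem_cons.mpr ⟨Hc105_13 hs n3 n5 n7 n13, List.forall_mem_cons.mpr ⟨Hc185_13 hs n5 n13 n37, List.forall_mem_nil _⟩⟩⟩⟩,
      List.forall_mem_cons.mpr ⟨Hc91_37 hs n7 n13 n37, List.forall_mem_nil _⟩,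
      hs.inert 13 (by decide) n13⟩,
    List.forall_mem_cons.mpr ⟨⟨List.forall_mem_cons.mpr ⟨Hc95_109 hs n5 n19 n109, List.forall_mem_cons.mpr ⟨Hc148_109 hs n37 n109, List.forall_mem_nil _⟩⟩,
      List.forall_mem_nil _,
      hs.inert 109 (by decide) n109⟩,
    List.forall_mem_nil _⟩⟩⟩⟩⟩⟩⟩
  refine runG_sound stepsG (M := 4) (by decide) runG_ok (R := R) (K := K) H ?_
  have e2 : res K 4 = 1 := by
    unfold res
    change (K % 4).toNat = 1
    rw [hK]; rfl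
  rw [e2]
  have h3 : R % 4 = 1 ∨ R % 4 = 3 := by omega
  rcases h3 with h3 | h3
  · have e1 : res R 4 = 1 := by
      unfold res
      change (R % 4).toNat = 1
      rw [h3]; rfl
    rw [e1]; simp
  · have e1 : res R 4 = 3 := by
      unfold res
      change (R % 4).toNat = 3
      rw [h3]; rfl
    rw [e1]; simp

theorem no_sys {R K : ℤ} (hs : Sys R K) (hR : R % 2 = 1) (hK : K % 4 = 1) : False := by
  by_cases n3 : 3 = R.natAbs
  · have : R = 3 ∨ R = -3 := by omega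
    rcases this with rfl | rfl
    · exact noP3 hs hK
    · exact noM3 hs hK
  by_cases n5 : 5 = R.natAbs
  · have : R = 5 ∨ R = -5 := by omega
    rcases this with rfl | rfl
    · exact noP5 hs hK
    · exact noM5 hs hK
  by_cases n7 : 7 = R.natAbs
  · have : R = 7 ∨ R = -7 := by omega
    rcases this with rfl | rfl
    · exact noP7 hs hK
    · exact noM7 hs hK
  by_cases n13 : 13 = R.natAbs
  · have : R = 13 ∨ R = -13 := by omega
    rcases this with rfl | rfl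
    · exact noP13 hs hK
    · exact noM13 hs hK
  by_cases n19 : 19 = R.natAbs
  · have : R = 19 ∨ R = -19 := by omega
    rcases this with rfl | rfl
    · exact noP19 hs hK
    · exact noM19 hs hK
  by_cases n37 : 37 = R.natAbs
  · have : R = 37 ∨ R = -37 := by omega
    rcases this with rfl | rfl
    · exact noP37 hs hK
    · exact noM37 hs hK
  by_cases n109 : 109 = R.natAbs
  · have : R = 109 ∨ R = -109 := by omega
    rcases this with rfl | rfl
    · exact noP109 hs hK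
    · exact noM109 hs hK
  exact noG hs hR hK n3 n5 n7 n13 n19 n37 n109

theorem no_good {R K : ℤ} {D : ℕ} (G : Good R K D) (hR : R % 2 = 1) (hK : K % 2 = 1)
    (h : 218 ≤ R * K) : False := by
  have hD2 : D % 2 = 1 := by
    have h1 := G.hD
    have h2 : (D : ℤ) % 2 = 1 := by
      rw [h1]
      have h3 : (R * K) % 2 = 1 := by rw [Int.mul_emod, hR, hK]; rfl
      have h4 : ((R * K) ^ 2) % 2 = 1 := by rw [pow_two, Int.mul_emod, h3]; rfl
      omega
    omega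
  have hs := sys_of_good G hD2 h
  have h4 : K % 4 = 1 ∨ (-K) % 4 = 1 := by omega
  rcases h4 with h4 | h4
  · exact no_sys hs hR h4
  · exact no_sys hs.neg hR h4

end H419R2
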