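import Pool.Agent.H419R2.S1

/-! Small values of `m`, and the conclusion. -/

set_option maxRecDepth 100000

namespace H419R2

/-- small primes -/
def LS : List ℕ := [3, 5, 7, 11, 13, 17, 19, 23]

/-- a small non-inert prime exists -/
def wit (N m r : ℕ) : Bool :=
  anyL LS (fun l => and (Nat.ble (Nat.mul 2 l) m) (and (not (Nat.beq l r))
    (not (allR l (fun y => not (Nat.beq (Nat.mod (Nat.mul y y) l) (Nat.mod N l)))))))

/-- check for the plus sign -/
def smallP : Bool :=
  allR 218 (fun r => allR 218 (fun k => or (Nat.ble 218 (Nat.mul r k))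
    (or (Nat.ble r 1) (or (Nat.beq (Nat.mod (Nat.mul r k) 2) 0)
    (or (Nat.ble (Nat.mul r k) 31) (or (and (Nat.ble (Nat.mul r k) 35) (not (Nat.beq k 1)))
      (wit (Nat.add (Nat.mul (Nat.mul r k) (Nat.mul r k)) (Nat.mul 4 r)) (Nat.mul r k) r)))))))

/-- check for the minus sign -/
def smallM : Bool :=
  allR 218 (fun r => allR 218 (fun k => or (Nat.ble 218 (Nat.mul r k))
    (or (Nat.ble r 1) (or (Nat.ble k 1) (or (Nat.beq (Nat.mod (Nat.mul r k) 2) 0)
    (or (Nat.ble (Nat.mul r k) 35)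
      (wit (Nat.sub (Nat.mul (Nat.mul r k) (Nat.mul r k)) (Nat.mul 4 r)) (Nat.mul r k) r)))))))

theorem smallP_ok : smallP = true := by decide +kernel

theorem smallM_ok : smallM = true := by decide +kernel

theorem LS_prime : ∀ l ∈ LS, l.Prime ∧ l ≠ 2 := by
  intro l hl
  simp only [LS, List.mem_cons, List.mem_nil_iff, or_false] at hl
  rcases hl with rfl | rfl | rfl | rfl | rfl | rfl | rfl | rfl <;> norm_num

theorem wit_spec {N m r : ℕ} (h : wit N m r = true) :
    ∃ l : ℕ, l.Prime ∧ l ≠ 2 ∧ 2 * l ≤ m ∧ l ≠ r ∧ IsSquare ((N : ℕ) : ZMod l) := by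
  unfold wit at h
  rw [anyL_iff] at h
  obtain ⟨l, hl, h1⟩ := h
  rw [Bool.and_eq_true, Bool.and_eq_true] at h1
  obtain ⟨h2, h3, h4⟩ := h1
  obtain ⟨hp, hp2⟩ := LS_prime l hl
  refine ⟨l, hp, hp2, Nat.le_of_ble_eq_true h2, ?_, ?_⟩
  · rintro rfl
    rw [Nat.beq_refl] at h3
    exact absurd h3 (by simp)
  · have h5 : ¬ (allR l (fun y => not (Nat.beq (Nat.mod (Nat.mul y y) l) (Nat.mod N l))) = true) := by
      intro h5
      rw [h5] at h4
      exact absurd h4 (by simp)
    rw [allR_iff] at h5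
    push Not at h5
    obtain ⟨y, _, hy⟩ := h5
    have h6 : Nat.beq (Nat.mod (Nat.mul y y) l) (Nat.mod N l) = true := by simpa using hy
    have h7 : y * y % l = N % l := Nat.eq_of_beq_eq_true h6
    refine ⟨(y : ZMod l), ?_⟩
    rw [← Nat.cast_mul, ZMod.natCast_eq_natCast_iff']
    exact h7.symm

theorem ble_false {a b : ℕ} (h : b < a) : ¬ Nat.ble a b = true := by
  intro h'
  have := Nat.le_of_ble_eq_true h'
  omega

theorem small_caseP {r k : ℕ} {D : ℕ} (G : Good (r : ℤ) (k : ℤ) D) (hr : 1 < r)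
    (hodd : r * k % 2 = 1) (h1 : 35 < r * k ∨ (31 < r * k ∧ k = 1)) (h2 : r * k < 218) : False := by
  have hk0 : 0 < k := by
    rcases Nat.eq_zero_or_pos k with h | h
    · subst h; simp at hodd
    · exact h
  have hr2 : r < 218 := by nlinarith
  have hk2 : k < 218 := by nlinarith
  have h := smallP_ok
  unfold smallP at h
  rw [allR_iff] at h
  have h3 := h r hr2
  rw [allR_iff] at h3
  have h4 := h3 k hk2
  simp only [Bool.or_eq_true] at h4
  have e : Nat.mul r k = r * k := rfl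
  rw [e] at h4
  rcases h4 with h4 | h4 | h4 | h4 | h4 | h4
  · exact ble_false h2 h4
  · exact ble_false hr h4
  · have : r * k % 2 = 0 := Nat.eq_of_beq_eq_true h4
    omega
  · exact ble_false (by omega) h4
  · rw [Bool.and_eq_true] at h4
    have h5 := Nat.le_of_ble_eq_true h4.1
    rcases h1 with h1 | h1
    · omega
    · have h6 := h4.2
      rw [h1.2] at h6
      exact absurd h6 (by decide)
  · obtain ⟨l, hl, hl2, hlm, hlr, hsq⟩ := wit_spec h4
    apply G.inert l hl hl2 (by exact_mod_cast hlm) (by simpa using hlr)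
    have e2 : (D : ℤ) = ((Nat.add (Nat.mul (r * k) (r * k)) (Nat.mul 4 r) : ℕ) : ℤ) := by
      rw [G.hD]
      change _ = (((r * k) * (r * k) + 4 * r : ℕ) : ℤ)
      push_cast; ring
    rw [e2, Int.cast_natCast]
    exact hsq

theorem small_caseM {r k : ℕ} {D : ℕ} (G : Good (-(r : ℤ)) (-(k : ℤ)) D) (hr : 1 < r) (hk : 1 < k)
    (hodd : r * k % 2 = 1) (h1 : 35 < r * k) (h2 : r * k < 218) : False := by
  have hr2 : r < 218 := by nlinarith
  have hk2 : k < 218 := by nlinarith
  have h := smallM_ok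
  unfold smallM at h
  rw [allR_iff] at h
  have h3 := h r hr2
  rw [allR_iff] at h3
  have h4 := h3 k hk2
  simp only [Bool.or_eq_true] at h4
  have e : Nat.mul r k = r * k := rfl
  rw [e] at h4
  rcases h4 with h4 | h4 | h4 | h4 | h4 | h4
  · exact ble_false h2 h4
  · exact ble_false hr h4
  · exact ble_false hk h4
  · have : r * k % 2 = 0 := Nat.eq_of_beq_eq_true h4
    omega
  · exact ble_false h1 h4
  · obtain ⟨l, hl, hl2, hlm, hlr, hsq⟩ := wit_spec h4
    have hlm' : 2 * (l : ℤ) ≤ -(r : ℤ) * -(k : ℤ) := by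
      have : (2 * l : ℤ) ≤ (r * k : ℕ) := by exact_mod_cast hlm
      push_cast at this
      linarith
    apply G.inert l hl hl2 hlm' (by simpa using hlr)
    have e2 : (D : ℤ) = ((Nat.sub (Nat.mul (r * k) (r * k)) (Nat.mul 4 r) : ℕ) : ℤ) := by
      rw [G.hD]
      have h5 : 4 * r ≤ (r * k) * (r * k) := by nlinarith
      change _ = (((r * k) * (r * k) - 4 * r : ℕ) : ℤ)
      rw [Nat.cast_sub h5]
      push_cast; ring
    rw [e2, Int.cast_natCast]
    exact hsq

theorem plus_case {r k : ℕ} (hr : 1 < r) (hodd : r * k % 2 = 1)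
    (h1 : 35 < r * k ∨ (31 < r * k ∧ k = 1)) {Δ : ℤ}
    (hΔ : Δ = ((r : ℤ) * k) ^ 2 + 4 * r) (hsf : Squarefree Δ)
    {K : Type*} [Field K] [NumberField K] (hK : Module.finrank ℚ K = 2) {x : K}
    (hx : x ^ 2 = (Δ : K)) : NumberField.classNumber K ≠ 1 := by
  intro hcl
  have hk0 : 1 ≤ k := by
    rcases Nat.eq_zero_or_pos k with h | h
    · subst h; simp at hodd
    · exact h
  have hro : r % 2 = 1 := by
    rcases Nat.even_or_odd r with h | h
    · obtain ⟨a, ha⟩ := h
      have : r * k % 2 = 0 := by rw [ha, ← two_mul, mul_assoc]; exact Nat.mul_mod_right _ _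
      omega
    · exact Nat.odd_iff.mp h
  have hko : k % 2 = 1 := by
    rcases Nat.even_or_odd k with h | h
    · obtain ⟨a, ha⟩ := h
      have : r * k % 2 = 0 := by rw [ha, ← two_mul, mul_left_comm]; exact Nat.mul_mod_right _ _
      omega
    · exact Nat.odd_iff.mp h
  obtain ⟨D, hD⟩ : ∃ D : ℕ, (D : ℤ) = Δ := ⟨Δ.toNat, Int.toNat_of_nonneg (by rw [hΔ]; positivity)⟩
  have hmo : ((r : ℤ) * k) % 2 = 1 := by exact_mod_cast hodd
  have G : Good (r : ℤ) (k : ℤ) D := good_P (by omega) hk0 (by rw [hD]; exact hΔ)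
    (by rw [hD]; exact hsf) hmo (by omega) hK (x := x) (by rw [hD]; exact hx) hcl
  rcases lt_or_ge (r * k) 218 with h2 | h2
  · exact small_caseP G hr hodd h1 h2
  · exact no_good G (by omega) (by omega) (by exact_mod_cast h2)

theorem minus_case {r k : ℕ} (hr : 1 < r) (hk : 1 < k) (hodd : r * k % 2 = 1)
    (h1 : 35 < r * k) {Δ : ℤ}
    (hΔ : Δ = ((r : ℤ) * k) ^ 2 - 4 * r) (hsf : Squarefree Δ)
    {K : Type*} [Field K] [NumberField K] (hK : Module.finrank ℚ K = 2) {x : K}
    (hx : x ^ 2 = (Δ : K)) : NumberField.classNumber K ≠ 1 := by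
  intro hcl
  have hro : r % 2 = 1 := by
    rcases Nat.even_or_odd r with h | h
    · obtain ⟨a, ha⟩ := h
      have : r * k % 2 = 0 := by rw [ha, ← two_mul, mul_assoc]; exact Nat.mul_mod_right _ _
      omega
    · exact Nat.odd_iff.mp h
  have hko : k % 2 = 1 := by
    rcases Nat.even_or_odd k with h | h
    · obtain ⟨a, ha⟩ := h
      have : r * k % 2 = 0 := by rw [ha, ← two_mul, mul_left_comm]; exact Nat.mul_mod_right _ _
      omega
    · exact Nat.odd_iff.mp h
  have hrk : (35 : ℤ) < (r : ℤ) * k := by exact_mod_cast h1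
  have hΔ0 : 0 ≤ Δ := by
    rw [hΔ]
    have h3 : (r : ℤ) * 1 ≤ r * k := by
      have : (1 : ℤ) ≤ k := by exact_mod_cast hk.le
      nlinarith
    nlinarith
  obtain ⟨D, hD⟩ : ∃ D : ℕ, (D : ℤ) = Δ := ⟨Δ.toNat, Int.toNat_of_nonneg hΔ0⟩
  have hmo : ((r : ℤ) * k) % 2 = 1 := by exact_mod_cast hodd
  have G : Good (-(r : ℤ)) (-(k : ℤ)) D := good_M (by omega) (by omega) (by omega)
    (by rw [hD]; exact hΔ) (by rw [hD]; exact hsf) hmo (by omega) hK (x := x)
    (by rw [hD]; exact hx) hcl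
  rcases lt_or_ge (r * k) 218 with h2 | h2
  · exact small_caseM G hr hk hodd h1 h2
  · have h3 : (218 : ℤ) ≤ -(r : ℤ) * -(k : ℤ) := by
      have : (218 : ℤ) ≤ (r : ℤ) * k := by exact_mod_cast h2
      linarith
    exact no_good G (by omega) (by omega) h3

theorem main {m r : ℤ} (hm : 35 < m) (hr : 1 < r) (hro : Odd r) (hrm : r ∣ m) {Δ : ℤ}
    (hΔ : Δ = m ^ 2 + 4 * r ∨ Δ = m ^ 2 - 4 * r) (hsf : Squarefree Δ) (h4 : Δ % 4 = 1)
    {K : Type*} [Field K] [NumberField K] (hK : Module.finrank ℚ K = 2) {x : K}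
    (hx : x ^ 2 = (Δ : K)) : 1 < NumberField.classNumber K := by
  obtain ⟨r', rfl⟩ : ∃ r' : ℕ, (r' : ℤ) = r := ⟨r.toNat, Int.toNat_of_nonneg (by omega)⟩
  obtain ⟨k, hk⟩ := hrm
  have hk0 : 0 < k := by
    by_contra h
    push Not at h
    have : (r' : ℤ) * k ≤ 0 := by nlinarith
    omega
  obtain ⟨k', rfl⟩ : ∃ k' : ℕ, (k' : ℤ) = k := ⟨k.toNat, Int.toNat_of_nonneg hk0.le⟩
  subst hk
  have hr1 : 1 < r' := by exact_mod_cast hr
  have hm1 : 35 < r' * k' := by exact_mod_cast hm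
  have hodd : r' * k' % 2 = 1 := by
    have h5 : ((r' : ℤ) * k') ^ 2 % 4 = 1 := by
      rcases hΔ with h | h <;> omega
    rcases Nat.even_or_odd (r' * k') with h6 | h6
    · exfalso
      obtain ⟨a, ha⟩ := h6
      have h7 : (r' : ℤ) * k' = 2 * a := by
        have : ((r' * k' : ℕ) : ℤ) = ((a + a : ℕ) : ℤ) := by rw [ha]
        push_cast at this
        linarith
      rw [h7] at h5
      have : (2 * (a : ℤ)) ^ 2 = 4 * (a : ℤ) ^ 2 := by ring
      rw [this] at h5
      omega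
    · exact Nat.odd_iff.mp h6
  have hne : NumberField.classNumber K ≠ 1 := by
    rcases hΔ with h | h
    · exact plus_case hr1 hodd (Or.inl hm1) h hsf hK hx
    · rcases Nat.lt_or_ge 1 k' with h5 | h5
      · exact minus_case hr1 h5 hodd hm1 h hsf hK hx
      · have h6 : k' = 1 := by
          have : 0 < k' := by exact_mod_cast hk0
          omega
        subst h6
        rw [mul_one] at hm1 hodd
        obtain ⟨s, rfl⟩ : ∃ s, r' = s + 4 := ⟨r' - 4, by omega⟩
        apply plus_case (r := s) (k := 1) (by omega) (by omega) (Or.inr ⟨by omega, rfl⟩) (Δ := Δ)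
          _ hsf hK hx
        rw [h]
        push_cast
        ring
  have hpos : 0 < NumberField.classNumber K := Fintype.card_pos
  omega

end H419R2
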